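import Pool.Agent.Lib.MP_6e5bed_ag.BSwap

set_option autoImplicit false

/-!
# The identities
-/

namespace Pool.Agent.MP_6e5bed_ag

open CategoryTheory MonoidalCategory Equiv

universe v u

section BI0

variable {C : Type u} [Category.{v} C] [MonoidalCategory C] [SymmetricCategory C]
  [Preadditive C]

/-- the exchanges of the factor number `0` with the factors `2, …, n + 1` -/
noncomputable def jb (M : C) (n : ℕ) (V : C) : tpw M (n + 2) V ⟶ tpw M (n + 2) V :=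
  ∑ i : Fin n, pw M (n + 2) V (swap 0 i.succ.succ)

theorem jm_succ (M : C) (n : ℕ) (V : C) :
    jm M (n + 1) V = pw M (n + 2) V (swap 0 1) + jb M n V := by
  unfold jm jb
  rw [Fin.sum_univ_succ]
  rfl

/-- the sum of all the slots -/
noncomputable def fsum {M W W' : C} (f : M ⊗ W ⟶ M ⊗ W') (n : ℕ) : tpw M n W ⟶ tpw M n W' :=
  ∑ i : Fin n, fs f n i

theorem fsum_pw {M W W' : C} (f : M ⊗ W ⟶ M ⊗ W') (n : ℕ) (σ : Perm (Fin n)) :
    fsum f n ≫ pw M n W' σ = pw M n W σ ≫ fsum f n := by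
  unfold fsum
  rw [Preadditive.sum_comp, Preadditive.comp_sum,
    ← Equiv.sum_comp σ fun i => pw M n W σ ≫ fs f n i]
  exact Finset.sum_congr rfl fun i _ => fs_pw f n i σ

variable [MonoidalPreadditive C]

theorem fsum_succ {M W W' : C} (f : M ⊗ W ⟶ M ⊗ W') (n : ℕ) :
    fsum f (n + 1) = fs f (n + 1) 0 + wq (fsum f n) := by
  unfold fsum
  rw [Fin.sum_univ_succ, wq_sum]
  congr 1
  exact Finset.sum_congr rfl fun i _ => fs_succ f n i

theorem wq_jm (M : C) (n : ℕ) (V : C) :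
    wq (jm M n V) = ∑ i : Fin n, pw M (n + 2) V (swap 1 i.succ.succ) := by
  unfold jm
  rw [wq_sum]
  refine Finset.sum_congr rfl fun i _ => ?_
  rw [← pw_sh, sh_swap]
  rfl

/-- conjugation by the exchange of the factors `0` and `1` -/
theorem t_wq_jm (M : C) (n : ℕ) (V : C) :
    pw M (n + 2) V (swap 0 1) ≫ wq (jm M n V) = jb M n V ≫ pw M (n + 2) V (swap 0 1) := by
  rw [wq_jm]
  unfold jb
  rw [Preadditive.sum_comp, Preadditive.comp_sum]
  refine Finset.sum_congr rfl fun i _ => ?_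
  have h1 : swap (0 : Fin (n + 2)) 1 i.succ.succ = i.succ.succ := by
    apply swap_apply_of_ne_of_ne
    · exact Fin.succ_ne_zero _
    · intro h3
      have h4 : i.succ = 0 := Fin.succ_injective _ h3
      exact Fin.succ_ne_zero _ h4
  rw [pw_mul, pw_mul, mul_swap_eq_swap_mul (swap 0 1) 0 i.succ.succ, swap_apply_left, h1]

theorem t_jb (M : C) (n : ℕ) (V : C) :
    pw M (n + 2) V (swap 0 1) ≫ jb M n V = wq (jm M n V) ≫ pw M (n + 2) V (swap 0 1) := by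
  have h1 := t_wq_jm M n V
  calc _ = pw M (n + 2) V (swap 0 1) ≫ (jb M n V ≫ pw M (n + 2) V (swap 0 1)) ≫
        pw M (n + 2) V (swap 0 1) := by
        rw [Category.assoc, pw_swap_self, Category.comp_id]
    _ = _ := by
        rw [← h1, Category.assoc, pw_swap_self_assoc]

theorem t_wq_jm_assoc (M : C) (n : ℕ) (V : C) {X : C} (k : tpw M (n + 2) V ⟶ X) :
    pw M (n + 2) V (swap 0 1) ≫ wq (jm M n V) ≫ k =
      jb M n V ≫ pw M (n + 2) V (swap 0 1) ≫ k := by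
  rw [← Category.assoc, t_wq_jm, Category.assoc]

theorem t_jb_assoc (M : C) (n : ℕ) (V : C) {X : C} (k : tpw M (n + 2) V ⟶ X) :
    pw M (n + 2) V (swap 0 1) ≫ jb M n V ≫ k =
      wq (jm M n V) ≫ pw M (n + 2) V (swap 0 1) ≫ k := by
  rw [← Category.assoc, t_jb, Category.assoc]

/-- the commutator -/
theorem commutator (M : C) (n : ℕ) (V : C) :
    wq (jm M n V) ≫ jb M n V - jb M n V ≫ wq (jm M n V) =
      pw M (n + 2) V (swap 0 1) ≫ (wq (jm M n V) - jb M n V) := by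
  have h1 : wq (jm M n V) ≫ jm M (n + 1) V = jm M (n + 1) V ≫ wq (jm M n V) := by
    have h2 : wq (jm M n V) = ∑ i : Fin n, pw M (n + 2) V (sh (swap 0 i.succ)) := by
      unfold jm
      rw [wq_sum]
      exact Finset.sum_congr rfl fun i _ => (pw_sh _ _ _ _).symm
    rw [h2, Preadditive.sum_comp, Preadditive.comp_sum]
    exact Finset.sum_congr rfl fun i _ => jm_pw_sh M V (n + 1) _
  rw [jm_succ, Preadditive.comp_add, Preadditive.add_comp] at h1
  have h3 : wq (jm M n V) ≫ jb M n V - jb M n V ≫ wq (jm M n V) =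
      pw M (n + 2) V (swap 0 1) ≫ wq (jm M n V) -
        wq (jm M n V) ≫ pw M (n + 2) V (swap 0 1) := by
    rw [sub_eq_sub_iff_add_eq_add, add_comm (wq (jm M n V) ≫ jb M n V), h1]
  rw [h3, Preadditive.comp_sub, t_jb]

theorem fs_zero_jm {M W W' : C} (f : M ⊗ W ⟶ M ⊗ W') (n : ℕ) :
    fs f (n + 2) 0 ≫ wq (jm M n W') = wq (jm M n W) ≫ fs f (n + 2) 0 := by
  rw [wq_jm, wq_jm, Preadditive.sum_comp, Preadditive.comp_sum]
  refine Finset.sum_congr rfl fun i _ => ?_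
  have h1 : swap (1 : Fin (n + 2)) i.succ.succ 0 = 0 := by
    apply swap_apply_of_ne_of_ne
    · exact (Fin.succ_ne_zero (0 : Fin (n + 1))).symm
    · exact (Fin.succ_ne_zero _).symm
  rw [fs_pw, h1]

omit [MonoidalPreadditive C] in
theorem fs_one_jb {M W W' : C} (f : M ⊗ W ⟶ M ⊗ W') (n : ℕ) :
    fs f (n + 2) 1 ≫ jb M n W' = jb M n W ≫ fs f (n + 2) 1 := by
  unfold jb
  rw [Preadditive.sum_comp, Preadditive.comp_sum]
  refine Finset.sum_congr rfl fun i _ => ?_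
  have h1 : swap (0 : Fin (n + 2)) i.succ.succ 1 = 1 := by
    apply swap_apply_of_ne_of_ne
    · exact Fin.succ_ne_zero (0 : Fin (n + 1))
    · intro h3
      have h4 : (0 : Fin (n + 1)) = i.succ := Fin.succ_injective _ h3
      exact Fin.succ_ne_zero _ h4.symm
  rw [fs_pw, h1]

omit [Preadditive C] [MonoidalPreadditive C] in
theorem fs_zero_t {M W W' : C} (f : M ⊗ W ⟶ M ⊗ W') (n : ℕ) :
    fs f (n + 2) 0 ≫ pw M (n + 2) W' (swap 0 1) =
      pw M (n + 2) W (swap 0 1) ≫ fs f (n + 2) 1 := by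
  rw [fs_pw, swap_apply_left]

omit [Preadditive C] [MonoidalPreadditive C] in
theorem fs_one_t {M W W' : C} (f : M ⊗ W ⟶ M ⊗ W') (n : ℕ) :
    fs f (n + 2) 1 ≫ pw M (n + 2) W' (swap 0 1) =
      pw M (n + 2) W (swap 0 1) ≫ fs f (n + 2) 0 := by
  rw [fs_pw, swap_apply_right]

omit [Preadditive C] [MonoidalPreadditive C] in
theorem fs_one_eq {M W W' : C} (f : M ⊗ W ⟶ M ⊗ W') (n : ℕ) :
    fs f (n + 2) 1 = wq (fs f (n + 1) 0) := fs_succ f (n + 1) 0

end BI0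

section BI1

variable {C : Type u} [Category.{v} C] [MonoidalCategory C] [SymmetricCategory C]
  [Preadditive C] [MonoidalPreadditive C] [Linear ℚ C]

/-- identity (1) -/
theorem ident_one {M W W' : C} {n : ℕ} (z : MonoidAlgebra ℚ (Perm (Fin n)))
    (f : M ⊗ W ⟶ M ⊗ W') (hf : la W (za M z) ≫ fsum f n = 0) :
    wq (la W (za M z)) ≫ jm M n W ≫ fs f (n + 1) 0 =
      wq (la W (za M z)) ≫ fs f (n + 1) 0 ≫ jm M n W' := by
  have h1 : wq (la W (za M z)) ≫ fsum f (n + 1) = wq (la W (za M z)) ≫ fs f (n + 1) 0 := by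
    rw [fsum_succ, Preadditive.comp_add, ← wq_comp, hf, wq_zero, add_zero]
  have h2 : jm M n W ≫ fsum f (n + 1) = fsum f (n + 1) ≫ jm M n W' := by
    unfold jm
    rw [Preadditive.sum_comp, Preadditive.comp_sum]
    exact Finset.sum_congr rfl fun i _ => (fsum_pw f (n + 1) _).symm
  calc _ = jm M n W ≫ wq (la W (za M z)) ≫ fs f (n + 1) 0 := by
        rw [← Category.assoc, jm_za, Category.assoc]
    _ = wq (la W (za M z)) ≫ jm M n W ≫ fsum f (n + 1) := by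
        rw [← h1, ← Category.assoc, ← jm_za, Category.assoc]
    _ = _ := by rw [h2, ← Category.assoc, h1, Category.assoc]

omit [MonoidalPreadditive C] in
/-- the exchange of `0` and `1` commutes with `z` -/
theorem t_zz (M V : C) {n : ℕ} (z : MonoidAlgebra ℚ (Perm (Fin n))) :
    wq (wq (la V (za M z))) ≫ pw M (n + 2) V (swap 0 1) =
      pw M (n + 2) V (swap 0 1) ≫ wq (wq (la V (za M z))) := by
  rw [← pw_swap_wq]

theorem jb_zz (M V : C) {n : ℕ} (z : MonoidAlgebra ℚ (Perm (Fin n))) :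
    wq (wq (la V (za M z))) ≫ jb M n V = jb M n V ≫ wq (wq (la V (za M z))) := by
  apply wqq_za_comm
  intro σ
  unfold jb
  rw [Preadditive.comp_sum, Preadditive.sum_comp, ← Equiv.sum_comp σ]
  refine Finset.sum_congr rfl fun i _ => ?_
  rw [pw_mul, pw_mul, mul_swap_eq_swap_mul, sh_zero, sh_succ, sh_succ]

theorem wq_jm_zz (M V : C) {n : ℕ} (z : MonoidAlgebra ℚ (Perm (Fin n))) :
    wq (wq (la V (za M z))) ≫ wq (jm M n V) = wq (jm M n V) ≫ wq (wq (la V (za M z))) := by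
  rw [← wq_comp, jm_za, wq_comp]

/-- identity (3) -/
theorem ident_three {M W W' : C} {n : ℕ} (z : MonoidAlgebra ℚ (Perm (Fin n)))
    (f : M ⊗ W ⟶ M ⊗ W') (hf : la W (za M z) ≫ fsum f n = 0) :
    wq (wq (la W (za M z))) ≫ fs f (n + 2) 0 ≫ (wq (jm M n W') - jb M n W') =
      wq (wq (la W (za M z))) ≫ (wq (jm M n W) - jb M n W) ≫ fs f (n + 2) 1 := by
  obtain ⟨Z, hZ⟩ : ∃ Z, Z = wq (wq (la W (za M z))) := ⟨_, rfl⟩
  obtain ⟨A, hA⟩ : ∃ A, A = wq (jm M n W) := ⟨_, rfl⟩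
  obtain ⟨A', hA'⟩ : ∃ A', A' = wq (jm M n W') := ⟨_, rfl⟩
  obtain ⟨B, hB⟩ : ∃ B, B = jb M n W := ⟨_, rfl⟩
  obtain ⟨B', hB'⟩ : ∃ B', B' = jb M n W' := ⟨_, rfl⟩
  obtain ⟨t, ht⟩ : ∃ t, t = pw M (n + 2) W (swap 0 1) := ⟨_, rfl⟩
  obtain ⟨t', ht'⟩ : ∃ t', t' = pw M (n + 2) W' (swap 0 1) := ⟨_, rfl⟩
  obtain ⟨F₀, hF₀⟩ : ∃ F₀, F₀ = fs f (n + 2) 0 := ⟨_, rfl⟩
  obtain ⟨F₁, hF₁⟩ : ∃ F₁, F₁ = fs f (n + 2) 1 := ⟨_, rfl⟩
  have tt : t ≫ t = 𝟙 _ := by rw [ht, pw_swap_self]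
  have tt' : t' ≫ t' = 𝟙 _ := by rw [ht', pw_swap_self]
  have zt : Z ≫ t = t ≫ Z := by rw [hZ, ht, t_zz]
  have zA : Z ≫ A = A ≫ Z := by rw [hZ, hA, wq_jm_zz]
  have zB : Z ≫ B = B ≫ Z := by rw [hZ, hB, jb_zz]
  have tA : t ≫ A = B ≫ t := by rw [ht, hA, hB, t_wq_jm]
  have tA' : t' ≫ A' = B' ≫ t' := by rw [ht', hA', hB', t_wq_jm]
  have tB : t ≫ B = A ≫ t := by rw [ht, hA, hB, t_jb]
  have cm : A ≫ B - B ≫ A = t ≫ (A - B) := by rw [hA, hB, ht, commutator]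
  have cm' : A' ≫ B' - B' ≫ A' = t' ≫ (A' - B') := by rw [hA', hB', ht', commutator]
  have f0A : F₀ ≫ A' = A ≫ F₀ := by rw [hF₀, hA', hA, fs_zero_jm]
  have f1B : F₁ ≫ B' = B ≫ F₁ := by rw [hF₁, hB', hB, fs_one_jb]
  have f0t : F₀ ≫ t' = t ≫ F₁ := by rw [hF₀, ht', ht, hF₁, fs_zero_t]
  have f1t : F₁ ≫ t' = t ≫ F₀ := by rw [hF₀, ht', ht, hF₁, fs_one_t]
  have h1A : Z ≫ A ≫ F₁ = Z ≫ F₁ ≫ A' := by
    have h := ident_one z f hf
    rw [hZ, hA, hF₁, hA', fs_one_eq, ← wq_comp, ← wq_comp, ← wq_comp, ← wq_comp, h]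
  rw [← hZ, ← hF₀, ← hF₁, ← hA, ← hA', ← hB, ← hB']
  clear hZ hA hA' hB hB' ht ht' hF₀ hF₁
  -- conjugate by `t`
  have h1B : Z ≫ B ≫ F₀ = Z ≫ F₀ ≫ B' := by
    have e1 : B ≫ F₀ = t ≫ A ≫ F₁ ≫ t' := by
      rw [f1t, ← Category.assoc t A, tA, Category.assoc, ← Category.assoc t t, tt,
        Category.id_comp]
    have e2 : F₀ ≫ B' = t ≫ F₁ ≫ A' ≫ t' := by
      rw [← Category.assoc t, ← f0t, Category.assoc, ← Category.assoc t' A', tA', Category.assoc,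
        tt', Category.comp_id]
    have e3 := congrArg (fun g => g ≫ t') h1A
    simp only [Category.assoc] at e3
    rw [e1, e2, ← Category.assoc Z t, ← Category.assoc Z t, zt, Category.assoc, Category.assoc, e3]
  have e1 : Z ≫ A ≫ B ≫ F₀ = Z ≫ F₀ ≫ A' ≫ B' := by
    rw [← Category.assoc Z, zA, Category.assoc, h1B, ← Category.assoc A, ← zA, Category.assoc,
      ← Category.assoc A F₀, ← f0A, Category.assoc]
  have e2 : Z ≫ B ≫ A ≫ F₀ = Z ≫ F₀ ≫ B' ≫ A' := by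
    rw [← f0A, ← Category.assoc B, ← Category.assoc Z, h1B, Category.assoc, Category.assoc]
  have e3 : t ≫ Z ≫ (A - B) ≫ F₀ = t ≫ Z ≫ F₁ ≫ (A' - B') := by
    calc _ = Z ≫ (A ≫ B - B ≫ A) ≫ F₀ := by
          rw [cm, ← Category.assoc t, ← zt]
          simp only [Category.assoc]
      _ = Z ≫ F₀ ≫ (A' ≫ B' - B' ≫ A') := by
          simp only [Preadditive.sub_comp, Preadditive.comp_sub, Category.assoc]
          rw [e1, e2]
      _ = _ := by
          rw [cm', ← Category.assoc F₀, f0t, ← Category.assoc t Z, ← zt]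
          simp only [Category.assoc]
  have e4 : Z ≫ (A - B) ≫ F₀ = Z ≫ F₁ ≫ (A' - B') := by
    calc _ = t ≫ t ≫ Z ≫ (A - B) ≫ F₀ := by rw [← Category.assoc t t, tt, Category.id_comp]
      _ = _ := by rw [e3, ← Category.assoc t t, tt, Category.id_comp]
  calc Z ≫ F₀ ≫ (A' - B') = Z ≫ (A - B) ≫ F₀ := by
        simp only [Preadditive.sub_comp, Preadditive.comp_sub]
        rw [f0A, h1B]
    _ = Z ≫ F₁ ≫ (A' - B') := e4
    _ = _ := by
        simp only [Preadditive.sub_comp, Preadditive.comp_sub]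
        rw [← h1A, f1B]

end BI1

section BI2

variable {C : Type u} [Category.{v} C] [MonoidalCategory C] [SymmetricCategory C]
  [Preadditive C] [MonoidalPreadditive C] [Linear ℚ C] [RatUnit C]

/-- identity (4) -/
theorem ident_four {M W W' : C} [HasLeftDual M] {n : ℕ} (z : MonoidAlgebra ℚ (Perm (Fin n)))
    (f : M ⊗ W ⟶ M ⊗ W') (hf : la W (za M z) ≫ fsum f n = 0) :
    wq (la W (za M z)) ≫ (tpwMap M (ptr M f) (n + 1) ≫ jm M n W' -
      tr M (𝟙 M) • (jm M n W ≫ fs f (n + 1) 0) + (n : ℚ) • fs f (n + 1) 0) = 0 := by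
  have h1 := congrArg (ptq M) (ident_three z f hf)
  rw [ptq_wq_left, ptq_wq_left] at h1
  have h2 : ptq M (fs f (n + 2) 0 ≫ (wq (jm M n W') - jb M n W')) =
      tpwMap M (ptr M f) (n + 1) ≫ jm M n W' - wq (fsum f n) := by
    rw [Preadditive.comp_sub, ptq_sub, ptq_wq_right, ptq_fs_zero]
    congr 1
    unfold jb fsum
    rw [Preadditive.comp_sum, ptq_sum, wq_sum]
    refine Finset.sum_congr rfl fun i _ => ?_
    rw [fs_pw, swap_apply_left, fs_succ, ptq_wq_right, ptq_swap, Category.id_comp, fs_succ]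
  have h3 : ptq M ((wq (jm M n W) - jb M n W) ≫ fs f (n + 2) 1) =
      tr M (𝟙 M) • (jm M n W ≫ fs f (n + 1) 0) - (n : ℚ) • fs f (n + 1) 0 := by
    rw [Preadditive.sub_comp, ptq_sub, fs_one_eq, ← wq_comp, ptq_wq]
    congr 1
    unfold jb
    rw [Preadditive.sum_comp, ptq_sum]
    have h4 : ∀ i : Fin n, ptq M (pw M (n + 2) W (swap 0 i.succ.succ) ≫
        wq (fs f (n + 1) 0)) = fs f (n + 1) 0 := by
      intro i
      rw [ptq_wq_right, ptq_swap, Category.id_comp]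
    rw [Finset.sum_congr rfl fun i _ => h4 i, Finset.sum_const, Finset.card_univ,
      Fintype.card_fin, Nat.cast_smul_eq_nsmul]
  have h5 : wq (la W (za M z)) ≫ wq (fsum f n) = 0 := by
    rw [← wq_comp, hf, wq_zero]
  rw [h2, h3, Preadditive.comp_sub, h5, sub_zero] at h1
  rw [sub_add, Preadditive.comp_sub, h1, sub_self]

/-- identity (5) -/
theorem ident_five {M W W' : C} [HasLeftDual M] {n : ℕ} (hn : 0 < n)
    (z : MonoidAlgebra ℚ (Perm (Fin n)))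
    (f : M ⊗ W ⟶ M ⊗ W') (hf : la W (za M z) ≫ fsum f n = 0) :
    la W (za M z) ≫ tpwMap M (ptr M f) n = 0 := by
  have h1 := congrArg (ptq M) (ident_four z f hf)
  rw [ptq_wq_left, ptq_zero, ptq_add, ptq_sub, ptq_smul, ptq_smul, ptq_fs_zero, tpwMap_succ,
    ptq_wq_left, ptq_jm] at h1
  have h2 : ptq M (jm M n W ≫ fs f (n + 1) 0) = fsum f n := by
    unfold jm fsum
    rw [Preadditive.sum_comp, ptq_sum]
    refine Finset.sum_congr rfl fun i _ => ?_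
    have h3 := fs_pw f (n + 1) i.succ (swap 0 i.succ)
    rw [swap_apply_right] at h3
    rw [← h3, fs_succ, ptq_wq_left, ptq_swap, Category.comp_id]
  rw [h2] at h1
  simp only [Preadditive.comp_add, Preadditive.comp_sub, Linear.comp_smul, hf, smul_zero,
    sub_zero, Category.comp_id] at h1
  rw [← two_smul ℚ, smul_smul, smul_eq_zero] at h1
  refine h1.resolve_left ?_
  have h3 : (n : ℚ) ≠ 0 := Nat.cast_ne_zero.2 hn.ne'
  exact mul_ne_zero two_ne_zero h3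

/-- identity (6) -/
theorem ident_six {M W W' : C} [HasLeftDual M] {n : ℕ} (hn : 0 < n)
    (z : MonoidAlgebra ℚ (Perm (Fin n)))
    (f : M ⊗ W ⟶ M ⊗ W') (hf : la W (za M z) ≫ fsum f n = 0) :
    tr M (𝟙 M) • (wq (la W (za M z)) ≫ fs f (n + 1) 0 ≫ jm M n W') =
      (n : ℚ) • (wq (la W (za M z)) ≫ fs f (n + 1) 0) := by
  have h1 := ident_four z f hf
  have h2 : wq (la W (za M z)) ≫ tpwMap M (ptr M f) (n + 1) ≫ jm M n W' = 0 := by
    rw [tpwMap_succ, ← Category.assoc, ← wq_comp, ident_five hn z f hf, wq_zero,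
      Limits.zero_comp]
  rw [Preadditive.comp_add, Preadditive.comp_sub, h2, zero_sub, Linear.comp_smul,
    Linear.comp_smul, neg_add_eq_zero] at h1
  rw [← ident_one z f hf, h1]

/-- identity (7) -/
theorem ident_seven {M W W' : C} [HasLeftDual M] {n : ℕ} (hn : 0 < n)
    (z : MonoidAlgebra ℚ (Perm (Fin n)))
    (f : M ⊗ W ⟶ M ⊗ W') (hf : la W (za M z) ≫ fsum f n = 0) :
    tr M (𝟙 M) • (wq (wq (la W (za M z))) ≫ fs f (n + 2) 1 ≫ jb M n W') =
      (n : ℚ) • (wq (wq (la W (za M z))) ≫ fs f (n + 2) 1) := by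
  have h6 := ident_six hn z f hf
  obtain ⟨Z, hZ⟩ : ∃ Z, Z = wq (wq (la W (za M z))) := ⟨_, rfl⟩
  obtain ⟨A, hA⟩ : ∃ A, A = wq (jm M n W) := ⟨_, rfl⟩
  obtain ⟨A', hA'⟩ : ∃ A', A' = wq (jm M n W') := ⟨_, rfl⟩
  obtain ⟨B, hB⟩ : ∃ B, B = jb M n W := ⟨_, rfl⟩
  obtain ⟨B', hB'⟩ : ∃ B', B' = jb M n W' := ⟨_, rfl⟩
  obtain ⟨t', ht'⟩ : ∃ t', t' = pw M (n + 2) W' (swap 0 1) := ⟨_, rfl⟩
  obtain ⟨F₁, hF₁⟩ : ∃ F₁, F₁ = fs f (n + 2) 1 := ⟨_, rfl⟩
  obtain ⟨d, hd⟩ : ∃ d, d = tr M (𝟙 M) := ⟨_, rfl⟩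
  have tt' : t' ≫ t' = 𝟙 _ := by rw [ht', pw_swap_self]
  have zB : Z ≫ B = B ≫ Z := by rw [hZ, hB, jb_zz]
  have tA' : t' ≫ A' = B' ≫ t' := by rw [ht', hA', hB', t_wq_jm]
  have cm' : A' ≫ B' - B' ≫ A' = t' ≫ (A' - B') := by rw [hA', hB', ht', commutator]
  have f1B : F₁ ≫ B' = B ≫ F₁ := by rw [hF₁, hB', hB, fs_one_jb]
  have h6' : d • (Z ≫ F₁ ≫ A') = (n : ℚ) • (Z ≫ F₁) := by
    rw [hd, hZ, hF₁, hA', fs_one_eq, ← wq_comp, ← wq_comp, ← wq_comp, ← wq_smul, ← wq_smul, h6]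
  rw [← hZ, ← hF₁, ← hB', ← hd]
  clear hZ hA hA' hB hB' ht' hF₁ h6 hd
  -- `Z ≫ F₁ ≫ B' ≫ A'`
  have e1 : d • (Z ≫ F₁ ≫ B' ≫ A') = (n : ℚ) • (Z ≫ F₁ ≫ B') := by
    calc _ = B ≫ (d • (Z ≫ F₁ ≫ A')) := by
          rw [← Category.assoc F₁, f1B, Linear.comp_smul, ← Category.assoc B, ← zB]
          simp only [Category.assoc]
      _ = _ := by
          rw [h6', Linear.comp_smul, ← Category.assoc B, ← zB, Category.assoc, f1B]
  have e2 : d • (Z ≫ F₁ ≫ A' ≫ B') = (n : ℚ) • (Z ≫ F₁ ≫ B') := by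
    calc _ = (d • (Z ≫ F₁ ≫ A')) ≫ B' := by
          rw [Linear.smul_comp]
          simp only [Category.assoc]
      _ = _ := by
          rw [h6', Linear.smul_comp, Category.assoc]
  have e3 : d • (Z ≫ F₁ ≫ t' ≫ (A' - B')) = 0 := by
    rw [← cm', Preadditive.comp_sub, Preadditive.comp_sub, smul_sub, e1, e2, sub_self]
  have tB' : t' ≫ B' = A' ≫ t' := by
    calc _ = t' ≫ (B' ≫ t') ≫ t' := by rw [Category.assoc, tt', Category.comp_id]
      _ = _ := by rw [← tA', Category.assoc, ← Category.assoc t' t', tt', Category.id_comp]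
  have e4 : t' ≫ (A' - B') ≫ t' = -(A' - B') := by
    rw [Preadditive.sub_comp, Preadditive.comp_sub, ← tB', ← tA', ← Category.assoc t' t', tt',
      Category.id_comp, ← Category.assoc t' t', tt', Category.id_comp, neg_sub]
  have e5 : d • (Z ≫ F₁ ≫ (A' - B')) = 0 := by
    have h := congrArg (fun g => g ≫ t') e3
    simp only [Linear.smul_comp, Category.assoc, Limits.zero_comp] at h
    rw [e4, Preadditive.comp_neg, Preadditive.comp_neg, smul_neg, neg_eq_zero] at h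
    exact h
  rw [Preadditive.comp_sub, Preadditive.comp_sub, smul_sub, sub_eq_zero, h6'] at e5
  exact e5.symm

/-- the identities in one statement -/
theorem ident {M W W' : C} [HasLeftDual M] {n : ℕ} (hn : 0 < n)
    (z : MonoidAlgebra ℚ (Perm (Fin n)))
    (f : M ⊗ W ⟶ M ⊗ W') (hf : la W (za M z) ≫ ∑ i, fs f n i = 0) :
    (wl M (za M z) ≫ (tr M (𝟙 M) • jms M n - (n : ℚ) • 𝟙 (tpow M (n + 1)))) ⊗ₘ f = 0 := by
  apply tens_fs
  have h7 := ident_seven hn z f hf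
  obtain ⟨d, hd⟩ : ∃ d, d = tr M (𝟙 M) := ⟨_, rfl⟩
  rw [← hd] at h7 ⊢
  have hj : la W (jms M n) = jm M n W := by
    unfold jms jm
    rw [la_sum]
    rfl
  rw [la_comp, la_sub, la_smul, la_smul, la_id, hj, la_wl, wq_comp, wq_sub, wq_smul, wq_smul,
    wq_id, Category.assoc, Preadditive.sub_comp, Linear.smul_comp, Linear.smul_comp,
    Category.id_comp]
  obtain ⟨t, ht⟩ : ∃ t, t = pw M (n + 2) W (swap 0 1) := ⟨_, rfl⟩
  obtain ⟨t', ht'⟩ : ∃ t', t' = pw M (n + 2) W' (swap 0 1) := ⟨_, rfl⟩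
  have tt : t ≫ t = 𝟙 _ := by rw [ht, pw_swap_self]
  have tt' : t' ≫ t' = 𝟙 _ := by rw [ht', pw_swap_self]
  have e0 : wq (jm M n W) ≫ fs f (n + 2) 0 = t ≫ (fs f (n + 2) 1 ≫ jb M n W') ≫ t' := by
    rw [← fs_zero_jm, Category.assoc, ht', ← t_wq_jm, ← ht', ← Category.assoc (fs f (n + 2) 1),
      ht', fs_one_t, ← ht, ← Category.assoc t, ← Category.assoc t t, tt, Category.id_comp]
  have e1 : fs f (n + 2) 0 = t ≫ fs f (n + 2) 1 ≫ t' := by
    rw [ht', fs_one_t, ← ht, ← Category.assoc t t, tt, Category.id_comp]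
  have e2 : wq (wq (la W (za M z))) ≫ t = t ≫ wq (wq (la W (za M z))) := by
    rw [ht, t_zz]
  rw [Preadditive.comp_sub, Linear.comp_smul, Linear.comp_smul, e0]
  have e3 : wq (wq (la W (za M z))) ≫ t ≫ (fs f (n + 2) 1 ≫ jb M n W') ≫ t' =
      t ≫ (wq (wq (la W (za M z))) ≫ fs f (n + 2) 1 ≫ jb M n W') ≫ t' := by
    rw [← Category.assoc _ t, e2]
    simp only [Category.assoc]
  have e4 : wq (wq (la W (za M z))) ≫ fs f (n + 2) 0 =
      t ≫ (wq (wq (la W (za M z))) ≫ fs f (n + 2) 1) ≫ t' := by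
    rw [e1, ← Category.assoc _ t, e2]
    simp only [Category.assoc]
  have e5 : fs f (n + 1 + 1) 0 = fs f (n + 2) 0 := rfl
  have e6 : ∀ (c : ℚ) (X : tpw M (n + 2) W ⟶ tpw M (n + 2) W'),
      c • (t ≫ X ≫ t') = t ≫ (c • X) ≫ t' := by
    intro c X
    rw [Linear.smul_comp, Linear.comp_smul]
  rw [e3, e5, e4, e6, e6, h7, sub_self]

end BI2

end Pool.Agent.MP_6e5bed_ag
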