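import Pool.Agent.Lib.MP_6e5bed_ag.BGrp
import Pool.Agent.Lib.MP_6e5bed_ag.BIdent

set_option autoImplicit false

/-!
# Case I and the dichotomy
-/

namespace Pool.Agent.MP_6e5bed_ag

open CategoryTheory MonoidalCategory Equiv VanishAux

universe v u

section BC0

variable {N : ℕ}

theorem via_trans {l m : ℕ} (f : Fin l ↪ Fin m) (g : Fin m ↪ Fin N)
    (w : MonoidAlgebra ℚ (Perm (Fin l))) : via (f.trans g) w = via g (via f w) := by
  induction w using MonoidAlgebra.induction_linear with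
  | zero => rw [map_zero, map_zero, map_zero]
  | add x y hx hy => rw [map_add, hx, hy, map_add, map_add]
  | single σ a => rw [via_single, via_single, via_single, viaEmbedding_trans]

theorem via_refl {l : ℕ} (w : MonoidAlgebra ℚ (Perm (Fin l))) :
    via (Function.Embedding.refl _) w = w := by
  induction w using MonoidAlgebra.induction_linear with
  | zero => rw [map_zero]
  | add x y hx hy => rw [map_add, hx, hy]
  | single σ a => rw [via_single, viaEmbedding_refl]

theorem via_conj_elem {r : ℕ} (f f' : Fin r ↪ Fin N) (g : Perm (Fin N))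
    (h : ∀ i, f' i = g (f i)) (w : MonoidAlgebra ℚ (Perm (Fin r))) :
    via f' w = MonoidAlgebra.single g (1 : ℚ) * via f w * MonoidAlgebra.single g⁻¹ (1 : ℚ) := by
  induction w using MonoidAlgebra.induction_linear with
  | zero => rw [map_zero, map_zero, mul_zero, zero_mul]
  | add x y hx hy => rw [map_add, hx, hy, map_add, mul_add, add_mul]
  | single σ a =>
    rw [via_single, via_single, MonoidAlgebra.single_mul_single,
      MonoidAlgebra.single_mul_single, one_mul, mul_one, viaEmbedding_conj σ f g f' h]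

end BC0

section BC1

variable {C : Type u} [Category.{v} C] [MonoidalCategory C] [SymmetricCategory C]
  [Preadditive C] [Linear ℚ C]

theorem za_single (M : C) {n : ℕ} (σ : Perm (Fin n)) (c : ℚ) :
    za M (MonoidAlgebra.single σ c) = c • ps M σ := by
  unfold za act
  rw [MonoidAlgebra.lift_single]
  rfl

theorem za_add (M : C) {n : ℕ} (x y : MonoidAlgebra ℚ (Perm (Fin n))) :
    za M (x + y) = za M x + za M y := by
  unfold za
  rw [map_add]

theorem za_zero (M : C) (n : ℕ) : za M (0 : MonoidAlgebra ℚ (Perm (Fin n))) = 0 := by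
  unfold za
  rw [map_zero]

theorem za_smul (M : C) {n : ℕ} (c : ℚ) (x : MonoidAlgebra ℚ (Perm (Fin n))) :
    za M (c • x) = c • za M x := by
  unfold za
  rw [map_smul]

theorem za_sum (M : C) {n : ℕ} {ι : Type*} (s : Finset ι)
    (F : ι → MonoidAlgebra ℚ (Perm (Fin n))) : za M (∑ i ∈ s, F i) = ∑ i ∈ s, za M (F i) := by
  unfold za
  rw [map_sum]

variable [MonoidalPreadditive C]

omit [SymmetricCategory C] in
theorem wl_qsmul (M : C) {n : ℕ} (c : ℚ) (a : tpow M n ⟶ tpow M n) :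
    wl M (c • a) = c • wl M a := whiskerLeft_qsmul M c a

omit [SymmetricCategory C] [Linear ℚ C] in
theorem wl_add (M : C) {n : ℕ} (a b : tpow M n ⟶ tpow M n) :
    wl M (a + b) = wl M a + wl M b :=
  MonoidalPreadditive.whiskerLeft_add (X := M) a b

omit [SymmetricCategory C] [Linear ℚ C] in
theorem wl_zero (M : C) (n : ℕ) : wl M (0 : tpow M n ⟶ tpow M n) = 0 :=
  MonoidalPreadditive.whiskerLeft_zero (X := M)

theorem za_succEmb (M : C) {n : ℕ} (w : MonoidAlgebra ℚ (Perm (Fin n))) :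
    za M (via (Fin.succEmb n) w) = wl M (za M w) := by
  induction w using MonoidAlgebra.induction_linear with
  | zero => rw [map_zero, za_zero, za_zero, wl_zero]
  | add x y hx hy => rw [map_add, za_add, hx, hy, za_add, wl_add]
  | single σ a =>
    rw [via_single, za_single, za_single, wl_qsmul, ← sh_eq, ps_sh]

theorem za_stEmb_zero (M : C) {n : ℕ} {w : MonoidAlgebra ℚ (Perm (Fin n))} (h : za M w = 0)
    (k : ℕ) : za M (via (stEmb n k) w) = 0 := by
  induction k with
  | zero =>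
    have h1 : via (stEmb n 0) w = w := via_refl w
    change za M (via (stEmb n 0) w) = (0 : tpow M n ⟶ tpow M n)
    rw [h1, h]
  | succ k ih =>
    have h1 : via (stEmb n (k + 1)) w = via (Fin.succEmb (n + k)) (via (stEmb n k) w) :=
      via_trans (stEmb n k) (Fin.succEmb (n + k)) w
    change za M (via (stEmb n (k + 1)) w) = (0 : tpow M (n + k + 1) ⟶ tpow M (n + k + 1))
    rw [h1, za_succEmb, ih, wl_zero]

theorem za_via_zero (M : C) {n N : ℕ} {w : MonoidAlgebra ℚ (Perm (Fin n))} (h : za M w = 0)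
    (e : Fin n ↪ Fin N) : za M (via e w) = 0 := by
  obtain ⟨k, rfl⟩ : ∃ k, N = n + k := by
    have h1 := Fintype.card_le_of_embedding e
    rw [Fintype.card_fin, Fintype.card_fin] at h1
    exact ⟨N - n, by omega⟩
  obtain ⟨g, hg⟩ := exists_perm_embedding (stEmb n k) e
  rw [via_conj_elem (stEmb n k) e g hg, za_mul, za_mul, za_stEmb_zero M h, Limits.zero_comp,
    Limits.comp_zero]

/-- `M ⊗ (M ⊗ (⋯ ⊗ M^{⊗ n}))` is `M^{⊗ (n + m)}` -/
def jj (M : C) (n : ℕ) : (m : ℕ) → (tpw M m (tpow M n) ⟶ tpow M (n + m))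
  | 0 => 𝟙 (tpow M n)
  | m + 1 => M ◁ jj M n m

instance jj_isIso (M : C) (n m : ℕ) : IsIso (jj M n m) := by
  induction m with
  | zero => exact IsIso.id _
  | succ m ih =>
    have h : IsIso (M ◁ jj M n m) := inferInstance
    exact h

/-- the first `m` points -/
def loEmb (n m : ℕ) : Fin m ↪ Fin (n + m) := (Fin.castLEEmb (Nat.le_add_left m n))

theorem disj_lo_st (n m : ℕ) (i : Fin m) (j : Fin n) : loEmb n m i ≠ stEmb n m j := by
  intro hij
  have h1 : ∀ (m : ℕ) (j : Fin n), ((stEmb n m j : Fin (n + m)) : ℕ) = m + j := by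
    intro m
    induction m with
    | zero =>
      intro j
      rw [zero_add]
      rfl
    | succ m ih =>
      intro j
      have h2 : ((stEmb n (m + 1) j : Fin (n + (m + 1))) : ℕ) =
          ((stEmb n m j : Fin (n + m)) : ℕ) + 1 := rfl
      rw [h2, ih]
      omega
  have h3 := congrArg (fun x : Fin (n + m) => (x : ℕ)) hij
  rw [h1] at h3
  have h4 : ((loEmb n m i : Fin (n + m)) : ℕ) = i := rfl
  rw [h4] at h3
  have := i.2
  omega

omit [Preadditive C] [Linear ℚ C] [MonoidalPreadditive C] in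
theorem pw_jj_nbr (M : C) (n m i : ℕ) (h : i + 1 < m) :
    pw M m (tpow M n) (swap ⟨i, (Nat.lt_succ_self i).trans h⟩ ⟨i + 1, h⟩) ≫ jj M n m =
      jj M n m ≫ ps M (swap (loEmb n m ⟨i, (Nat.lt_succ_self i).trans h⟩)
        (loEmb n m ⟨i + 1, h⟩)) := by
  induction m generalizing i with
  | zero => omega
  | succ m ih =>
    cases i with
    | zero =>
      obtain ⟨l, rfl⟩ : ∃ l, m = l + 1 := ⟨m - 1, by omega⟩
      have e1 : (swap (⟨0, by omega⟩ : Fin (l + 2)) ⟨0 + 1, h⟩) = swap 0 1 := rfl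
      have e2 : swap (loEmb n (l + 1 + 1) ⟨0, by omega⟩) (loEmb n (l + 1 + 1) ⟨0 + 1, h⟩) =
          swap (0 : Fin (n + l + 2)) 1 := rfl
      rw [e1, pw_swap]
      change sw M (tpw M l (tpow M n)) ≫ M ◁ M ◁ jj M n l =
        M ◁ M ◁ jj M n l ≫ ps M (swap (loEmb n (l + 1 + 1) ⟨0, by omega⟩)
          (loEmb n (l + 1 + 1) ⟨0 + 1, h⟩))
      rw [sw_comm]
      congr 1
      exact (ps_swap M (n + l)).symm
    | succ i =>
      have h' : i + 1 < m := by omega
      have e1 : (swap (⟨i + 1, by omega⟩ : Fin (m + 1)) ⟨i + 1 + 1, h⟩) =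
          sh (swap (⟨i, by omega⟩ : Fin m) ⟨i + 1, h'⟩) := by
        rw [sh_swap]
        rfl
      have e2 : swap (loEmb n (m + 1) ⟨i + 1, by omega⟩) (loEmb n (m + 1) ⟨i + 1 + 1, h⟩) =
          sh (swap (loEmb n m ⟨i, by omega⟩) (loEmb n m ⟨i + 1, h'⟩)) := by
        rw [sh_swap]
        rfl
      have e3 : ps M (swap (loEmb n (m + 1) ⟨i + 1, by omega⟩)
          (loEmb n (m + 1) ⟨i + 1 + 1, h⟩)) =
          wl M (ps M (swap (loEmb n m ⟨i, by omega⟩) (loEmb n m ⟨i + 1, h'⟩))) := by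
        rw [← ps_sh, ← e2]
      rw [e1, pw_sh, e3]
      have h4 := congrArg (fun g => M ◁ g) (ih i h')
      simp only [MonoidalCategory.whiskerLeft_comp] at h4
      exact h4

omit [Preadditive C] [Linear ℚ C] [MonoidalPreadditive C] in
theorem pw_jj (M : C) (n m : ℕ) (σ : Perm (Fin m)) :
    pw M m (tpow M n) σ ≫ jj M n m = jj M n m ≫ ps M (σ.viaEmbedding (loEmb n m)) := by
  refine perm_induction (P := fun σ => pw M m (tpow M n) σ ≫ jj M n m =
    jj M n m ≫ ps M (σ.viaEmbedding (loEmb n m))) ?_ ?_ ?_ σ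
  · rw [pw_one, via_one, ps_one, Category.comp_id, Category.id_comp]
  · intro i h
    rw [via_swap]
    exact pw_jj_nbr M n m i h
  · intro a b ha hb
    rw [← pw_mul, via_mul, ← ps_comp, Category.assoc, ha, ← Category.assoc, hb, Category.assoc]

theorem tpwMap_jj (M : C) {n : ℕ} (m : ℕ) (z : MonoidAlgebra ℚ (Perm (Fin n))) :
    tpwMap M (za M z) m ≫ jj M n m = jj M n m ≫ za M (via (stEmb n m) z) := by
  induction m with
  | zero =>
    have h1 : via (stEmb n 0) z = z := via_refl z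
    change za M z ≫ 𝟙 (tpow M n) = 𝟙 (tpow M n) ≫ za M (via (stEmb n 0) z)
    rw [h1, Category.comp_id, Category.id_comp]
  | succ m ih =>
    have h1 : via (stEmb n (m + 1)) z = via (Fin.succEmb (n + m)) (via (stEmb n m) z) :=
      via_trans (stEmb n m) (Fin.succEmb (n + m)) z
    have h2 : za M (via (stEmb n (m + 1)) z) = wl M (za M (via (stEmb n m) z)) := by
      rw [h1]
      exact za_succEmb M _
    change (M ◁ tpwMap M (za M z) m) ≫ (M ◁ jj M n m) = (M ◁ jj M n m) ≫
      za M (via (stEmb n (m + 1)) z)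
    rw [h2, ← MonoidalCategory.whiskerLeft_comp, ih, MonoidalCategory.whiskerLeft_comp]
    rfl

theorem la_gSum (χ : ℤˣ →* ℤ) (M : C) (n m : ℕ) :
    la (tpow M n) (gSum χ M m) ≫ jj M n m = jj M n m ≫ za M (gOf χ (loEmb n m)) := by
  unfold gSum gOf
  rw [la_sum, za_sum, Preadditive.sum_comp, Preadditive.comp_sum]
  refine Finset.sum_congr rfl fun σ _ => ?_
  rw [za_single, Linear.comp_smul, ← pw_jj, ← Int.cast_smul_eq_zsmul ℚ, la_smul,
    Linear.smul_comp]
  rfl

/-- separation of the (anti)symmetriser and of `z` -/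
theorem gSum_tensor (χ : ℤˣ →* ℤ) (M : C) {n m : ℕ} (z : MonoidAlgebra ℚ (Perm (Fin n)))
    (h : za M (gOf χ (loEmb n m) * via (stEmb n m) z) = 0) : gSum χ M m ⊗ₘ za M z = 0 := by
  apply tens_map
  rw [← cancel_mono (jj M n m), Category.assoc, tpwMap_jj, ← Category.assoc, la_gSum,
    Category.assoc, ← za_mul, Limits.zero_comp]
  rw [← gOf_via χ _ _ (disj_lo_st n m), h, Limits.comp_zero]

end BC1

section BC2

variable {C : Type u} [Category.{v} C] [MonoidalCategory C] [SymmetricCategory C]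
  [Preadditive C] [MonoidalPreadditive C] [Linear ℚ C] [RatUnit C]

/-- the exchanges in the group algebra -/
noncomputable def tz (n : ℕ) : MonoidAlgebra ℚ (Perm (Fin (n + 1))) :=
  ∑ j : Fin n, MonoidAlgebra.single (swap 0 j.succ) (1 : ℚ)

omit [MonoidalPreadditive C] [RatUnit C] in
theorem za_tz (M : C) (n : ℕ) : za M (tz n) = jms M n := by
  unfold tz jms
  rw [za_sum]
  exact Finset.sum_congr rfl fun j _ => by rw [za_single, one_smul]

theorem case_aux (χ : ℤˣ →* ℤ) {M : C} [HasLeftDual M] {n m : ℕ}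
    (z : MonoidAlgebra ℚ (Perm (Fin n))) (g : tpow M n ⟶ tpow M n)
    (hg : trp M n (za M z ≫ g) ≠ 0) (c : ℚ)
    (hc : (n : ℚ) + (χ (-1) : ℚ) * m * c < 0)
    (h : wl M (za M z) ≫ (jms M n - c • 𝟙 (tpow M (n + 1))) = 0) : gSum χ M m = 0 := by
  have h1 : za M ((tz n - c • 1) * via (Fin.succEmb n) z) = 0 := by
    rw [za_mul, za_succEmb, sub_eq_add_neg, ← neg_smul, za_add, za_smul, za_one, za_tz, neg_smul,
      ← sub_eq_add_neg, h]
  have h2 : ∀ k : Fin m, za M ((∑ j : Fin n, MonoidAlgebra.single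
      (swap (stEmb n m j) (loEmb n m k)) (1 : ℚ)) * via (stEmb n m) z) =
      c • za M (via (stEmb n m) z) := by
    intro k
    have hd : ∀ j, stEmb n m j ≠ loEmb n m k := fun j => (disj_lo_st n m k j).symm
    have h3 := za_via_zero M h1 (consEmb (loEmb n m k) (stEmb n m) hd)
    rw [map_mul, ← via_trans, consEmb_trans, map_sub, map_smul, map_one, sub_mul,
      smul_mul_assoc, one_mul, sub_eq_add_neg, ← neg_smul, za_add, za_smul, neg_smul,
      ← sub_eq_add_neg, sub_eq_zero] at h3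
    rw [← h3]
    congr 2
    unfold tz
    rw [map_sum]
    refine Finset.sum_congr rfl fun j _ => ?_
    rw [via_single, via_swap, consEmb_zero, consEmb_succ, swap_comm]
  have h4 : za M (gOf χ (loEmb n m) * via (stEmb n m) z) = 0 :=
    grp_case χ (stEmb n m) (loEmb n m) (disj_lo_st n m) (act M (n + m)) z c hc h2
  have h5 := gSum_tensor χ M z h4
  have h6 : gSum χ M m ⊗ₘ (za M z ≫ g) = 0 := by
    have h7 : gSum χ M m ⊗ₘ (za M z ≫ g) =
        (gSum χ M m ⊗ₘ za M z) ≫ (𝟙 _ ⊗ₘ g) := by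
      rw [tensorHom_comp_tensorHom, Category.comp_id]
    rw [h7, h5, Limits.zero_comp]
  let _ := tpowDual M n
  exact eq_zero_of_tensor h6 hg

/-- case I -/
theorem case1 {M : C} [HasLeftDual M] {n : ℕ}
    (z : MonoidAlgebra ℚ (Perm (Fin n))) (hn : 0 < n) (g : tpow M n ⟶ tpow M n)
    (hg : trp M n (za M z ≫ g) ≠ 0)
    (h : wl M (za M z) ≫ (tr M (𝟙 M) • jms M n - (n : ℚ) • 𝟙 (tpow M (n + 1))) = 0) :
    ∃ m, altSum M m = 0 ∨ symSum M m = 0 := by
  have hn' : (0 : ℚ) < n := Nat.cast_pos.2 hn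
  rcases eq_or_ne (tr M (𝟙 M)) 0 with h0 | h0
  · rw [h0, zero_smul, zero_sub, Preadditive.comp_neg, Linear.comp_smul, Category.comp_id,
      neg_eq_zero, smul_eq_zero] at h
    have h1 := h.resolve_left hn'.ne'
    have h2 : (𝟙 M ⊗ₘ (za M z ≫ g)) = 0 := by
      have h3 : (𝟙 M ⊗ₘ (za M z ≫ g)) = (M ◁ za M z) ≫ (M ◁ g) := by
        rw [id_tensorHom, MonoidalCategory.whiskerLeft_comp]
      have h4 : (M ◁ za M z) = 0 := h1
      rw [h3, h4, Limits.zero_comp]
    let _ := tpowDual M n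
    have h5 : 𝟙 M = 0 := eq_zero_of_tensor h2 hg
    refine ⟨1, Or.inl ?_⟩
    have h6 : 𝟙 (tpow M 1) = 0 := by
      have h7 : 𝟙 (tpow M 1) = (𝟙 M ⊗ₘ 𝟙 (𝟙_ C)) := by
        rw [id_tensorHom_id]
        rfl
      rw [h7, h5, MonoidalPreadditive.zero_tensor]
      rfl
    rw [← Category.comp_id (altSum M 1), h6, Limits.comp_zero]
  · have h1 : wl M (za M z) ≫ (jms M n - (n / tr M (𝟙 M)) • 𝟙 (tpow M (n + 1))) = 0 := by
      have h2 : tr M (𝟙 M) • jms M n - (n : ℚ) • 𝟙 (tpow M (n + 1)) =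
          tr M (𝟙 M) • (jms M n - (n / tr M (𝟙 M)) • 𝟙 (tpow M (n + 1))) := by
        rw [smul_sub, smul_smul, mul_div_cancel₀ _ h0]
      rw [h2, Linear.comp_smul, smul_eq_zero] at h
      exact h.resolve_left h0
    rcases lt_or_gt_of_ne h0 with h2 | h2
    · obtain ⟨m, hm⟩ := exists_nat_gt (-tr M (𝟙 M))
      refine ⟨m, Or.inr ?_⟩
      rw [← gSum_one]
      refine case_aux 1 z g hg _ ?_ h1
      rw [MonoidHom.one_apply, Int.cast_one, one_mul]
      have h3 : (n : ℚ) + m * (n / tr M (𝟙 M)) = n * (tr M (𝟙 M) + m) / tr M (𝟙 M) := by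
        field_simp
      rw [h3]
      exact div_neg_of_pos_of_neg (mul_pos hn' (by linarith)) h2
    · obtain ⟨m, hm⟩ := exists_nat_gt (tr M (𝟙 M))
      refine ⟨m, Or.inl ?_⟩
      rw [← gSum_coe]
      refine case_aux (Units.coeHom ℤ) z g hg _ ?_ h1
      rw [Units.coeHom_apply, Units.val_neg, Units.val_one, Int.cast_neg, Int.cast_one]
      have h3 : (n : ℚ) + -1 * m * (n / tr M (𝟙 M)) =
          n * (tr M (𝟙 M) - m) / tr M (𝟙 M) := by
        field_simp
        ring
      rw [h3]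
      exact div_neg_of_neg_of_pos (mul_neg_of_pos_of_neg hn' (by linarith)) h2

/-- the dichotomy -/
theorem dichotomy {M : C} [HasLeftDual M] {n : ℕ} (hn : 0 < n)
    (z : MonoidAlgebra ℚ (Perm (Fin n))) (g : tpow M n ⟶ tpow M n)
    (hg : trp M n (za M z ≫ g) ≠ 0)
    (hten : ∀ {X Y X' Y' : C} (a : X ⟶ Y) (b : X' ⟶ Y'), a ⊗ₘ b = 0 → a = 0 ∨ b = 0) :
    (∃ m, altSum M m = 0 ∨ symSum M m = 0) ∨
    ∀ {W W' : C} (f : M ⊗ W ⟶ M ⊗ W'), la W (za M z) ≫ ∑ i, fs f n i = 0 → f = 0 := by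
  by_cases h : wl M (za M z) ≫
      (tr M (𝟙 M) • jms M n - (n : ℚ) • 𝟙 (tpow M (n + 1))) = 0
  · left
    exact case1 z hn g hg h
  · right
    intro W W' f hf
    exact (hten _ _ (ident hn z f hf)).resolve_left h

end BC2

end Pool.Agent.MP_6e5bed_ag
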