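import Pool.Agent.Lib.MP_6e5bed_ag.SDefs

set_option autoImplicit false

/-!
# Slots of tensor powers: definitions
-/

namespace Pool.Agent.MP_6e5bed_ag

open CategoryTheory MonoidalCategory Equiv

universe v u

section Slots

variable {C : Type u} [Category.{v} C] [MonoidalCategory C]

/-- `M ⊗ (M ⊗ (⋯ ⊗ V))` with `n` factors `M` -/
def tpw (M : C) : ℕ → C → C
  | 0, V => V
  | n + 1, V => M ⊗ tpw M n V

/-- a morphism on the last factor -/
def tpwMap (M : C) {V V' : C} (h : V ⟶ V') : (n : ℕ) → (tpw M n V ⟶ tpw M n V')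
  | 0 => h
  | n + 1 => M ◁ tpwMap M h n

/-- `M ⊗ (M ⊗ (⋯ ⊗ V)) ≅ M^{⊗ n} ⊗ V` -/
def psi (M : C) : (n : ℕ) → (V : C) → (tpw M n V ≅ tpow M n ⊗ V)
  | 0, V => (λ_ V).symm
  | n + 1, V => whiskerLeftIso M (psi M n V) ≪≫ (α_ M (tpow M n) V).symm

/-- an endomorphism of `M^{⊗ n}` acts on `M ⊗ (M ⊗ (⋯ ⊗ V))` -/
def la {M : C} {n : ℕ} (V : C) (a : tpow M n ⟶ tpow M n) : tpw M n V ⟶ tpw M n V :=
  (psi M n V).hom ≫ (a ▷ V) ≫ (psi M n V).inv

/-- `f` acts on the factor number `i`. -/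
def sl {M : C} (f : M ⟶ M) : (n : ℕ) → Fin n → (tpow M n ⟶ tpow M n)
  | 0, i => i.elim0
  | n + 1, i => Fin.cases (motive := fun _ => tpow M (n + 1) ⟶ tpow M (n + 1))
      (f ▷ tpow M n) (fun j => M ◁ sl f n j) i

variable [SymmetricCategory C]

/-- the action of a permutation of the factors `M` -/
noncomputable def pw (M : C) (n : ℕ) (V : C) (σ : Perm (Fin n)) : tpw M n V ⟶ tpw M n V :=
  la V (ps M σ)

/-- `f` acts on the factor `M` number `i` and on the last factor `W`. -/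
def fs {M W W' : C} (f : M ⊗ W ⟶ M ⊗ W') : (n : ℕ) → Fin n → (tpw M n W ⟶ tpw M n W')
  | 0, i => i.elim0
  | 1, _ => f
  | n + 2, i => Fin.cases (motive := fun _ => tpw M (n + 2) W ⟶ tpw M (n + 2) W')
      (sw M (tpw M n W) ≫ (M ◁ fs f (n + 1) 0) ≫ sw M (tpw M n W'))
      (fun j => M ◁ fs f (n + 1) j) i

variable [Preadditive C] [Linear ℚ C]

/-- the action of an element of the group algebra on `M^{⊗ n}`, as a morphism -/
noncomputable def za (M : C) {n : ℕ} (z : MonoidAlgebra ℚ (Perm (Fin n))) :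
    tpow M n ⟶ tpow M n := act M n z

/-- the sum of the exchanges of the factor number `0` with the others -/
noncomputable def jm (M : C) (n : ℕ) (V : C) : tpw M (n + 1) V ⟶ tpw M (n + 1) V :=
  ∑ i : Fin n, pw M (n + 1) V (swap 0 i.succ)

/-- the sum of the exchanges of the factor number `0` with the others -/
noncomputable def jms (M : C) (n : ℕ) : tpow M (n + 1) ⟶ tpow M (n + 1) :=
  ∑ i : Fin n, ps M (swap 0 i.succ)

end Slots

/-- the anti-involution `g ↦ g⁻¹` of a group algebra -/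
noncomputable def gst {G : Type*} [Group G] (x : MonoidAlgebra ℚ G) : MonoidAlgebra ℚ G :=
  MonoidAlgebra.mapDomain (fun g => g⁻¹) x

end Pool.Agent.MP_6e5bed_ag
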