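import Pool.Agent.Lib.MP_6e5bed_ag.Defs

/-!
# KIMURA, module VANISH: vectors killed by antisymmetrisers and symmetrisers
-/

set_option autoImplicit false

namespace Pool.Agent.MP_6e5bed_ag

open CategoryTheory MonoidalCategory Equiv

universe v u v' u'

namespace VanishAux

variable {m : ℕ}

theorem via_one {r : ℕ} (f : Fin r ↪ Fin m) : (1 : Perm (Fin r)).viaEmbedding f = 1 := by
  rw [← Perm.viaEmbeddingHom_apply, map_one]

theorem via_mul {r : ℕ} (f : Fin r ↪ Fin m) (σ τ : Perm (Fin r)) :
    (σ * τ).viaEmbedding f = σ.viaEmbedding f * τ.viaEmbedding f := by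
  rw [← Perm.viaEmbeddingHom_apply, ← Perm.viaEmbeddingHom_apply, ← Perm.viaEmbeddingHom_apply,
    map_mul]

theorem via_inv {r : ℕ} (f : Fin r ↪ Fin m) (σ : Perm (Fin r)) :
    (σ⁻¹).viaEmbedding f = (σ.viaEmbedding f)⁻¹ := by
  rw [← Perm.viaEmbeddingHom_apply, ← Perm.viaEmbeddingHom_apply, map_inv]

theorem via_swap {r : ℕ} (f : Fin r ↪ Fin m) (i j : Fin r) :
    (swap i j).viaEmbedding f = swap (f i) (f j) := by
  ext y
  by_cases hy : y ∈ Set.range f
  · obtain ⟨k, rfl⟩ := hy
    rw [Perm.viaEmbedding_apply, f.injective.map_swap]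
  · rw [Perm.viaEmbedding_apply_of_notMem _ _ _ hy, swap_apply_of_ne_of_ne]
    · rintro rfl; exact hy ⟨i, rfl⟩
    · rintro rfl; exact hy ⟨j, rfl⟩

theorem via_conj {r : ℕ} (f : Fin r ↪ Fin m) (g : Perm (Fin m)) (σ : Perm (Fin r)) :
    σ.viaEmbedding (f.trans g.toEmbedding) = g * σ.viaEmbedding f * g⁻¹ := by
  ext y
  by_cases hy : y ∈ Set.range (f.trans g.toEmbedding)
  · obtain ⟨k, rfl⟩ := hy
    rw [Perm.viaEmbedding_apply]
    have h1 : (g⁻¹ : Perm (Fin m)) (g (f k)) = f k := g.symm_apply_apply (f k)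
    simp only [Function.Embedding.trans_apply, Equiv.toEmbedding_apply, Perm.coe_mul,
      Function.comp_apply, h1, Perm.viaEmbedding_apply]
  · rw [Perm.viaEmbedding_apply_of_notMem _ _ _ hy]
    have hy' : g⁻¹ y ∉ Set.range f := by
      rintro ⟨k, hk⟩
      apply hy
      refine ⟨k, ?_⟩
      simp only [Function.Embedding.trans_apply, Equiv.toEmbedding_apply, hk]
      exact g.apply_symm_apply y
    simp only [Perm.coe_mul, Function.comp_apply]
    rw [Perm.viaEmbedding_apply_of_notMem _ _ _ hy']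
    exact congrArg _ (g.apply_symm_apply y).symm

theorem via_dec {k : ℕ} (f : Fin (k + 1) ↪ Fin m) (p : Fin (k + 1)) (e : Perm (Fin k)) :
    (Perm.decomposeFin.symm (p, e)).viaEmbedding f =
      swap (f 0) (f p) * e.viaEmbedding ((Fin.succEmb k).trans f) := by
  ext y
  by_cases hy : y ∈ Set.range f
  · obtain ⟨i, rfl⟩ := hy
    rw [Perm.viaEmbedding_apply, Perm.coe_mul, Function.comp_apply]
    refine Fin.cases ?_ (fun j => ?_) i
    · have h0 : f 0 ∉ Set.range ((Fin.succEmb k).trans f) := by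
        rintro ⟨j, hj⟩
        have := f.injective hj
        exact Fin.succ_ne_zero j this
      rw [Perm.decomposeFin_symm_apply_zero, Perm.viaEmbedding_apply_of_notMem _ _ _ h0,
        swap_apply_left]
    · have h1 : f j.succ = ((Fin.succEmb k).trans f) j := rfl
      rw [Perm.decomposeFin_symm_apply_succ, h1, Perm.viaEmbedding_apply, f.injective.map_swap]
      rfl
  · have hy' : y ∉ Set.range ((Fin.succEmb k).trans f) := by
      rintro ⟨j, hj⟩
      exact hy ⟨j.succ, hj⟩
    rw [Perm.viaEmbedding_apply_of_notMem _ _ _ hy, Perm.coe_mul, Function.comp_apply,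
      Perm.viaEmbedding_apply_of_notMem _ _ _ hy', swap_apply_of_ne_of_ne]
    · rintro rfl; exact hy ⟨0, rfl⟩
    · rintro rfl; exact hy ⟨p, rfl⟩

section Ring

variable {A : Type*} [Ring A] (ρ : Perm (Fin m) →* A)

theorem altOf_inv {r : ℕ} (f : Fin r ↪ Fin m) :
    altOf ρ f = ∑ σ : Perm (Fin r), ((Perm.sign σ : ℤ) : A) * ρ ((σ.viaEmbedding f)⁻¹) := by
  unfold altOf
  rw [← Equiv.sum_comp (Equiv.inv (Perm (Fin r)))
    (fun σ => ((Perm.sign σ : ℤ) : A) * ρ (σ.viaEmbedding f))]
  refine Finset.sum_congr rfl fun σ _ => ?_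
  rw [Equiv.inv_apply, Perm.sign_inv, via_inv]

theorem altOf_zero (f : Fin 0 ↪ Fin m) : altOf ρ f = 1 := by
  unfold altOf
  rw [Fintype.sum_subsingleton _ (1 : Perm (Fin 0)), via_one]
  simp

theorem symOf_zero (f : Fin 0 ↪ Fin m) : symOf ρ f = 1 := by
  unfold symOf
  rw [Fintype.sum_subsingleton _ (1 : Perm (Fin 0)), via_one]
  simp

theorem altOf_succ {k : ℕ} (f : Fin (k + 1) ↪ Fin m) :
    altOf ρ f = altOf ρ ((Fin.succEmb k).trans f) *
      (1 - ∑ j : Fin k, ρ (swap (f 0) (f j.succ))) := by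
  rw [altOf_inv ρ f, ← Perm.decomposeFin.symm.sum_comp, Fintype.sum_prod_type,
    Fin.sum_univ_succ]
  have key : ∀ (p : Fin (k + 1)) (e : Perm (Fin k)),
      ((Perm.sign (Perm.decomposeFin.symm (p, e)) : ℤ) : A) *
        ρ (((Perm.decomposeFin.symm (p, e)).viaEmbedding f)⁻¹) =
      (if p = 0 then 1 else -1) * (((Perm.sign e : ℤ) : A) *
        ρ ((e.viaEmbedding ((Fin.succEmb k).trans f))⁻¹)) * ρ (swap (f 0) (f p)) := by
    intro p e
    rw [Perm.decomposeFin.symm_sign, via_dec, mul_inv_rev, map_mul, swap_inv]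
    split_ifs with h
    · simp [mul_assoc]
    · simp [mul_assoc]
  simp only [key]
  rw [altOf_inv ρ ((Fin.succEmb k).trans f)]
  simp only [if_true, one_mul, swap_self, Fin.succ_ne_zero, if_false, neg_mul, one_mul,
    Finset.sum_neg_distrib, ← Finset.sum_mul, ← Finset.mul_sum]
  have : ρ (Equiv.refl (Fin m)) = 1 := map_one ρ
  rw [this, mul_one, mul_sub, mul_one, sub_eq_add_neg]

theorem altOf_conj {r : ℕ} (f : Fin r ↪ Fin m) (g : Perm (Fin m)) :
    altOf ρ f * ρ g = ρ g * altOf ρ (f.trans (g⁻¹ : Perm (Fin m)).toEmbedding) := by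
  unfold altOf
  rw [Finset.sum_mul, Finset.mul_sum]
  refine Finset.sum_congr rfl fun σ _ => ?_
  have h1 : ρ g * (((Perm.sign σ : ℤ) : A) * ρ (σ.viaEmbedding (f.trans
      (g⁻¹ : Perm (Fin m)).toEmbedding))) = ((Perm.sign σ : ℤ) : A) *
      (ρ g * ρ (σ.viaEmbedding (f.trans (g⁻¹ : Perm (Fin m)).toEmbedding))) := by
    rw [← mul_assoc, ← Int.cast_comm, mul_assoc]
  rw [h1, via_conj, inv_inv, mul_assoc, ← map_mul, ← map_mul]
  congr 2
  group

theorem symOf_conj {r : ℕ} (f : Fin r ↪ Fin m) (g : Perm (Fin m)) :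
    symOf ρ f * ρ g = ρ g * symOf ρ (f.trans (g⁻¹ : Perm (Fin m)).toEmbedding) := by
  unfold symOf
  rw [Finset.sum_mul, Finset.mul_sum]
  refine Finset.sum_congr rfl fun σ _ => ?_
  rw [via_conj, inv_inv, ← map_mul, ← map_mul]
  congr 1
  group

end Ring

variable {V : Type*} [AddCommGroup V] [Module ℚ V] (ρ : Perm (Fin m) →* Module.End ℚ V)

theorem nsmul_zero {n : ℕ} (hn : n ≠ 0) {v : V} (h : n • v = 0) : v = 0 := by
  rw [← Nat.cast_smul_eq_nsmul ℚ] at h
  rcases smul_eq_zero.1 h with h | h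
  · exact absurd (by exact_mod_cast h) hn
  · exact h

theorem alt_kill : ∀ (k : ℕ) (K : Fin k → Finset (Fin m)) (v : V), (∀ i, (K i).Nonempty) →
    (∀ i j, i ≠ j → Disjoint (K i) (K j)) →
    (∀ i j, i < j → ∀ t ∈ K j, ∑ u ∈ K i, ρ (swap u t) v = -v) →
    (∀ f : Fin k ↪ Fin m, (∀ i, f i ∈ K i) → altOf ρ f v = 0) → v = 0 := by
  intro k
  induction k with
  | zero =>
    intro K v _ _ _ h
    have := h ⟨Fin.elim0, fun i => i.elim0⟩ (fun i => i.elim0)
    rwa [altOf_zero] at this
  | succ k ih =>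
    intro K v hne hd hs h
    refine ih (fun i => K i.succ) v (fun i => hne _)
      (fun i j hij => hd _ _ fun hh => hij (Fin.succ_injective _ hh))
      (fun i j hij t ht => hs _ _ (Fin.succ_lt_succ_iff.2 hij) t ht) ?_
    intro f' hf'
    have h1 : ∀ t ∈ K 0, altOf ρ f' (v - ∑ j : Fin k, ρ (swap t (f' j)) v) = 0 := by
      intro t ht
      have hinj : Function.Injective (Fin.cons t f' : Fin (k + 1) → Fin m) := by
        rw [Fin.cons_injective_iff]
        refine ⟨?_, f'.injective⟩
        rintro ⟨j, hj⟩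
        have h2 := hf' j
        rw [hj] at h2
        exact Finset.disjoint_left.1 (hd 0 j.succ (Fin.succ_ne_zero j).symm) ht h2
      have h3 := h ⟨Fin.cons t f', hinj⟩ (by
        intro i
        refine Fin.cases ?_ (fun j => ?_) i
        · exact ht
        · exact hf' j)
      rw [altOf_succ] at h3
      have h4 : (Fin.succEmb k).trans ⟨Fin.cons t f', hinj⟩ = f' := by
        ext j
        simp
      rw [h4] at h3
      have h5 : (1 - ∑ j : Fin k, ρ (swap ((⟨Fin.cons t f', hinj⟩ : Fin (k + 1) ↪ Fin m) 0)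
          ((⟨Fin.cons t f', hinj⟩ : Fin (k + 1) ↪ Fin m) j.succ))) v =
          v - ∑ j : Fin k, ρ (swap t (f' j)) v := by
        simp
      rw [Module.End.mul_apply, h5] at h3
      exact h3
    have h2 : altOf ρ f' (∑ t ∈ K 0, (v - ∑ j : Fin k, ρ (swap t (f' j)) v)) = 0 := by
      rw [map_sum]
      exact Finset.sum_eq_zero h1
    have h3 : ∑ t ∈ K 0, (v - ∑ j : Fin k, ρ (swap t (f' j)) v) = ((K 0).card + k) • v := by
      rw [Finset.sum_sub_distrib, Finset.sum_const, Finset.sum_comm]
      have : ∀ j : Fin k, ∑ t ∈ K 0, ρ (swap t (f' j)) v = -v := fun j =>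
        hs 0 j.succ (Fin.succ_pos j) _ (hf' j)
      simp only [this, Finset.sum_const, Finset.card_univ, Fintype.card_fin, smul_neg,
        sub_neg_eq_add, add_smul]
    rw [h3, map_nsmul] at h2
    refine nsmul_zero ?_ h2
    have := (hne 0).card_pos
    omega

/-- The vector is killed by all antisymmetrisers of `r` points and all symmetrisers of `s`
points. -/
def Kil (r s : ℕ) (v : V) : Prop :=
  (∀ f : Fin r ↪ Fin m, altOf ρ f v = 0) ∧ ∀ f : Fin s ↪ Fin m, symOf ρ f v = 0

theorem Kil.perm {r s : ℕ} {v : V} (h : Kil ρ r s v) (g : Perm (Fin m)) :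
    Kil ρ r s (ρ g v) := by
  constructor
  · intro f
    have h1 := congrArg (fun T : Module.End ℚ V => T v) (altOf_conj ρ f g)
    simp only [Module.End.mul_apply] at h1
    rw [h1, h.1, map_zero]
  · intro f
    have h1 := congrArg (fun T : Module.End ℚ V => T v) (symOf_conj ρ f g)
    simp only [Module.End.mul_apply] at h1
    rw [h1, h.2, map_zero]

theorem Kil.add {r s : ℕ} {v w : V} (h : Kil ρ r s v) (h' : Kil ρ r s w) :
    Kil ρ r s (v + w) := by
  constructor
  · intro f
    rw [map_add, h.1, h'.1, add_zero]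
  · intro f
    rw [map_add, h.2, h'.2, add_zero]

theorem Kil.sum {r s : ℕ} {ι : Type*} (S : Finset ι) {F : ι → V}
    (h : ∀ i ∈ S, Kil ρ r s (F i)) : Kil ρ r s (∑ i ∈ S, F i) := by
  constructor
  · intro f
    rw [map_sum]
    exact Finset.sum_eq_zero fun i hi => (h i hi).1 f
  · intro f
    rw [map_sum]
    exact Finset.sum_eq_zero fun i hi => (h i hi).2 f

/-- The class of the colour `z`. -/
def cla (c : Fin m → Fin m) (z : Fin m) : Finset (Fin m) := Finset.univ.filter fun u => c u = z

theorem mem_cla {c : Fin m → Fin m} {z u : Fin m} : u ∈ cla c z ↔ c u = z := by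
  simp [cla]

/-- Invariance under the permutations preserving the colours. -/
def Inva (c : Fin m → Fin m) (v : V) : Prop := ∀ a b, c a = c b → ρ (swap a b) v = v

theorem Inva.via {c : Fin m → Fin m} {v : V} (h : Inva ρ c v) {r : ℕ} (f : Fin r ↪ Fin m)
    (z : Fin m) (hf : ∀ i, c (f i) = z) (σ : Perm (Fin r)) : ρ (σ.viaEmbedding f) v = v := by
  induction σ using Perm.swap_induction_on with
  | one => rw [via_one, map_one]; rfl
  | swap_mul σ x y _ ih =>
    rw [via_mul, map_mul, Module.End.mul_apply, ih, via_swap]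
    exact h _ _ ((hf x).trans (hf y).symm)

theorem rho_mul (g g' : Perm (Fin m)) (v : V) : ρ g (ρ g' v) = ρ (g * g') v := by
  rw [map_mul]; rfl

theorem inv_step_aux {c : Fin m → Fin m} {v : V} (hv : Inva ρ c v) {a t : Fin m}
    (hta : c t ≠ a) {y : Fin m} (hyt : y ≠ t) (hy : c y = a) :
    ρ (swap t y) (v + ∑ u ∈ cla c a, ρ (swap u t) v) = v + ∑ u ∈ cla c a, ρ (swap u t) v := by
  have hyK : y ∈ cla c a := mem_cla.2 hy
  rw [← Finset.add_sum_erase _ _ hyK, map_add, map_add, map_sum]
  have h1 : ρ (swap t y) (ρ (swap y t) v) = v := by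
    rw [rho_mul, swap_comm y t, swap_mul_self, map_one]; rfl
  have h2 : ∑ u ∈ (cla c a).erase y, ρ (swap t y) (ρ (swap u t) v) =
      ∑ u ∈ (cla c a).erase y, ρ (swap u t) v := by
    refine Finset.sum_congr rfl fun u hu => ?_
    obtain ⟨huy, huK⟩ := Finset.mem_erase.1 hu
    have hcu := mem_cla.1 huK
    have hut : u ≠ t := by rintro rfl; exact hta hcu
    have h3 : swap t y * swap u t = swap u t * swap u y := by
      have := mul_swap_eq_swap_mul (swap u t) u y
      rw [swap_apply_left, swap_apply_of_ne_of_ne huy.symm hyt] at this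
      exact this.symm
    rw [rho_mul, h3, ← rho_mul, hv u y (hcu.trans hy.symm)]
  rw [h1, h2, swap_comm y t]
  abel

theorem inv_step {c : Fin m → Fin m} {v : V} (hv : Inva ρ c v) {a t : Fin m}
    (hta : c t ≠ a) :
    Inva ρ (Function.update c t a) (v + ∑ u ∈ cla c a, ρ (swap u t) v) := by
  intro x y hxy
  by_cases hx : x = t
  · by_cases hy : y = t
    · rw [hx, hy, swap_self]
      have : ρ (Equiv.refl (Fin m)) = 1 := map_one ρ
      rw [this]; rfl
    · subst hx
      rw [Function.update_self, Function.update_of_ne hy] at hxy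
      exact inv_step_aux ρ hv hta hy hxy.symm
  · by_cases hy : y = t
    · subst hy
      rw [Function.update_self, Function.update_of_ne hx] at hxy
      rw [swap_comm]
      exact inv_step_aux ρ hv hta hx hxy
    · rw [Function.update_of_ne hx, Function.update_of_ne hy] at hxy
      have hcs : ∀ u, c (swap x y u) = c u := by
        intro u
        by_cases h1 : u = x
        · rw [h1, swap_apply_left, hxy]
        · by_cases h2 : u = y
          · rw [h2, swap_apply_right, hxy]
          · rw [swap_apply_of_ne_of_ne h1 h2]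
      rw [map_add, map_sum, hv x y hxy]
      congr 1
      refine Finset.sum_equiv (swap x y) (fun u => ?_) (fun u hu => ?_)
      · rw [mem_cla, mem_cla, hcs]
      · have h3 := mul_swap_eq_swap_mul (swap x y) u t
        rw [swap_apply_of_ne_of_ne (Ne.symm hx) (Ne.symm hy)] at h3
        rw [rho_mul, h3, ← rho_mul, hv x y hxy]

/-- The sum of the squares of the sizes of the classes. -/
def sqs (c : Fin m → Fin m) : ℕ := ∑ z, (cla c z).card ^ 2

theorem sqs_lt {c : Fin m → Fin m} {a t : Fin m} (hta : c t ≠ a)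
    (hle : (cla c (c t)).card ≤ (cla c a).card) : sqs c < sqs (Function.update c t a) := by
  have ha : (cla (Function.update c t a) a).card = (cla c a).card + 1 := by
    have : cla (Function.update c t a) a = insert t (cla c a) := by
      ext u
      rw [mem_cla, Finset.mem_insert, mem_cla]
      by_cases hu : u = t
      · simp [hu]
      · simp [hu]
    rw [this, Finset.card_insert_of_notMem]
    rw [mem_cla]
    exact hta
  have hb : (cla (Function.update c t a) (c t)).card + 1 = (cla c (c t)).card := by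
    have : cla (Function.update c t a) (c t) = (cla c (c t)).erase t := by
      ext u
      rw [mem_cla, Finset.mem_erase, mem_cla]
      by_cases hu : u = t
      · simp [hu, hta.symm]
      · simp [hu]
    rw [this, Finset.card_erase_add_one]
    rw [mem_cla]
  have hz : ∀ z, z ≠ a → z ≠ c t → (cla (Function.update c t a) z).card = (cla c z).card := by
    intro z h1 h2
    congr 1
    ext u
    rw [mem_cla, mem_cla]
    by_cases hu : u = t
    · simp [hu, h1.symm, h2.symm]
    · simp [hu]
  have hmem : c t ∈ Finset.univ.erase a := Finset.mem_erase.2 ⟨hta, Finset.mem_univ _⟩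
  unfold sqs
  rw [← Finset.add_sum_erase _ _ (Finset.mem_univ a),
    ← Finset.add_sum_erase _ _ (Finset.mem_univ a), ← Finset.add_sum_erase _ _ hmem,
    ← Finset.add_sum_erase _ _ hmem]
  have hrest : ∑ z ∈ (Finset.univ.erase a).erase (c t),
      (cla (Function.update c t a) z).card ^ 2 =
      ∑ z ∈ (Finset.univ.erase a).erase (c t), (cla c z).card ^ 2 := by
    refine Finset.sum_congr rfl fun z hz' => ?_
    rw [hz z (Finset.mem_erase.1 (Finset.mem_erase.1 hz').2).1 (Finset.mem_erase.1 hz').1]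
  rw [hrest, ha, ← hb]
  rw [← hb] at hle
  nlinarith

end VanishAux

section Vanish

variable {V : Type*} [AddCommGroup V] [Module ℚ V] {m : ℕ}

open VanishAux

/-- If `m > (r - 1)(s - 1)`, a vector of a representation of `S_m` killed by all the
antisymmetrisers of `r` points and by all the symmetrisers of `s` points is zero. -/
theorem vanish {r s : ℕ} (hm : (r - 1) * (s - 1) < m) (ρ : Perm (Fin m) →* Module.End ℚ V)
    (x : V) (hA : ∀ f : Fin r ↪ Fin m, altOf ρ f x = 0)
    (hB : ∀ f : Fin s ↪ Fin m, symOf ρ f x = 0) : x = 0 := by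
  classical
  by_contra hx
  have hs0 : s ≠ 0 := by
    rintro rfl
    have := hB ⟨Fin.elim0, fun i => i.elim0⟩
    rw [symOf_zero] at this
    exact hx this
  let S : Finset (Fin m → Fin m) :=
    Finset.univ.filter fun c => ∃ v : V, v ≠ 0 ∧ Kil ρ r s v ∧ Inva ρ c v
  have hSne : S.Nonempty := by
    refine ⟨id, Finset.mem_filter.2 ⟨Finset.mem_univ _, x, hx, ⟨hA, hB⟩, ?_⟩⟩
    rintro a b rfl
    rw [id, swap_self]
    have : ρ (Equiv.refl (Fin m)) = 1 := map_one ρ
    rw [this]; rfl
  obtain ⟨c, hcS, hmax⟩ := S.exists_max_image sqs hSne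
  obtain ⟨v, hv0, hK, hI⟩ := (Finset.mem_filter.1 hcS).2
  -- the classes are small
  have hsmall : ∀ z, (cla c z).card ≤ s - 1 := by
    intro z
    by_contra hlt
    have hle : s ≤ (cla c z).card := by omega
    obtain ⟨T, hT, hTc⟩ := Finset.exists_subset_card_eq hle
    have h1 := hK.2 (T.orderEmbOfFin hTc).toEmbedding
    have h2 : ∀ σ : Perm (Fin s),
        ρ (σ.viaEmbedding (T.orderEmbOfFin hTc).toEmbedding) v = v := by
      intro σ
      refine hI.via ρ _ z (fun i => ?_) σ
      exact mem_cla.1 (hT (Finset.orderEmbOfFin_mem T hTc i))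
    unfold symOf at h1
    rw [LinearMap.sum_apply] at h1
    simp only [h2, Finset.sum_const] at h1
    refine hv0 (nsmul_zero ?_ h1)
    rw [Finset.card_univ, Fintype.card_perm]
    exact Nat.factorial_ne_zero _
  -- there are many classes
  have hmany : r ≤ (Finset.univ.image c).card := by
    by_contra hlt
    have h1 : (Finset.univ.image c).card ≤ r - 1 := by omega
    have h2 := Finset.card_eq_sum_card_image c (Finset.univ : Finset (Fin m))
    have h3 : ∑ b ∈ Finset.univ.image c, (Finset.univ.filter fun a => c a = b).card ≤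
        (Finset.univ.image c).card • (s - 1) :=
      Finset.sum_le_card_nsmul _ _ _ fun b _ => hsmall b
    rw [Finset.card_univ, Fintype.card_fin] at h2
    rw [smul_eq_mul] at h3
    have h4 : (Finset.univ.image c).card * (s - 1) ≤ (r - 1) * (s - 1) :=
      Nat.mul_le_mul_right _ h1
    omega
  -- maximality
  have hstep : ∀ a t, c t ≠ a → (cla c (c t)).card ≤ (cla c a).card →
      ∑ u ∈ cla c a, ρ (swap u t) v = -v := by
    intro a t hta hle
    by_contra hne
    have hw : v + ∑ u ∈ cla c a, ρ (swap u t) v ≠ 0 := by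
      intro h
      exact hne (eq_neg_of_add_eq_zero_right h)
    have hmem : Function.update c t a ∈ S := by
      refine Finset.mem_filter.2 ⟨Finset.mem_univ _, _, hw, ?_, inv_step ρ hI hta⟩
      exact hK.add ρ (Kil.sum ρ _ fun u _ => hK.perm ρ _)
    exact absurd (hmax _ hmem) (not_le.2 (sqs_lt hta hle))
  -- r classes sorted by size
  obtain ⟨J, hJ, hJc⟩ := Finset.exists_subset_card_eq hmany
  let e : Fin r → Fin m := J.orderEmbOfFin hJc
  have he : Function.Injective e := (J.orderEmbOfFin hJc).injective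
  have heI : ∀ i, e i ∈ Finset.univ.image c := fun i => hJ (Finset.orderEmbOfFin_mem J hJc i)
  let sz : Fin r → ℕᵒᵈ := fun i => OrderDual.toDual (cla c (e i)).card
  let τ : Perm (Fin r) := Tuple.sort sz
  have hτ : Monotone (sz ∘ τ) := Tuple.monotone_sort sz
  refine hv0 (alt_kill ρ r (fun i => cla c (e (τ i))) v ?_ ?_ ?_ fun f _ => hK.1 f)
  · intro i
    obtain ⟨u, _, hu⟩ := Finset.mem_image.1 (heI (τ i))
    exact ⟨u, mem_cla.2 hu⟩
  · intro i j hij
    rw [Finset.disjoint_left]
    intro u hu hu'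
    exact hij (τ.injective (he ((mem_cla.1 hu).symm.trans (mem_cla.1 hu'))))
  · intro i j hij t ht
    have hct := mem_cla.1 ht
    refine hstep _ _ ?_ ?_
    · rw [hct]
      intro h
      exact hij.ne (τ.injective (he h)).symm
    · rw [hct]
      exact hτ hij.le

end Vanish

end Pool.Agent.MP_6e5bed_ag
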