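import Pool.Agent.Lib.MP_6e5bed_ag.Perm
import Pool.Agent.Lib.MP_6e5bed_ag.Vanish

set_option autoImplicit false

/-!
# Maps between even and odd objects are tensor-nilpotent
-/

namespace Pool.Agent.MP_6e5bed_ag

open CategoryTheory MonoidalCategory Equiv

universe v u v' u'

section Via

theorem viaEmbedding_conj {m r : ℕ} (σ : Perm (Fin r)) (f : Fin r ↪ Fin m)
    (g : Perm (Fin m)) (f' : Fin r ↪ Fin m) (h : ∀ i, f' i = g (f i)) :
    σ.viaEmbedding f' = g * σ.viaEmbedding f * g⁻¹ := by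
  ext1 x
  by_cases hx : x ∈ Set.range f'
  · obtain ⟨i, rfl⟩ := hx
    rw [Perm.viaEmbedding_apply, Perm.mul_apply, Perm.mul_apply, h, h, Perm.inv_def,
      Equiv.symm_apply_apply, Perm.viaEmbedding_apply]
  · rw [Perm.viaEmbedding_apply_of_notMem _ _ _ hx, Perm.mul_apply, Perm.mul_apply,
      Perm.viaEmbedding_apply_of_notMem, Perm.inv_def, Equiv.apply_symm_apply]
    rintro ⟨i, hi⟩
    exact hx ⟨i, by rw [h, hi, Perm.inv_def, Equiv.apply_symm_apply]⟩

theorem viaEmbedding_trans {l m n : ℕ} (σ : Perm (Fin l)) (f : Fin l ↪ Fin m)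
    (g : Fin m ↪ Fin n) : σ.viaEmbedding (f.trans g) = (σ.viaEmbedding f).viaEmbedding g := by
  ext1 x
  by_cases hx : x ∈ Set.range g
  · obtain ⟨y, rfl⟩ := hx
    rw [Perm.viaEmbedding_apply]
    by_cases hy : y ∈ Set.range f
    · obtain ⟨z, rfl⟩ := hy
      rw [Perm.viaEmbedding_apply]
      exact Perm.viaEmbedding_apply σ (f.trans g) z
    · rw [Perm.viaEmbedding_apply_of_notMem _ _ _ hy, Perm.viaEmbedding_apply_of_notMem]
      rintro ⟨z, hz⟩
      exact hy ⟨z, g.injective hz⟩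
  · rw [Perm.viaEmbedding_apply_of_notMem _ _ _ hx, Perm.viaEmbedding_apply_of_notMem]
    rintro ⟨z, hz⟩
    exact hx ⟨f z, hz⟩

theorem viaEmbedding_refl {l : ℕ} (σ : Perm (Fin l)) :
    σ.viaEmbedding (Function.Embedding.refl _) = σ := by
  ext1 x
  exact Perm.viaEmbedding_apply σ (Function.Embedding.refl _) x

theorem exists_perm_embedding {m r : ℕ} (f f' : Fin r ↪ Fin m) :
    ∃ g : Perm (Fin m), ∀ i, f' i = g (f i) := by
  have h := Equiv.Perm.isMultiplyPretransitive (Fin m) r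
  obtain ⟨g, hg⟩ := h.exists_smul_eq f f'
  exact ⟨g, fun i => by rw [← hg]; rfl⟩

/-- The standard embedding. -/
def stEmb (r : ℕ) : (k : ℕ) → (Fin r ↪ Fin (r + k))
  | 0 => Function.Embedding.refl _
  | k + 1 => (stEmb r k).trans (Fin.succEmb (r + k))

end Via

section Kill

variable {C : Type u} [Category.{v} C] [MonoidalCategory C] [SymmetricCategory C]
  [Preadditive C]

/-- A combination of the permutations of the factors number `f 0, …, f (r - 1)`. -/
noncomputable def gCat (X : C) (m : ℕ) {r : ℕ} (c : Perm (Fin r) → ℤ) (f : Fin r ↪ Fin m) :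
    tpow X m ⟶ tpow X m :=
  ∑ σ : Perm (Fin r), c σ • (perm X m (σ.viaEmbedding f) : tpow X m ⟶ tpow X m)

theorem altOf_perm (X : C) (m : ℕ) {r : ℕ} (f : Fin r ↪ Fin m) :
    altOf (A := End (tpow X m)) (perm X m) f = gCat X m (fun σ => (Perm.sign σ : ℤ)) f := by
  unfold altOf gCat
  refine Finset.sum_congr rfl fun σ _ => ?_
  rw [← zsmul_eq_mul]

theorem symOf_perm (X : C) (m : ℕ) {r : ℕ} (f : Fin r ↪ Fin m) :
    symOf (A := End (tpow X m)) (perm X m) f = gCat X m (fun _ => 1) f := by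
  unfold symOf gCat
  refine Finset.sum_congr rfl fun σ _ => ?_
  rw [one_zsmul]

theorem gCat_conj (X : C) {m r : ℕ} (c : Perm (Fin r) → ℤ) (f f' : Fin r ↪ Fin m)
    (g : Perm (Fin m)) (h : ∀ i, f' i = g (f i)) :
    gCat X m c f' = (perm X m g⁻¹ : tpow X m ⟶ tpow X m) ≫ gCat X m c f ≫
      (perm X m g : tpow X m ⟶ tpow X m) := by
  unfold gCat
  rw [Preadditive.sum_comp, Preadditive.comp_sum]
  refine Finset.sum_congr rfl fun σ _ => ?_
  rw [Preadditive.zsmul_comp, Preadditive.comp_zsmul, viaEmbedding_conj σ f g f' h, map_mul,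
    map_mul]
  rfl

theorem gCat_nat {X Y : C} (a : X ⟶ Y) {m r : ℕ} (c : Perm (Fin r) → ℤ) (f : Fin r ↪ Fin m) :
    tmap a m ≫ gCat Y m c f = gCat X m c f ≫ tmap a m := by
  unfold gCat
  rw [Preadditive.comp_sum, Preadditive.sum_comp]
  refine Finset.sum_congr rfl fun σ _ => ?_
  rw [Preadditive.comp_zsmul, Preadditive.zsmul_comp, perm_naturality]

variable [MonoidalPreadditive C]

omit [SymmetricCategory C] in
theorem whiskerLeft_zsmul (X : C) {S T : C} (n : ℤ) (f : S ⟶ T) :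
    X ◁ (n • f) = n • (X ◁ f) :=
  (tensorLeft X).map_zsmul

omit [SymmetricCategory C] in
theorem tensor_kill {X T : C} (a : X ⟶ X) {A b : T ⟶ T} (h : A ≫ b = 0) :
    (X ◁ A) ≫ (a ⊗ₘ b) = 0 := by
  rw [← id_tensorHom, tensorHom_comp_tensorHom, h]
  exact MonoidalPreadditive.tensor_zero _

theorem gCat_succ (X : C) {m r : ℕ} (c : Perm (Fin r) → ℤ) (f : Fin r ↪ Fin m) :
    gCat X (m + 1) c (f.trans (Fin.succEmb m)) =
      (X ◁ gCat X m c f : tpow X (m + 1) ⟶ tpow X (m + 1)) := by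
  unfold gCat
  have h : ∀ σ : Perm (Fin r), c σ • (perm X (m + 1) (σ.viaEmbedding (f.trans (Fin.succEmb m))) :
      tpow X (m + 1) ⟶ tpow X (m + 1)) =
      (X ◁ (c σ • (perm X m (σ.viaEmbedding f) : tpow X m ⟶ tpow X m)) :
        tpow X (m + 1) ⟶ tpow X (m + 1)) := by
    intro σ
    rw [viaEmbedding_trans, perm_succ]
    exact (whiskerLeft_zsmul X (c σ) _).symm
  rw [Finset.sum_congr rfl fun σ _ => h σ]
  exact (whiskerLeft_sum X Finset.univ _).symm

theorem gCat_kill {X : C} {a : X ⟶ X} {r : ℕ} {c : Perm (Fin r) → ℤ}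
    (ha : (∑ σ : Perm (Fin r), c σ • (perm X r σ : tpow X r ⟶ tpow X r)) ≫ tmap a r = 0)
    {m : ℕ} (f : Fin r ↪ Fin m) : gCat X m c f ≫ tmap a m = 0 := by
  obtain ⟨k, rfl⟩ : ∃ k, m = r + k := by
    have h := Fintype.card_le_of_embedding f
    rw [Fintype.card_fin, Fintype.card_fin] at h
    exact ⟨m - r, by omega⟩
  have hst : ∀ k, gCat X (r + k) c (stEmb r k) ≫ tmap a (r + k) = 0 := by
    intro k
    induction k with
    | zero =>
      have h : gCat X r c (stEmb r 0) =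
          ∑ σ : Perm (Fin r), c σ • (perm X r σ : tpow X r ⟶ tpow X r) := by
        unfold gCat
        refine Finset.sum_congr rfl fun σ _ => ?_
        have h2 : σ.viaEmbedding (stEmb r 0) = σ := viaEmbedding_refl σ
        rw [h2]
      change gCat X r c (stEmb r 0) ≫ tmap a r = 0
      rw [h, ha]
    | succ k ih =>
      have h := gCat_succ X c (stEmb r k)
      change gCat X (r + k + 1) c ((stEmb r k).trans (Fin.succEmb (r + k))) ≫
        tmap a (r + k + 1) = 0
      rw [h]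
      exact tensor_kill a ih
  obtain ⟨g, hg⟩ := exists_perm_embedding (stEmb r k) f
  rw [gCat_conj X c (stEmb r k) f g hg, Category.assoc, Category.assoc, ← perm_naturality,
    ← Category.assoc (gCat X (r + k) c (stEmb r k)), hst k, Limits.zero_comp, Limits.comp_zero]

variable [Linear ℚ C]

omit [MonoidalPreadditive C] in
theorem tNil_of_kill {X : C} {y : X ⟶ X} {r s : ℕ}
    (hA : ∀ (m : ℕ) (f : Fin r ↪ Fin m), tmap y m ≫ gCat X m (fun σ => (Perm.sign σ : ℤ)) f = 0)
    (hB : ∀ (m : ℕ) (f : Fin s ↪ Fin m), tmap y m ≫ gCat X m (fun _ => 1) f = 0) : TNil y := by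
  refine ⟨(r - 1) * (s - 1) + 1, ?_⟩
  generalize hm : (r - 1) * (s - 1) + 1 = m
  let ρ : Perm (Fin m) →* Module.End ℚ (End (tpow X m)) :=
    ((Algebra.lmul ℚ (End (tpow X m))).toRingHom.toMonoidHom).comp (perm X m)
  have hρ : ∀ σ (z : End (tpow X m)), ρ σ z = perm X m σ * z := fun σ z => rfl
  have h1 : ∀ {l : ℕ} (f : Fin l ↪ Fin m) (z : End (tpow X m)),
      altOf ρ f z = altOf (A := End (tpow X m)) (perm X m) f * z := by
    intro l f z
    unfold altOf
    rw [LinearMap.sum_apply, Finset.sum_mul]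
    refine Finset.sum_congr rfl fun σ _ => ?_
    rw [← zsmul_eq_mul, ← zsmul_eq_mul, LinearMap.smul_apply, hρ, smul_mul_assoc]
  have h2 : ∀ {l : ℕ} (f : Fin l ↪ Fin m) (z : End (tpow X m)),
      symOf ρ f z = symOf (A := End (tpow X m)) (perm X m) f * z := by
    intro l f z
    unfold symOf
    rw [LinearMap.sum_apply, Finset.sum_mul]
    exact Finset.sum_congr rfl fun σ _ => hρ _ _
  refine vanish (r := r) (s := s) (by omega) ρ (tmap y m) ?_ ?_
  · intro f
    rw [h1, altOf_perm]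
    exact hA m f
  · intro f
    rw [h2, symOf_perm]
    exact hB m f

theorem tNil_comp {X : C} {a b : X ⟶ X} {r s : ℕ}
    (ha : altSum X r ≫ tmap a r = 0) (hb : symSum X s ≫ tmap b s = 0) :
    TNil (a ≫ b) ∧ TNil (b ≫ a) := by
  have hb' : (∑ σ : Perm (Fin s), (1 : ℤ) • (perm X s σ : tpow X s ⟶ tpow X s)) ≫
      tmap b s = 0 := by
    simp only [one_zsmul]
    exact hb
  have hA := fun (m : ℕ) (f : Fin r ↪ Fin m) =>
    gCat_kill (c := fun σ => (Perm.sign σ : ℤ)) ha f
  have hB := fun (m : ℕ) (f : Fin s ↪ Fin m) => gCat_kill (c := fun _ => 1) hb' f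
  constructor
  · refine tNil_of_kill (r := r) (s := s) ?_ ?_
    · intro m f
      rw [gCat_nat, tmap_comp, ← Category.assoc, hA, Limits.zero_comp]
    · intro m f
      rw [tmap_comp, Category.assoc, gCat_nat b, hB, Limits.comp_zero]
  · refine tNil_of_kill (r := r) (s := s) ?_ ?_
    · intro m f
      rw [tmap_comp, Category.assoc, gCat_nat a, hA, Limits.comp_zero]
    · intro m f
      rw [gCat_nat, tmap_comp, ← Category.assoc, hB, Limits.zero_comp]

end Kill

end Pool.Agent.MP_6e5bed_ag
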