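import Pool.Agent.Lib.MP_6e5bed_ag.T3

set_option autoImplicit false

/-!
# The traces of the symmetrisers
-/

namespace Pool.Agent.MP_6e5bed_ag

open CategoryTheory MonoidalCategory Equiv

universe v u

section T4perm

theorem decomp_eq {n : ℕ} (p : Fin (n + 1)) (σ : Perm (Fin n)) :
    Perm.decomposeFin.symm (p, σ) = swap 0 p * sh σ := by
  ext i
  refine Fin.cases ?_ (fun i => ?_) i
  · rw [Perm.decomposeFin_symm_apply_zero, Perm.mul_apply, sh_zero, swap_apply_left]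
  · rw [Perm.decomposeFin_symm_apply_succ, Perm.mul_apply, sh_succ]

theorem swap_succ_eq {m : ℕ} (p : Fin (m + 1)) :
    swap (0 : Fin (m + 2)) p.succ = sh (swap 0 p) * swap 0 1 * sh (swap 0 p) := by
  rw [mul_swap_eq_swap_mul, mul_assoc, ← sh_mul, swap_mul_self, sh_one, mul_one, sh_zero]
  have h : sh (swap (0 : Fin (m + 1)) p) 1 = p.succ := by
    have h1 := sh_succ (swap (0 : Fin (m + 1)) p) 0
    rw [swap_apply_left] at h1
    exact h1
  rw [h]

/-- the value of the character at the transpositions -/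
theorem chi_mul_self (χ : ℤˣ →* ℤ) (s : ℤˣ) : χ s * χ s = 1 := by
  rw [← map_mul, Int.units_mul_self, map_one]

end T4perm

section T4ps

variable {C : Type u} [Category.{v} C] [MonoidalCategory C] [SymmetricCategory C]

/-- the action of a permutation, as a morphism -/
noncomputable def ps (X : C) {n : ℕ} (σ : Perm (Fin n)) : tpow X n ⟶ tpow X n := perm X n σ

/-- a morphism on the last `n` factors of `n + 1` -/
def wl (X : C) {n : ℕ} (f : tpow X n ⟶ tpow X n) : tpow X (n + 1) ⟶ tpow X (n + 1) := X ◁ f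

theorem ps_comp (X : C) {n : ℕ} (σ τ : Perm (Fin n)) : ps X σ ≫ ps X τ = ps X (τ * σ) := by
  unfold ps
  rw [map_mul, End.mul_def]

theorem ps_one (X : C) (n : ℕ) : ps X (1 : Perm (Fin n)) = 𝟙 (tpow X n) := by
  unfold ps
  rw [map_one]
  rfl

theorem ps_sh (X : C) {n : ℕ} (σ : Perm (Fin n)) : ps X (sh σ) = wl X (ps X σ) :=
  perm_sh X n σ

omit [SymmetricCategory C] in
theorem wl_comp (X : C) {n : ℕ} (f g : tpow X n ⟶ tpow X n) : wl X (f ≫ g) = wl X f ≫ wl X g :=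
  MonoidalCategory.whiskerLeft_comp X f g

theorem ps_nat {X : C} (f : X ⟶ X) {n : ℕ} (σ : Perm (Fin n)) :
    tmap f n ≫ ps X σ = ps X σ ≫ tmap f n := perm_naturality f n σ

theorem ps_swap (X : C) (m : ℕ) : ps X (swap (0 : Fin (m + 2)) 1) = sw X (tpow X m) :=
  perm_adj X (m + 2) 0 (by omega)

theorem ps_swap_succ (X : C) {m : ℕ} (p : Fin (m + 1)) :
    ps X (swap (0 : Fin (m + 2)) p.succ) =
      wl X (ps X (swap 0 p)) ≫ ps X (swap (0 : Fin (m + 2)) 1) ≫ wl X (ps X (swap 0 p)) := by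
  rw [swap_succ_eq, mul_assoc, ← ps_comp, ← ps_comp, ps_sh, Category.assoc]

/-- the term with a transposition: the two factors are merged -/
theorem ptr_merge (X : C) [HasLeftDual X] (m : ℕ) (u w : X ⟶ X) (t : tpow X m ⟶ tpow X m) :
    ptr X (S := X ⊗ tpow X m) (T := X ⊗ tpow X m)
      (sw X (tpow X m) ≫ (u ⊗ₘ (w ⊗ₘ t))) = ((u ≫ w) ⊗ₘ t) := by
  have h1 : sw X (tpow X m) ≫ (u ⊗ₘ (w ⊗ₘ t)) =
      (X ◁ (u ▷ tpow X m)) ≫ sw X (tpow X m) ≫ X ◁ (w ⊗ₘ t) := by
    have h2 : sw X (tpow X m) ≫ (u ▷ (X ⊗ tpow X m)) =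
        (X ◁ (u ▷ tpow X m)) ≫ sw X (tpow X m) := by
      unfold sw
      have h3 := BraidedCategory.braiding_naturality_right X u
      have h4 : (X ◁ u ≫ (β_ X X).hom) ▷ tpow X m = ((β_ X X).hom ≫ u ▷ X) ▷ tpow X m := by
        rw [h3]
      rw [comp_whiskerRight, comp_whiskerRight] at h4
      calc _ = (α_ X X (tpow X m)).inv ≫ ((β_ X X).hom ▷ tpow X m ≫ u ▷ X ▷ tpow X m) ≫
            (α_ X X (tpow X m)).hom := by
            simp only [Category.assoc]
            rw [associator_naturality_left]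
        _ = (α_ X X (tpow X m)).inv ≫ ((X ◁ u) ▷ tpow X m ≫ (β_ X X).hom ▷ tpow X m) ≫
            (α_ X X (tpow X m)).hom := by rw [h4]
        _ = _ := by
            simp only [Category.assoc]
            rw [← associator_inv_naturality_middle_assoc]
    rw [MonoidalCategory.tensorHom_def u, ← Category.assoc, h2, Category.assoc]
  rw [h1, ptr_nat, ptr_sw, Category.id_comp, MonoidalCategory.tensorHom_def,
    MonoidalCategory.tensorHom_def, comp_whiskerRight, Category.assoc]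

end T4ps

section T4gsum

variable {C : Type u} [Category.{v} C] [MonoidalCategory C] [SymmetricCategory C]
  [Preadditive C]

/-- The (anti)symmetriser of a character of the sign. -/
noncomputable def gSum (χ : ℤˣ →* ℤ) (X : C) (n : ℕ) : tpow X n ⟶ tpow X n :=
  ∑ σ : Perm (Fin n), χ (Perm.sign σ) • ps X σ

theorem gSum_coe (X : C) (n : ℕ) : gSum (Units.coeHom ℤ) X n = altSum X n := rfl

theorem gSum_one (X : C) (n : ℕ) : gSum 1 X n = symSum X n := by
  unfold gSum symSum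
  refine Finset.sum_congr rfl fun σ _ => ?_
  rw [MonoidHom.one_apply, one_zsmul]
  rfl

theorem ps_gSum (χ : ℤˣ →* ℤ) (X : C) {n : ℕ} (g : Perm (Fin n)) :
    ps X g ≫ gSum χ X n = χ (Perm.sign g) • gSum χ X n := by
  unfold gSum
  rw [Preadditive.comp_sum, Finset.smul_sum]
  rw [← Equiv.sum_comp (Equiv.mulRight g) (fun σ => χ (Perm.sign g) • χ (Perm.sign σ) • ps X σ)]
  refine Finset.sum_congr rfl fun σ _ => ?_
  rw [Preadditive.comp_zsmul, ps_comp, Equiv.coe_mulRight, Perm.sign_mul, map_mul, smul_smul,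
    mul_comm (χ (Perm.sign σ)), ← mul_assoc, chi_mul_self, one_mul]

theorem gSum_ps (χ : ℤˣ →* ℤ) (X : C) {n : ℕ} (g : Perm (Fin n)) :
    gSum χ X n ≫ ps X g = χ (Perm.sign g) • gSum χ X n := by
  unfold gSum
  rw [Preadditive.sum_comp, Finset.smul_sum]
  rw [← Equiv.sum_comp (Equiv.mulLeft g) (fun σ => χ (Perm.sign g) • χ (Perm.sign σ) • ps X σ)]
  refine Finset.sum_congr rfl fun σ _ => ?_
  rw [Preadditive.zsmul_comp, ps_comp, Equiv.coe_mulLeft, Perm.sign_mul, map_mul, smul_smul,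
    ← mul_assoc, chi_mul_self, one_mul]

variable [MonoidalPreadditive C]

theorem gSum_succ (χ : ℤˣ →* ℤ) (X : C) (n : ℕ) :
    gSum χ X (n + 1) = wl X (gSum χ X n) +
      χ (-1) • ∑ p : Fin n, wl X (gSum χ X n) ≫ ps X (swap 0 p.succ) := by
  have hd : ∀ (p : Fin (n + 1)) (σ : Perm (Fin n)),
      ps X (Perm.decomposeFin.symm (p, σ)) = wl X (ps X σ) ≫ ps X (swap 0 p) := by
    intro p σ
    rw [decomp_eq, ← ps_comp, ps_sh]
  have hw : wl X (gSum χ X n) = ∑ σ : Perm (Fin n), χ (Perm.sign σ) • wl X (ps X σ) := by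
    unfold gSum
    refine (whiskerLeft_sum X Finset.univ _).trans ?_
    exact Finset.sum_congr rfl fun σ _ => whiskerLeft_zsmul X _ _
  have h1 : gSum χ X (n + 1) = ∑ p : Fin (n + 1), ∑ σ : Perm (Fin n),
      χ (Perm.sign (Perm.decomposeFin.symm (p, σ))) • ps X (Perm.decomposeFin.symm (p, σ)) := by
    unfold gSum
    rw [← Fintype.sum_prod_type', ← Equiv.sum_comp (Perm.decomposeFin (n := n)).symm]
  rw [h1, Fin.sum_univ_succ]
  congr 1
  · rw [hw]
    refine Finset.sum_congr rfl fun σ _ => ?_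
    rw [hd, Perm.decomposeFin.symm_sign, if_pos rfl, one_mul, swap_self]
    change _ • (_ ≫ ps X 1) = _
    rw [ps_one, Category.comp_id]
  · rw [Finset.smul_sum]
    refine Finset.sum_congr rfl fun p _ => ?_
    rw [hw, Preadditive.sum_comp, Finset.smul_sum]
    refine Finset.sum_congr rfl fun σ _ => ?_
    rw [hd, Perm.decomposeFin.symm_sign, if_neg (Fin.succ_ne_zero p), map_mul,
      Preadditive.zsmul_comp, smul_smul]

end T4gsum

section T4strip

variable {C : Type u} [Category.{v} C] [MonoidalCategory C] [SymmetricCategory C]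

/-- `u` on the first factor, `v` on the other ones -/
def um {X : C} (u v : X ⟶ X) (n : ℕ) : tpow X (n + 1) ⟶ tpow X (n + 1) := u ⊗ₘ tmap v n

/-- the trace over the first factor of a tensor power -/
def ptrp (X : C) [HasLeftDual X] {n : ℕ} (f : tpow X (n + 1) ⟶ tpow X (n + 1)) :
    tpow X n ⟶ tpow X n := ptr X (S := tpow X n) (T := tpow X n) f

omit [SymmetricCategory C] in
theorem um_self {X : C} (v : X ⟶ X) (n : ℕ) : um v v n = tmap v (n + 1) := rfl

theorem ptrp_wl_left (X : C) [HasLeftDual X] {n : ℕ} (g : tpow X n ⟶ tpow X n)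
    (f : tpow X (n + 1) ⟶ tpow X (n + 1)) : ptrp X (wl X g ≫ f) = g ≫ ptrp X f :=
  ptr_nat_left X g f

theorem ptrp_wl_right (X : C) [HasLeftDual X] {n : ℕ} (g : tpow X n ⟶ tpow X n)
    (f : tpow X (n + 1) ⟶ tpow X (n + 1)) : ptrp X (f ≫ wl X g) = ptrp X f ≫ g :=
  ptr_nat_right X f g

theorem ptrp_swap_um (X : C) [HasLeftDual X] (u v : X ⟶ X) (m : ℕ) :
    ptrp X (ps X (swap (0 : Fin (m + 2)) 1) ≫ um u v (m + 1)) = um (u ≫ v) v m := by
  rw [ps_swap]
  exact ptr_merge X m u v (tmap v m)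

theorem um_wl {X : C} (u v : X ⟶ X) {n : ℕ} (σ : Perm (Fin n)) :
    um u v n ≫ wl X (ps X σ) = wl X (ps X σ) ≫ um u v n := by
  have h : (u ⊗ₘ tmap v n) ≫ X ◁ ps X σ = X ◁ ps X σ ≫ (u ⊗ₘ tmap v n) := by
    rw [← id_tensorHom, tensorHom_comp_tensorHom, tensorHom_comp_tensorHom, ps_nat,
      Category.comp_id, Category.id_comp]
  exact h

variable [Preadditive C] [MonoidalPreadditive C]

theorem ptrp_add (X : C) [HasLeftDual X] {n : ℕ} (f g : tpow X (n + 1) ⟶ tpow X (n + 1)) :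
    ptrp X (f + g) = ptrp X f + ptrp X g := ptr_add X f g

theorem ptrp_zsmul (X : C) [HasLeftDual X] {n : ℕ} (c : ℤ)
    (f : tpow X (n + 1) ⟶ tpow X (n + 1)) : ptrp X (c • f) = c • ptrp X f := ptr_zsmul X c f

theorem ptrp_sum (X : C) [HasLeftDual X] {n : ℕ} {ι : Type*} (t : Finset ι)
    (f : ι → (tpow X (n + 1) ⟶ tpow X (n + 1))) :
    ptrp X (∑ i ∈ t, f i) = ∑ i ∈ t, ptrp X (f i) := ptr_sum X t f

omit [MonoidalPreadditive C] in
/-- one term of the strip formula -/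
theorem ptrp_term (χ : ℤˣ →* ℤ) (X : C) [HasLeftDual X] (u v : X ⟶ X) {m : ℕ}
    (p : Fin (m + 1)) :
    ptrp X (wl X (gSum χ X (m + 1)) ≫ ps X (swap (0 : Fin (m + 2)) p.succ) ≫ um u v (m + 1)) =
      χ (Perm.sign (swap 0 p)) •
        (gSum χ X (m + 1) ≫ um (u ≫ v) v m ≫ ps X (swap 0 p)) := by
  rw [ps_swap_succ, Category.assoc, Category.assoc, ← um_wl, ptrp_wl_left, ptrp_wl_left,
    ← Category.assoc (ps X (swap (0 : Fin (m + 2)) 1)), ptrp_wl_right, ptrp_swap_um,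
    ← Category.assoc (gSum χ X (m + 1)), gSum_ps, Preadditive.zsmul_comp]

variable [Linear ℚ C] [RatUnit C]

theorem ptrp_um (X : C) [HasLeftDual X] (u v : X ⟶ X) (n : ℕ) :
    ptrp X (um u v n) = tr X u • tmap v n := ptr_tensor X u (tmap v n)

/-- the strip formula -/
theorem ptrp_gSum (χ : ℤˣ →* ℤ) (X : C) [HasLeftDual X] (u v : X ⟶ X) (m : ℕ) :
    ptrp X (gSum χ X (m + 2) ≫ um u v (m + 1)) =
      tr X u • (gSum χ X (m + 1) ≫ tmap v (m + 1)) +
      χ (-1) • ∑ p : Fin (m + 1), χ (Perm.sign (swap 0 p)) •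
        (gSum χ X (m + 1) ≫ um (u ≫ v) v m ≫ ps X (swap 0 p)) := by
  rw [gSum_succ, Preadditive.add_comp, ptrp_add, ptrp_wl_left, ptrp_um, Linear.comp_smul,
    Preadditive.zsmul_comp, ptrp_zsmul, Preadditive.sum_comp, ptrp_sum]
  congr 2
  refine Finset.sum_congr rfl fun p _ => ?_
  rw [Category.assoc, ptrp_term]

omit [MonoidalPreadditive C] [Linear ℚ C] [RatUnit C] in
theorem gSum_zero (χ : ℤˣ →* ℤ) (X : C) : gSum χ X 0 = 𝟙 (tpow X 0) := by
  unfold gSum
  rw [Fintype.sum_subsingleton _ (1 : Perm (Fin 0)), Perm.sign_one, map_one, one_zsmul, ps_one]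

omit [MonoidalPreadditive C] [Linear ℚ C] [RatUnit C] in
theorem gSum_nat (χ : ℤˣ →* ℤ) {X : C} (f : X ⟶ X) (n : ℕ) :
    tmap f n ≫ gSum χ X n = gSum χ X n ≫ tmap f n := by
  unfold gSum
  rw [Preadditive.comp_sum, Preadditive.sum_comp]
  refine Finset.sum_congr rfl fun σ _ => ?_
  rw [Preadditive.comp_zsmul, Preadditive.zsmul_comp, ps_nat]

theorem ptrp_gSum_zero (χ : ℤˣ →* ℤ) (X : C) [HasLeftDual X] (u v : X ⟶ X) :
    ptrp X (gSum χ X 1 ≫ um u v 0) = tr X u • 𝟙 (tpow X 0) := by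
  rw [gSum_succ, Fin.sum_univ_zero, smul_zero, add_zero, ptrp_wl_left, ptrp_um, gSum_zero,
    Category.id_comp]
  rfl

/-- the strip formula for idempotents -/
theorem ptrp_gSum_idem (χ : ℤˣ →* ℤ) (X : C) [HasLeftDual X] {e : X ⟶ X} (he : e ≫ e = e)
    (n : ℕ) : ptrp X (gSum χ X (n + 1) ≫ tmap e (n + 1)) =
      (tr X e + (χ (-1) : ℚ) * n) • (gSum χ X n ≫ tmap e n) := by
  cases n with
  | zero =>
    rw [← um_self, ptrp_gSum_zero, Nat.cast_zero, mul_zero, add_zero, gSum_zero]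
    congr 1
    exact (Category.comp_id _).symm
  | succ m =>
    rw [← um_self, ptrp_gSum, he, um_self, add_smul]
    congr 1
    have h : ∀ p : Fin (m + 1), χ (Perm.sign (swap 0 p)) •
        (gSum χ X (m + 1) ≫ tmap e (m + 1) ≫ ps X (swap 0 p)) =
        gSum χ X (m + 1) ≫ tmap e (m + 1) := by
      intro p
      rw [ps_nat, ← Category.assoc, gSum_ps, Preadditive.zsmul_comp, smul_smul, chi_mul_self,
        one_smul]
    rw [Finset.sum_congr rfl fun p _ => h p, Finset.sum_const, Finset.card_univ,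
      Fintype.card_fin, mul_smul, Int.cast_smul_eq_zsmul, Nat.cast_smul_eq_nsmul]

end T4strip

section T4trace

variable {C : Type u} [Category.{v} C] [MonoidalCategory C] [SymmetricCategory C]
  [Preadditive C] [MonoidalPreadditive C] [Linear ℚ C] [RatUnit C]

/-- the trace on a tensor power -/
noncomputable def trp (X : C) [HasLeftDual X] (n : ℕ) (f : tpow X n ⟶ tpow X n) : ℚ :=
  @tr C _ _ _ _ _ (tpow X n) (tpowDual X n) _ f

omit [MonoidalPreadditive C] in
theorem trp_succ (X : C) [HasLeftDual X] (n : ℕ) (f : tpow X (n + 1) ⟶ tpow X (n + 1)) :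
    trp X (n + 1) f = trp X n (ptrp X f) :=
  @tr_eq_tr_ptr C _ _ _ _ _ _ X (tpow X n) _ (tpowDual X n) f

omit [MonoidalPreadditive C] in
theorem trp_zero_id (X : C) [HasLeftDual X] : trp X 0 (𝟙 (tpow X 0)) = 1 := by
  have h1 : trp X 0 (𝟙 (tpow X 0)) = sc (𝟙 (𝟙_ C)) := tr_unit (𝟙 (𝟙_ C))
  rw [h1]
  exact sc_eq (one_smul ℚ _).symm

theorem trp_smul (X : C) [HasLeftDual X] (n : ℕ) (c : ℚ) (f : tpow X n ⟶ tpow X n) :
    trp X n (c • f) = c * trp X n f := @tr_smul C _ _ _ _ _ _ _ (tpow X n) (tpowDual X n) c f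

theorem trp_add (X : C) [HasLeftDual X] (n : ℕ) (f g : tpow X n ⟶ tpow X n) :
    trp X n (f + g) = trp X n f + trp X n g :=
  @tr_add C _ _ _ _ _ _ _ (tpow X n) (tpowDual X n) f g

theorem trp_zero (X : C) [HasLeftDual X] (n : ℕ) : trp X n (0 : tpow X n ⟶ tpow X n) = 0 :=
  @tr_zero C _ _ _ _ _ _ _ (tpow X n) (tpowDual X n)

theorem trp_sum (X : C) [HasLeftDual X] (n : ℕ) {ι : Type*} (t : Finset ι)
    (f : ι → (tpow X n ⟶ tpow X n)) : trp X n (∑ i ∈ t, f i) = ∑ i ∈ t, trp X n (f i) :=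
  @tr_sum C _ _ _ _ _ _ _ (tpow X n) (tpowDual X n) ι t f

omit [MonoidalPreadditive C] in
theorem trp_comm (X : C) [HasLeftDual X] (n : ℕ) (f g : tpow X n ⟶ tpow X n) :
    trp X n (f ≫ g) = trp X n (g ≫ f) :=
  @tr_comm C _ _ _ _ _ _ (tpow X n) (tpowDual X n) f g

/-- the trace of the (anti)symmetriser on a direct summand -/
theorem trp_gSum_idem (χ : ℤˣ →* ℤ) (X : C) [HasLeftDual X] {e : X ⟶ X} (he : e ≫ e = e)
    (n : ℕ) : trp X n (gSum χ X n ≫ tmap e n) =
      ∏ k ∈ Finset.range n, (tr X e + (χ (-1) : ℚ) * k) := by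
  induction n with
  | zero =>
    rw [gSum_zero, Finset.range_zero, Finset.prod_empty, Category.id_comp]
    exact trp_zero_id X
  | succ n ih =>
    rw [trp_succ, ptrp_gSum_idem χ X he, trp_smul, ih, Finset.prod_range_succ, mul_comm]

theorem kill_descend (χ : ℤˣ →* ℤ) (X : C) [HasLeftDual X] {e : X ⟶ X} (he : e ≫ e = e)
    {n : ℕ} (h : gSum χ X (n + 1) ≫ tmap e (n + 1) = 0) :
    tr X e + (χ (-1) : ℚ) * n = 0 ∨ gSum χ X n ≫ tmap e n = 0 := by
  have h1 := ptrp_gSum_idem χ X he n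
  rw [h] at h1
  have h2 : ptrp X (0 : tpow X (n + 1) ⟶ tpow X (n + 1)) = 0 := ptr_zero X
  rw [h2] at h1
  exact smul_eq_zero.1 h1.symm

theorem exists_of_kill (χ : ℤˣ →* ℤ) (X : C) [HasLeftDual X] {e : X ⟶ X} (he : e ≫ e = e)
    {n : ℕ} (h : gSum χ X n ≫ tmap e n = 0) : ∃ k : ℕ, tr X e + (χ (-1) : ℚ) * k = 0 := by
  induction n with
  | zero =>
    rw [gSum_zero] at h
    have h1 : 𝟙 (𝟙_ C) ≫ 𝟙 (𝟙_ C) = 0 := h
    rw [Category.comp_id] at h1
    exact absurd h1 RatUnit.ne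
  | succ n ih =>
    rcases kill_descend χ X he h with h1 | h1
    · exact ⟨n, h1⟩
    · exact ih h1

theorem eq_zero_of_kill (χ : ℤˣ →* ℤ) (X : C) [HasLeftDual X] {e : X ⟶ X} (he : e ≫ e = e)
    (h0 : tr X e = 0) (hχ : χ (-1) ≠ 0)
    {n : ℕ} (h : gSum χ X n ≫ tmap e n = 0) : e = 0 := by
  induction n with
  | zero =>
    rw [gSum_zero] at h
    have h1 : 𝟙 (𝟙_ C) ≫ 𝟙 (𝟙_ C) = 0 := h
    rw [Category.comp_id] at h1
    exact absurd h1 RatUnit.ne
  | succ n ih =>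
    cases n with
    | zero =>
      rw [gSum_succ, Fin.sum_univ_zero, smul_zero, add_zero, gSum_zero] at h
      have h1 : X ◁ 𝟙 (𝟙_ C) ≫ (e ⊗ₘ 𝟙 (𝟙_ C)) = 0 := h
      rw [MonoidalCategory.whiskerLeft_id, Category.id_comp, tensorHom_id] at h1
      rw [← cancel_epi (ρ_ X).hom, ← rightUnitor_naturality, h1, Limits.zero_comp,
        Limits.comp_zero]
    | succ n =>
      rcases kill_descend χ X he h with h1 | h1
      · rw [h0, zero_add, mul_eq_zero] at h1
        rcases h1 with h1 | h1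
        · exact absurd (Int.cast_eq_zero.1 h1) hχ
        · rw [Nat.cast_eq_zero] at h1
          omega
      · exact ih h1

end T4trace

section T4

variable {C : Type u} [Category.{v} C] [MonoidalCategory C] [SymmetricCategory C]
  [Preadditive C] [MonoidalPreadditive C] [Linear ℚ C] [RatUnit C]

theorem ptr_alt (X : C) [HasLeftDual X] {e : X ⟶ X} (he : e ≫ e = e) (n : ℕ) :
    ptr X (altSum X (n + 1) ≫ tmap e (n + 1) : X ⊗ tpow X n ⟶ X ⊗ tpow X n) =
      (tr X e - n) • (altSum X n ≫ tmap e n) := by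
  have h := ptrp_gSum_idem (Units.coeHom ℤ) X he n
  rw [Units.coeHom_apply, Units.val_neg, Units.val_one, Int.cast_neg, Int.cast_one, neg_mul,
    one_mul, ← sub_eq_add_neg] at h
  exact h

theorem ptr_sym (X : C) [HasLeftDual X] {e : X ⟶ X} (he : e ≫ e = e) (n : ℕ) :
    ptr X (symSum X (n + 1) ≫ tmap e (n + 1) : X ⊗ tpow X n ⟶ X ⊗ tpow X n) =
      (tr X e + n) • (symSum X n ≫ tmap e n) := by
  have h := ptrp_gSum_idem 1 X he n
  rw [gSum_one, gSum_one, MonoidHom.one_apply, Int.cast_one, one_mul] at h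
  exact h

theorem alt_dim (X : C) [HasLeftDual X] {e : X ⟶ X} (he : e ≫ e = e) {n : ℕ}
    (h : altSum X n ≫ tmap e n = 0) : 0 ≤ tr X e ∧ (tr X e = 0 → e = 0) := by
  rw [← gSum_coe] at h
  constructor
  · obtain ⟨k, hk⟩ := exists_of_kill (Units.coeHom ℤ) X he h
    rw [Units.coeHom_apply, Units.val_neg, Units.val_one, Int.cast_neg, Int.cast_one, neg_mul,
      one_mul, ← sub_eq_add_neg, sub_eq_zero] at hk
    rw [hk]
    exact Nat.cast_nonneg k
  · intro h0
    exact eq_zero_of_kill (Units.coeHom ℤ) X he h0 (by simp) h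

theorem sym_dim (X : C) [HasLeftDual X] {e : X ⟶ X} (he : e ≫ e = e) {n : ℕ}
    (h : symSum X n ≫ tmap e n = 0) : tr X e ≤ 0 ∧ (tr X e = 0 → e = 0) := by
  rw [← gSum_one] at h
  constructor
  · obtain ⟨k, hk⟩ := exists_of_kill 1 X he h
    rw [MonoidHom.one_apply, Int.cast_one, one_mul] at hk
    have h1 : tr X e = -(k : ℚ) := eq_neg_of_add_eq_zero_left hk
    rw [h1]
    exact neg_nonpos.2 (Nat.cast_nonneg k)
  · intro h0
    exact eq_zero_of_kill 1 X he h0 (by simp) h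

theorem tr_pow_alt (X : C) [HasLeftDual X] {e : X ⟶ X} (he : e ≫ e = e) (n : ℕ) :
    @tr C _ _ _ _ _ (tpow X n) (tpowDual X n) _ (altSum X n ≫ tmap e n) =
      ∏ k ∈ Finset.range n, (tr X e - k) := by
  have h := trp_gSum_idem (Units.coeHom ℤ) X he n
  rw [gSum_coe] at h
  refine Eq.trans h (Finset.prod_congr rfl fun k _ => ?_)
  rw [Units.coeHom_apply, Units.val_neg, Units.val_one, Int.cast_neg, Int.cast_one, neg_mul,
    one_mul, ← sub_eq_add_neg]

theorem tr_pow_sym (X : C) [HasLeftDual X] {e : X ⟶ X} (he : e ≫ e = e) (n : ℕ) :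
    @tr C _ _ _ _ _ (tpow X n) (tpowDual X n) _ (symSum X n ≫ tmap e n) =
      ∏ k ∈ Finset.range n, (tr X e + k) := by
  have h := trp_gSum_idem 1 X he n
  rw [gSum_one] at h
  refine Eq.trans h (Finset.prod_congr rfl fun k _ => ?_)
  rw [MonoidHom.one_apply, Int.cast_one, one_mul]

end T4

end Pool.Agent.MP_6e5bed_ag
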