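import Pool.Agent.Lib.MP_6e5bed_ag.BPos
import Pool.Agent.Lib.MP_6e5bed_ag.Vanish
import Pool.Agent.Lib.MP_6e5bed_ag.Kill
import Pool.Agent.Lib.MP_6e5bed_ag.T4

set_option autoImplicit false

/-!
# The (anti)symmetrisers in the group algebra
-/

namespace Pool.Agent.MP_6e5bed_ag

open MonoidAlgebra Equiv VanishAux

section BGrp

variable {N : ℕ}

/-- the permutations of the points `b 0, …, b (n - 1)` -/
noncomputable def via {n : ℕ} (b : Fin n ↪ Fin N) :
    MonoidAlgebra ℚ (Perm (Fin n)) →ₐ[ℚ] MonoidAlgebra ℚ (Perm (Fin N)) :=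
  MonoidAlgebra.lift ℚ _ _ ((MonoidAlgebra.of ℚ (Perm (Fin N))).comp (Perm.viaEmbeddingHom b))

theorem via_single {n : ℕ} (b : Fin n ↪ Fin N) (σ : Perm (Fin n)) (c : ℚ) :
    via b (single σ c) = single (σ.viaEmbedding b) c := by
  unfold via
  rw [lift_single, MonoidHom.comp_apply, Perm.viaEmbeddingHom_apply, of_apply, smul_single,
    smul_eq_mul, mul_one]

/-- the (anti)symmetriser of the points `f 0, …, f (r - 1)` -/
noncomputable def gOf (χ : ℤˣ →* ℤ) {r : ℕ} (f : Fin r ↪ Fin N) :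
    MonoidAlgebra ℚ (Perm (Fin N)) :=
  ∑ σ : Perm (Fin r), single (σ.viaEmbedding f) (χ (Perm.sign σ) : ℚ)

theorem gOf_gst (χ : ℤˣ →* ℤ) {r : ℕ} (f : Fin r ↪ Fin N) : gst (gOf χ f) = gOf χ f := by
  have h : ∀ (s : Finset (Perm (Fin r))) (F : Perm (Fin r) → MonoidAlgebra ℚ (Perm (Fin N))),
      gst (∑ σ ∈ s, F σ) = ∑ σ ∈ s, gst (F σ) := by
    classical
    intro s F
    induction s using Finset.induction_on with
    | empty => rw [Finset.sum_empty, Finset.sum_empty, gst_zero]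
    | insert a s ha ih => rw [Finset.sum_insert ha, Finset.sum_insert ha, gst_add, ih]
  unfold gOf
  rw [h, ← Equiv.sum_comp (Equiv.inv (Perm (Fin r)))
    fun σ => single (σ.viaEmbedding f) (χ (Perm.sign σ) : ℚ)]
  refine Finset.sum_congr rfl fun σ _ => ?_
  rw [gst_single, Equiv.inv_apply, Perm.sign_inv, via_inv]

theorem single_mul_gOf (χ : ℤˣ →* ℤ) {r : ℕ} (f : Fin r ↪ Fin N) (g : Perm (Fin r)) :
    single (g.viaEmbedding f) (1 : ℚ) * gOf χ f = (χ (Perm.sign g) : ℚ) • gOf χ f := by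
  unfold gOf
  rw [Finset.mul_sum, Finset.smul_sum, ← Equiv.sum_comp (Equiv.mulLeft g) fun σ =>
    (χ (Perm.sign g) : ℚ) • single (σ.viaEmbedding f) (χ (Perm.sign σ) : ℚ)]
  refine Finset.sum_congr rfl fun σ _ => ?_
  rw [single_mul_single, Equiv.coe_mulLeft, via_mul, Perm.sign_mul, map_mul, smul_single,
    smul_eq_mul, Int.cast_mul, ← mul_assoc, ← Int.cast_mul, chi_mul_self, Int.cast_one]

theorem gOf_mul_self (χ : ℤˣ →* ℤ) {r : ℕ} (f : Fin r ↪ Fin N) :
    gOf χ f * gOf χ f = (r.factorial : ℚ) • gOf χ f := by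
  have h : gOf χ f * gOf χ f = ∑ σ : Perm (Fin r), gOf χ f := by
    conv_lhs => rw [gOf, Finset.sum_mul]
    refine Finset.sum_congr rfl fun σ _ => ?_
    have h1 : single (σ.viaEmbedding f) (χ (Perm.sign σ) : ℚ) =
        (χ (Perm.sign σ) : ℚ) • single (σ.viaEmbedding f) (1 : ℚ) := by
      rw [smul_single, smul_eq_mul, mul_one]
    rw [h1, smul_mul_assoc, ← gOf, single_mul_gOf, smul_smul, ← Int.cast_mul, chi_mul_self,
      Int.cast_one, one_smul]
  rw [h, Finset.sum_const, Finset.card_univ, Fintype.card_perm, Fintype.card_fin,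
    Nat.cast_smul_eq_nsmul]

theorem gOf_succ (χ : ℤˣ →* ℤ) {k : ℕ} (f : Fin (k + 1) ↪ Fin N) :
    gOf χ f = (1 + (χ (-1) : ℚ) • ∑ j : Fin k, single (swap (f 0) (f j.succ)) (1 : ℚ)) *
      gOf χ ((Fin.succEmb k).trans f) := by
  have h1 : gOf χ f = ∑ p : Fin (k + 1), ∑ e : Perm (Fin k),
      single ((Perm.decomposeFin.symm (p, e)).viaEmbedding f)
        (χ (Perm.sign (Perm.decomposeFin.symm (p, e))) : ℚ) := by
    unfold gOf
    rw [← Fintype.sum_prod_type', ← Equiv.sum_comp (Perm.decomposeFin (n := k)).symm]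
  rw [h1, Fin.sum_univ_succ, add_mul, one_mul]
  congr 1
  · unfold gOf
    refine Finset.sum_congr rfl fun e _ => ?_
    rw [Perm.decomposeFin.symm_sign, if_pos rfl, one_mul, via_dec, swap_self]
    congr 1
  · rw [smul_mul_assoc, Finset.sum_mul, Finset.smul_sum]
    refine Finset.sum_congr rfl fun j _ => ?_
    unfold gOf
    rw [Finset.mul_sum, Finset.smul_sum]
    refine Finset.sum_congr rfl fun e _ => ?_
    rw [Perm.decomposeFin.symm_sign, if_neg (Fin.succ_ne_zero j), via_dec, single_mul_single,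
      smul_single, smul_eq_mul, one_mul, map_mul, Int.cast_mul]

/-- permutations of disjoint sets of points commute -/
theorem via_disjoint {r n : ℕ} (f : Fin r ↪ Fin N) (b : Fin n ↪ Fin N)
    (hd : ∀ i j, f i ≠ b j) (σ : Perm (Fin r)) (τ : Perm (Fin n)) :
    σ.viaEmbedding f * τ.viaEmbedding b = τ.viaEmbedding b * σ.viaEmbedding f := by
  refine (Perm.Disjoint.commute ?_).eq
  intro x
  by_cases hx : x ∈ Set.range f
  · right
    apply Perm.viaEmbedding_apply_of_notMem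
    rintro ⟨j, hj⟩
    obtain ⟨i, hi⟩ := hx
    exact hd i j (hi.trans hj.symm)
  · left
    exact Perm.viaEmbedding_apply_of_notMem _ _ _ hx

theorem gOf_via (χ : ℤˣ →* ℤ) {r n : ℕ} (f : Fin r ↪ Fin N) (b : Fin n ↪ Fin N)
    (hd : ∀ i j, f i ≠ b j) (z : MonoidAlgebra ℚ (Perm (Fin n))) :
    gOf χ f * via b z = via b z * gOf χ f := by
  induction z using induction_linear with
  | zero => rw [map_zero, mul_zero, zero_mul]
  | add x y hx hy => rw [map_add, mul_add, hx, hy, add_mul]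
  | single g a =>
    rw [via_single]
    unfold gOf
    rw [Finset.mul_sum, Finset.sum_mul]
    refine Finset.sum_congr rfl fun σ _ => ?_
    rw [single_mul_single, single_mul_single, via_disjoint f b hd, mul_comm a]

/-- the points `a, f 0, …, f (r - 1)` -/
def consEmb {r : ℕ} (a : Fin N) (f : Fin r ↪ Fin N) (h : ∀ i, f i ≠ a) :
    Fin (r + 1) ↪ Fin N where
  toFun := Fin.cons a f
  inj' := by
    rw [Fin.cons_injective_iff]
    exact ⟨fun ⟨i, hi⟩ => h i hi, f.injective⟩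

theorem consEmb_zero {r : ℕ} (a : Fin N) (f : Fin r ↪ Fin N) (h : ∀ i, f i ≠ a) :
    consEmb a f h 0 = a := rfl

theorem consEmb_succ {r : ℕ} (a : Fin N) (f : Fin r ↪ Fin N) (h : ∀ i, f i ≠ a) (i : Fin r) :
    consEmb a f h i.succ = f i := rfl

theorem consEmb_trans {r : ℕ} (a : Fin N) (f : Fin r ↪ Fin N) (h : ∀ i, f i ≠ a) :
    (Fin.succEmb r).trans (consEmb a f h) = f := by
  ext i
  rfl

/-- case I in the group algebra -/
theorem grp_case (χ : ℤˣ →* ℤ) {n m : ℕ} (b : Fin n ↪ Fin N) (f : Fin m ↪ Fin N)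
    (hd : ∀ i j, f i ≠ b j) {A : Type*} [Ring A] [Algebra ℚ A]
    (φ : MonoidAlgebra ℚ (Perm (Fin N)) →ₐ[ℚ] A) (z : MonoidAlgebra ℚ (Perm (Fin n)))
    (c : ℚ) (hc : (n : ℚ) + (χ (-1) : ℚ) * m * c < 0)
    (h : ∀ k : Fin m, φ ((∑ j : Fin n, single (swap (b j) (f k)) (1 : ℚ)) * via b z) =
      c • φ (via b z)) : φ (gOf χ f * via b z) = 0 := by
  obtain ⟨Z, hZ⟩ : ∃ Z, Z = via b z := ⟨_, rfl⟩
  have hcomm : gOf χ f * Z = Z * gOf χ f := by rw [hZ, gOf_via χ f b hd]
  rw [← hZ] at h ⊢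
  obtain ⟨F, hF⟩ : ∃ F : Fin n → (Fin (m + 1) ↪ Fin N),
      F = fun j => consEmb (b j) f fun i => hd i j := ⟨_, rfl⟩
  have hF1 : ∀ j, gOf χ (F j) =
      (1 + (χ (-1) : ℚ) • ∑ k : Fin m, single (swap (b j) (f k)) (1 : ℚ)) * gOf χ f := by
    intro j
    rw [gOf_succ, hF, consEmb_trans]
    rfl
  -- the sum of the symmetrisers of `m + 1` points
  have hsum : φ (∑ j, gOf χ (F j) * Z) =
      ((n : ℚ) + (χ (-1) : ℚ) * m * c) • φ (gOf χ f * Z) := by
    have h1 : ∑ j, gOf χ (F j) * Z = (n : ℚ) • (Z * gOf χ f) + (χ (-1) : ℚ) •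
        ∑ k : Fin m, ((∑ j : Fin n, single (swap (b j) (f k)) (1 : ℚ)) * Z) * gOf χ f := by
      have h2 : ∀ j, gOf χ (F j) * Z = Z * gOf χ f + (χ (-1) : ℚ) •
          ∑ k : Fin m, single (swap (b j) (f k)) (1 : ℚ) * (Z * gOf χ f) := by
        intro j
        rw [hF1, mul_assoc, hcomm, add_mul, one_mul, smul_mul_assoc, Finset.sum_mul]
      rw [Finset.sum_congr rfl fun j _ => h2 j, Finset.sum_add_distrib, Finset.sum_const,
        Finset.card_univ, Fintype.card_fin, ← Nat.cast_smul_eq_nsmul ℚ, ← Finset.smul_sum,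
        Finset.sum_comm]
      congr 2
      refine Finset.sum_congr rfl fun k _ => ?_
      rw [mul_assoc, Finset.sum_mul]
    rw [h1, map_add, map_smul, map_smul, map_sum]
    have h3 : ∀ k : Fin m, φ (((∑ j : Fin n, single (swap (b j) (f k)) (1 : ℚ)) * Z) *
        gOf χ f) = c • φ (gOf χ f * Z) := by
      intro k
      rw [map_mul, h, smul_mul_assoc, ← map_mul, hcomm]
    rw [Finset.sum_congr rfl fun k _ => h3 k, Finset.sum_const, Finset.card_univ,
      Fintype.card_fin, ← Nat.cast_smul_eq_nsmul ℚ, hcomm, smul_smul, smul_smul, ← add_smul,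
      mul_assoc]
  -- positivity
  have hfac : (0 : ℚ) < m.factorial := by exact_mod_cast m.factorial_pos
  have hfac1 : (0 : ℚ) < (m + 1).factorial := by exact_mod_cast (m + 1).factorial_pos
  have hx : ∀ j, gst (gOf χ (F j) * Z) * (gOf χ (F j) * Z) =
      ((m + 1).factorial : ℚ) • (gst Z * (gOf χ (F j) * Z)) := by
    intro j
    rw [gst_mul, gOf_gst, mul_assoc, ← mul_assoc (gOf χ (F j)), gOf_mul_self, smul_mul_assoc,
      mul_smul_comm]
  have hy : gst (gOf χ f * Z) * (gOf χ f * Z) =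
      (m.factorial : ℚ) • (gst Z * (gOf χ f * Z)) := by
    rw [gst_mul, gOf_gst, mul_assoc, ← mul_assoc (gOf χ f), gOf_mul_self, smul_mul_assoc,
      mul_smul_comm]
  obtain ⟨d, hd'⟩ : ∃ d : ℚ, d = (n : ℚ) + (χ (-1) : ℚ) * m * c := ⟨_, rfl⟩
  rw [← hd'] at hc hsum
  have hpos := pos_sum φ (ι := Option (Fin n))
    (fun j => match j with
      | none => ((m + 1).factorial : ℚ) * (-d) / m.factorial
      | some _ => 1)
    (fun j => match j with
      | none => div_pos (mul_pos hfac1 (neg_pos.2 hc)) hfac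
      | some _ => one_pos)
    (fun j => match j with
      | none => gOf χ f * Z
      | some j => gOf χ (F j) * Z)
    (by
      rw [Fintype.sum_option]
      simp only [one_smul]
      rw [hy, smul_smul, Finset.sum_congr rfl fun j _ => hx j, ← Finset.smul_sum,
        ← Finset.mul_sum, map_add, map_smul, map_smul, map_mul φ (gst Z) (gOf χ f * Z),
        map_mul φ (gst Z) (∑ j, gOf χ (F j) * Z), hsum, mul_smul_comm, smul_smul, ← add_smul]
      have e1 : ((m + 1).factorial : ℚ) * (-d) / m.factorial * m.factorial +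
          (m + 1).factorial * d = 0 := by
        field_simp
        ring
      rw [e1, zero_smul]) none
  exact hpos

end BGrp

end Pool.Agent.MP_6e5bed_ag
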