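import Pool.Agent.Lib.MP_6e5bed_ag.BMain
import Mathlib.RingTheory.Idempotents

set_option autoImplicit false

/-!
# Back from the numerical quotient
-/

namespace Pool.Agent.MP_6e5bed_ag

open CategoryTheory MonoidalCategory Equiv

universe v u v' u'

section BLiftFun

variable {C : Type u} [Category.{v} C] [MonoidalCategory C] [SymmetricCategory C]
  {D : Type u'} [Category.{v'} D] [MonoidalCategory D] [SymmetricCategory D]
  [Preadditive C] [Preadditive D] (F : C ⥤ D) [F.Braided] [F.Additive]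

theorem map_gSum (χ : ℤˣ →* ℤ) (X : C) (n : ℕ) :
    F.map (gSum χ X n) ≫ (powIso F X n).hom = (powIso F X n).hom ≫ gSum χ (F.obj X) n := by
  unfold gSum
  rw [Functor.map_sum, Preadditive.sum_comp, Preadditive.comp_sum]
  refine Finset.sum_congr rfl fun σ _ => ?_
  rw [Functor.map_zsmul, Preadditive.zsmul_comp, Preadditive.comp_zsmul]
  congr 1
  exact powIso_perm F X n σ

theorem map_kill_iff (χ : ℤˣ →* ℤ) {X : C} (e : X ⟶ X) (n : ℕ) :
    F.map (gSum χ X n ≫ tmap e n) = 0 ↔ gSum χ (F.obj X) n ≫ tmap (F.map e) n = 0 := by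
  have h1 : F.map (gSum χ X n ≫ tmap e n) ≫ (powIso F X n).hom =
      (powIso F X n).hom ≫ gSum χ (F.obj X) n ≫ tmap (F.map e) n := by
    rw [F.map_comp, Category.assoc, powIso_tmap, ← Category.assoc, map_gSum, Category.assoc]
  constructor
  · intro h
    rw [h, Limits.zero_comp] at h1
    rw [← cancel_epi (powIso F X n).hom, ← h1, Limits.comp_zero]
  · intro h
    rw [h, Limits.comp_zero] at h1
    rw [← cancel_mono (powIso F X n).hom, h1, Limits.zero_comp]

theorem OpKF.map {X : C} (h : OpKF X) : OpKF (F.obj X) := by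
  obtain ⟨e, he, ⟨r, hr⟩, s, hs⟩ := h
  rw [← gSum_coe] at hr
  rw [← gSum_one] at hs
  refine ⟨F.map e, ?_, ⟨r, ?_⟩, s, ?_⟩
  · rw [← F.map_comp, he]
  · rw [← gSum_coe, ← map_kill_iff, hr, F.map_zero]
  · have h1 : 𝟙 (F.obj X) - F.map e = F.map (𝟙 X - e) := by
      rw [F.map_sub, F.map_id]
    rw [← gSum_one, h1, ← map_kill_iff, hs, F.map_zero]

variable [Linear ℚ C] [Linear ℚ D]

theorem map_za (X : C) {n : ℕ} (z : MonoidAlgebra ℚ (Perm (Fin n))) :
    F.map (za X z) ≫ (powIso F X n).hom = (powIso F X n).hom ≫ za (F.obj X) z := by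
  rw [za_eq, za_eq, Functor.map_sum, Preadditive.sum_comp, Preadditive.comp_sum]
  refine Finset.sum_congr rfl fun σ _ => ?_
  have h1 : F.map (z.coeff σ • ps X σ) = z.coeff σ • F.map (ps X σ) := by
    let G : (tpow X n ⟶ tpow X n) →+ (F.obj (tpow X n) ⟶ F.obj (tpow X n)) := F.mapAddHom
    exact G.toRatLinearMap.map_smul (z.coeff σ) (ps X σ)
  rw [h1, Linear.smul_comp, Linear.comp_smul]
  congr 1
  exact powIso_perm F X n σ

end BLiftFun

section BLift

variable {C : Type u} [Category.{v} C] [MonoidalCategory C] [SymmetricCategory C]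
  [Preadditive C] [MonoidalPreadditive C] [Linear ℚ C] [RatUnit C] [LeftRigidCategory C]

/-- From the numerical quotient to `C`. -/
theorem opKF_of_phantom {M B : C} {n : ℕ} (hn : 0 < n)
    (z : MonoidAlgebra ℚ (Perm (Fin n))) (i : B ⟶ tpow M n) (r : tpow M n ⟶ B)
    (hir : i ≫ r = 𝟙 B) (hri : r ≫ i = za M z) (hB : OpKF B) (h0 : 𝟙 B ≠ 0)
    (hph : ∀ (χ : ℤˣ →* ℤ) (e : M ⟶ M) (m : ℕ), e ≫ e = e → NumZ (gSum χ M m ≫ tmap e m) →
      gSum χ M m ≫ tmap e m = 0) : OpKF M := by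
  obtain ⟨F, hF⟩ : ∃ F : C ⥤ TQ (numIdeal C), F = TQ.proj (numIdeal C) := ⟨_, rfl⟩
  have hzero : ∀ {X Y : C} (f : X ⟶ Y), (TQ.proj (numIdeal C)).map f = 0 ↔ NumZ f :=
    fun f => TQ.proj_map_eq_zero (numIdeal C) f
  clear hF F
  obtain ⟨φ, hφ⟩ : ∃ φ, φ = powIso (TQ.proj (numIdeal C)) M n := ⟨_, rfl⟩
  have h1 : OpKF ((TQ.proj (numIdeal C)).obj M) := by
    refine main_red hn z ((TQ.proj (numIdeal C)).map i ≫ φ.hom)
      (φ.inv ≫ (TQ.proj (numIdeal C)).map r) ?_ ?_ (hB.map (TQ.proj (numIdeal C))) ?_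
    · rw [Category.assoc, Iso.hom_inv_id_assoc, ← Functor.map_comp, hir, CategoryTheory.Functor.map_id]
    · rw [Category.assoc, ← Category.assoc ((TQ.proj (numIdeal C)).map r), ← Functor.map_comp,
        hri, hφ, map_za, Iso.inv_hom_id_assoc]
    · intro h2
      rw [← CategoryTheory.Functor.map_id, hzero] at h2
      obtain ⟨g, hg⟩ := exists_tr_ne hB h0
      apply hg
      have h3 := h2 g
      rwa [Category.id_comp] at h3
  obtain ⟨e₁, he₁, ⟨a, ha⟩, b, hb⟩ := h1
  -- lift the idempotent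
  let R : End M →+* End ((TQ.proj (numIdeal C)).obj M) :=
    { toFun := fun f => (TQ.proj (numIdeal C)).map f
      map_one' := (TQ.proj (numIdeal C)).map_id M
      map_mul' := fun f g => by
        rw [End.mul_def, End.mul_def, Functor.map_comp]
      map_zero' := (TQ.proj (numIdeal C)).map_zero M M
      map_add' := fun f g => (TQ.proj (numIdeal C)).map_add }
  obtain ⟨e, he, hee⟩ := exists_isIdempotentElem_eq_of_ker_isNilpotent R
    (fun x hx => nil_of_act hn z i r hir hri hB h0 ((hzero (show M ⟶ M from x)).1 hx))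
    e₁ ⟨((TQ.proj (numIdeal C)).map_surjective e₁).choose,
      ((TQ.proj (numIdeal C)).map_surjective e₁).choose_spec⟩ he₁
  have he' : (show M ⟶ M from e) ≫ (show M ⟶ M from e) = (show M ⟶ M from e) := he
  have hee' : (TQ.proj (numIdeal C)).map (show M ⟶ M from e) = e₁ := hee
  obtain ⟨f, hf⟩ : ∃ f : M ⟶ M, f = e := ⟨_, rfl⟩
  have hff : f ≫ f = f := by
    rw [hf]
    exact he'
  have hfe : (TQ.proj (numIdeal C)).map f = e₁ := by
    rw [hf]
    exact hee'
  refine ⟨f, hff, ⟨a, ?_⟩, b, ?_⟩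
  · rw [← gSum_coe]
    apply hph _ _ _ hff
    rw [← hzero, map_kill_iff, hfe, gSum_coe, ha]
  · rw [← gSum_one]
    apply hph
    · simp only [Preadditive.sub_comp, Preadditive.comp_sub, Category.id_comp,
        Category.comp_id, hff, sub_self, sub_zero]
    · rw [← hzero, map_kill_iff, Functor.map_sub, CategoryTheory.Functor.map_id, hfe, gSum_one, hb]

end BLift

end Pool.Agent.MP_6e5bed_ag
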