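import Pool.Agent.Lib.MP_6e5bed_ag.SNil

set_option autoImplicit false

/-!
# Nilpotency of the numerically trivial endomorphisms of `M`, if a part of a tensor power of `M` is
Kimura-finite
-/

namespace Pool.Agent.MP_6e5bed_ag

open CategoryTheory MonoidalCategory Equiv

universe v u

section SAct

variable {C : Type u} [Category.{v} C] [MonoidalCategory C] [SymmetricCategory C]
  [Preadditive C] [MonoidalPreadditive C] [Linear ℚ C] [RatUnit C]

omit [MonoidalPreadditive C] in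
theorem NumZ.comp_right {X Y Z : C} [HasLeftDual X] {f : X ⟶ Y} (hf : NumZ f) (g : Y ⟶ Z) :
    NumZ (f ≫ g) := by
  intro k
  rw [Category.assoc]
  exact hf _

omit [MonoidalPreadditive C] in
theorem NumZ.comp_left {X Y Z : C} [HasLeftDual X] [HasLeftDual Y] (f : X ⟶ Y) {g : Y ⟶ Z}
    (hg : NumZ g) : NumZ (f ≫ g) := by
  intro k
  rw [Category.assoc, tr_cyc, Category.assoc]
  exact hg _

theorem NumZ.add {X Y : C} [HasLeftDual X] {f g : X ⟶ Y} (hf : NumZ f) (hg : NumZ g) :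
    NumZ (f + g) := by
  intro k
  rw [Preadditive.add_comp, tr_add, hf k, hg k, add_zero]

theorem numZ_zero (X Y : C) [HasLeftDual X] : NumZ (0 : X ⟶ Y) := by
  intro k
  rw [Limits.zero_comp, tr_zero]

theorem NumZ.sum {X Y : C} [HasLeftDual X] {ι : Type*} (t : Finset ι) {f : ι → (X ⟶ Y)}
    (hf : ∀ i ∈ t, NumZ (f i)) : NumZ (∑ i ∈ t, f i) := by
  intro k
  rw [Preadditive.sum_comp, tr_sum]
  exact Finset.sum_eq_zero fun i hi => hf i hi k

theorem numZ_whiskerRight (X : C) {Y Z : C} [HasLeftDual X] [HasLeftDual Y] {f : Y ⟶ Z}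
    (h : NumZ f) : @NumZ C _ _ _ _ _ _ (Y ⊗ X) (Z ⊗ X) hasLeftDualTensor (f ▷ X) := by
  intro k
  have h1 : f ▷ X = (β_ Y X).hom ≫ X ◁ f ≫ (β_ X Z).hom := by
    rw [BraidedCategory.braiding_naturality_right, SymmetricCategory.symmetry_assoc]
  have h2 : f ▷ X ≫ k = (β_ Y X).hom ≫ (X ◁ f ≫ (β_ X Z).hom ≫ k) := by
    rw [h1, Category.assoc, Category.assoc]
  rw [h2, @tr_cyc C _ _ _ _ _ _ (Y ⊗ X) (X ⊗ Y) hasLeftDualTensor hasLeftDualTensor,
    Category.assoc]
  exact numZ_whiskerLeft X h _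

theorem numZ_sl {M : C} [HasLeftDual M] {f : M ⟶ M} (h : NumZ f) (n : ℕ) (i : Fin n) :
    @NumZ C _ _ _ _ _ _ (tpow M n) (tpow M n) (tpowDual M n) (sl f n i) := by
  induction n with
  | zero => exact i.elim0
  | succ n ih =>
    refine Fin.cases ?_ (fun j => ?_) i
    · exact @numZ_whiskerRight C _ _ _ _ _ _ _ (tpow M n) M M (tpowDual M n) _ f h
    · exact @numZ_whiskerLeft C _ _ _ _ _ _ _ M (tpow M n) (tpow M n) _ (tpowDual M n) _ (ih j)

omit [MonoidalPreadditive C] in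
theorem numZ_pow {M : C} [HasLeftDual M] {f : M ⟶ M} (h : NumZ f) (k : ℕ) (hk : 0 < k) :
    NumZ (show M ⟶ M from (show End M from f) ^ k) := by
  obtain ⟨l, rfl⟩ : ∃ l, k = l + 1 := ⟨k - 1, by omega⟩
  rw [pow_succ]
  exact h.comp_right (show M ⟶ M from (show End M from f) ^ l)

omit [Linear ℚ C] [RatUnit C] [MonoidalPreadditive C] in
theorem slSum_ps {M : C} (f : M ⟶ M) (n : ℕ) (σ : Perm (Fin n)) :
    ps M σ ≫ ∑ j, sl f n j = (∑ j, sl f n j) ≫ ps M σ := by
  rw [Preadditive.comp_sum, Preadditive.sum_comp, ← Equiv.sum_comp σ]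
  exact Finset.sum_congr rfl fun j _ => (sl_ps f n j σ).symm

omit [RatUnit C] [MonoidalPreadditive C] in
theorem slSum_za {M : C} (f : M ⟶ M) {n : ℕ} (z : MonoidAlgebra ℚ (Perm (Fin n))) :
    za M z ≫ ∑ j, sl f n j = (∑ j, sl f n j) ≫ za M z := by
  rw [za_eq, Preadditive.sum_comp, Preadditive.comp_sum]
  refine Finset.sum_congr rfl fun σ _ => ?_
  rw [Linear.smul_comp, Linear.comp_smul, slSum_ps]

/-- a nonzero Kimura-finite object is not numerically trivial -/
theorem exists_tr_ne {B : C} [HasLeftDual B] (hB : OpKF B) (h0 : 𝟙 B ≠ 0) :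
    ∃ g : B ⟶ B, tr B g ≠ 0 := by
  by_contra hcon
  push Not at hcon
  have h1 : NumZ (𝟙 B) := fun g => by
    rw [Category.id_comp]
    exact hcon g
  obtain ⟨k, hk⟩ := nilp hB h1
  apply h0
  have h2 : (show End B from 𝟙 B) ^ k = 𝟙 B := one_pow k
  rw [← h2]
  exact hk

theorem exists_trp_ne {M B : C} [HasLeftDual M] [HasLeftDual B] {n : ℕ}
    (z : MonoidAlgebra ℚ (Perm (Fin n))) (i : B ⟶ tpow M n) (r : tpow M n ⟶ B)
    (hir : i ≫ r = 𝟙 B) (hri : r ≫ i = za M z) (hB : OpKF B) (h0 : 𝟙 B ≠ 0) :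
    ∃ g : tpow M n ⟶ tpow M n, trp M n (za M z ≫ g) ≠ 0 := by
  obtain ⟨g, hg⟩ := exists_tr_ne hB h0
  refine ⟨r ≫ g ≫ i, fun h => hg ?_⟩
  have h1 := @tr_cyc C _ _ _ _ _ _ B (tpow M n) _ (tpowDual M n) i (r ≫ g)
  rw [← Category.assoc, hir, Category.id_comp] at h1
  rw [h1]
  have h2 : za M z ≫ r ≫ g ≫ i = (r ≫ g) ≫ i := by
    rw [← hri, Category.assoc, ← Category.assoc i r, hir, Category.id_comp, Category.assoc]
  rw [h2] at h
  exact h

/-- B2: the numerically trivial endomorphisms of `M` are nilpotent -/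
theorem nil_of_act {M B : C} [HasLeftDual M] [HasLeftDual B] {n : ℕ} (hn : 0 < n)
    (z : MonoidAlgebra ℚ (Perm (Fin n))) (i : B ⟶ tpow M n) (r : tpow M n ⟶ B)
    (hir : i ≫ r = 𝟙 B) (hri : r ≫ i = za M z) (hB : OpKF B) (h0 : 𝟙 B ≠ 0)
    {f : M ⟶ M} (hf : NumZ f) : IsNilpotent (R := End M) f := by
  obtain ⟨g, hg⟩ := exists_trp_ne z i r hir hri hB h0
  have hz : za M z ≫ za M z = za M z := by
    rw [← hri, Category.assoc, ← Category.assoc i r, hir, Category.id_comp]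
  let x : Fin n → End (tpow M n) := fun j => sl f n j
  have hx : ∀ j k, x j ^ k = sl (show M ⟶ M from (show End M from f) ^ k) n j :=
    fun j k => sl_pow f n j k
  have hc : ∀ i j, Commute (x i) (x j) := by
    intro i j
    by_cases hij : i = j
    · rw [hij]
    · exact sl_comm f f n j i (Ne.symm hij)
  let y : End (tpow M n) := za M z
  obtain ⟨N, hN⟩ := nc_psum x hc y (fun k hk => by
    obtain ⟨p, hp⟩ : ∃ p : tpow M n ⟶ tpow M n,
      p = ∑ j, sl (show M ⟶ M from (show End M from f) ^ k) n j := ⟨_, rfl⟩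
    have hp1 : ∑ j, x j ^ k = (show End (tpow M n) from p) := by
      rw [hp]
      exact Finset.sum_congr rfl fun j _ => hx j k
    have hp2 : @NumZ C _ _ _ _ _ _ (tpow M n) (tpow M n) (tpowDual M n) p := by
      rw [hp]
      exact @NumZ.sum C _ _ _ _ _ _ _ (tpow M n) (tpow M n) (tpowDual M n) _ _ _
        fun j _ => numZ_sl (numZ_pow hf k hk) n j
    have hp3 : za M z ≫ p = p ≫ za M z := by
      rw [hp]
      exact slSum_za _ z
    have hb : NumZ (i ≫ p ≫ r) := by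
      apply @NumZ.comp_left C _ _ _ _ _ _ B (tpow M n) B _ (tpowDual M n)
      exact @NumZ.comp_right C _ _ _ _ _ _ (tpow M n) (tpow M n) B (tpowDual M n) p hp2 r
    obtain ⟨N, hN⟩ := nilp hB hb
    refine ⟨N, ?_⟩
    have key : ∀ N : ℕ, r ≫ (show B ⟶ B from (show End B from i ≫ p ≫ r) ^ N) ≫ i =
        za M z ≫ (show tpow M n ⟶ tpow M n from (show End (tpow M n) from p) ^ N) := by
      intro N
      induction N with
      | zero =>
        rw [pow_zero, pow_zero]
        change r ≫ 𝟙 B ≫ i = za M z ≫ 𝟙 _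
        rw [Category.id_comp, Category.comp_id, hri]
      | succ N ih =>
        rw [pow_succ, pow_succ]
        change r ≫ ((i ≫ p ≫ r) ≫ (show B ⟶ B from (show End B from i ≫ p ≫ r) ^ N)) ≫ i =
          za M z ≫ p ≫ (show tpow M n ⟶ tpow M n from (show End (tpow M n) from p) ^ N)
        have h1 : r ≫ ((i ≫ p ≫ r) ≫ (show B ⟶ B from (show End B from i ≫ p ≫ r) ^ N)) ≫ i =
            (r ≫ i) ≫ p ≫ (r ≫ (show B ⟶ B from (show End B from i ≫ p ≫ r) ^ N) ≫ i) := by
          simp only [Category.assoc]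
        rw [h1, ih, hri, ← Category.assoc p, ← hp3, Category.assoc, ← Category.assoc (za M z), hz]
    rw [hp1]
    have h2 := key N
    have h3 : (show B ⟶ B from (show End B from i ≫ p ≫ r) ^ N) = 0 := hN
    rw [h3, Limits.zero_comp, Limits.comp_zero] at h2
    exact h2.symm)
  refine ⟨N, ?_⟩
  apply swap_lemma_end hn z g hg
  intro j
  have h1 := hN j
  rw [hx] at h1
  exact h1

end SAct

end Pool.Agent.MP_6e5bed_ag
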