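import Pool.Agent.Lib.MP_6e5bed_ag.SAct

set_option autoImplicit false

/-!
# Finiteness of the endomorphisms of Kimura-finite objects, modulo numerical equivalence
-/

namespace Pool.Agent.MP_6e5bed_ag

open CategoryTheory MonoidalCategory Equiv

universe v u

section LinAlg

/-- a nondegenerate pairing with vanishing Gram determinants of size `n` -/
theorem finite_of_gram {V : Type*} [AddCommGroup V] [Module ℚ V] (B : V →ₗ[ℚ] V →ₗ[ℚ] ℚ)
    (hB : ∀ x, (∀ y, B x y = 0) → x = 0) {n : ℕ}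
    (hdet : ∀ x y : Fin n → V, (Matrix.of fun i j => B (x j) (y i)).det = 0) :
    Module.Finite ℚ V := by
  by_contra hcon
  rw [← Module.rank_lt_aleph0_iff, not_lt] at hcon
  have h1 : (n : Cardinal) ≤ Module.rank ℚ V := le_trans (Cardinal.natCast_lt_aleph0).le hcon
  obtain ⟨s, hs, hli⟩ := exists_finset_linearIndependent_of_le_rank h1
  let ε : Fin n ≃ s := (Fintype.equivFinOfCardEq (by rw [Fintype.card_coe]; exact hs)).symm
  let x : Fin n → V := fun j => (ε j : V)
  have hx : LinearIndependent ℚ x := hli.comp ε ε.injective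
  let φ : V →ₗ[ℚ] (Fin n → ℚ) := LinearMap.pi fun j => B (x j)
  have hφ : LinearMap.range φ = ⊤ := by
    by_contra hne
    obtain ⟨f, hf0, hf⟩ := Submodule.exists_le_ker_of_lt_top _ (lt_top_iff_ne_top.2 hne)
    apply hf0
    have h2 : ∀ c : Fin n → ℚ, f c = ∑ j, c j * f (Pi.single j 1) := by
      intro c
      have h3 := LinearMap.pi_apply_eq_sum_univ f c
      simp only [smul_eq_mul] at h3
      rw [h3]
      refine Finset.sum_congr rfl fun j _ => ?_
      congr 2
      funext i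
      rw [Pi.single_apply]
      simp [eq_comm]
    have h3 : ∑ j, f (Pi.single j 1) • x j = 0 := by
      apply hB
      intro y
      have h4 : f (φ y) = 0 := hf ⟨y, rfl⟩
      rw [h2] at h4
      rw [map_sum, LinearMap.sum_apply]
      rw [← h4]
      refine Finset.sum_congr rfl fun j _ => ?_
      rw [map_smul, LinearMap.smul_apply, smul_eq_mul, mul_comm]
      rfl
    have h4 := Fintype.linearIndependent_iff.1 hx _ h3
    apply LinearMap.ext
    intro c
    rw [h2]
    simp [h4]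
  have hsur : ∀ i : Fin n, ∃ y, φ y = Pi.single i 1 := by
    intro i
    have h2 : (Pi.single i 1 : Fin n → ℚ) ∈ LinearMap.range φ := by
      rw [hφ]
      exact Submodule.mem_top
    exact h2
  choose y hy using hsur
  have h2 := hdet x y
  have h3 : (Matrix.of fun i j => B (x j) (y i)) = 1 := by
    ext i j
    rw [Matrix.of_apply, Matrix.one_apply]
    have h4 : B (x j) (y i) = φ (y i) j := rfl
    rw [h4, hy, Pi.single_apply]
    simp only [eq_comm]
  rw [h3, Matrix.det_one] at h2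
  exact one_ne_zero h2

end LinAlg

section Fam

variable {C : Type u} [Category.{v} C] [MonoidalCategory C]

/-- the tensor product of a family of endomorphisms -/
def mfam {X : C} : (n : ℕ) → (Fin n → (X ⟶ X)) → (tpow X n ⟶ tpow X n)
  | 0, _ => 𝟙 (𝟙_ C)
  | n + 1, x => x 0 ⊗ₘ mfam n (fun i => x i.succ)

theorem mfam_succ {X : C} (n : ℕ) (x : Fin (n + 1) → (X ⟶ X)) :
    mfam (n + 1) x = (x 0 ⊗ₘ mfam n (fun i => x i.succ)) := rfl

theorem mfam_comp {X : C} (n : ℕ) (x y : Fin n → (X ⟶ X)) :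
    mfam n x ≫ mfam n y = mfam n (fun i => x i ≫ y i) := by
  induction n with
  | zero => exact Category.comp_id _
  | succ n ih =>
    rw [mfam_succ, mfam_succ, mfam_succ, ← ih]
    exact tensorHom_comp_tensorHom _ _ _ _

theorem mfam_const {X : C} (e : X ⟶ X) (n : ℕ) : mfam n (fun _ => e) = tmap e n := by
  induction n with
  | zero => rfl
  | succ n ih =>
    rw [mfam_succ, ih]
    rfl

variable [SymmetricCategory C]

theorem sw_nat2 {X : C} (f f' : X ⟶ X) {T S : C} (g : T ⟶ S) :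
    (f ⊗ₘ (f' ⊗ₘ g)) ≫ sw X S = sw X T ≫ (f' ⊗ₘ (f ⊗ₘ g)) := by
  unfold sw
  simp only [Category.assoc]
  rw [associator_inv_naturality_assoc, ← associator_naturality]
  congr 1
  rw [← Category.assoc, ← Category.assoc, ← tensorHom_id, ← tensorHom_id,
    tensorHom_comp_tensorHom, tensorHom_comp_tensorHom, BraidedCategory.braiding_naturality,
    Category.comp_id, Category.id_comp]

theorem mfam_nbr {X : C} (n i : ℕ) (h : i + 1 < n) (x : Fin n → (X ⟶ X)) :
    mfam n x ≫ ps X (swap ⟨i, (Nat.lt_succ_self i).trans h⟩ ⟨i + 1, h⟩) =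
      ps X (swap ⟨i, (Nat.lt_succ_self i).trans h⟩ ⟨i + 1, h⟩) ≫
        mfam n (fun j => x (swap ⟨i, (Nat.lt_succ_self i).trans h⟩ ⟨i + 1, h⟩ j)) := by
  induction n generalizing i with
  | zero => omega
  | succ n ih =>
    cases i with
    | zero =>
      obtain ⟨m, rfl⟩ : ∃ m, n = m + 1 := ⟨n - 1, by omega⟩
      have e1 : (swap (⟨0, by omega⟩ : Fin (m + 2)) ⟨0 + 1, h⟩) = swap 0 1 := rfl
      rw [e1, ps_swap]
      have h2 : mfam (m + 2) (fun j => x (swap (0 : Fin (m + 2)) 1 j)) =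
          (x 1 ⊗ₘ (x 0 ⊗ₘ mfam m (fun j => x j.succ.succ))) := by
        rw [mfam_succ, mfam_succ, swap_apply_left]
        have h3 : (Fin.succ 0 : Fin (m + 2)) = 1 := rfl
        rw [h3, swap_apply_right]
        congr 3
      rw [h2]
      exact sw_nat2 (x 0) (x 1) (mfam m (fun j => x j.succ.succ))
    | succ i =>
      have h' : i + 1 < n := by omega
      have e1 : (swap (⟨i + 1, by omega⟩ : Fin (n + 1)) ⟨i + 1 + 1, h⟩) =
          sh (swap (⟨i, by omega⟩ : Fin n) ⟨i + 1, h'⟩) := by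
        rw [sh_swap]
        rfl
      rw [e1, ps_sh, mfam_succ, mfam_succ, sh_zero]
      have h2 : (fun j : Fin n => x (sh (swap (⟨i, by omega⟩ : Fin n) ⟨i + 1, h'⟩) j.succ)) =
          fun j => (fun k : Fin n => x k.succ) (swap (⟨i, by omega⟩ : Fin n) ⟨i + 1, h'⟩ j) := by
        funext j
        rw [sh_succ]
      rw [h2]
      have h3 := ih i h' (fun k : Fin n => x k.succ)
      have h4 : ∀ (t t' : tpow X n ⟶ tpow X n) (p : tpow X n ⟶ tpow X n), t ≫ p = p ≫ t' →
          (x 0 ⊗ₘ t) ≫ X ◁ p = X ◁ p ≫ (x 0 ⊗ₘ t') := by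
        intro t t' p htp
        rw [← id_tensorHom, tensorHom_comp_tensorHom, tensorHom_comp_tensorHom, htp,
          Category.comp_id, Category.id_comp]
      exact h4 _ _ _ h3

theorem mfam_ps {X : C} (n : ℕ) (σ : Perm (Fin n)) (x : Fin n → (X ⟶ X)) :
    mfam n x ≫ ps X σ = ps X σ ≫ mfam n (fun j => x (σ⁻¹ j)) := by
  revert x
  refine perm_induction (P := fun σ => ∀ x : Fin n → (X ⟶ X), mfam n x ≫ ps X σ =
    ps X σ ≫ mfam n (fun j => x (σ⁻¹ j))) ?_ ?_ ?_ σ
  · intro x
    rw [ps_one, Category.comp_id, Category.id_comp, inv_one]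
    rfl
  · intro i h x
    rw [swap_inv]
    exact mfam_nbr n i h x
  · intro a b ha hb x
    rw [← ps_comp, ← Category.assoc, hb, Category.assoc, ha, Category.assoc, mul_inv_rev]
    rfl

end Fam

section Gram

variable {C : Type u} [Category.{v} C] [MonoidalCategory C] [SymmetricCategory C]
  [Preadditive C]

/-- the alternating sum of the products of the `y j` -/
noncomputable def wfam {X : C} {n : ℕ} (y : Fin n → (X ⟶ X)) : tpow X n ⟶ tpow X n :=
  ∑ σ : Perm (Fin n), (Perm.sign σ : ℤ) • mfam n (fun i => y (σ i))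

theorem wfam_ps {X : C} {n : ℕ} (y : Fin n → (X ⟶ X)) (g : Perm (Fin n)) :
    wfam y ≫ ps X g = (Perm.sign g : ℤ) • (ps X g ≫ wfam y) := by
  unfold wfam
  rw [Preadditive.sum_comp, Preadditive.comp_sum, Finset.smul_sum,
    ← Equiv.sum_comp (Equiv.mulRight g)]
  refine Finset.sum_congr rfl fun σ _ => ?_
  rw [Preadditive.zsmul_comp, Preadditive.comp_zsmul, mfam_ps, smul_smul, Equiv.coe_mulRight,
    Perm.sign_mul, Units.val_mul, mul_comm (Perm.sign σ : ℤ)]
  congr 3
  funext j
  rw [Perm.mul_apply]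
  have h3 : g (g⁻¹ j) = j := g.apply_symm_apply j
  rw [h3]

omit [SymmetricCategory C] in
theorem wfam_left {X : C} {n : ℕ} {y : Fin n → (X ⟶ X)} {e : X ⟶ X} (h : ∀ i, e ≫ y i = y i) :
    tmap e n ≫ wfam y = wfam y := by
  unfold wfam
  rw [Preadditive.comp_sum]
  refine Finset.sum_congr rfl fun σ _ => ?_
  rw [Preadditive.comp_zsmul, ← mfam_const, mfam_comp]
  simp only [h]

omit [SymmetricCategory C] in
theorem wfam_right {X : C} {n : ℕ} {y : Fin n → (X ⟶ X)} {e : X ⟶ X} (h : ∀ i, y i ≫ e = y i) :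
    wfam y ≫ tmap e n = wfam y := by
  unfold wfam
  rw [Preadditive.sum_comp]
  refine Finset.sum_congr rfl fun σ _ => ?_
  rw [Preadditive.zsmul_comp, ← mfam_const, mfam_comp]
  simp only [h]

variable [MonoidalPreadditive C] [Linear ℚ C]

theorem wfam_zero {X : C} {n r : ℕ} (hn : (r - 1) * (r - 1) < n) {y : Fin n → (X ⟶ X)}
    {e : X ⟶ X} (h1 : ∀ i, e ≫ y i = y i) (h2 : ∀ i, y i ≫ e = y i) (b : Bool)
    (hk : bSum b X r ≫ tmap e r = 0) : wfam y = 0 := by
  let ρ : Perm (Fin n) →* Module.End ℚ (End (tpow X n)) :=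
    ((Algebra.lmul ℚ (End (tpow X n))).toRingHom.toMonoidHom).comp (perm X n)
  have hρ : ∀ (σ : Perm (Fin n)) (z : tpow X n ⟶ tpow X n),
      (show tpow X n ⟶ tpow X n from ρ σ z) = z ≫ ps X σ := fun σ z => rfl
  -- killed from both sides
  have hkr : ∀ f : Fin r ↪ Fin n, wfam y ≫ gCat X n (fun τ => chr b τ) f = 0 := by
    intro f
    have h3 : gCat X n (fun τ => chr b τ) f ≫ tmap e n = 0 :=
      gCat_kill (c := fun τ => chr b τ) hk f
    rw [← wfam_right h2, Category.assoc, gCat_nat, h3, Limits.comp_zero]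
  have hkl : ∀ f : Fin r ↪ Fin n, gCat X n (fun τ => chr b τ) f ≫ wfam y = 0 := by
    intro f
    have h3 : gCat X n (fun τ => chr b τ) f ≫ tmap e n = 0 :=
      gCat_kill (c := fun τ => chr b τ) hk f
    rw [← wfam_left h1, ← Category.assoc, h3, Limits.zero_comp]
  have hkn : ∀ f : Fin r ↪ Fin n, wfam y ≫ gCat X n (fun τ => chr (!b) τ) f = 0 := by
    intro f
    rw [← hkl f]
    unfold gCat
    rw [Preadditive.comp_sum, Preadditive.sum_comp]
    refine Finset.sum_congr rfl fun τ _ => ?_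
    have h3 := wfam_ps y (τ.viaEmbedding f)
    rw [Preadditive.comp_zsmul, Preadditive.zsmul_comp]
    change chr (!b) τ • (wfam y ≫ ps X (τ.viaEmbedding f)) =
      chr b τ • (ps X (τ.viaEmbedding f) ≫ wfam y)
    rw [h3, smul_smul, sign_via]
    congr 1
    have h4 := chr_xor (!b) true τ
    have h5 : chr true τ = (Perm.sign τ : ℤ) := rfl
    rw [h5] at h4
    rw [h4]
    cases b <;> rfl
  have hall : ∀ (b' : Bool) (f : Fin r ↪ Fin n),
      wfam y ≫ gCat X n (fun τ => chr b' τ) f = 0 := by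
    intro b' f
    by_cases hb : b' = b
    · rw [hb]; exact hkr f
    · have h3 : b' = !b := by
        cases b <;> cases b' <;> simp_all
      rw [h3]
      exact hkn f
  refine vanish (V := End (tpow X n)) hn ρ (wfam y) (fun f => ?_) (fun f => ?_)
  · have h3 : altOf ρ f (wfam y) = (show tpow X n ⟶ tpow X n from
        wfam y ≫ gCat X n (fun τ => chr true τ) f) := by
      unfold altOf gCat
      rw [LinearMap.sum_apply, Preadditive.comp_sum]
      refine Finset.sum_congr rfl fun τ _ => ?_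
      rw [Preadditive.comp_zsmul, Module.End.mul_apply]
      change ((Perm.sign τ : ℤ) : Module.End ℚ (End (tpow X n))) (ρ (τ.viaEmbedding f) (wfam y)) =
        (Perm.sign τ : ℤ) • (wfam y ≫ ps X (τ.viaEmbedding f))
      rw [Module.End.intCast_apply]
      rfl
    rw [h3]
    exact hall true f
  · have h3 : symOf ρ f (wfam y) = (show tpow X n ⟶ tpow X n from
        wfam y ≫ gCat X n (fun τ => chr false τ) f) := by
      unfold symOf gCat
      rw [LinearMap.sum_apply, Preadditive.comp_sum]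
      refine Finset.sum_congr rfl fun τ _ => ?_
      rw [Preadditive.comp_zsmul]
      exact (one_zsmul _).symm
    rw [h3]
    exact hall false f

variable [RatUnit C]

theorem trp_mfam {X : C} [HasLeftDual X] (n : ℕ) (x : Fin n → (X ⟶ X)) :
    trp X n (mfam n x) = ∏ i, tr X (x i) := by
  induction n with
  | zero =>
    rw [Fin.prod_univ_zero]
    exact trp_zero_id X
  | succ n ih =>
    have h1 : ptrp X (mfam (n + 1) x) = tr X (x 0) • mfam n (fun i => x i.succ) :=
      ptr_tensor X (x 0) (mfam n (fun i => x i.succ))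
    rw [trp_succ, h1, trp_smul, ih, Fin.prod_univ_succ]

theorem gram_zero {X : C} [HasLeftDual X] {n r : ℕ} (hn : (r - 1) * (r - 1) < n)
    (x y : Fin n → (X ⟶ X)) {e : X ⟶ X} (h1 : ∀ i, e ≫ y i = y i) (h2 : ∀ i, y i ≫ e = y i)
    (b : Bool) (hk : bSum b X r ≫ tmap e r = 0) :
    (Matrix.of fun i j => tr X (x j ≫ y i)).det = 0 := by
  have h3 : (Matrix.of fun i j => tr X (x j ≫ y i)).det = trp X n (mfam n x ≫ wfam y) := by
    unfold wfam
    rw [Matrix.det_apply, Preadditive.comp_sum, trp_sum]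
    refine Finset.sum_congr rfl fun σ _ => ?_
    rw [Preadditive.comp_zsmul, mfam_comp, ← Int.cast_smul_eq_zsmul ℚ, trp_smul, trp_mfam,
      Units.smul_def, ← Int.cast_smul_eq_zsmul ℚ, smul_eq_mul]
    rfl
  rw [h3, wfam_zero hn h1 h2 b hk, Limits.comp_zero, trp_zero]

end Gram

section Fin

variable {C : Type u} [Category.{v} C] [MonoidalCategory C] [SymmetricCategory C]
  [Preadditive C] [MonoidalPreadditive C] [Linear ℚ C] [RatUnit C]

/-- the corner of an idempotent -/
def corner {X : C} (e : X ⟶ X) : Submodule ℚ (X ⟶ X) where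
  carrier := {x | e ≫ x = x ∧ x ≫ e = x}
  add_mem' := by
    rintro a b ⟨h1, h2⟩ ⟨h3, h4⟩
    exact ⟨by rw [Preadditive.comp_add, h1, h3], by rw [Preadditive.add_comp, h2, h4]⟩
  zero_mem' := ⟨by rw [Limits.comp_zero], by rw [Limits.zero_comp]⟩
  smul_mem' := by
    rintro c a ⟨h1, h2⟩
    exact ⟨by rw [Linear.comp_smul, h1], by rw [Linear.smul_comp, h2]⟩

theorem corner_finite [NumFree C] {X : C} [HasLeftDual X] {e : X ⟶ X} (he : e ≫ e = e) {r : ℕ}
    (b : Bool) (hk : bSum b X r ≫ tmap e r = 0) : Module.Finite ℚ (corner e) := by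
  let B : corner e →ₗ[ℚ] corner e →ₗ[ℚ] ℚ := LinearMap.mk₂ ℚ
    (fun x y => tr X ((x : X ⟶ X) ≫ (y : X ⟶ X)))
    (fun x x' y => by
      rw [← tr_add, ← Preadditive.add_comp]
      rfl)
    (fun c x y => by
      rw [smul_eq_mul, ← tr_smul, ← Linear.smul_comp]
      rfl)
    (fun x y y' => by
      rw [← tr_add, ← Preadditive.comp_add]
      rfl)
    (fun c x y => by
      rw [smul_eq_mul, ← tr_smul, ← Linear.comp_smul]
      rfl)
  refine finite_of_gram (n := (r - 1) * (r - 1) + 1) B ?_ ?_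
  · rintro ⟨x, hx1, hx2⟩ h
    apply Subtype.ext
    apply NumFree.eq_zero x
    intro g
    have h1 : e ≫ g ≫ e ∈ corner e := ⟨by
      rw [← Category.assoc, he], by rw [Category.assoc, Category.assoc, he]⟩
    have h2 : tr X (x ≫ e ≫ g ≫ e) = 0 := h ⟨_, h1⟩
    rw [← h2]
    calc tr X (x ≫ g) = tr X (e ≫ (x ≫ e ≫ g)) := by
          rw [← Category.assoc x e g, hx2, ← Category.assoc, hx1]
      _ = tr X ((x ≫ e ≫ g) ≫ e) := tr_comm X _ _
      _ = tr X (x ≫ e ≫ g ≫ e) := by simp only [Category.assoc]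
  · intro x y
    exact gram_zero (Nat.lt_succ_self _) (fun j => (x j : X ⟶ X)) (fun i => (y i : X ⟶ X))
      (fun i => (y i).2.1) (fun i => (y i).2.2) b hk

/-- FIN -/
theorem fin_end [NumFree C] {X : C} [HasLeftDual X] (h : OpKF X) : Module.Finite ℚ (X ⟶ X) := by
  obtain ⟨e, he, ⟨r, hr⟩, ⟨s, hs⟩⟩ := h
  obtain ⟨g, hg⟩ : ∃ g, g = 𝟙 X - e := ⟨_, rfl⟩
  rw [← hg] at hs
  have hgg : g ≫ g = g := by
    rw [hg]
    simp only [Preadditive.comp_sub, Preadditive.sub_comp, Category.id_comp, Category.comp_id, he]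
    abel
  have hE := corner_finite he true (r := r) (by rw [bSum_true]; exact hr)
  have hG := corner_finite hgg false (r := s) (by rw [bSum_false]; exact hs)
  let φ : (corner e × corner g) →ₗ[ℚ] (X ⟶ X) :=
    LinearMap.coprod (corner e).subtype (corner g).subtype
  refine Module.Finite.of_surjective φ ?_
  intro x
  have h1 : e ≫ x ≫ g = 0 := by
    apply NumFree.eq_zero
    intro k
    exact tr_of_tNil X ((tNil_comp_alt_sym hr hs x).comp_right k)
  have h2 : g ≫ x ≫ e = 0 := by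
    apply NumFree.eq_zero
    intro k
    exact tr_of_tNil X ((tNil_comp_sym_alt hr hs x).comp_right k)
  have h3 : e ≫ x ≫ e ∈ corner e := ⟨by
      rw [← Category.assoc, he], by rw [Category.assoc, Category.assoc, he]⟩
  have h4 : g ≫ x ≫ g ∈ corner g := ⟨by
      rw [← Category.assoc, hgg], by rw [Category.assoc, Category.assoc, hgg]⟩
  refine ⟨(⟨_, h3⟩, ⟨_, h4⟩), ?_⟩
  have h5 : φ (⟨_, h3⟩, ⟨_, h4⟩) = e ≫ x ≫ e + g ≫ x ≫ g := rfl
  rw [h5]
  have h6 : x = (e ≫ x ≫ e + g ≫ x ≫ g) + (e ≫ x ≫ g + g ≫ x ≫ e) := by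
    rw [hg]
    simp only [Preadditive.comp_sub, Preadditive.sub_comp, Category.id_comp, Category.comp_id]
    abel
  rw [h1, h2, add_zero, add_zero] at h6
  exact h6.symm

end Fin

end Pool.Agent.MP_6e5bed_ag
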