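import Pool.Agent.Lib.MP_6e5bed_ag.SRho

set_option autoImplicit false

/-!
# Kimura-finiteness from the endomorphism object
-/

namespace Pool.Agent.MP_6e5bed_ag

open CategoryTheory MonoidalCategory Equiv

universe v u

section SKim

variable {C : Type u} [Category.{v} C] [MonoidalCategory C] [SymmetricCategory C]
  [Preadditive C] [MonoidalPreadditive C]

omit [SymmetricCategory C] in
theorem id_eq_zero_of_end {M : C} [HasLeftDual M] (h : 𝟙 ((ᘁM) ⊗ M) = 0) : 𝟙 M = 0 := by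
  have h1 : η_ (ᘁM) M = 0 := by
    rw [← Category.comp_id (η_ (ᘁM) M), h, Limits.comp_zero]
  have h2 := ExactPairing.coevaluation_evaluation (ᘁM) M
  rw [h1, MonoidalPreadditive.whiskerLeft_zero, Limits.zero_comp] at h2
  rw [← cancel_epi (ρ_ M).hom, ← cancel_mono (λ_ M).inv, Category.comp_id, ← h2,
    Limits.comp_zero, Limits.zero_comp]

theorem opKF_of_zero {M : C} (h : 𝟙 M = 0) : OpKF M := by
  have h1 : tmap (0 : M ⟶ M) 1 = 0 := MonoidalPreadditive.zero_tensor _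
  refine ⟨0, Limits.comp_zero, ⟨1, ?_⟩, 1, ?_⟩
  · rw [h1, Limits.comp_zero]
  · rw [sub_zero, h, h1, Limits.comp_zero]

variable [Linear ℚ C] [RatUnit C]

attribute [local instance] hasLeftDualTensor

/-- tensor cancellation for the operator form -/
theorem opKF_left {M N : C} [HasLeftDual M] [HasLeftDual N] (h0 : 𝟙 (M ⊗ N) ≠ 0)
    (h : OpKF (M ⊗ N)) : OpKF M := by
  obtain ⟨e, he, ⟨r, hr⟩, s, hs⟩ := h
  obtain ⟨a, b, D, c, hR⟩ := exists_rank1 M N he hr hs h0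
  obtain ⟨g, n, m, hg, hgA, hgB⟩ := hR.exists_idem he hr hs
  exact ⟨g, hg, ⟨n, hgA⟩, m, hgB⟩

theorem opKF_right {M N : C} [HasLeftDual M] [HasLeftDual N] (h0 : 𝟙 (M ⊗ N) ≠ 0)
    (h : OpKF (M ⊗ N)) : OpKF N := by
  refine opKF_left (M := N) (N := M) ?_ (h.of_iso (β_ M N))
  intro h1
  apply h0
  rw [← Iso.hom_inv_id (β_ M N), ← Category.comp_id (β_ M N).hom, h1, Limits.comp_zero,
    Limits.zero_comp]

/-- the endomorphism object -/
theorem opKF_of_end {M : C} [HasLeftDual M] [HasLeftDual (ᘁM)] (h : OpKF ((ᘁM) ⊗ M)) :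
    OpKF M := by
  by_cases h0 : 𝟙 M = 0
  · exact opKF_of_zero h0
  · exact opKF_right (fun h1 => h0 (id_eq_zero_of_end h1)) h

/-- Without numerically trivial morphisms the tensor product is faithful. -/
theorem tensor_eq_zero [NumFree C] {X Y X' Y' : C} [HasLeftDual X] (a : X ⟶ Y) (b : X' ⟶ Y')
    (h : a ⊗ₘ b = 0) : a = 0 ∨ b = 0 := by
  by_cases ha : a = 0
  · exact Or.inl ha
  right
  have h1 : ∃ g : Y ⟶ X, tr X (a ≫ g) ≠ 0 := by
    by_contra h2
    apply ha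
    apply NumFree.eq_zero
    intro g
    by_contra h3
    exact h2 ⟨g, h3⟩
  obtain ⟨g, hg⟩ := h1
  refine eq_zero_of_tensor' (B := a ≫ g) ?_ hg
  have h2 : (a ≫ g) ⊗ₘ b = (a ⊗ₘ b) ≫ (g ⊗ₘ 𝟙 Y') := by
    rw [tensorHom_comp_tensorHom, Category.comp_id]
  rw [h2, h, Limits.zero_comp]

end SKim

end Pool.Agent.MP_6e5bed_ag
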