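import Pool.Agent.Lib.MP_6e5bed_ag.SFin

set_option autoImplicit false

/-!
# Retracts modulo numerical equivalence
-/

namespace Pool.Agent.MP_6e5bed_ag

open CategoryTheory MonoidalCategory Equiv

universe v u

section SRetr

variable {C : Type u} [Category.{v} C] [MonoidalCategory C] [SymmetricCategory C]
  [Preadditive C] [MonoidalPreadditive C] [Linear ℚ C] [RatUnit C]

/-- RETRACT: a monomorphism to an object with finitely many endomorphisms splits -/
theorem exists_retract [NumFree C] {E Z : C} [HasLeftDual E] [HasLeftDual Z] (ρ : E ⟶ Z)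
    (inj : ∀ (W : C) (f : W ⟶ E), f ≫ ρ = 0 → f = 0) [Module.Finite ℚ (Z ⟶ Z)] :
    ∃ η : Z ⟶ E, ρ ≫ η = 𝟙 E := by
  have hφ : Function.Injective (Linear.rightComp ℚ Z ρ) := by
    rw [injective_iff_map_eq_zero]
    intro f hf
    exact inj Z f hf
  have hZE : Module.Finite ℚ (Z ⟶ E) := Module.Finite.of_injective _ hφ
  let ψ : (Z ⟶ E) →ₗ[ℚ] (E ⟶ E) := Linear.leftComp ℚ E ρ
  let L : Submodule ℚ (E ⟶ E) := LinearMap.range ψ
  have hL : Module.Finite ℚ L := Module.Finite.range ψ
  let β : (E ⟶ E) →ₗ[ℚ] Module.Dual ℚ L := LinearMap.mk₂ ℚ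
    (fun f l => tr E (f ≫ (l : E ⟶ E)))
    (fun x x' y => by rw [← tr_add, ← Preadditive.add_comp])
    (fun c x y => by rw [smul_eq_mul, ← tr_smul, ← Linear.smul_comp])
    (fun x y y' => by
      rw [← tr_add, ← Preadditive.comp_add]
      rfl)
    (fun c x y => by
      rw [smul_eq_mul, ← tr_smul, ← Linear.comp_smul]
      rfl)
  have hβ : Function.Injective β := by
    rw [injective_iff_map_eq_zero]
    intro f hf
    apply inj E f
    apply NumFree.eq_zero
    intro η
    have h1 : ρ ≫ η ∈ L := ⟨η, rfl⟩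
    have h2 : β f ⟨_, h1⟩ = 0 := by
      rw [hf]
      rfl
    rw [Category.assoc]
    exact h2
  have hE : Module.Finite ℚ (E ⟶ E) := Module.Finite.of_injective β hβ
  have h1 : Module.finrank ℚ (E ⟶ E) ≤ Module.finrank ℚ L := by
    have h2 := LinearMap.finrank_le_finrank_of_injective hβ
    rwa [Subspace.dual_finrank_eq] at h2
  have h3 : L = ⊤ := Submodule.eq_top_of_finrank_eq
    (le_antisymm (Submodule.finrank_le L) h1)
  have h4 : 𝟙 E ∈ L := by
    rw [h3]
    exact Submodule.mem_top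
  obtain ⟨η, hη⟩ := h4
  exact ⟨η, hη⟩

end SRetr

end Pool.Agent.MP_6e5bed_ag
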