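import Pool.Agent.Lib.MP_6e5bed_ag.BCase
import Pool.Agent.Lib.MP_6e5bed_ag.SKim
import Pool.Agent.Lib.MP_6e5bed_ag.SAct
import Pool.Agent.Lib.MP_6e5bed_ag.SFin
import Pool.Agent.Lib.MP_6e5bed_ag.SRetr

set_option autoImplicit false

/-!
# Schur functors detect Kimura-finiteness if there are no numerically trivial morphisms
-/

namespace Pool.Agent.MP_6e5bed_ag

open CategoryTheory MonoidalCategory Equiv

universe v u

section BMain

variable {C : Type u} [Category.{v} C] [MonoidalCategory C] [SymmetricCategory C]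
  [Preadditive C] [MonoidalPreadditive C] [Linear ℚ C]

omit [SymmetricCategory C] [Linear ℚ C] in
theorem tmap_zero_one (X : C) : tmap (0 : X ⟶ X) 1 = 0 := MonoidalPreadditive.zero_tensor _

omit [Linear ℚ C] in
theorem opKF_of_alt {X : C} {m : ℕ} (h : altSum X m = 0) : OpKF X := by
  refine ⟨𝟙 X, Category.comp_id _, ⟨m, by rw [h, Limits.zero_comp]⟩, 1, ?_⟩
  rw [sub_self, tmap_zero_one, Limits.comp_zero]

omit [Linear ℚ C] in
theorem opKF_of_sym {X : C} {m : ℕ} (h : symSum X m = 0) : OpKF X := by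
  refine ⟨0, Limits.comp_zero, ⟨1, ?_⟩, m, by rw [h, Limits.zero_comp]⟩
  rw [tmap_zero_one, Limits.comp_zero]

variable [RatUnit C]

omit [RatUnit C] in
/-- The action is faithful. -/
theorem rho_inj' {M B W : C} [HasLeftDual M] [HasLeftDual B] {n : ℕ} {i : B ⟶ tpow M n}
    {r : tpow M n ⟶ B} {z : MonoidAlgebra ℚ (Perm (Fin n))} (hir : i ≫ r = 𝟙 B)
    (hri : r ≫ i = za M z)
    (hD : ∀ {W W' : C} (f : M ⊗ W ⟶ M ⊗ W'), la W (za M z) ≫ ∑ i, fs f n i = 0 → f = 0)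
    {h : W ⟶ (ᘁM) ⊗ M} (hh : h ≫ rho i r = 0) : h = 0 := by
  have h1 : (B ◁ h) ≫ actB i r = 0 := by
    have h2 := tensorLeftHomEquiv_symm_naturality (Y := (ᘁB)) (Y' := B) h (rho i r)
    rw [hh, tensorLeftHomEquiv_symm_zero] at h2
    unfold rho at h2
    rw [Equiv.symm_apply_apply] at h2
    exact h2.symm
  rw [whisker_actB] at h1
  obtain ⟨g, hg⟩ : ∃ g : M ⊗ W ⟶ M ⊗ 𝟙_ C, g = (M ◁ h) ≫ kap M ≫ (ρ_ M).inv := ⟨_, rfl⟩
  rw [← hg] at h1
  have h3 : la W (za M z) ≫ fsum g n = 0 := by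
    have h4 : (psi M n W).hom ≫ (r ▷ W) ≫ ((i ▷ W) ≫ (psi M n W).inv ≫ fsum g n ≫
        (psi M n (𝟙_ C)).hom ≫ (ρ_ (tpow M n)).hom ≫ r) ≫ i ≫ (ρ_ (tpow M n)).inv ≫
        (psi M n (𝟙_ C)).inv = la W (za M z) ≫ fsum g n ≫ la (𝟙_ C) (za M z) := by
      unfold la
      rw [← hri, comp_whiskerRight, comp_whiskerRight]
      simp only [Category.assoc]
      rw [rightUnitor_inv_naturality_assoc, rightUnitor_inv_naturality_assoc,
        Iso.hom_inv_id_assoc]
    have h5 : za M z ≫ za M z = za M z := by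
      rw [← hri, Category.assoc, ← Category.assoc i r, hir, Category.id_comp]
    rw [h1, Limits.zero_comp, Limits.comp_zero, Limits.comp_zero, fsum_za, ← Category.assoc,
      ← la_comp, h5] at h4
    exact h4.symm
  have h6 := hD g h3
  rw [hg, ← Category.assoc] at h6
  apply eq_zero_of_kap
  rwa [← cancel_mono (ρ_ M).inv, Limits.zero_comp]

/-- Schur functors detect Kimura-finiteness if there are no numerically trivial morphisms. -/
theorem main_red [NumFree C] [LeftRigidCategory C] {M B : C} {n : ℕ} (hn : 0 < n)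
    (z : MonoidAlgebra ℚ (Perm (Fin n))) (i : B ⟶ tpow M n) (r : tpow M n ⟶ B)
    (hir : i ≫ r = 𝟙 B) (hri : r ≫ i = za M z) (hB : OpKF B) (h0 : 𝟙 B ≠ 0) : OpKF M := by
  obtain ⟨g, hg⟩ := exists_trp_ne z i r hir hri hB h0
  rcases dichotomy hn z g hg (fun a b h => tensor_eq_zero a b h) with ⟨m, h1 | h1⟩ | hD
  · exact opKF_of_alt h1
  · exact opKF_of_sym h1
  · have hZ : OpKF ((ᘁB) ⊗ B) := (OpKF.dual (X := B) (X' := ᘁB) hB).tensor hB
    have hfin : Module.Finite ℚ ((ᘁB) ⊗ B ⟶ (ᘁB) ⊗ B) := fin_end hZ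
    obtain ⟨η, hη⟩ := exists_retract (rho (M := M) i r)
      fun W f hf => rho_inj' hir hri hD hf
    exact opKF_of_end (hZ.retract (rho i r) η hη)

end BMain

end Pool.Agent.MP_6e5bed_ag
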