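import Pool.Agent.Lib.MP_6e5bed_ag.BDefs

set_option autoImplicit false

/-!
# Positivity in rational group algebras
-/

namespace Pool.Agent.MP_6e5bed_ag

open MonoidAlgebra

section BPos

variable {G : Type*} [Group G]

theorem gst_single (g : G) (c : ℚ) : gst (single g c) = single g⁻¹ c := by
  unfold gst
  rw [mapDomain_single]

theorem gst_add (x y : MonoidAlgebra ℚ G) : gst (x + y) = gst x + gst y := by
  unfold gst
  rw [mapDomain_add]

theorem gst_zero : gst (0 : MonoidAlgebra ℚ G) = 0 := by
  unfold gst
  rw [mapDomain_zero]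

theorem gst_smul (c : ℚ) (x : MonoidAlgebra ℚ G) : gst (c • x) = c • gst x := by
  induction x using induction_linear with
  | zero => rw [smul_zero, gst_zero, smul_zero]
  | add x y hx hy => rw [smul_add, gst_add, hx, hy, gst_add, smul_add]
  | single g a => rw [smul_single, gst_single, gst_single, smul_single]

theorem gst_one : gst (1 : MonoidAlgebra ℚ G) = 1 := by
  rw [one_def, gst_single, inv_one]

theorem gst_mul (x y : MonoidAlgebra ℚ G) : gst (x * y) = gst y * gst x := by
  induction x using induction_linear with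
  | zero => rw [zero_mul, gst_zero, mul_zero]
  | add x x' hx hx' => rw [add_mul, gst_add, hx, hx', gst_add, mul_add]
  | single g a =>
    induction y using induction_linear with
    | zero => rw [mul_zero, gst_zero, zero_mul]
    | add y y' hy hy' => rw [mul_add, gst_add, hy, hy', gst_add, add_mul]
    | single h b =>
      rw [single_mul_single, gst_single, gst_single, gst_single, single_mul_single, mul_inv_rev,
        mul_comm a b]

theorem gst_gst (x : MonoidAlgebra ℚ G) : gst (gst x) = x := by
  induction x using induction_linear with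
  | zero => rw [gst_zero, gst_zero]
  | add x y hx hy => rw [gst_add, gst_add, hx, hy]
  | single g a => rw [gst_single, gst_single, inv_inv]

variable [Fintype G]

/-- the standard form -/
def bil (x y : MonoidAlgebra ℚ G) : ℚ := ∑ g : G, x.coeff g * y.coeff g

omit [Group G] in
theorem bil_comm (x y : MonoidAlgebra ℚ G) : bil x y = bil y x :=
  Finset.sum_congr rfl fun _ _ => mul_comm _ _

theorem bil_add (x y y' : MonoidAlgebra ℚ G) : bil x (y + y') = bil x y + bil x y' := by
  unfold bil
  rw [← Finset.sum_add_distrib]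
  refine Finset.sum_congr rfl fun g _ => ?_
  rw [coeff_add, Finsupp.add_apply, mul_add]

theorem bil_smul (c : ℚ) (x y : MonoidAlgebra ℚ G) : bil x (c • y) = c * bil x y := by
  unfold bil
  rw [Finset.mul_sum]
  refine Finset.sum_congr rfl fun g _ => ?_
  rw [coeff_smul, Finsupp.smul_apply, smul_eq_mul]
  ring

theorem bil_zero (x : MonoidAlgebra ℚ G) : bil x 0 = 0 := by
  have h := bil_smul 0 x 0
  rwa [zero_smul, zero_mul] at h

omit [Group G] in
theorem bil_self_nonneg (x : MonoidAlgebra ℚ G) : 0 ≤ bil x x :=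
  Finset.sum_nonneg fun _ _ => mul_self_nonneg _

theorem eq_zero_of_bil_self {x : MonoidAlgebra ℚ G} (h : bil x x = 0) : x = 0 := by
  unfold bil at h
  rw [Finset.sum_eq_zero_iff_of_nonneg fun g _ => mul_self_nonneg _] at h
  ext g
  exact mul_self_eq_zero.1 (h g (Finset.mem_univ g))

/-- the form as a bilinear form -/
noncomputable def bilForm (G : Type*) [Group G] [Fintype G] : LinearMap.BilinForm ℚ (MonoidAlgebra ℚ G) :=
  LinearMap.mk₂ ℚ bil (fun x x' y => by rw [bil_comm, bil_add, bil_comm, bil_comm y])
    (fun c x y => by rw [bil_comm, bil_smul, bil_comm, smul_eq_mul]) bil_add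
    (fun c x y => by rw [bil_smul, smul_eq_mul])

/-- adjunction -/
theorem bil_gst (c x y : MonoidAlgebra ℚ G) : bil (gst c * x) y = bil x (c * y) := by
  induction c using induction_linear with
  | zero => rw [gst_zero, zero_mul, zero_mul, bil_zero, bil_comm, bil_zero]
  | add c c' hc hc' => rw [gst_add, add_mul, add_mul, bil_add, bil_comm, bil_add, bil_comm y,
      bil_comm y, hc, hc']
  | single g a =>
    rw [gst_single]
    unfold bil
    rw [← Equiv.sum_comp (Equiv.mulLeft g⁻¹)]
    refine Finset.sum_congr rfl fun h _ => ?_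
    rw [coeff_single_mul_apply, coeff_single_mul_apply, Equiv.coe_mulLeft, inv_inv,
      mul_inv_cancel_left]
    ring

end BPos

section BPos2

variable {G : Type*} [Group G] [Finite G]

theorem pos_sum {A : Type*} [Ring A] [Algebra ℚ A] (φ : MonoidAlgebra ℚ G →ₐ[ℚ] A)
    {ι : Type*} [Fintype ι] (w : ι → ℚ) (hw : ∀ j, 0 < w j) (x : ι → MonoidAlgebra ℚ G)
    (h : φ (∑ j, w j • (gst (x j) * x j)) = 0) (j : ι) : φ (x j) = 0 := by
  have _ := Fintype.ofFinite G
  have hfin : Module.Finite ℚ (MonoidAlgebra ℚ G) := inferInstance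
  obtain ⟨B, hB⟩ : ∃ B, B = bilForm G := ⟨_, rfl⟩
  have hB' : ∀ x y, B x y = bil x y := by
    intro x y
    rw [hB]
    rfl
  have hrefl : B.IsRefl := by
    intro x y hxy
    rw [hB'] at hxy ⊢
    rw [bil_comm, hxy]
  have hdis : Disjoint (LinearMap.ker φ.toLinearMap) (B.orthogonal (LinearMap.ker φ.toLinearMap)) := by
    rw [Submodule.disjoint_def]
    intro x hx hx'
    have h1 := hx' x hx
    rw [hB'] at h1
    exact eq_zero_of_bil_self h1
  have hcompl := (LinearMap.BilinForm.isCompl_orthogonal_iff_disjoint hrefl).2 hdis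
  have htop : (1 : MonoidAlgebra ℚ G) ∈ LinearMap.ker φ.toLinearMap ⊔
      B.orthogonal (LinearMap.ker φ.toLinearMap) := by
    rw [hcompl.sup_eq_top]
    exact Submodule.mem_top
  obtain ⟨u, hu, v, hv, huv⟩ := Submodule.mem_sup.1 htop
  have hu' : φ u = 0 := hu
  have hv' : ∀ n, φ n = 0 → bil n v = 0 := by
    intro n hn
    have h1 := hv n hn
    rwa [hB'] at h1
  have h1 : bil v ((∑ j, w j • (gst (x j) * x j)) * v) = 0 := by
    rw [bil_comm]
    apply hv'
    rw [map_mul, h, zero_mul]
  have h2 : bil v ((∑ j, w j • (gst (x j) * x j)) * v) =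
      ∑ j, w j * bil (x j * v) (x j * v) := by
    have h3 : ∀ (s : Finset ι), bil v ((∑ j ∈ s, w j • (gst (x j) * x j)) * v) =
        ∑ j ∈ s, w j * bil (x j * v) (x j * v) := by
      classical
      intro s
      induction s using Finset.induction_on with
      | empty => rw [Finset.sum_empty, Finset.sum_empty, zero_mul, bil_zero]
      | insert a s ha ih =>
        rw [Finset.sum_insert ha, Finset.sum_insert ha, add_mul, bil_add, ih, smul_mul_assoc,
          bil_smul, mul_assoc, bil_comm v, bil_gst]
    exact h3 Finset.univ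
  rw [h2, Finset.sum_eq_zero_iff_of_nonneg fun j _ =>
    mul_nonneg (hw j).le (bil_self_nonneg _)] at h1
  have h4 := h1 j (Finset.mem_univ j)
  have h5 : x j * v = 0 :=
    eq_zero_of_bil_self ((mul_eq_zero.1 h4).resolve_left (hw j).ne')
  calc φ (x j) = φ (x j * (u + v)) := by rw [huv, mul_one]
    _ = 0 := by rw [mul_add, map_add, map_mul, hu', mul_zero, h5, map_zero, add_zero]

theorem pos_one {A : Type*} [Ring A] [Algebra ℚ A] (φ : MonoidAlgebra ℚ G →ₐ[ℚ] A)
    (x : MonoidAlgebra ℚ G) (h : φ (gst x * x) = 0) : φ x = 0 := by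
  refine pos_sum φ (ι := Unit) (fun _ => 1) (fun _ => one_pos) (fun _ => x) ?_ ()
  rw [Fintype.sum_unique, one_smul, h]

end BPos2

end Pool.Agent.MP_6e5bed_ag
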