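import Pool.Agent.Lib.MP_6e5bed_ag.BDefs

set_option autoImplicit false

/-!
# Slots of tensor powers: first rules
-/

namespace Pool.Agent.MP_6e5bed_ag

open CategoryTheory MonoidalCategory Equiv

universe v u

section BS1

variable {C : Type u} [Category.{v} C] [MonoidalCategory C]

theorem tpwMap_id (M V : C) (n : ℕ) : tpwMap M (𝟙 V) n = 𝟙 (tpw M n V) := by
  induction n with
  | zero => rfl
  | succ n ih =>
    change M ◁ tpwMap M (𝟙 V) n = _
    rw [ih]
    exact MonoidalCategory.whiskerLeft_id M _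

theorem tpwMap_comp (M : C) {V V' V'' : C} (h : V ⟶ V') (k : V' ⟶ V'') (n : ℕ) :
    tpwMap M (h ≫ k) n = tpwMap M h n ≫ tpwMap M k n := by
  induction n with
  | zero => rfl
  | succ n ih =>
    change M ◁ tpwMap M (h ≫ k) n = _
    rw [ih]
    exact MonoidalCategory.whiskerLeft_comp M _ _

theorem tpwMap_psi (M : C) {V V' : C} (h : V ⟶ V') (n : ℕ) :
    tpwMap M h n ≫ (psi M n V').hom = (psi M n V).hom ≫ (tpow M n ◁ h) := by
  induction n with
  | zero => exact leftUnitor_inv_naturality h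
  | succ n ih =>
    change M ◁ tpwMap M h n ≫ M ◁ (psi M n V').hom ≫ (α_ M (tpow M n) V').inv =
      (M ◁ (psi M n V).hom ≫ (α_ M (tpow M n) V).inv) ≫ (M ⊗ tpow M n) ◁ h
    rw [← MonoidalCategory.whiskerLeft_comp_assoc, ih, MonoidalCategory.whiskerLeft_comp_assoc,
      Category.assoc, associator_inv_naturality_right]

theorem psi_inv_tpwMap (M : C) {V V' : C} (h : V ⟶ V') (n : ℕ) :
    (psi M n V).inv ≫ tpwMap M h n = (tpow M n ◁ h) ≫ (psi M n V').inv := by
  rw [Iso.inv_comp_eq, ← Category.assoc, ← tpwMap_psi, Category.assoc, Iso.hom_inv_id,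
    Category.comp_id]

theorem la_id (M V : C) (n : ℕ) : la V (𝟙 (tpow M n)) = 𝟙 (tpw M n V) := by
  unfold la
  rw [id_whiskerRight, Category.id_comp, Iso.hom_inv_id]

theorem la_comp {M : C} (V : C) {n : ℕ} (a b : tpow M n ⟶ tpow M n) :
    la V (a ≫ b) = la V a ≫ la V b := by
  unfold la
  rw [comp_whiskerRight, Category.assoc, Category.assoc, Category.assoc, Iso.inv_hom_id_assoc]

theorem la_nat {M : C} {V V' : C} (h : V ⟶ V') {n : ℕ} (a : tpow M n ⟶ tpow M n) :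
    la V a ≫ tpwMap M h n = tpwMap M h n ≫ la V' a := by
  unfold la
  rw [Category.assoc, Category.assoc, psi_inv_tpwMap, ← whisker_exchange_assoc, ← Category.assoc,
    ← tpwMap_psi, Category.assoc]

/-- a morphism on the last factors -/
def wq {M : C} {n : ℕ} {V V' : C} (h : tpw M n V ⟶ tpw M n V') :
    tpw M (n + 1) V ⟶ tpw M (n + 1) V' := M ◁ h

theorem wq_id (M V : C) (n : ℕ) : wq (𝟙 (tpw M n V)) = 𝟙 (tpw M (n + 1) V) :=
  MonoidalCategory.whiskerLeft_id M _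

theorem wq_comp {M : C} {n : ℕ} {V V' V'' : C} (g : tpw M n V ⟶ tpw M n V')
    (h : tpw M n V' ⟶ tpw M n V'') : wq (g ≫ h) = wq g ≫ wq h :=
  MonoidalCategory.whiskerLeft_comp M g h

theorem tpwMap_succ (M : C) {V V' : C} (h : V ⟶ V') (n : ℕ) :
    tpwMap M h (n + 1) = wq (tpwMap M h n) := rfl

theorem la_wl {M : C} (V : C) {n : ℕ} (a : tpow M n ⟶ tpow M n) :
    la V (wl M a) = wq (la V a) := by
  change (M ◁ (psi M n V).hom ≫ (α_ M (tpow M n) V).inv) ≫ ((M ◁ a) ▷ V) ≫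
    (α_ M (tpow M n) V).hom ≫ M ◁ (psi M n V).inv =
    M ◁ ((psi M n V).hom ≫ (a ▷ V) ≫ (psi M n V).inv)
  rw [Category.assoc, ← associator_inv_naturality_middle_assoc, Iso.inv_hom_id_assoc,
    ← MonoidalCategory.whiskerLeft_comp, ← MonoidalCategory.whiskerLeft_comp]

theorem la_injective {M : C} (V : C) {n : ℕ} {a b : tpow M n ⟶ tpow M n} (h : la V a = la V b) :
    a ▷ V = b ▷ V := by
  unfold la at h
  rwa [cancel_epi, cancel_mono] at h

end BS1

section BS2

variable {C : Type u} [Category.{v} C] [MonoidalCategory C] [SymmetricCategory C]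

theorem pw_one (M V : C) (n : ℕ) : pw M n V 1 = 𝟙 _ := by
  unfold pw
  rw [ps_one, la_id]

theorem pw_mul (M V : C) (n : ℕ) (σ τ : Perm (Fin n)) :
    pw M n V σ ≫ pw M n V τ = pw M n V (τ * σ) := by
  unfold pw
  rw [← la_comp, ps_comp]

theorem pw_mul_assoc (M V : C) (n : ℕ) (σ τ : Perm (Fin n)) {X : C} (h : tpw M n V ⟶ X) :
    pw M n V σ ≫ pw M n V τ ≫ h = pw M n V (τ * σ) ≫ h := by
  rw [← Category.assoc, pw_mul]

theorem pw_sh (M V : C) (n : ℕ) (σ : Perm (Fin n)) :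
    pw M (n + 1) V (sh σ) = wq (pw M n V σ) := by
  unfold pw
  rw [ps_sh, la_wl]

theorem pw_swap_self (M V : C) (n : ℕ) (i j : Fin n) :
    pw M n V (swap i j) ≫ pw M n V (swap i j) = 𝟙 _ := by
  rw [pw_mul, swap_mul_self, pw_one]

theorem pw_swap_self_assoc (M V : C) (n : ℕ) (i j : Fin n) {X : C} (h : tpw M n V ⟶ X) :
    pw M n V (swap i j) ≫ pw M n V (swap i j) ≫ h = h := by
  rw [← Category.assoc, pw_swap_self, Category.id_comp]

theorem pw_nat (M : C) {V V' : C} (h : V ⟶ V') (n : ℕ) (σ : Perm (Fin n)) :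
    pw M n V σ ≫ tpwMap M h n = tpwMap M h n ≫ pw M n V' σ := la_nat h _

theorem pw_swap (M V : C) (n : ℕ) : pw M (n + 2) V (swap 0 1) = sw M (tpw M n V) := by
  unfold pw
  rw [ps_swap]
  have h1 : sw M (tpow M n) ▷ V = (α_ M (M ⊗ tpow M n) V).hom ≫ M ◁ (α_ M (tpow M n) V).hom ≫
      sw M (tpow M n ⊗ V) ≫ M ◁ (α_ M (tpow M n) V).inv ≫ (α_ M (M ⊗ tpow M n) V).inv := by
    unfold sw
    monoidal
  change (M ◁ (M ◁ (psi M n V).hom ≫ (α_ M (tpow M n) V).inv) ≫ (α_ M (M ⊗ tpow M n) V).inv) ≫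
    (sw M (tpow M n) ▷ V) ≫ (α_ M (M ⊗ tpow M n) V).hom ≫
      M ◁ ((α_ M (tpow M n) V).hom ≫ M ◁ (psi M n V).inv) = _
  rw [h1]
  simp only [Category.assoc, MonoidalCategory.whiskerLeft_comp, Iso.inv_hom_id_assoc,
    MonoidalCategory.whiskerLeft_inv_hom_assoc, sw_comm]
  rw [← MonoidalCategory.whiskerLeft_comp_assoc, ← MonoidalCategory.whiskerLeft_comp,
    Iso.hom_inv_id, MonoidalCategory.whiskerLeft_id, MonoidalCategory.whiskerLeft_id,
    Category.id_comp]

theorem pw_swap_wq (M : C) {V V' : C} {n : ℕ} (h : tpw M n V ⟶ tpw M n V') :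
    pw M (n + 2) V (swap 0 1) ≫ wq (wq h) = wq (wq h) ≫ pw M (n + 2) V' (swap 0 1) := by
  rw [pw_swap, pw_swap]
  exact sw_comm M h

theorem pw_swap_wq_assoc (M : C) {V V' : C} {n : ℕ} (h : tpw M n V ⟶ tpw M n V') {X : C}
    (k : tpw M (n + 2) V' ⟶ X) :
    pw M (n + 2) V (swap 0 1) ≫ wq (wq h) ≫ k =
      wq (wq h) ≫ pw M (n + 2) V' (swap 0 1) ≫ k := by
  rw [← Category.assoc, pw_swap_wq, Category.assoc]

theorem fs_succ {M W W' : C} (f : M ⊗ W ⟶ M ⊗ W') (n : ℕ) (i : Fin n) :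
    fs f (n + 1) i.succ = wq (fs f n i) := by
  cases n with
  | zero => exact i.elim0
  | succ n => rfl

theorem fs_zero {M W W' : C} (f : M ⊗ W ⟶ M ⊗ W') (n : ℕ) :
    fs f (n + 2) 0 = pw M (n + 2) W (swap 0 1) ≫ wq (fs f (n + 1) 0) ≫
      pw M (n + 2) W' (swap 0 1) := by
  rw [pw_swap, pw_swap]
  rfl

theorem fs_one {M W W' : C} (f : M ⊗ W ⟶ M ⊗ W') : fs f 1 0 = f := rfl

theorem swap_braid (l : ℕ) : swap (0 : Fin (l + 3)) 1 * swap 1 2 * swap 0 1 =
    swap 1 2 * swap 0 1 * swap 1 2 := by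
  have h01 : (0 : Fin (l + 3)) ≠ 1 := by
    rw [Ne, Fin.ext_iff]
    simp
  have h2 : 2 % (l + 3) = 2 := Nat.mod_eq_of_lt (by omega)
  have h02 : (0 : Fin (l + 3)) ≠ 2 := by
    rw [Ne, Fin.ext_iff]
    simp [h2]
  have h12 : (1 : Fin (l + 3)) ≠ 2 := by
    rw [Ne, Fin.ext_iff]
    simp [h2]
  rw [swap_mul_swap_mul_swap h01 h02]
  rw [swap_comm (1 : Fin (l + 3)) 2, swap_comm (0 : Fin (l + 3)) 1,
    swap_mul_swap_mul_swap h12.symm h02.symm, swap_comm 0 2]

/-- equivariance for the neighbours, the slot number zero -/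
theorem fs_nbr_zero {M W W' : C} (f : M ⊗ W ⟶ M ⊗ W') (m i : ℕ) (h : i + 1 < m + 1) :
    fs f (m + 2) 0 ≫ wq (pw M (m + 1) W'
      (swap ⟨i, (Nat.lt_succ_self i).trans h⟩ ⟨i + 1, h⟩)) =
    wq (pw M (m + 1) W (swap ⟨i, (Nat.lt_succ_self i).trans h⟩ ⟨i + 1, h⟩)) ≫
      fs f (m + 2) 0 := by
  induction m generalizing i with
  | zero => omega
  | succ m ih =>
    cases i with
    | zero =>
      have e1 : (swap (⟨0, by omega⟩ : Fin (m + 2)) ⟨0 + 1, h⟩) = swap 0 1 := rfl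
      have hw : ∀ V : C, wq (pw M (m + 2) V (swap 0 1)) = pw M (m + 3) V (swap 1 2) := by
        intro V
        rw [← pw_sh, sh_swap]
        rfl
      have hc := pw_swap_wq M (fs f (m + 1) 0)
      rw [e1, hw, hw, fs_zero f (m + 1), fs_zero f m, wq_comp, wq_comp, hw, hw]
      simp only [Category.assoc]
      have hb : ∀ (V : C), pw M (m + 3) V (swap 1 2) ≫ pw M (m + 3) V (swap 0 1) ≫
          pw M (m + 3) V (swap 1 2) = pw M (m + 3) V (swap 0 1) ≫ pw M (m + 3) V (swap 1 2) ≫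
          pw M (m + 3) V (swap 0 1) := by
        intro V
        rw [pw_mul, pw_mul, pw_mul, pw_mul, ← swap_braid]
      have hb' : ∀ (V : C) {X : C} (k : tpw M (m + 3) V ⟶ X), pw M (m + 3) V (swap 1 2) ≫
          pw M (m + 3) V (swap 0 1) ≫ pw M (m + 3) V (swap 1 2) ≫ k =
          pw M (m + 3) V (swap 0 1) ≫ pw M (m + 3) V (swap 1 2) ≫
          pw M (m + 3) V (swap 0 1) ≫ k := by
        intro V X k
        have h1 := hb V
        calc _ = (pw M (m + 3) V (swap 1 2) ≫ pw M (m + 3) V (swap 0 1) ≫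
          pw M (m + 3) V (swap 1 2)) ≫ k := by simp only [Category.assoc]
          _ = _ := by rw [h1]; simp only [Category.assoc]
      have hc' : ∀ {X : C} (k : tpw M (m + 3) W' ⟶ X),
          pw M (m + 3) W (swap 0 1) ≫ wq (wq (fs f (m + 1) 0)) ≫ k =
          wq (wq (fs f (m + 1) 0)) ≫ pw M (m + 3) W' (swap 0 1) ≫ k := by
        intro X k
        rw [← Category.assoc]
        erw [hc]
        rw [Category.assoc]
      rw [hb, ← hc', hb']
    | succ i =>
      have h' : i + 1 < m + 1 := by omega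
      have e1 : (swap (⟨i + 1, by omega⟩ : Fin (m + 2)) ⟨i + 1 + 1, h⟩) =
          sh (swap (⟨i, by omega⟩ : Fin (m + 1)) ⟨i + 1, h'⟩) := by
        rw [sh_swap]
        rfl
      rw [e1, pw_sh, pw_sh, fs_zero f (m + 1)]
      simp only [Category.assoc]
      rw [pw_swap_wq, ← pw_swap_wq_assoc, ← Category.assoc (wq (fs f (m + 1 + 1) 0)), ← wq_comp,
        ih i h', wq_comp, Category.assoc]

theorem fs_nbr {M W W' : C} (f : M ⊗ W ⟶ M ⊗ W') (n i : ℕ) (h : i + 1 < n) (k : Fin n) :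
    fs f n k ≫ pw M n W' (swap ⟨i, (Nat.lt_succ_self i).trans h⟩ ⟨i + 1, h⟩) =
    pw M n W (swap ⟨i, (Nat.lt_succ_self i).trans h⟩ ⟨i + 1, h⟩) ≫
      fs f n (swap ⟨i, (Nat.lt_succ_self i).trans h⟩ ⟨i + 1, h⟩ k) := by
  induction n generalizing i with
  | zero => omega
  | succ n ih =>
    cases i with
    | zero =>
      obtain ⟨m, rfl⟩ : ∃ m, n = m + 1 := ⟨n - 1, by omega⟩
      have e1 : (swap (⟨0, by omega⟩ : Fin (m + 2)) ⟨0 + 1, h⟩) = swap 0 1 := rfl
      rw [e1]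
      refine Fin.cases ?_ (fun k => ?_) k
      · rw [swap_apply_left]
        have h2 : fs f (m + 2) 1 = wq (fs f (m + 1) 0) := fs_succ f (m + 1) 0
        rw [h2, fs_zero]
        simp only [Category.assoc]
        rw [pw_swap_self, Category.comp_id]
      · refine Fin.cases ?_ (fun k => ?_) k
        · have h2 : fs f (m + 2) (Fin.succ 0) = wq (fs f (m + 1) 0) := fs_succ f (m + 1) 0
          have h3 : (Fin.succ 0 : Fin (m + 2)) = 1 := rfl
          rw [h2, h3, swap_apply_right, fs_zero, pw_swap_self_assoc]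
        · obtain ⟨l, rfl⟩ : ∃ l, m = l + 1 := ⟨m - 1, by have := k.2; omega⟩
          have h2 : swap (0 : Fin (l + 1 + 2)) 1 k.succ.succ = k.succ.succ := by
            apply swap_apply_of_ne_of_ne
            · exact Fin.succ_ne_zero _
            · intro h3
              have h4 : k.succ = 0 := Fin.succ_injective _ h3
              exact Fin.succ_ne_zero _ h4
          rw [h2, fs_succ, fs_succ, pw_swap_wq]
    | succ i =>
      have h' : i + 1 < n := by omega
      have e1 : (swap (⟨i + 1, by omega⟩ : Fin (n + 1)) ⟨i + 1 + 1, h⟩) =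
          sh (swap (⟨i, by omega⟩ : Fin n) ⟨i + 1, h'⟩) := by
        rw [sh_swap]
        rfl
      rw [e1]
      refine Fin.cases ?_ (fun k => ?_) k
      · rw [sh_zero, pw_sh, pw_sh]
        obtain ⟨m, rfl⟩ : ∃ m, n = m + 1 := ⟨n - 1, by omega⟩
        exact fs_nbr_zero f m i h'
      · rw [sh_succ, fs_succ, fs_succ, pw_sh, pw_sh, ← wq_comp, ← wq_comp, ih i h' k]

/-- equivariance -/
theorem fs_pw {M W W' : C} (f : M ⊗ W ⟶ M ⊗ W') (n : ℕ) (i : Fin n) (σ : Perm (Fin n)) :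
    fs f n i ≫ pw M n W' σ = pw M n W σ ≫ fs f n (σ i) := by
  revert i
  refine perm_induction (P := fun σ => ∀ i, fs f n i ≫ pw M n W' σ =
    pw M n W σ ≫ fs f n (σ i)) ?_ ?_ ?_ σ
  · intro i
    rw [pw_one, pw_one, Category.comp_id, Category.id_comp]
    rfl
  · intro i h k
    exact fs_nbr f n i h k
  · intro a b ha hb i
    rw [← pw_mul, ← pw_mul, ← Category.assoc, hb, Category.assoc, ha, Category.assoc]
    rfl

omit [SymmetricCategory C] in
theorem sl_succ {M : C} (f : M ⟶ M) (n : ℕ) (i : Fin n) :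
    sl f (n + 1) i.succ = wl M (sl f n i) := rfl

omit [SymmetricCategory C] in
theorem sl_zero {M : C} (f : M ⟶ M) (n : ℕ) : sl f (n + 1) 0 = f ▷ tpow M n := rfl

theorem sw_slot {M : C} (f : M ⟶ M) (T : C) :
    sw M T ≫ M ◁ (f ▷ T) ≫ sw M T = f ▷ (M ⊗ T) := by
  unfold sw
  have h3 := BraidedCategory.braiding_naturality_right M f
  have h4 : (M ◁ f ≫ (β_ M M).hom) ▷ T = ((β_ M M).hom ≫ f ▷ M) ▷ T := by
    rw [h3]
  rw [comp_whiskerRight, comp_whiskerRight] at h4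
  have h5 : (β_ M M).hom ▷ T ≫ (β_ M M).hom ▷ T = 𝟙 _ := by
    rw [← comp_whiskerRight, SymmetricCategory.symmetry, id_whiskerRight]
  simp only [Category.assoc]
  rw [associator_inv_naturality_middle_assoc, Iso.hom_inv_id_assoc, reassoc_of% h4,
    reassoc_of% h5, associator_naturality_left, Iso.inv_hom_id_assoc]

/-- an endomorphism of `M` -/
theorem fs_end {M : C} (W : C) (f : M ⟶ M) (n : ℕ) (i : Fin n) :
    fs (f ▷ W) n i = la W (sl f n i) := by
  induction n with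
  | zero => exact i.elim0
  | succ n ih =>
    cases n with
    | zero =>
      obtain rfl : i = 0 := Fin.fin_one_eq_zero i
      rw [fs_one, sl_zero]
      change f ▷ W = (M ◁ (λ_ W).inv ≫ (α_ M (𝟙_ C) W).inv) ≫ ((f ▷ 𝟙_ C) ▷ W) ≫
        (α_ M (𝟙_ C) W).hom ≫ M ◁ (λ_ W).hom
      monoidal
    | succ m =>
      refine Fin.cases ?_ (fun k => ?_) i
      · rw [fs_zero, ih 0]
        unfold pw
        rw [← la_wl, ← la_comp, ← la_comp, ps_swap, sl_zero]
        congr 1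
        exact sw_slot f (tpow M m)
      · rw [fs_succ, ih k, sl_succ, la_wl]

end BS2

end Pool.Agent.MP_6e5bed_ag
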