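import Pool.Agent.Lib.MP_6e5bed_ag.BTrace

set_option autoImplicit false

/-!
# The swap lemma
-/

namespace Pool.Agent.MP_6e5bed_ag

open CategoryTheory MonoidalCategory Equiv

universe v u

section BW0

variable {C : Type u} [Category.{v} C] [MonoidalCategory C] [Preadditive C]
  [MonoidalPreadditive C]

theorem la_add {M : C} (V : C) {n : ℕ} (a b : tpow M n ⟶ tpow M n) :
    la V (a + b) = la V a + la V b := by
  unfold la
  rw [MonoidalPreadditive.add_whiskerRight, Preadditive.add_comp, Preadditive.comp_add]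

theorem wq_add {M : C} {n : ℕ} {V V' : C} (g h : tpw M n V ⟶ tpw M n V') :
    wq (g + h) = wq g + wq h := MonoidalPreadditive.whiskerLeft_add (X := M) g h

/-- additive form -/
def laHom {M : C} (V : C) (n : ℕ) : (tpow M n ⟶ tpow M n) →+ (tpw M n V ⟶ tpw M n V) :=
  AddMonoidHom.mk' (la V) (la_add V)

/-- additive form -/
def wqHom (M : C) (n : ℕ) (V V' : C) : (tpw M n V ⟶ tpw M n V') →+
    (tpw M (n + 1) V ⟶ tpw M (n + 1) V') := AddMonoidHom.mk' wq wq_add

theorem la_sum {M : C} (V : C) {n : ℕ} {ι : Type*} (t : Finset ι)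
    (f : ι → (tpow M n ⟶ tpow M n)) : la V (∑ i ∈ t, f i) = ∑ i ∈ t, la V (f i) :=
  map_sum (laHom V n) f t

theorem la_sub {M : C} (V : C) {n : ℕ} (a b : tpow M n ⟶ tpow M n) :
    la V (a - b) = la V a - la V b := map_sub (laHom V n) a b

theorem la_zero (M V : C) (n : ℕ) : la V (0 : tpow M n ⟶ tpow M n) = 0 :=
  map_zero (laHom V n)

theorem wq_zero (M : C) (n : ℕ) (V V' : C) : wq (0 : tpw M n V ⟶ tpw M n V') = 0 :=
  map_zero (wqHom M n V V')

theorem wq_sub {M : C} {n : ℕ} {V V' : C} (g h : tpw M n V ⟶ tpw M n V') :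
    wq (g - h) = wq g - wq h := map_sub (wqHom M n V V') g h

theorem wq_sum {M : C} {n : ℕ} {V V' : C} {ι : Type*} (t : Finset ι)
    (f : ι → (tpw M n V ⟶ tpw M n V')) : wq (∑ i ∈ t, f i) = ∑ i ∈ t, wq (f i) :=
  map_sum (wqHom M n V V') f t

variable [Linear ℚ C]

theorem la_smul {M : C} (V : C) {n : ℕ} (c : ℚ) (a : tpow M n ⟶ tpow M n) :
    la V (c • a) = c • la V a := (laHom V n).toRatLinearMap.map_smul c a

theorem wq_smul {M : C} {n : ℕ} {V V' : C} (c : ℚ) (g : tpw M n V ⟶ tpw M n V') :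
    wq (c • g) = c • wq g := (wqHom M n V V').toRatLinearMap.map_smul c g

end BW0

section BW1

variable {C : Type u} [Category.{v} C] [MonoidalCategory C] [SymmetricCategory C]
  [Preadditive C] [Linear ℚ C]

theorem za_eq (M : C) {n : ℕ} (z : MonoidAlgebra ℚ (Perm (Fin n))) :
    za M z = ∑ σ : Perm (Fin n), z.coeff σ • ps M σ := by
  unfold za act
  rw [MonoidAlgebra.lift_apply, Finsupp.sum_fintype]
  · rfl
  · intro σ
    rw [zero_smul]

theorem za_mul (M : C) {n : ℕ} (x y : MonoidAlgebra ℚ (Perm (Fin n))) :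
    za M (x * y) = za M y ≫ za M x := by
  unfold za
  rw [map_mul, End.mul_def]

theorem za_one (M : C) (n : ℕ) : za M (1 : MonoidAlgebra ℚ (Perm (Fin n))) = 𝟙 (tpow M n) := by
  unfold za
  rw [map_one]
  rfl

variable [MonoidalPreadditive C]

theorem la_za (M V : C) {n : ℕ} (z : MonoidAlgebra ℚ (Perm (Fin n))) :
    la V (za M z) = ∑ σ : Perm (Fin n), z.coeff σ • pw M n V σ := by
  rw [za_eq, la_sum]
  refine Finset.sum_congr rfl fun σ _ => ?_
  rw [la_smul]
  rfl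

theorem wq_za (M V : C) {n : ℕ} (z : MonoidAlgebra ℚ (Perm (Fin n))) :
    wq (la V (za M z)) = ∑ σ : Perm (Fin n), z.coeff σ • pw M (n + 1) V (sh σ) := by
  rw [la_za, wq_sum]
  refine Finset.sum_congr rfl fun σ _ => ?_
  rw [wq_smul, pw_sh]

theorem wqq_za (M V : C) {n : ℕ} (z : MonoidAlgebra ℚ (Perm (Fin n))) :
    wq (wq (la V (za M z))) =
      ∑ σ : Perm (Fin n), z.coeff σ • pw M (n + 2) V (sh (sh σ)) := by
  rw [wq_za, wq_sum]
  refine Finset.sum_congr rfl fun σ _ => ?_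
  rw [wq_smul, pw_sh _ _ (n + 1)]

omit [MonoidalPreadditive C] in
theorem comm_of_perm {M : C} {n m : ℕ} {V V' : C} (z : MonoidAlgebra ℚ (Perm (Fin n)))
    (h : Perm (Fin n) → Perm (Fin m)) (g : tpw M m V ⟶ tpw M m V')
    (hg : ∀ σ, pw M m V (h σ) ≫ g = g ≫ pw M m V' (h σ)) :
    (∑ σ : Perm (Fin n), z.coeff σ • pw M m V (h σ)) ≫ g =
      g ≫ ∑ σ : Perm (Fin n), z.coeff σ • pw M m V' (h σ) := by
  rw [Preadditive.sum_comp, Preadditive.comp_sum]
  refine Finset.sum_congr rfl fun σ _ => ?_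
  rw [Linear.smul_comp, Linear.comp_smul, hg]

theorem wq_za_comm {M : C} {n : ℕ} {V V' : C} (z : MonoidAlgebra ℚ (Perm (Fin n)))
    (g : tpw M (n + 1) V ⟶ tpw M (n + 1) V')
    (hg : ∀ σ : Perm (Fin n), pw M (n + 1) V (sh σ) ≫ g = g ≫ pw M (n + 1) V' (sh σ)) :
    wq (la V (za M z)) ≫ g = g ≫ wq (la V' (za M z)) := by
  rw [wq_za, wq_za]
  exact comm_of_perm z sh g hg

theorem wqq_za_comm {M : C} {n : ℕ} {V V' : C} (z : MonoidAlgebra ℚ (Perm (Fin n)))
    (g : tpw M (n + 2) V ⟶ tpw M (n + 2) V')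
    (hg : ∀ σ : Perm (Fin n), pw M (n + 2) V (sh (sh σ)) ≫ g = g ≫ pw M (n + 2) V' (sh (sh σ))) :
    wq (wq (la V (za M z))) ≫ g = g ≫ wq (wq (la V' (za M z))) := by
  rw [wqq_za, wqq_za]
  exact comm_of_perm z (fun σ => sh (sh σ)) g hg

omit [MonoidalPreadditive C] [Linear ℚ C] in
/-- the sum of the exchanges commutes with the permutations of the other factors -/
theorem jm_pw_sh (M V : C) (n : ℕ) (σ : Perm (Fin n)) :
    pw M (n + 1) V (sh σ) ≫ jm M n V = jm M n V ≫ pw M (n + 1) V (sh σ) := by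
  unfold jm
  rw [Preadditive.comp_sum, Preadditive.sum_comp, ← Equiv.sum_comp σ]
  refine Finset.sum_congr rfl fun i _ => ?_
  rw [pw_mul, pw_mul, mul_swap_eq_swap_mul, sh_zero, sh_succ]

theorem jm_za (M V : C) {n : ℕ} (z : MonoidAlgebra ℚ (Perm (Fin n))) :
    wq (la V (za M z)) ≫ jm M n V = jm M n V ≫ wq (la V (za M z)) :=
  wq_za_comm z _ fun σ => jm_pw_sh M V n σ

end BW1

section BW2

variable {C : Type u} [Category.{v} C] [MonoidalCategory C] [SymmetricCategory C]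
  [Preadditive C] [MonoidalPreadditive C] [Linear ℚ C]

omit [SymmetricCategory C] [MonoidalPreadditive C] [MonoidalCategory C] in
theorem nsmul_hom_zero {X Y : C} {n : ℕ} (hn : 0 < n) {f : X ⟶ Y} (h : n • f = 0) : f = 0 := by
  rw [← Nat.cast_smul_eq_nsmul ℚ, smul_eq_zero] at h
  exact h.resolve_left (Nat.cast_ne_zero.2 hn.ne')

/-- the swap lemma, before separating the factors -/
theorem swap_aux {M W W' : C} {n : ℕ} (hn : 0 < n)
    (z : MonoidAlgebra ℚ (Perm (Fin n))) (f : M ⊗ W ⟶ M ⊗ W')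
    (hf : ∀ i, la W (za M z) ≫ fs f n i = 0) : wq (la W (za M z)) ≫ fs f (n + 1) 0 = 0 := by
  have h0 : ∀ i : Fin n, wq (la W (za M z)) ≫ fs f (n + 1) i.succ = 0 := by
    intro i
    rw [fs_succ, ← wq_comp, hf, wq_zero]
  have hsw : ∀ (i : Fin n), pw M (n + 1) W (swap 0 i.succ) ≫ fs f (n + 1) 0 =
      fs f (n + 1) i.succ ≫ pw M (n + 1) W' (swap 0 i.succ) := by
    intro i
    rw [fs_pw, swap_apply_right]
  have h1 : wq (la W (za M z)) ≫ jm M n W ≫ fs f (n + 1) 0 = 0 := by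
    unfold jm
    rw [Preadditive.sum_comp, Preadditive.comp_sum]
    refine Finset.sum_eq_zero fun i _ => ?_
    rw [hsw, ← Category.assoc, h0, Limits.zero_comp]
  have h2 : wq (la W (za M z)) ≫ jm M n W ≫ jm M n W ≫ fs f (n + 1) 0 = 0 := by
    rw [← Category.assoc, jm_za, Category.assoc, h1, Limits.comp_zero]
  have h3 : ∀ j : Fin n, wq (la W (za M z)) ≫ jm M n W ≫
      pw M (n + 1) W (swap 0 j.succ) ≫ fs f (n + 1) 0 =
      wq (la W (za M z)) ≫ fs f (n + 1) 0 := by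
    intro j
    unfold jm
    rw [Preadditive.sum_comp, Preadditive.comp_sum, Finset.sum_eq_single j]
    · rw [pw_swap_self_assoc]
    · intro i _ hij
      have h4 : swap (0 : Fin (n + 1)) i.succ j.succ = j.succ := by
        apply swap_apply_of_ne_of_ne
        · exact Fin.succ_ne_zero _
        · intro h5
          exact hij (Fin.succ_injective _ h5).symm
      have h6 : pw M (n + 1) W (swap 0 i.succ) ≫ fs f (n + 1) j.succ =
          fs f (n + 1) j.succ ≫ pw M (n + 1) W' (swap 0 i.succ) := by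
        rw [fs_pw, h4]
      rw [hsw, ← Category.assoc (pw M (n + 1) W (swap 0 i.succ)), h6, ← Category.assoc,
        ← Category.assoc, h0, Limits.zero_comp, Limits.zero_comp]
    · intro h7
      exact absurd (Finset.mem_univ j) h7
  have h4 : jm M n W ≫ fs f (n + 1) 0 =
      ∑ j : Fin n, pw M (n + 1) W (swap 0 j.succ) ≫ fs f (n + 1) 0 := by
    unfold jm
    rw [Preadditive.sum_comp]
  rw [h4, Preadditive.comp_sum, Preadditive.comp_sum, Finset.sum_congr rfl fun j _ => h3 j,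
    Finset.sum_const, Finset.card_univ, Fintype.card_fin] at h2
  exact nsmul_hom_zero hn h2

theorem swap_lemma_tensor {M W W' : C} {n : ℕ} (hn : 0 < n)
    (z : MonoidAlgebra ℚ (Perm (Fin n))) (f : M ⊗ W ⟶ M ⊗ W')
    (hf : ∀ i, la W (za M z) ≫ fs f n i = 0) : za M z ⊗ₘ f = 0 :=
  tens_fs _ f (swap_aux hn z f hf)

variable [RatUnit C]

theorem eq_zero_of_trp {M Z Z' : C} [HasLeftDual M] {n : ℕ} {a g : tpow M n ⟶ tpow M n}
    (hg : trp M n (a ≫ g) ≠ 0) {f : Z ⟶ Z'} (h : a ⊗ₘ f = 0) : f = 0 := by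
  let _ := tpowDual M n
  refine eq_zero_of_tensor' (W := tpow M n) (B := a ≫ g) ?_ hg
  have h1 : ((a ≫ g) ⊗ₘ f) = (a ⊗ₘ f) ≫ (g ⊗ₘ 𝟙 Z') := by
    rw [tensorHom_comp_tensorHom, Category.comp_id]
  rw [h1, h, Limits.zero_comp]

/-- the swap lemma -/
theorem swap_lemma {M W W' : C} [HasLeftDual M] {n : ℕ} (hn : 0 < n)
    (z : MonoidAlgebra ℚ (Perm (Fin n))) (g : tpow M n ⟶ tpow M n)
    (hg : trp M n (za M z ≫ g) ≠ 0) (f : M ⊗ W ⟶ M ⊗ W')
    (hf : ∀ i, la W (za M z) ≫ fs f n i = 0) : f = 0 :=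
  eq_zero_of_trp hg (swap_lemma_tensor hn z f hf)

/-- the swap lemma for endomorphisms -/
theorem swap_lemma_end {M : C} [HasLeftDual M] {n : ℕ} (hn : 0 < n)
    (z : MonoidAlgebra ℚ (Perm (Fin n))) (g : tpow M n ⟶ tpow M n)
    (hg : trp M n (za M z ≫ g) ≠ 0) (f : M ⟶ M)
    (hf : ∀ i, za M z ≫ sl f n i = 0) : f = 0 := by
  have h1 : f ▷ 𝟙_ C = 0 := by
    apply swap_lemma hn z g hg
    intro i
    rw [fs_end, ← la_comp, hf, la_zero]
  rw [← cancel_epi (ρ_ M).hom, ← rightUnitor_naturality, h1, Limits.zero_comp,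
    Limits.comp_zero]

end BW2

end Pool.Agent.MP_6e5bed_ag
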