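import Pool.Agent.Lib.MP_6e5bed_ag.BSlots

set_option autoImplicit false

/-!
# Slots of tensor powers: partial traces, separation of the factors
-/

namespace Pool.Agent.MP_6e5bed_ag

open CategoryTheory MonoidalCategory Equiv

universe v u

section BT0

variable {C : Type u} [Category.{v} C] [MonoidalCategory C] [SymmetricCategory C]

/-- moving the first factor to the end -/
def mv (M W : C) : (n : ℕ) → (M ⊗ tpw M n W ⟶ tpw M n (M ⊗ W))
  | 0 => 𝟙 (M ⊗ W)
  | n + 1 => sw M (tpw M n W) ≫ M ◁ mv M W n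

instance mv_isIso (M W : C) (n : ℕ) : IsIso (mv M W n) := by
  induction n with
  | zero => exact IsIso.id _
  | succ n ih =>
    have h1 : IsIso (sw M (tpw M n W)) := ⟨sw M (tpw M n W), sw_sq _ _, sw_sq _ _⟩
    have h2 : IsIso (M ◁ mv M W n) := inferInstance
    exact IsIso.comp_isIso' h1 h2

theorem fs_mv_step {M T T' U U' : C} (F : M ⊗ T ⟶ M ⊗ T') (m : M ⊗ T ⟶ U) (m' : M ⊗ T' ⟶ U')
    (t : U ⟶ U') (h : F ≫ m' = m ≫ t) : (sw M T ≫ (M ◁ F) ≫ sw M T') ≫ sw M T' ≫ M ◁ m' =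
      (sw M T ≫ M ◁ m) ≫ M ◁ t := by
  rw [Category.assoc, Category.assoc, Category.assoc, ← MonoidalCategory.whiskerLeft_comp,
    ← h, MonoidalCategory.whiskerLeft_comp, ← Category.assoc (sw M T') (sw M T'), sw_sq,
    Category.id_comp]

/-- the slot number zero, with unfolded types -/
def fz {M W W' : C} (f : M ⊗ W ⟶ M ⊗ W') (n : ℕ) : M ⊗ tpw M n W ⟶ M ⊗ tpw M n W' :=
  fs f (n + 1) 0

theorem fz_mv {M W W' : C} (f : M ⊗ W ⟶ M ⊗ W') (n : ℕ) :
    fz f n ≫ mv M W' n = mv M W n ≫ tpwMap M f n := by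
  induction n with
  | zero =>
    change f ≫ 𝟙 _ = 𝟙 _ ≫ f
    rw [Category.comp_id, Category.id_comp]
  | succ n ih => exact fs_mv_step _ _ _ _ ih

theorem mv_psi_step (M W T U V : C) (m : M ⊗ U ⟶ V) (p : V ⟶ T ⊗ (M ⊗ W))
    (q : U ⟶ T ⊗ W) (ih : m ≫ p = M ◁ q ≫ (α_ M T W).inv ≫ ((β_ M T).hom ▷ W) ≫
      (α_ T M W).hom) :
    (sw M U ≫ M ◁ m) ≫ M ◁ p ≫ (α_ M T (M ⊗ W)).inv =
      M ◁ (M ◁ q ≫ (α_ M T W).inv) ≫ (α_ M (M ⊗ T) W).inv ≫ ((β_ M (M ⊗ T)).hom ▷ W) ≫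
      (α_ (M ⊗ T) M W).hom := by
  have h1 : sw M (T ⊗ W) ≫ M ◁ ((α_ M T W).inv ≫ ((β_ M T).hom ▷ W) ≫ (α_ T M W).hom) ≫
      (α_ M T (M ⊗ W)).inv = M ◁ (α_ M T W).inv ≫
      (α_ M (M ⊗ T) W).inv ≫ ((β_ M (M ⊗ T)).hom ▷ W) ≫ (α_ (M ⊗ T) M W).hom := by
    rw [BraidedCategory.braiding_tensor_right_hom]
    unfold sw
    monoidal
  rw [Category.assoc, ← MonoidalCategory.whiskerLeft_comp_assoc, ih,
    MonoidalCategory.whiskerLeft_comp_assoc, ← Category.assoc, sw_comm, Category.assoc, h1,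
    MonoidalCategory.whiskerLeft_comp_assoc]

theorem mv_psi (M W : C) (n : ℕ) :
    mv M W n ≫ (psi M n (M ⊗ W)).hom = M ◁ (psi M n W).hom ≫ (α_ M (tpow M n) W).inv ≫
      ((β_ M (tpow M n)).hom ▷ W) ≫ (α_ (tpow M n) M W).hom := by
  induction n with
  | zero =>
    change 𝟙 (M ⊗ W) ≫ (λ_ (M ⊗ W)).inv = M ◁ (λ_ W).inv ≫ (α_ M (𝟙_ C) W).inv ≫
      ((β_ M (𝟙_ C)).hom ▷ W) ≫ (α_ (𝟙_ C) M W).hom
    rw [braiding_tensorUnit_right]
    monoidal
  | succ n ih => exact mv_psi_step M W _ _ _ _ _ _ ih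

/-- an endomorphism of the last factors commutes with the move -/
theorem la_mv {M : C} (W : C) {n : ℕ} (a : tpow M n ⟶ tpow M n) :
    (M ◁ la W a) ≫ mv M W n = mv M W n ≫ la (M ⊗ W) a := by
  rw [← cancel_mono (psi M n (M ⊗ W)).hom, Category.assoc, Category.assoc, mv_psi]
  unfold la
  rw [Category.assoc, Category.assoc, Iso.inv_hom_id, Category.comp_id,
    ← Category.assoc (mv M W n), mv_psi, ← MonoidalCategory.whiskerLeft_comp_assoc,
    Category.assoc, Category.assoc, Iso.inv_hom_id, Category.comp_id,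
    MonoidalCategory.whiskerLeft_comp_assoc, Category.assoc, Category.assoc, Category.assoc,
    associator_inv_naturality_middle_assoc, ← comp_whiskerRight_assoc,
    BraidedCategory.braiding_naturality_right, comp_whiskerRight_assoc,
    associator_naturality_left]

end BT0

section BT1

variable {C : Type u} [Category.{v} C] [MonoidalCategory C]
  [Preadditive C] [MonoidalPreadditive C]

theorem tens_map {M W W' : C} {n : ℕ} (a : tpow M n ⟶ tpow M n) (t : W ⟶ W')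
    (h : la W a ≫ tpwMap M t n = 0) : a ⊗ₘ t = 0 := by
  unfold la at h
  rw [Category.assoc, Category.assoc, psi_inv_tpwMap, ← Category.assoc (a ▷ W)] at h
  rw [MonoidalCategory.tensorHom_def]
  have h2 : (psi M n W).inv ≫ ((psi M n W).hom ≫ (a ▷ W ≫ tpow M n ◁ t) ≫
      (psi M n W').inv) ≫ (psi M n W').hom = 0 := by
    rw [h, Limits.zero_comp, Limits.comp_zero]
  rw [Category.assoc, Category.assoc, Iso.inv_hom_id_assoc, Iso.inv_hom_id,
    Category.comp_id] at h2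
  exact h2

variable [SymmetricCategory C]

/-- `a` acts on the last `n` factors `M`, `f` on the factor number `0` and on `W` -/
theorem tens_fs {M W W' : C} {n : ℕ} (a : tpow M n ⟶ tpow M n) (f : M ⊗ W ⟶ M ⊗ W')
    (h : wq (la W a) ≫ fs f (n + 1) 0 = 0) : a ⊗ₘ f = 0 := by
  apply tens_map
  have h1 : (M ◁ la W a) ≫ fz f n = 0 := h
  rw [← cancel_epi (mv M W n), ← Category.assoc, ← la_mv, Category.assoc, ← fz_mv,
    ← Category.assoc, h1, Limits.zero_comp, Limits.comp_zero]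

end BT1

section BT2

variable {C : Type u} [Category.{v} C] [MonoidalCategory C] [SymmetricCategory C]

/-- the partial trace over the first factor -/
def ptq (M : C) [HasLeftDual M] {n : ℕ} {V V' : C} (f : tpw M (n + 1) V ⟶ tpw M (n + 1) V') :
    tpw M n V ⟶ tpw M n V' := ptr M (S := tpw M n V) (T := tpw M n V') f

theorem ptq_wq_left {M : C} [HasLeftDual M] {n : ℕ} {V V' V'' : C} (g : tpw M n V ⟶ tpw M n V')
    (f : tpw M (n + 1) V' ⟶ tpw M (n + 1) V'') : ptq M (wq g ≫ f) = g ≫ ptq M f :=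
  ptr_nat_left M g f

theorem ptq_wq_right {M : C} [HasLeftDual M] {n : ℕ} {V V' V'' : C}
    (f : tpw M (n + 1) V ⟶ tpw M (n + 1) V') (g : tpw M n V' ⟶ tpw M n V'') :
    ptq M (f ≫ wq g) = ptq M f ≫ g :=
  ptr_nat_right M f g

theorem ptq_swap_one (M V : C) [HasLeftDual M] (n : ℕ) :
    ptq M (pw M (n + 2) V (swap 0 1)) = 𝟙 (tpw M (n + 1) V) := by
  rw [pw_swap]
  exact ptr_sw M _

theorem ptq_swap (M V : C) [HasLeftDual M] (n : ℕ) (i : Fin n) :
    ptq M (pw M (n + 1) V (swap 0 i.succ)) = 𝟙 (tpw M n V) := by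
  cases n with
  | zero => exact i.elim0
  | succ m =>
    have h1 := swap_succ_eq i
    rw [h1, mul_assoc, ← pw_mul, ← pw_mul, pw_sh, Category.assoc, ptq_wq_left, ptq_wq_right,
      ptq_swap_one, Category.id_comp, pw_swap_self]

theorem ptr_sw_conj (X : C) [HasLeftDual X] {S T : C} (F : X ⊗ S ⟶ X ⊗ T) :
    ptr X (sw X S ≫ (X ◁ F) ≫ sw X T) = X ◁ ptr X F := by
  have hP : ∀ S : C, (β_ X (X ⊗ S)).hom = sw X S ≫ X ◁ (β_ X S).hom ≫ (α_ X S X).inv := by
    intro S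
    rw [BraidedCategory.braiding_tensor_right_hom]
    unfold sw
    simp only [Category.assoc]
  have hn := BraidedCategory.braiding_naturality_right X F
  rw [hP, hP] at hn
  have h1 : sw X S ≫ (X ◁ F) ≫ sw X T = X ◁ (β_ X S).hom ≫ ((α_ X S X).inv ≫ (F ▷ X) ≫
      (α_ X T X).hom) ≫ X ◁ (β_ X T).inv := by
    have h2 : (X ◁ F) ≫ sw X T = (sw X S ≫ X ◁ (β_ X S).hom ≫ (α_ X S X).inv) ≫ (F ▷ X) ≫
      (α_ X T X).hom ≫ X ◁ (β_ X T).inv := by
      rw [← Category.assoc _ (F ▷ X), ← hn]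
      simp only [Category.assoc, Iso.inv_hom_id_assoc]
      rw [← MonoidalCategory.whiskerLeft_comp, Iso.hom_inv_id, MonoidalCategory.whiskerLeft_id,
        Category.comp_id]
    rw [h2]
    simp only [Category.assoc]
    rw [← Category.assoc (sw X S) (sw X S), sw_sq, Category.id_comp]
  rw [h1, ptr_nat_left, ptr_nat_right, ptr_assoc, ← BraidedCategory.braiding_naturality_right_assoc,
    Iso.hom_inv_id, Category.comp_id]

theorem ptq_fs_zero {M W W' : C} [HasLeftDual M] (f : M ⊗ W ⟶ M ⊗ W') (n : ℕ) :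
    ptq M (fs f (n + 1) 0) = tpwMap M (ptr M f) n := by
  induction n with
  | zero => rfl
  | succ n ih =>
    have h1 := ptr_sw_conj M (fz f n)
    refine Eq.trans h1 ?_
    exact congrArg (fun g => M ◁ g) ih

variable [Preadditive C] [MonoidalPreadditive C]

theorem ptq_add {M : C} [HasLeftDual M] {n : ℕ} {V V' : C}
    (f g : tpw M (n + 1) V ⟶ tpw M (n + 1) V') : ptq M (f + g) = ptq M f + ptq M g :=
  ptr_add M f g

theorem ptq_sub {M : C} [HasLeftDual M] {n : ℕ} {V V' : C}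
    (f g : tpw M (n + 1) V ⟶ tpw M (n + 1) V') : ptq M (f - g) = ptq M f - ptq M g :=
  ptr_sub M f g

theorem ptq_zero (M : C) [HasLeftDual M] (n : ℕ) (V V' : C) :
    ptq M (0 : tpw M (n + 1) V ⟶ tpw M (n + 1) V') = 0 :=
  ptr_zero M

theorem ptq_sum {M : C} [HasLeftDual M] {n : ℕ} {V V' : C} {ι : Type*} (t : Finset ι)
    (f : ι → (tpw M (n + 1) V ⟶ tpw M (n + 1) V')) :
    ptq M (∑ i ∈ t, f i) = ∑ i ∈ t, ptq M (f i) :=
  ptr_sum M t f

variable [Linear ℚ C]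

theorem ptq_smul {M : C} [HasLeftDual M] {n : ℕ} {V V' : C} (c : ℚ)
    (f : tpw M (n + 1) V ⟶ tpw M (n + 1) V') : ptq M (c • f) = c • ptq M f :=
  ptr_smul M c f

theorem ptq_wq [RatUnit C] {M : C} [HasLeftDual M] {n : ℕ} {V V' : C}
    (g : tpw M n V ⟶ tpw M n V') : ptq M (wq g) = tr M (𝟙 M) • g := by
  have h := ptr_tensor M (𝟙 M) g
  rw [id_tensorHom] at h
  exact h

theorem ptq_jm (M V : C) [HasLeftDual M] (n : ℕ) :
    ptq M (jm M n V) = (n : ℚ) • 𝟙 (tpw M n V) := by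
  unfold jm
  rw [ptq_sum, Finset.sum_congr rfl fun i _ => ptq_swap M V n i, Finset.sum_const,
    Finset.card_univ, Fintype.card_fin, Nat.cast_smul_eq_nsmul]

end BT2

end Pool.Agent.MP_6e5bed_ag
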