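import Pool.Agent.Lib.MP_6e5bed_ag.Perm

set_option autoImplicit false

/-! # Braided functors and the symmetric group action on tensor powers -/

namespace Pool.Agent.MP_6e5bed_ag

open CategoryTheory MonoidalCategory Equiv
open Functor.LaxMonoidal Functor.OplaxMonoidal

universe v u v' u'

section Fun

variable {C : Type u} [Category.{v} C] [MonoidalCategory C] [SymmetricCategory C]
  {D : Type u'} [Category.{v'} D] [MonoidalCategory D] [SymmetricCategory D]
  (F : C ⥤ D) [F.Braided]

theorem fun_powIso_zero (X : C) : (powIso F X 0).hom = η F := rfl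

theorem fun_powIso_succ (X : C) (n : ℕ) : (powIso F X (n + 1)).hom =
    δ F X (tpow X n) ≫ (𝟙 (F.obj X) ⊗ₘ (powIso F X n).hom) := rfl

theorem fun_powIso_succ' (X : C) (n : ℕ) : (powIso F X (n + 1)).hom =
    δ F X (tpow X n) ≫ F.obj X ◁ (powIso F X n).hom := by
  rw [fun_powIso_succ, id_tensorHom]

theorem fun_sw (X T : C) :
    F.map (sw X T) ≫ δ F X (X ⊗ T) ≫ F.obj X ◁ δ F X T =
      δ F X (X ⊗ T) ≫ F.obj X ◁ δ F X T ≫ sw (F.obj X) (F.obj T) := by
  unfold sw
  simp only [Functor.map_comp, Category.assoc]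
  rw [← Functor.OplaxMonoidal.associativity, ← δ_natural_left_assoc,
    ← comp_whiskerRight_assoc, Functor.map_braiding]
  simp only [Category.assoc, Functor.Monoidal.μ_δ, Category.comp_id, comp_whiskerRight]
  have h := Functor.OplaxMonoidal.associativity_inv F X X T
  rw [← reassoc_of% h]

theorem fun_sw' (X T : C) {T' : D} (j : F.obj T ⟶ T') :
    F.map (sw X T) ≫ δ F X (X ⊗ T) ≫ F.obj X ◁ (δ F X T ≫ F.obj X ◁ j) =
      (δ F X (X ⊗ T) ≫ F.obj X ◁ (δ F X T ≫ F.obj X ◁ j)) ≫ sw (F.obj X) T' := by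
  have h := fun_sw F X T
  simp only [MonoidalCategory.whiskerLeft_comp, Category.assoc]
  rw [reassoc_of% h, sw_comm]

theorem fun_wl (X : C) {T : C} (a : T ⟶ T) {T' : D} (j : F.obj T ⟶ T') (a' : T' ⟶ T')
    (h : F.map a ≫ j = j ≫ a') :
    F.map (X ◁ a) ≫ δ F X T ≫ F.obj X ◁ j = (δ F X T ≫ F.obj X ◁ j) ≫ F.obj X ◁ a' := by
  rw [← δ_natural_right_assoc, ← MonoidalCategory.whiskerLeft_comp, h,
    MonoidalCategory.whiskerLeft_comp, Category.assoc]

theorem powIso_adj (X : C) (n i : ℕ) :
    F.map (adj X n i) ≫ (powIso F X n).hom = (powIso F X n).hom ≫ adj (F.obj X) n i := by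
  induction n generalizing i with
  | zero =>
    have h1 : F.map (adj X 0 i) = 𝟙 _ := F.map_id _
    rw [h1]
    exact (Category.id_comp _).trans (Category.comp_id _).symm
  | succ n ih =>
    cases n with
    | zero =>
      have h1 : F.map (adj X 1 i) = 𝟙 _ := F.map_id _
      rw [h1]
      exact (Category.id_comp _).trans (Category.comp_id _).symm
    | succ n =>
      cases i with
      | zero =>
        rw [fun_powIso_succ', fun_powIso_succ']
        exact fun_sw' F X (tpow X n) (powIso F X n).hom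
      | succ i =>
        rw [fun_powIso_succ']
        exact fun_wl F X (adj X (n + 1) i) (powIso F X (n + 1)).hom
          (adj (F.obj X) (n + 1) i) (ih i)

theorem powIso_perm (X : C) (n : ℕ) (σ : Perm (Fin n)) :
    F.map (perm X n σ : tpow X n ⟶ tpow X n) ≫ (powIso F X n).hom =
      (powIso F X n).hom ≫ (perm (F.obj X) n σ : tpow (F.obj X) n ⟶ tpow (F.obj X) n) := by
  refine perm_induction (P := fun σ => F.map (perm X n σ : tpow X n ⟶ tpow X n) ≫
      (powIso F X n).hom = (powIso F X n).hom ≫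
        (perm (F.obj X) n σ : tpow (F.obj X) n ⟶ tpow (F.obj X) n)) ?_ ?_ ?_ σ
  · rw [map_one, map_one]
    have h1 : F.map (𝟙 (tpow X n)) = 𝟙 _ := F.map_id _
    exact (congrArg (fun z => z ≫ (powIso F X n).hom) h1).trans
      ((Category.id_comp _).trans (Category.comp_id _).symm)
  · intro i h
    rw [perm_adj X n i h, perm_adj (F.obj X) n i h]
    exact powIso_adj F X n i
  · intro a b ha hb
    rw [map_mul, map_mul, End.mul_def, End.mul_def, Functor.map_comp, Category.assoc, ha,
      ← Category.assoc, hb, Category.assoc]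

theorem fun_tm {X Y T S : C} (f : X ⟶ Y) (g : T ⟶ S) {T' S' : D} (j : F.obj T ⟶ T')
    (k : F.obj S ⟶ S') (g' : T' ⟶ S') (h : F.map g ≫ k = j ≫ g') :
    F.map (f ⊗ₘ g) ≫ δ F Y S ≫ (𝟙 (F.obj Y) ⊗ₘ k) =
      (δ F X T ≫ (𝟙 (F.obj X) ⊗ₘ j)) ≫ (F.map f ⊗ₘ g') := by
  rw [← δ_natural_assoc, tensorHom_comp_tensorHom, h, Category.comp_id, Category.assoc,
    tensorHom_comp_tensorHom, Category.id_comp]

theorem powIso_tmap {X Y : C} (f : X ⟶ Y) (n : ℕ) :
    F.map (tmap f n) ≫ (powIso F Y n).hom = (powIso F X n).hom ≫ tmap (F.map f) n := by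
  induction n with
  | zero =>
    have h1 : F.map (tmap f 0) = 𝟙 _ := F.map_id _
    rw [h1]
    exact (Category.id_comp _).trans (Category.comp_id _).symm
  | succ n ih =>
    rw [fun_powIso_succ, fun_powIso_succ, tmap_succ, tmap_succ]
    exact fun_tm F f (tmap f n) (powIso F X n).hom (powIso F Y n).hom (tmap (F.map f) n) ih

variable [Preadditive C] [Preadditive D] [F.Additive]

theorem powIso_altSum (X : C) (n : ℕ) :
    F.map (altSum X n) ≫ (powIso F X n).hom = (powIso F X n).hom ≫ altSum (F.obj X) n := by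
  unfold altSum
  rw [Functor.map_sum, Preadditive.sum_comp, Preadditive.comp_sum]
  refine Finset.sum_congr rfl fun σ _ => ?_
  rw [Functor.map_zsmul, Preadditive.zsmul_comp, Preadditive.comp_zsmul, powIso_perm]

theorem powIso_symSum (X : C) (n : ℕ) :
    F.map (symSum X n) ≫ (powIso F X n).hom = (powIso F X n).hom ≫ symSum (F.obj X) n := by
  unfold symSum
  rw [Functor.map_sum, Preadditive.sum_comp, Preadditive.comp_sum]
  refine Finset.sum_congr rfl fun σ _ => ?_
  rw [powIso_perm]

end Fun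

end Pool.Agent.MP_6e5bed_ag
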