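import Pool.Agent.Lib.MP_6e5bed_ag.Defs

set_option autoImplicit false

/-!
# Gradings: the automorphism which multiplies the part of degree n by 2 ^ n
-/

namespace Pool.Agent.MP_6e5bed_ag

open CategoryTheory MonoidalCategory Equiv

universe v u v' u'

section Grad

theorem grad_exists_scale {V : Type*} [AddCommGroup V] [Module ℚ V] {deg : ℤ → Submodule ℚ V}
    (hd : DirectSum.IsInternal deg) :
    ∃ φ : V →ₗ[ℚ] V, ∀ (n : ℤ) (v : V), v ∈ deg n → φ v = ((2 : ℚ) ^ n) • v := by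
  classical
  let e : (DirectSum ℤ fun i => deg i) ≃ₗ[ℚ] V :=
    LinearEquiv.ofBijective (DirectSum.coeLinearMap deg) hd
  refine ⟨(DirectSum.toModule ℚ ℤ V fun n => ((2 : ℚ) ^ n) • (deg n).subtype) ∘ₗ
    e.symm.toLinearMap, fun n v hv => ?_⟩
  have h : e.symm v = DirectSum.lof ℚ ℤ (fun i => deg i) n ⟨v, hv⟩ := by
    rw [LinearEquiv.symm_apply_eq]
    exact (DirectSum.coeLinearMap_lof deg n ⟨v, hv⟩).symm
  rw [LinearMap.comp_apply, LinearEquiv.coe_coe, h, DirectSum.toModule_lof]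
  rfl

theorem grad_induction {V : Type*} [AddCommGroup V] [Module ℚ V] {deg : ℤ → Submodule ℚ V}
    (hd : DirectSum.IsInternal deg) {P : V → Prop} (h0 : P 0)
    (ha : ∀ x y, P x → P y → P (x + y)) (hm : ∀ n, ∀ x ∈ deg n, P x) (x : V) : P x := by
  have hx : x ∈ ⨆ i, deg i := by
    rw [hd.submodule_iSup_eq_top]
    trivial
  exact Submodule.iSup_induction deg (motive := P) hx hm h0 ha

/-- A submodule stable under the automorphism which multiplies the part of degree `n` by `2 ^ n`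
is homogeneous. -/
theorem homogeneous {V : Type*} [AddCommGroup V] [Module ℚ V] {deg : ℤ → Submodule ℚ V}
    (hd : DirectSum.IsInternal deg) {φ : V →ₗ[ℚ] V}
    (hφ : ∀ (n : ℤ) (v : V), v ∈ deg n → φ v = ((2 : ℚ) ^ n) • v) {N : Submodule ℚ V}
    (hN : ∀ v ∈ N, φ v ∈ N) {v : V} (hv : φ v - v ∈ N) : ∃ w ∈ deg 0, v - w ∈ N := by
  -- decomposition of a vector
  have h1 : ∀ x : V, ∃ w ∈ deg 0, x - w ∈ ⨆ n, ⨆ _ : n ≠ 0, deg n := by
    intro x
    refine grad_induction hd (P := fun x => ∃ w ∈ deg 0, x - w ∈ ⨆ n, ⨆ _ : n ≠ 0, deg n)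
      ⟨0, (deg 0).zero_mem, by rw [sub_zero]; exact Submodule.zero_mem _⟩ ?_ ?_ x
    · rintro x y ⟨w, hw, hx⟩ ⟨w', hw', hy⟩
      refine ⟨w + w', (deg 0).add_mem hw hw', ?_⟩
      have h := Submodule.add_mem _ hx hy
      rwa [show x - w + (y - w') = x + y - (w + w') by abel] at h
    · intro n x hx
      by_cases hn : n = 0
      · subst hn
        exact ⟨x, hx, by rw [sub_self]; exact Submodule.zero_mem _⟩
      · refine ⟨0, (deg 0).zero_mem, ?_⟩
        rw [sub_zero]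
        exact Submodule.mem_iSup_of_mem n (Submodule.mem_iSup_of_mem hn hx)
  obtain ⟨w, hw, hvw⟩ := h1 v
  refine ⟨w, hw, ?_⟩
  -- the quotient
  let ψ : Module.End ℚ (V ⧸ N) := N.mapQ N φ hN
  have hψ : ∀ x, ψ (N.mkQ x) = N.mkQ (φ x) := fun x => rfl
  have h2 : N.mkQ (v - w) ∈ ψ.eigenspace 1 := by
    rw [Module.End.mem_eigenspace_iff, hψ, one_smul, map_sub φ, hφ 0 w hw, zpow_zero, one_smul,
      ← sub_eq_zero, ← map_sub, show φ v - w - (v - w) = φ v - v by abel]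
    rwa [Submodule.mkQ_apply, Submodule.Quotient.mk_eq_zero]
  have h3 : (⨆ n, ⨆ _ : n ≠ 0, deg n) ≤ (⨆ c, ⨆ _ : c ≠ (1 : ℚ), ψ.eigenspace c).comap N.mkQ := by
    refine iSup₂_le fun n hn x hx => ?_
    rw [Submodule.mem_comap]
    have hc : ((2 : ℚ) ^ n) ≠ 1 := by
      intro h
      exact hn ((zpow_eq_one_iff_right₀ (by norm_num) (by norm_num)).mp h)
    refine Submodule.mem_iSup_of_mem ((2 : ℚ) ^ n) (Submodule.mem_iSup_of_mem hc ?_)
    rw [Module.End.mem_eigenspace_iff, hψ, hφ n x hx, map_smul]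
  have h4 : N.mkQ (v - w) ∈ ⨆ c, ⨆ _ : c ≠ (1 : ℚ), ψ.eigenspace c := h3 hvw
  have h5 := Submodule.disjoint_def.mp (ψ.eigenspaces_iSupIndep 1) _ h2 h4
  rwa [Submodule.mkQ_apply, Submodule.Quotient.mk_eq_zero] at h5

variable {C : Type u} [Category.{v} C] [MonoidalCategory C]
  {D : Type u'} [Category.{v'} D] [MonoidalCategory D]
  [Preadditive D] [MonoidalPreadditive D] [Linear ℚ D] [MonoidalLinear ℚ D]
  {F : C ⥤ D} [F.Monoidal]

/-- The tensor product is compatible with scalars. -/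
theorem grad_smul_tensor {X Y X' Y' : D} (a b : ℚ) (f : X ⟶ Y) (g : X' ⟶ Y') :
    (a • f) ⊗ₘ (b • g) = (a * b) • (f ⊗ₘ g) := by
  rw [MonoidalCategory.tensorHom_def, MonoidalCategory.tensorHom_def,
    MonoidalLinear.smul_whiskerRight, MonoidalLinear.whiskerLeft_smul, Linear.smul_comp,
    Linear.comp_smul, smul_smul]

/-- The automorphism which multiplies the part of degree `n` by `2 ^ n`. -/
theorem FGrading.exists_auto (G : FGrading F) :
    ∃ φ : ∀ {X Y : C}, (F.obj X ⟶ F.obj Y) →ₗ[ℚ] (F.obj X ⟶ F.obj Y),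
      (∀ {X Y Z : C} (f : F.obj X ⟶ F.obj Y) (g : F.obj Y ⟶ F.obj Z), φ (f ≫ g) = φ f ≫ φ g) ∧
      (∀ {X Y : C} (g : X ⟶ Y), φ (F.map g) = F.map g) ∧
      (∀ {X Y X' Y' : C} (f : F.obj X ⟶ F.obj Y) (g : F.obj X' ⟶ F.obj Y'),
        φ (Functor.OplaxMonoidal.δ F X X' ≫ (f ⊗ₘ g) ≫ Functor.LaxMonoidal.μ F Y Y') =
          Functor.OplaxMonoidal.δ F X X' ≫ (φ f ⊗ₘ φ g) ≫ Functor.LaxMonoidal.μ F Y Y') ∧
      ∀ {X Y : C} (n : ℤ) (f : F.obj X ⟶ F.obj Y), f ∈ G.deg X Y n → φ f = ((2 : ℚ) ^ n) • f := by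
  let φ : ∀ {X Y : C}, (F.obj X ⟶ F.obj Y) →ₗ[ℚ] (F.obj X ⟶ F.obj Y) := fun {X Y} =>
    (grad_exists_scale (G.internal X Y)).choose
  have hφ : ∀ {X Y : C} (n : ℤ) (f : F.obj X ⟶ F.obj Y), f ∈ G.deg X Y n →
      φ f = ((2 : ℚ) ^ n) • f := fun {X Y} n f hf =>
    (grad_exists_scale (G.internal X Y)).choose_spec n f hf
  have h2 : (2 : ℚ) ≠ 0 := by norm_num
  refine ⟨φ, ?_, ?_, ?_, hφ⟩
  · intro X Y Z f
    refine grad_induction (G.internal X Y)
      (P := fun f => ∀ g : F.obj Y ⟶ F.obj Z, φ (f ≫ g) = φ f ≫ φ g) ?_ ?_ ?_ f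
    · intro g
      rw [Limits.zero_comp, map_zero, map_zero, Limits.zero_comp]
    · intro x y hx hy g
      rw [Preadditive.add_comp, map_add, hx, hy, map_add, Preadditive.add_comp]
    · intro a x hx g
      refine grad_induction (G.internal Y Z) (P := fun g => φ (x ≫ g) = φ x ≫ φ g) ?_ ?_ ?_ g
      · rw [Limits.comp_zero, map_zero, map_zero, Limits.comp_zero]
      · intro g g' hg hg'
        rw [Preadditive.comp_add, map_add, hg, hg', map_add, Preadditive.comp_add]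
      · intro b g hg
        rw [hφ _ _ (G.comp_mem hx hg), hφ _ _ hx, hφ _ _ hg, Linear.smul_comp, Linear.comp_smul,
          smul_smul, zpow_add₀ h2]
  · intro X Y g
    rw [hφ 0 _ ((G.mem_zero _).mpr ⟨g, rfl⟩), zpow_zero, one_smul]
  · intro X Y X' Y' f
    refine grad_induction (G.internal X Y)
      (P := fun f => ∀ g : F.obj X' ⟶ F.obj Y',
        φ (Functor.OplaxMonoidal.δ F X X' ≫ (f ⊗ₘ g) ≫ Functor.LaxMonoidal.μ F Y Y') =
          Functor.OplaxMonoidal.δ F X X' ≫ (φ f ⊗ₘ φ g) ≫ Functor.LaxMonoidal.μ F Y Y')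
      ?_ ?_ ?_ f
    · intro g
      rw [MonoidalPreadditive.zero_tensor, map_zero, MonoidalPreadditive.zero_tensor,
        Limits.zero_comp, Limits.comp_zero, map_zero]
    · intro x y hx hy g
      rw [MonoidalPreadditive.add_tensor, Preadditive.add_comp, Preadditive.comp_add, map_add,
        hx, hy, map_add, MonoidalPreadditive.add_tensor, Preadditive.add_comp,
        Preadditive.comp_add]
    · intro a x hx g
      refine grad_induction (G.internal X' Y')
        (P := fun g =>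
          φ (Functor.OplaxMonoidal.δ F X X' ≫ (x ⊗ₘ g) ≫ Functor.LaxMonoidal.μ F Y Y') =
          Functor.OplaxMonoidal.δ F X X' ≫ (φ x ⊗ₘ φ g) ≫ Functor.LaxMonoidal.μ F Y Y')
        ?_ ?_ ?_ g
      · rw [MonoidalPreadditive.tensor_zero, map_zero, MonoidalPreadditive.tensor_zero,
          Limits.zero_comp, Limits.comp_zero, map_zero]
      · intro g g' hg hg'
        rw [MonoidalPreadditive.tensor_add, Preadditive.add_comp, Preadditive.comp_add, map_add,
          hg, hg', map_add, MonoidalPreadditive.tensor_add, Preadditive.add_comp,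
          Preadditive.comp_add]
      · intro b g hg
        rw [hφ _ _ (G.tensor_mem hx hg), hφ _ _ hx, hφ _ _ hg, grad_smul_tensor, Linear.smul_comp,
          Linear.comp_smul, zpow_add₀ h2]

end Grad

end Pool.Agent.MP_6e5bed_ag
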