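import Mathlib

set_option autoImplicit false

/-!
# Tensor powers and gradings: definitions
-/

namespace Pool.Agent.MP_6e5bed_ag

open CategoryTheory MonoidalCategory Equiv

universe v u v' u'

section Powers

variable {C : Type u} [Category.{v} C] [MonoidalCategory C]

/-- The tensor power `X ⊗ (X ⊗ (⋯ ⊗ 𝟙))` with `n` factors `X`. -/
def tpow (X : C) : ℕ → C
  | 0 => 𝟙_ C
  | n + 1 => X ⊗ tpow X n

/-- The tensor power of a morphism. -/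
def tmap {X Y : C} (f : X ⟶ Y) : (n : ℕ) → (tpow X n ⟶ tpow Y n)
  | 0 => 𝟙 (𝟙_ C)
  | n + 1 => f ⊗ₘ tmap f n

/-- `f` is tensor-nilpotent. -/
def TNil [Preadditive C] {X Y : C} (f : X ⟶ Y) : Prop := ∃ n, tmap f n = 0

variable [SymmetricCategory C]

/-- The exchange of the factors number `i` and `i + 1` of `X ⊗ (X ⊗ ⋯)` (`n` factors), given by
the symmetry of `C`; it is the identity if `n ≤ i + 1`. -/
def adj (X : C) : (n i : ℕ) → (tpow X n ⟶ tpow X n)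
  | 0, _ => 𝟙 _
  | 1, _ => 𝟙 _
  | n + 2, 0 => (α_ X X (tpow X n)).inv ≫ ((β_ X X).hom ▷ tpow X n) ≫ (α_ X X (tpow X n)).hom
  | n + 2, i + 1 => X ◁ adj X (n + 1) i

end Powers

section Sums

variable {A : Type*} [Ring A] {m : ℕ}

/-- The antisymmetriser of the points `f 0, …, f (r - 1)`. -/
noncomputable def altOf (ρ : Perm (Fin m) →* A) {r : ℕ} (f : Fin r ↪ Fin m) : A :=
  ∑ σ : Perm (Fin r), ((Perm.sign σ : ℤ) : A) * ρ (σ.viaEmbedding f)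

/-- The symmetriser of the points `f 0, …, f (r - 1)`. -/
noncomputable def symOf (ρ : Perm (Fin m) →* A) {r : ℕ} (f : Fin r ↪ Fin m) : A :=
  ∑ σ : Perm (Fin r), ρ (σ.viaEmbedding f)

end Sums

section Fun

variable {C : Type u} [Category.{v} C] [MonoidalCategory C]
  {D : Type u'} [Category.{v'} D] [MonoidalCategory D] (F : C ⥤ D) [F.Monoidal]

/-- The isomorphism `F (X ⊗ (X ⊗ ⋯)) ≅ F X ⊗ (F X ⊗ ⋯)`. -/
noncomputable def powIso (X : C) : (n : ℕ) → (F.obj (tpow X n) ≅ tpow (F.obj X) n)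
  | 0 => (Functor.Monoidal.εIso F).symm
  | n + 1 => (Functor.Monoidal.μIso F X (tpow X n)).symm ≪≫
      (Iso.refl (F.obj X) ⊗ᵢ powIso X n)

/-- A grading of the morphisms `F X ⟶ F Y`, compatible with composition and tensor products,
whose part of degree 0 is the image of `F`. -/
structure FGrading [Preadditive D] [Linear ℚ D] where
  /-- the morphisms of degree `n` -/
  deg : ∀ X Y : C, ℤ → Submodule ℚ (F.obj X ⟶ F.obj Y)
  internal : ∀ X Y, DirectSum.IsInternal (deg X Y)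
  mem_zero : ∀ {X Y : C} (f : F.obj X ⟶ F.obj Y), f ∈ deg X Y 0 ↔ ∃ g : X ⟶ Y, F.map g = f
  comp_mem : ∀ {X Y Z : C} {a b : ℤ} {f : F.obj X ⟶ F.obj Y} {g : F.obj Y ⟶ F.obj Z},
    f ∈ deg X Y a → g ∈ deg Y Z b → f ≫ g ∈ deg X Z (a + b)
  tensor_mem : ∀ {X Y X' Y' : C} {a b : ℤ} {f : F.obj X ⟶ F.obj Y} {g : F.obj X' ⟶ F.obj Y'},
    f ∈ deg X Y a → g ∈ deg X' Y' b →
      Functor.OplaxMonoidal.δ F X X' ≫ (f ⊗ₘ g) ≫ Functor.LaxMonoidal.μ F Y Y' ∈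
        deg (X ⊗ X') (Y ⊗ Y') (a + b)

variable {T : C} (τ : F.obj T ≅ 𝟙_ D)

/-- `F (T ⊗ (T ⊗ ⋯)) ≅ 𝟙`. -/
noncomputable def triv : (n : ℕ) → (F.obj (tpow T n) ≅ 𝟙_ D)
  | 0 => (Functor.Monoidal.εIso F).symm
  | n + 1 => (Functor.Monoidal.μIso F T (tpow T n)).symm ≪≫ (τ ⊗ᵢ triv n) ≪≫ λ_ (𝟙_ D)

/-- `F (Y ⊗ T^n) ≅ F Y`. -/
noncomputable def untwist (Y : C) (n : ℕ) : F.obj (Y ⊗ tpow T n) ≅ F.obj Y :=
  (Functor.Monoidal.μIso F Y (tpow T n)).symm ≪≫ (Iso.refl (F.obj Y) ⊗ᵢ triv F τ n) ≪≫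
    ρ_ (F.obj Y)

variable [Preadditive C] [Linear ℚ C] [Preadditive D] [Linear ℚ D] [F.Additive] [F.Linear ℚ]

/-- The morphisms `F X ⟶ F Y` that come from the morphisms `X ⊗ T^a ⟶ Y ⊗ T^b`. -/
noncomputable def piece (X Y : C) (a b : ℕ) : Submodule ℚ (F.obj X ⟶ F.obj Y) where
  carrier := {f | ∃ g : X ⊗ tpow T a ⟶ Y ⊗ tpow T b,
    f = (untwist F τ X a).inv ≫ F.map g ≫ (untwist F τ Y b).hom}
  add_mem' := by
    rintro _ _ ⟨g, rfl⟩ ⟨g', rfl⟩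
    exact ⟨g + g', by simp⟩
  zero_mem' := ⟨0, by simp⟩
  smul_mem' := by
    rintro c _ ⟨g, rfl⟩
    exact ⟨c • g, by simp⟩

/-- The part of degree `n`: the morphisms which come from `X ⟶ Y ⊗ T^n` if `n ≥ 0` and from
`X ⊗ T^(-n) ⟶ Y` if `n ≤ 0`. -/
noncomputable def degPart (X Y : C) (n : ℤ) : Submodule ℚ (F.obj X ⟶ F.obj Y) :=
  piece F τ X Y (-n).toNat n.toNat

end Fun

end Pool.Agent.MP_6e5bed_ag
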