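import Mathlib
import Pool.Agent.Lib.MP_6e5bed_ag.Defs

set_option autoImplicit false

/-!
# MP_6e5bed_ag, module IDEAL: tensor-nilpotent morphisms form an ideal
-/

namespace Pool.Agent.MP_6e5bed_ag

open CategoryTheory MonoidalCategory Equiv

universe v u v' u'

section Classes

variable (C : Type u) [Category.{v} C]

/-- Classes of morphisms up to isomorphisms of source and target. -/
def ArrCls : Type (max u v) := Quotient (isIsomorphicSetoid (Arrow C))

variable {C}

/-- The class of a morphism. -/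
def cls {X Y : C} (f : X ⟶ Y) : ArrCls C := Quotient.mk _ (Arrow.mk f)

theorem ArrCls.ind {P : ArrCls C → Prop} (h : ∀ (X Y : C) (f : X ⟶ Y), P (cls f)) (a : ArrCls C) :
    P a :=
  Quotient.inductionOn a fun f => h f.left f.right f.hom

theorem cls_eq_of_iso {X Y X' Y' : C} {f : X ⟶ Y} {g : X' ⟶ Y'} (a : X ≅ X') (b : Y ≅ Y')
    (h : a.hom ≫ g = f ≫ b.hom) : cls f = cls g :=
  Quotient.sound ⟨Arrow.isoMk a b h⟩

theorem cls_eq_iff {X Y X' Y' : C} {f : X ⟶ Y} {g : X' ⟶ Y'} :
    cls f = cls g ↔ ∃ (a : X ≅ X') (b : Y ≅ Y'), a.hom ≫ g = f ≫ b.hom := by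
  constructor
  · intro h
    obtain ⟨e⟩ := Quotient.exact h
    refine ⟨Arrow.leftFunc.mapIso e, Arrow.rightFunc.mapIso e, ?_⟩
    exact Arrow.w e.hom
  · rintro ⟨a, b, h⟩
    exact cls_eq_of_iso a b h

variable [MonoidalCategory C]

/-- The tensor product of classes. -/
instance : Mul (ArrCls C) :=
  ⟨Quotient.map₂ (fun f g => Arrow.mk (f.hom ⊗ₘ g.hom)) (by
    rintro f f' ⟨e⟩ g g' ⟨e'⟩
    refine ⟨Arrow.isoMk (Arrow.leftFunc.mapIso e ⊗ᵢ Arrow.leftFunc.mapIso e')
      (Arrow.rightFunc.mapIso e ⊗ᵢ Arrow.rightFunc.mapIso e') ?_⟩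
    simp only [Arrow.mk_hom, tensorIso_hom, Functor.mapIso_hom, Arrow.leftFunc_map,
      Arrow.rightFunc_map]
    rw [tensorHom_comp_tensorHom, tensorHom_comp_tensorHom, Arrow.w, Arrow.w])⟩

instance : One (ArrCls C) := ⟨cls (𝟙 (𝟙_ C))⟩

theorem cls_tensor {X Y X' Y' : C} (f : X ⟶ Y) (g : X' ⟶ Y') :
    cls (f ⊗ₘ g) = cls f * cls g := rfl

theorem cls_id_unit : cls (𝟙 (𝟙_ C)) = 1 := rfl

variable [SymmetricCategory C]

instance : CommMonoid (ArrCls C) where
  mul_assoc := by
    intro a b c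
    induction a using ArrCls.ind with | _ X Y f
    induction b using ArrCls.ind with | _ X' Y' g
    induction c using ArrCls.ind with | _ X'' Y'' h
    rw [← cls_tensor, ← cls_tensor, ← cls_tensor, ← cls_tensor]
    exact cls_eq_of_iso (α_ _ _ _) (α_ _ _ _) (by simp)
  one_mul := by
    intro a
    induction a using ArrCls.ind with | _ X Y f
    rw [← cls_id_unit, ← cls_tensor]
    exact cls_eq_of_iso (λ_ _) (λ_ _) (by simp)
  mul_one := by
    intro a
    induction a using ArrCls.ind with | _ X Y f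
    rw [← cls_id_unit, ← cls_tensor]
    exact cls_eq_of_iso (ρ_ _) (ρ_ _) (by simp)
  mul_comm := by
    intro a b
    induction a using ArrCls.ind with | _ X Y f
    induction b using ArrCls.ind with | _ X' Y' g
    rw [← cls_tensor, ← cls_tensor]
    exact cls_eq_of_iso (β_ _ _) (β_ _ _) (by simp)

theorem cls_tmap {X Y : C} (f : X ⟶ Y) (n : ℕ) : cls (tmap f n) = cls f ^ n := by
  induction n with
  | zero => rw [pow_zero]; rfl
  | succ n ih => rw [pow_succ', ← ih]; rfl

end Classes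

section Zero

variable {C : Type u} [Category.{v} C] [Preadditive C]

/-- The class consists of zero morphisms. -/
def isZ (a : ArrCls C) : Prop :=
  Quotient.lift (fun f : Arrow C => f.hom = 0) (by
    rintro f g ⟨e⟩
    have h : ∀ (f g : Arrow C), (f ≅ g) → f.hom = 0 → g.hom = 0 := by
      intro f g e hf
      have h1 : e.inv.left ≫ f.hom = g.hom ≫ e.inv.right := Arrow.w e.inv
      rw [hf, Limits.comp_zero] at h1
      have h2 : e.inv.right ≫ e.hom.right = 𝟙 g.right :=
        (Arrow.rightFunc.mapIso e).inv_hom_id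
      calc g.hom = g.hom ≫ e.inv.right ≫ e.hom.right := by
            rw [h2, Category.comp_id]
        _ = (g.hom ≫ e.inv.right) ≫ e.hom.right := by
            rw [Category.assoc]
        _ = 0 := by rw [← h1, Limits.zero_comp]
    exact propext ⟨h f g e, h g f e.symm⟩) a

theorem isZ_cls {X Y : C} (f : X ⟶ Y) : isZ (cls f) ↔ f = 0 := Iff.rfl

variable [MonoidalCategory C] [MonoidalPreadditive C]

theorem isZ.mul_left {a : ArrCls C} (h : isZ a) (b : ArrCls C) : isZ (b * a) := by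
  induction a using ArrCls.ind with | _ X Y f
  induction b using ArrCls.ind with | _ X' Y' g
  rw [isZ_cls] at h
  rw [← cls_tensor, isZ_cls, h, MonoidalPreadditive.tensor_zero]

theorem isZ.mul_right {a : ArrCls C} (h : isZ a) (b : ArrCls C) : isZ (a * b) := by
  induction a using ArrCls.ind with | _ X Y f
  induction b using ArrCls.ind with | _ X' Y' g
  rw [isZ_cls] at h
  rw [← cls_tensor, isZ_cls, h, MonoidalPreadditive.zero_tensor]

theorem tNil_iff [SymmetricCategory C] {X Y : C} (f : X ⟶ Y) :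
    TNil f ↔ ∃ n, isZ (cls f ^ n) := by
  unfold TNil
  constructor
  · rintro ⟨n, hn⟩
    exact ⟨n, by rw [← cls_tmap, isZ_cls]; exact hn⟩
  · rintro ⟨n, hn⟩
    exact ⟨n, by rwa [← cls_tmap, isZ_cls] at hn⟩

/-- Tensor-nilpotency only depends on the class. -/
theorem TNil.of_cls_eq [SymmetricCategory C] {X Y X' Y' : C} {f : X ⟶ Y} {g : X' ⟶ Y'}
    (h : cls f = cls g) (hf : TNil f) : TNil g := by
  rw [tNil_iff] at hf ⊢
  rwa [← h]

end Zero

section Ideal

variable {C : Type u} [Category.{v} C] [MonoidalCategory C]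

theorem ideal_tmap_comp {X Y Z : C} (f : X ⟶ Y) (g : Y ⟶ Z) (n : ℕ) :
    tmap (f ≫ g) n = tmap f n ≫ tmap g n := by
  induction n with
  | zero => exact (Category.comp_id (𝟙 (𝟙_ C))).symm
  | succ n ih =>
    have h : (f ≫ g) ⊗ₘ tmap (f ≫ g) n = (f ⊗ₘ tmap f n) ≫ (g ⊗ₘ tmap g n) := by
      rw [ih, tensorHom_comp_tensorHom]
    exact h

variable [SymmetricCategory C] [Preadditive C] [MonoidalPreadditive C]

theorem TNil.comp_right {X Y Z : C} {f : X ⟶ Y} (hf : TNil f) (g : Y ⟶ Z) : TNil (f ≫ g) := by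
  obtain ⟨n, hn⟩ := hf
  exact ⟨n, by rw [ideal_tmap_comp, hn, Limits.zero_comp]⟩

theorem TNil.comp_left {X Y Z : C} (f : X ⟶ Y) {g : Y ⟶ Z} (hg : TNil g) : TNil (f ≫ g) := by
  obtain ⟨n, hn⟩ := hg
  exact ⟨n, by rw [ideal_tmap_comp, hn, Limits.comp_zero]⟩

theorem isZ_add_pow {X Y : C} (f g : X ⟶ Y) (n : ℕ) :
    ∀ (W Z : C) (h : W ⟶ Z), (∀ i j, i + j = n → isZ (cls f ^ i * cls g ^ j * cls h)) →
      isZ (cls (f + g) ^ n * cls h) := by
  induction n with
  | zero =>
    intro W Z h hyp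
    have := hyp 0 0 rfl
    simpa using this
  | succ n ih =>
    intro W Z h hyp
    have h1 : isZ (cls (f + g) ^ n * cls (f ⊗ₘ h)) := by
      apply ih
      intro i j hij
      have := hyp (i + 1) j (by omega)
      rw [cls_tensor]
      rwa [pow_succ, mul_assoc, mul_assoc, mul_left_comm (cls f), ← mul_assoc] at this
    have h2 : isZ (cls (f + g) ^ n * cls (g ⊗ₘ h)) := by
      apply ih
      intro i j hij
      have := hyp i (j + 1) (by omega)
      rw [cls_tensor]
      rwa [pow_succ, mul_assoc, mul_assoc, ← mul_assoc] at this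
    rw [← cls_tmap, ← cls_tensor, isZ_cls] at h1 h2
    rw [pow_succ, mul_assoc, ← cls_tensor, ← cls_tmap, ← cls_tensor, isZ_cls,
      MonoidalPreadditive.add_tensor, MonoidalPreadditive.tensor_add, h1, h2, add_zero]

theorem TNil.add {X Y : C} {f g : X ⟶ Y} (hf : TNil f) (hg : TNil g) : TNil (f + g) := by
  rw [tNil_iff] at *
  obtain ⟨a, ha⟩ := hf
  obtain ⟨b, hb⟩ := hg
  refine ⟨a + b, ?_⟩
  have := isZ_add_pow f g (a + b) _ _ (𝟙 (𝟙_ C)) (by
    intro i j hij
    rw [cls_id_unit, mul_one]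
    rcases le_or_gt a i with h | h
    · obtain ⟨k, rfl⟩ := Nat.exists_eq_add_of_le h
      rw [pow_add]
      exact (ha.mul_right _).mul_right _
    · obtain ⟨k, rfl⟩ : ∃ k, j = b + k := ⟨j - b, by omega⟩
      rw [pow_add]
      exact (hb.mul_right _).mul_left _)
  rwa [cls_id_unit, mul_one] at this

theorem TNil.neg {X Y : C} {f : X ⟶ Y} (hf : TNil f) : TNil (-f) := by
  have := hf.comp_right (-(𝟙 Y))
  rwa [Preadditive.comp_neg, Category.comp_id] at this

theorem TNil.smul [Linear ℚ C] {X Y : C} {f : X ⟶ Y} (hf : TNil f) (c : ℚ) : TNil (c • f) := by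
  have := hf.comp_right (c • 𝟙 Y)
  rwa [Linear.comp_smul, Category.comp_id] at this

theorem tNil_zero (X Y : C) : TNil (0 : X ⟶ Y) :=
  ⟨1, by simp only [tmap]; exact MonoidalPreadditive.zero_tensor _⟩

end Ideal

end Pool.Agent.MP_6e5bed_ag
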