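import Pool.Agent.Lib.MP_6e5bed_ag.Kill
import Pool.Agent.Lib.MP_6e5bed_ag.Ideal
import Pool.Agent.Lib.MP_6e5bed_ag.Grad
import Pool.Agent.Lib.MP_6e5bed_ag.Fun

set_option autoImplicit false

/-!
# An idempotent which cuts out an even part, with odd complement, is congruent to a morphism of
degree 0
-/

namespace Pool.Agent.MP_6e5bed_ag

open CategoryTheory MonoidalCategory Equiv

universe v u v' u'

section Conj

variable {C : Type u} [Category.{v} C] [MonoidalCategory C]
  {D : Type u'} [Category.{v'} D] [MonoidalCategory D] (F : C ⥤ D) [F.Monoidal]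

/-- The tensor power of `f : F X ⟶ F Y`, seen as a morphism between the images of the tensor
powers of `X` and `Y`. -/
noncomputable def cpow {X Y : C} (f : F.obj X ⟶ F.obj Y) (n : ℕ) :
    F.obj (tpow X n) ⟶ F.obj (tpow Y n) :=
  (powIso F X n).hom ≫ tmap f n ≫ (powIso F Y n).inv

theorem cpow_zero {X Y : C} (f : F.obj X ⟶ F.obj Y) :
    cpow F f 0 = F.map (𝟙 (𝟙_ C)) := by
  have key : ∀ {A B : D} (i : A ≅ B), i.hom ≫ 𝟙 B ≫ i.inv = 𝟙 A := by
    intro A B i
    rw [Category.id_comp, Iso.hom_inv_id]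
  exact (key (Functor.Monoidal.εIso F).symm).trans (F.map_id _).symm

theorem cpow_succ {X Y : C} (f : F.obj X ⟶ F.obj Y) (n : ℕ) :
    cpow F f (n + 1) = Functor.OplaxMonoidal.δ F X (tpow X n) ≫ (f ⊗ₘ cpow F f n) ≫
      Functor.LaxMonoidal.μ F Y (tpow Y n) := by
  have h : cpow F f (n + 1) = (Functor.OplaxMonoidal.δ F X (tpow X n) ≫
      (𝟙 (F.obj X) ⊗ₘ (powIso F X n).hom)) ≫ (f ⊗ₘ tmap f n) ≫
      (𝟙 (F.obj Y) ⊗ₘ (powIso F Y n).inv) ≫ Functor.LaxMonoidal.μ F Y (tpow Y n) := rfl
  rw [h, Category.assoc]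
  congr 1
  rw [← Category.assoc, ← Category.assoc, tensorHom_comp_tensorHom, tensorHom_comp_tensorHom,
    Category.id_comp, Category.comp_id, Category.assoc]
  rfl

theorem cpow_eq_zero [Preadditive D] {X Y : C} (f : F.obj X ⟶ F.obj Y) (n : ℕ) :
    cpow F f n = 0 ↔ tmap f n = 0 := by
  unfold cpow
  constructor
  · intro h
    have h1 := congrArg (fun t => (powIso F X n).inv ≫ t ≫ (powIso F Y n).hom) h
    simpa using h1
  · intro h
    rw [h, Limits.zero_comp, Limits.comp_zero]

end Conj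

section Congr

variable {C : Type u} [Category.{v} C] [MonoidalCategory C] [SymmetricCategory C]
  [Preadditive C] [MonoidalPreadditive C] [Linear ℚ C] [MonoidalLinear ℚ C]
  {D : Type u'} [Category.{v'} D] [MonoidalCategory D] [SymmetricCategory D]
  [Preadditive D] [MonoidalPreadditive D] [Linear ℚ D] [MonoidalLinear ℚ D]
  {F : C ⥤ D} [F.Braided] [F.Additive] [F.Linear ℚ]

omit [MonoidalPreadditive C] [Linear ℚ C] [MonoidalLinear ℚ C] [F.Linear ℚ] in
/-- An idempotent `e` of `F M` that cuts out an even part, and whose complement is odd, is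
congruent to a morphism of degree 0 modulo tensor-nilpotent morphisms. -/
theorem FGrading.exists_congr (G : FGrading F) {M : C} {e : F.obj M ⟶ F.obj M} {r s : ℕ}
    (_he : e ≫ e = e) (hA : altSum (F.obj M) r ≫ tmap e r = 0)
    (hB : symSum (F.obj M) s ≫ tmap (𝟙 _ - e) s = 0) :
    ∃ g : M ⟶ M, TNil (F.map g - e) := by
  obtain ⟨φ, hcomp, hmap, htens, hdeg⟩ := G.exists_auto
  -- compatibility with tensor powers
  have hpow : ∀ {X Y : C} (f : F.obj X ⟶ F.obj Y) (n : ℕ),
      φ (cpow F f n) = cpow F (φ f) n := by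
    intro X Y f n
    induction n with
    | zero =>
      rw [cpow_zero, cpow_zero]
      exact hmap _
    | succ n ih =>
      rw [cpow_succ, cpow_succ, ← ih]
      exact htens f (cpow F f n)
  have hnil : ∀ {X Y : C} (f : F.obj X ⟶ F.obj Y), TNil f → TNil (φ f) := by
    rintro X Y f ⟨n, hn⟩
    refine ⟨n, ?_⟩
    rw [← cpow_eq_zero, ← hpow, (cpow_eq_zero F f n).mpr hn, map_zero]
  -- transport of the vanishing
  have htr : ∀ (n : ℕ) (a : tpow M n ⟶ tpow M n) (b : tpow (F.obj M) n ⟶ tpow (F.obj M) n)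
      (_ : F.map a ≫ (powIso F M n).hom = (powIso F M n).hom ≫ b)
      (f : F.obj M ⟶ F.obj M), b ≫ tmap f n = 0 → b ≫ tmap (φ f) n = 0 := by
    intro n a b hab f hf
    have key : ∀ f : F.obj M ⟶ F.obj M, F.map a ≫ cpow F f n =
        (powIso F M n).hom ≫ (b ≫ tmap f n) ≫ (powIso F M n).inv := by
      intro f
      unfold cpow
      rw [← Category.assoc, hab, Category.assoc, Category.assoc]
    have h1 : F.map a ≫ cpow F f n = 0 := by
      rw [key, hf, Limits.zero_comp, Limits.comp_zero]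
    have h2 : F.map a ≫ cpow F (φ f) n = 0 := by
      rw [← hpow, ← hmap a, ← hcomp, h1, map_zero]
    rw [key] at h2
    have h3 := congrArg (fun t => (powIso F M n).inv ≫ t ≫ (powIso F M n).hom) h2
    simpa using h3
  have hA' : altSum (F.obj M) r ≫ tmap (φ e) r = 0 :=
    htr r (altSum M r) _ (powIso_altSum F M r) e hA
  have hone : φ (𝟙 (F.obj M)) = 𝟙 (F.obj M) := by
    rw [← F.map_id]
    exact hmap _
  have hB' : symSum (F.obj M) s ≫ tmap (𝟙 _ - φ e) s = 0 := by
    have h := htr s (symSum M s) _ (powIso_symSum F M s) (𝟙 _ - e) hB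
    rwa [map_sub, hone] at h
  have h1 : TNil (φ e ≫ (𝟙 _ - e)) := (tNil_comp hA' hB).1
  have h2 : TNil ((𝟙 _ - φ e) ≫ e) := (tNil_comp hA hB').2
  have h3 : TNil (φ e - e) := by
    have h : φ e - e = φ e ≫ (𝟙 _ - e) + -((𝟙 _ - φ e) ≫ e) := by
      rw [Preadditive.comp_sub, Preadditive.sub_comp, Category.comp_id, Category.id_comp]
      abel
    rw [h]
    exact h1.add h2.neg
  -- the submodule of tensor-nilpotent morphisms
  let N : Submodule ℚ (F.obj M ⟶ F.obj M) :=
    { carrier := {f | TNil f}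
      add_mem' := fun ha hb => TNil.add ha hb
      zero_mem' := tNil_zero _ _
      smul_mem' := fun c _ hf => TNil.smul hf c }
  obtain ⟨w, hw, hew⟩ := homogeneous (G.internal M M) (φ := φ) (fun n v hv => hdeg n v hv)
    (N := N) (fun v hv => hnil v hv) (v := e) h3
  obtain ⟨g, rfl⟩ := (G.mem_zero w).mp hw
  refine ⟨g, ?_⟩
  have h4 : TNil (-(e - F.map g)) := TNil.neg hew
  rwa [neg_sub] at h4

end Congr

end Pool.Agent.MP_6e5bed_ag
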