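import Pool.Agent.Lib.MP_6e5bed_ag.Defs

set_option autoImplicit false

/-!
# The grading given by a tensor-invertible object
-/

namespace Pool.Agent.MP_6e5bed_ag

open CategoryTheory MonoidalCategory Equiv

universe v u v' u'

section TwistAux

open Functor.LaxMonoidal Functor.OplaxMonoidal Functor.Monoidal

variable {C : Type u} [Category.{v} C] [MonoidalCategory C]
  {D : Type u'} [Category.{v'} D] [MonoidalCategory D] (F : C ⥤ D) [F.Monoidal]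

omit [Category.{v} C] [MonoidalCategory C] in
theorem tw_coh1 (A : D) {B R : D} (s : B ⟶ 𝟙_ D) (r : R ⟶ 𝟙_ D) :
    (α_ A B R).hom ≫ A ◁ (s ⊗ₘ r) ≫ A ◁ (λ_ (𝟙_ D)).hom ≫ (ρ_ A).hom =
      (A ⊗ B) ◁ r ≫ (ρ_ (A ⊗ B)).hom ≫ A ◁ s ≫ (ρ_ A).hom := by
  rw [tensorHom_def']
  simp

theorem tw_coh2 (A : D) {B S : D} (s : S ⟶ 𝟙_ D) :
    (α_ A B S).hom ≫ A ◁ B ◁ s ≫ A ◁ (ρ_ B).hom = (A ⊗ B) ◁ s ≫ (ρ_ (A ⊗ B)).hom := by
  simp

/-- `F (X ⊗ S) ≅ F X` for an object `S` with `F S ≅ 𝟙`. -/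
noncomputable def twUnt (X : C) {S : C} (s : F.obj S ≅ 𝟙_ D) : F.obj (X ⊗ S) ≅ F.obj X :=
  (μIso F X S).symm ≪≫ (Iso.refl (F.obj X) ⊗ᵢ s) ≪≫ ρ_ (F.obj X)

/-- `F (S ⊗ R) ≅ 𝟙` for objects `S`, `R` with `F S ≅ 𝟙`, `F R ≅ 𝟙`. -/
noncomputable def twTens {S R : C} (s : F.obj S ≅ 𝟙_ D) (r : F.obj R ≅ 𝟙_ D) :
    F.obj (S ⊗ R) ≅ 𝟙_ D :=
  (μIso F S R).symm ≪≫ (s ⊗ᵢ r) ≪≫ λ_ (𝟙_ D)

theorem twUnt_hom (X : C) {S : C} (s : F.obj S ≅ 𝟙_ D) :
    (twUnt F X s).hom = δ F X S ≫ (F.obj X ◁ s.hom) ≫ (ρ_ (F.obj X)).hom := by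
  simp [twUnt]

theorem twTens_hom {S R : C} (s : F.obj S ≅ 𝟙_ D) (r : F.obj R ≅ 𝟙_ D) :
    (twTens F s r).hom = δ F S R ≫ (s.hom ⊗ₘ r.hom) ≫ (λ_ (𝟙_ D)).hom := by
  simp [twTens]

theorem twUnt_nat {A B : C} (g : A ⟶ B) {R : C} (r : F.obj R ≅ 𝟙_ D) :
    F.map (g ▷ R) ≫ (twUnt F B r).hom = (twUnt F A r).hom ≫ F.map g := by
  rw [twUnt_hom, twUnt_hom, ← δ_natural_left_assoc, ← whisker_exchange_assoc, Category.assoc,
    Category.assoc, rightUnitor_naturality]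

theorem twUnt_assoc (X : C) {S R : C} (s : F.obj S ≅ 𝟙_ D) (r : F.obj R ≅ 𝟙_ D) :
    F.map (α_ X S R).hom ≫ (twUnt F X (twTens F s r)).hom =
      (twUnt F (X ⊗ S) r).hom ≫ (twUnt F X s).hom := by
  have h1 : F.map (α_ X S R).hom ≫ δ F X (S ⊗ R) ≫ (F.obj X ◁ δ F S R) =
      δ F (X ⊗ S) R ≫ (δ F X S ▷ F.obj R) ≫ (α_ (F.obj X) (F.obj S) (F.obj R)).hom :=
    (Functor.OplaxMonoidal.associativity F X S R).symm
  rw [twUnt_hom, twUnt_hom, twUnt_hom, twTens_hom]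
  simp only [MonoidalCategory.whiskerLeft_comp, Category.assoc]
  rw [reassoc_of% h1]
  rw [← rightUnitor_naturality_assoc (δ F X S), whisker_exchange_assoc]
  congr 2
  exact tw_coh1 _ _ _

theorem twUnt_left (Z X : C) {S : C} (s : F.obj S ≅ 𝟙_ D) :
    F.map (α_ Z X S).hom ≫ δ F Z (X ⊗ S) ≫ (F.obj Z ◁ (twUnt F X s).hom) =
      (twUnt F (Z ⊗ X) s).hom ≫ δ F Z X := by
  have h1 : F.map (α_ Z X S).hom ≫ δ F Z (X ⊗ S) ≫ (F.obj Z ◁ δ F X S) =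
      δ F (Z ⊗ X) S ≫ (δ F Z X ▷ F.obj S) ≫ (α_ (F.obj Z) (F.obj X) (F.obj S)).hom :=
    (Functor.OplaxMonoidal.associativity F Z X S).symm
  rw [twUnt_hom, twUnt_hom]
  simp only [MonoidalCategory.whiskerLeft_comp, Category.assoc]
  rw [reassoc_of% h1]
  rw [← rightUnitor_naturality (δ F Z X), whisker_exchange_assoc]
  congr 2
  exact tw_coh2 _ _

/-- The morphisms `F X ⟶ F Y` that come from `X ⊗ S ⟶ Y ⊗ S'`. -/
def TwP (X Y : C) {S S' : C} (s : F.obj S ≅ 𝟙_ D) (s' : F.obj S' ≅ 𝟙_ D)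
    (f : F.obj X ⟶ F.obj Y) : Prop :=
  ∃ g : X ⊗ S ⟶ Y ⊗ S', F.map g ≫ (twUnt F Y s').hom = (twUnt F X s).hom ≫ f

variable {F}

theorem TwP.comp {X Y Z : C} {S S' S'' : C} {s : F.obj S ≅ 𝟙_ D} {s' : F.obj S' ≅ 𝟙_ D}
    {s'' : F.obj S'' ≅ 𝟙_ D} {f : F.obj X ⟶ F.obj Y} {f' : F.obj Y ⟶ F.obj Z}
    (h : TwP F X Y s s' f) (h' : TwP F Y Z s' s'' f') : TwP F X Z s s'' (f ≫ f') := by
  obtain ⟨g, hg⟩ := h
  obtain ⟨g', hg'⟩ := h'
  refine ⟨g ≫ g', ?_⟩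
  rw [F.map_comp, Category.assoc, hg', reassoc_of% hg]

theorem TwP.map {X Y : C} (g : X ⟶ Y) {S : C} (s : F.obj S ≅ 𝟙_ D) :
    TwP F X Y s s (F.map g) :=
  ⟨g ▷ S, twUnt_nat F g s⟩

/-- Change of the twisting objects. -/
theorem TwP.change {X Y : C} {S S' R R' : C} {s : F.obj S ≅ 𝟙_ D} {s' : F.obj S' ≅ 𝟙_ D}
    {r : F.obj R ≅ 𝟙_ D} {r' : F.obj R' ≅ 𝟙_ D} {f : F.obj X ⟶ F.obj Y}
    (i : R ⟶ S) (i' : S' ⟶ R') (hi : F.map i ≫ s.hom = r.hom) (hi' : F.map i' ≫ r'.hom = s'.hom)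
    (h : TwP F X Y s s' f) : TwP F X Y r r' f := by
  obtain ⟨g, hg⟩ := h
  have h1 : F.map (X ◁ i) ≫ (twUnt F X s).hom = (twUnt F X r).hom := by
    rw [twUnt_hom, twUnt_hom, ← δ_natural_right_assoc, ← MonoidalCategory.whiskerLeft_comp_assoc,
      hi]
  have h2 : F.map (Y ◁ i') ≫ (twUnt F Y r').hom = (twUnt F Y s').hom := by
    rw [twUnt_hom, twUnt_hom, ← δ_natural_right_assoc, ← MonoidalCategory.whiskerLeft_comp_assoc,
      hi']
  refine ⟨X ◁ i ≫ g ≫ Y ◁ i', ?_⟩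
  rw [F.map_comp, F.map_comp, Category.assoc, Category.assoc, h2, hg, reassoc_of% h1]

/-- Adding a factor on the right. -/
theorem TwP.raise {X Y : C} {S S' : C} {s : F.obj S ≅ 𝟙_ D} {s' : F.obj S' ≅ 𝟙_ D}
    {f : F.obj X ⟶ F.obj Y} {R : C} (r : F.obj R ≅ 𝟙_ D)
    (h : TwP F X Y s s' f) : TwP F X Y (twTens F s r) (twTens F s' r) f := by
  obtain ⟨g, hg⟩ := h
  refine ⟨(α_ X S R).inv ≫ (g ▷ R) ≫ (α_ Y S' R).hom, ?_⟩
  rw [F.map_comp, F.map_comp, Category.assoc, Category.assoc, twUnt_assoc,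
    ← Category.assoc (F.map (g ▷ R)), twUnt_nat, Category.assoc, hg]
  rw [← Category.assoc (twUnt F (X ⊗ S) r).hom, ← twUnt_assoc, ← Category.assoc,
    ← Category.assoc, ← F.map_comp, Iso.inv_hom_id, F.map_id, Category.id_comp]

/-- Removing an invertible factor on the right. -/
theorem TwP.lower {X Y : C} {S S' : C} {s : F.obj S ≅ 𝟙_ D} {s' : F.obj S' ≅ 𝟙_ D}
    {f : F.obj X ⟶ F.obj Y} {R : C} (r : F.obj R ≅ 𝟙_ D)
    (hR : ∀ {A B : C} (g : A ⊗ R ⟶ B ⊗ R), ∃ g' : A ⟶ B, g' ▷ R = g)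
    (h : TwP F X Y (twTens F s r) (twTens F s' r) f) : TwP F X Y s s' f := by
  obtain ⟨g, hg⟩ := h
  obtain ⟨g', hg'⟩ := hR ((α_ X S R).hom ≫ g ≫ (α_ Y S' R).inv)
  refine ⟨g', ?_⟩
  have h1 : (α_ X S R).hom ≫ g = (g' ▷ R) ≫ (α_ Y S' R).hom := by
    rw [hg']; simp
  rw [← cancel_epi (twUnt F (X ⊗ S) r).hom, ← Category.assoc, ← twUnt_nat, Category.assoc,
    ← twUnt_assoc, ← Category.assoc, ← F.map_comp, ← h1, F.map_comp, Category.assoc, hg,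
    ← Category.assoc, twUnt_assoc, Category.assoc]

/-- Tensor product on the left. -/
theorem TwP.whiskerLeft {X Y : C} {S S' : C} {s : F.obj S ≅ 𝟙_ D} {s' : F.obj S' ≅ 𝟙_ D}
    {f : F.obj X ⟶ F.obj Y} (Z : C) (h : TwP F X Y s s' f) :
    TwP F (Z ⊗ X) (Z ⊗ Y) s s' (δ F Z X ≫ (F.obj Z ◁ f) ≫ μ F Z Y) := by
  obtain ⟨g, hg⟩ := h
  refine ⟨(α_ Z X S).hom ≫ (Z ◁ g) ≫ (α_ Z Y S').inv, ?_⟩
  rw [← cancel_mono (δ F Z Y)]
  simp only [Category.assoc, F.map_comp]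
  rw [← twUnt_left F Z Y s']
  rw [← Category.assoc (F.map (α_ Z Y S').inv), ← F.map_comp, Iso.inv_hom_id, F.map_id,
    Category.id_comp, ← δ_natural_right_assoc, ← MonoidalCategory.whiskerLeft_comp, hg,
    MonoidalCategory.whiskerLeft_comp, ← Category.assoc, ← Category.assoc, Category.assoc _ (δ F Z _),
    twUnt_left]
  simp

end TwistAux

section TwistBr

open Functor.LaxMonoidal Functor.OplaxMonoidal Functor.Monoidal

variable {C : Type u} [Category.{v} C] [MonoidalCategory C] [SymmetricCategory C]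
  {D : Type u'} [Category.{v'} D] [MonoidalCategory D] [SymmetricCategory D]
  {F : C ⥤ D} [F.Braided]

/-- Tensor product on the right. -/
theorem TwP.whiskerRight {X Y : C} {S S' : C} {s : F.obj S ≅ 𝟙_ D} {s' : F.obj S' ≅ 𝟙_ D}
    {f : F.obj X ⟶ F.obj Y} (Z : C) (h : TwP F X Y s s' f) :
    TwP F (X ⊗ Z) (Y ⊗ Z) s s' (δ F X Z ≫ (f ▷ F.obj Z) ≫ μ F Y Z) := by
  have h1 := ((TwP.map (F := F) (β_ X Z).hom s).comp (h.whiskerLeft Z)).comp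
    (TwP.map (F := F) (β_ Z Y).hom s')
  have h2 : (F.map (β_ X Z).hom ≫ δ F Z X ≫ (F.obj Z ◁ f) ≫ μ F Z Y) ≫ F.map (β_ Z Y).hom =
      δ F X Z ≫ (f ▷ F.obj Z) ≫ μ F Y Z := by
    rw [Functor.map_braiding, Functor.map_braiding]
    simp
  rw [h2] at h1
  exact h1

theorem TwP.tensor {X Y X' Y' : C} {S S' S'' : C} {s : F.obj S ≅ 𝟙_ D} {s' : F.obj S' ≅ 𝟙_ D}
    {s'' : F.obj S'' ≅ 𝟙_ D} {f : F.obj X ⟶ F.obj Y} {f' : F.obj X' ⟶ F.obj Y'}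
    (h : TwP F X Y s s' f) (h' : TwP F X' Y' s' s'' f') :
    TwP F (X ⊗ X') (Y ⊗ Y') s s'' (δ F X X' ≫ (f ⊗ₘ f') ≫ μ F Y Y') := by
  have h1 := (h.whiskerRight X').comp (h'.whiskerLeft Y)
  have h2 : (δ F X X' ≫ (f ▷ F.obj X') ≫ μ F Y X') ≫ δ F Y X' ≫ (F.obj Y ◁ f') ≫ μ F Y Y' =
      δ F X X' ≫ (f ⊗ₘ f') ≫ μ F Y Y' := by
    rw [MonoidalCategory.tensorHom_def]
    simp
  rw [h2] at h1
  exact h1

/-- `F (β)` is compatible with the trivialisations. -/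
theorem tw_braiding {S R : C} (s : F.obj S ≅ 𝟙_ D) (r : F.obj R ≅ 𝟙_ D) :
    F.map (β_ S R).hom ≫ (twTens F r s).hom = (twTens F s r).hom := by
  rw [twTens_hom, twTens_hom, Functor.map_braiding]
  have h : (β_ (𝟙_ D) (𝟙_ D)).hom = 𝟙 _ := by
    rw [braiding_tensorUnit_left, unitors_equal, Iso.hom_inv_id]
  simp only [Category.assoc, μ_δ_assoc]
  rw [← BraidedCategory.braiding_naturality_assoc, h, Category.id_comp]

end TwistBr

section TwistInv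

variable {C : Type u} [Category.{v} C] [MonoidalCategory C] [SymmetricCategory C]

theorem tw_full {R R' : C} (e : R ⊗ R' ≅ 𝟙_ C) {A B : C} (g : A ⊗ R ⟶ B ⊗ R) :
    ∃ g' : A ⟶ B, g' ▷ R = g := by
  let i1 : 𝟭 C ≅ tensorRight R ⋙ tensorRight R' :=
    (rightUnitorNatIso C).symm ≪≫ (tensoringRight C).mapIso e.symm ≪≫ tensorRightTensor R R'
  let i2 : tensorRight R' ⋙ tensorRight R ≅ 𝟭 C :=
    (tensorRightTensor R' R).symm ≪≫ (tensoringRight C).mapIso ((β_ R' R) ≪≫ e) ≪≫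
      rightUnitorNatIso C
  have hE : (tensorRight R).IsEquivalence :=
    (CategoryTheory.Equivalence.mk (tensorRight R) (tensorRight R') i1 i2).isEquivalence_functor
  exact ⟨(tensorRight R).preimage g, (tensorRight R).map_preimage g⟩

end TwistInv

section TwistTriv

variable {C : Type u} [Category.{v} C] [MonoidalCategory C]
  {D : Type u'} [Category.{v'} D] [MonoidalCategory D] (F : C ⥤ D) [F.Monoidal]
  {T : C} (τ : F.obj T ≅ 𝟙_ D)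

theorem untwist_eq (Y : C) (n : ℕ) : untwist F τ Y n = twUnt F Y (triv F τ n) := rfl

theorem untwist_zero (Y : C) : (twUnt F Y (triv F τ 0)).hom = F.map (ρ_ Y).hom := by
  rw [twUnt_hom]
  exact Functor.OplaxMonoidal.right_unitality_hom F Y

omit [MonoidalCategory D] [F.Monoidal] in
theorem tw_zero {X Y : C} {f : F.obj X ⟶ F.obj Y} (g : X ⊗ 𝟙_ C ⟶ Y ⊗ 𝟙_ C)
    (hg : F.map g ≫ F.map (ρ_ Y).hom = F.map (ρ_ X).hom ≫ f) :
    F.map ((ρ_ X).inv ≫ g ≫ (ρ_ Y).hom) = f := by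
  rw [F.map_comp, F.map_comp, hg, ← Category.assoc, ← F.map_comp, Iso.inv_hom_id, F.map_id,
    Category.id_comp]

end TwistTriv

section Twist

variable {C : Type u} [Category.{v} C] [MonoidalCategory C] [SymmetricCategory C]
  [Preadditive C] [MonoidalPreadditive C] [Linear ℚ C] [MonoidalLinear ℚ C]
  {D : Type u'} [Category.{v'} D] [MonoidalCategory D] [SymmetricCategory D]
  [Preadditive D] [MonoidalPreadditive D] [Linear ℚ D] [MonoidalLinear ℚ D]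
  (F : C ⥤ D) [F.Braided] [F.Additive] [F.Linear ℚ] {T : C} (τ : F.obj T ≅ 𝟙_ D)

omit [MonoidalPreadditive C] [MonoidalLinear ℚ C] [MonoidalPreadditive D]
  [MonoidalLinear ℚ D] in
theorem mem_piece {X Y : C} {a b : ℕ} {f : F.obj X ⟶ F.obj Y} :
    f ∈ piece F τ X Y a b ↔ TwP F X Y (triv F τ a) (triv F τ b) f := by
  constructor
  · rintro ⟨g, hg⟩
    refine ⟨g, ?_⟩
    rw [hg, untwist_eq, untwist_eq]
    simp
  · rintro ⟨g, hg⟩
    refine ⟨g, ?_⟩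
    rw [untwist_eq, untwist_eq, hg]
    simp

omit [MonoidalPreadditive C] [MonoidalLinear ℚ C] [MonoidalPreadditive D]
  [MonoidalLinear ℚ D] in
theorem piece_raise {X Y : C} {a b : ℕ} {f : F.obj X ⟶ F.obj Y}
    (h : f ∈ piece F τ X Y a b) : f ∈ piece F τ X Y (a + 1) (b + 1) := by
  rw [mem_piece] at h ⊢
  refine (h.raise τ).change (β_ T (tpow T a)).hom (β_ (tpow T b) T).hom ?_ ?_
  · exact tw_braiding _ _
  · exact tw_braiding _ _

omit [MonoidalPreadditive C] [MonoidalLinear ℚ C] [MonoidalPreadditive D]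
  [MonoidalLinear ℚ D] in
theorem piece_lower (hT : ∃ T' : C, Nonempty (T ⊗ T' ≅ 𝟙_ C)) {X Y : C} {a b : ℕ}
    {f : F.obj X ⟶ F.obj Y} (h : f ∈ piece F τ X Y (a + 1) (b + 1)) :
    f ∈ piece F τ X Y a b := by
  obtain ⟨T', ⟨e⟩⟩ := hT
  rw [mem_piece] at h ⊢
  refine TwP.lower τ (fun g => tw_full e g)
    (h.change (β_ (tpow T a) T).hom (β_ T (tpow T b)).hom ?_ ?_)
  · exact tw_braiding _ _
  · exact tw_braiding _ _

theorem piece_raise_iff (hT : ∃ T' : C, Nonempty (T ⊗ T' ≅ 𝟙_ C)) {X Y : C} {a b : ℕ} (k : ℕ)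
    {f : F.obj X ⟶ F.obj Y} :
    f ∈ piece F τ X Y (a + k) (b + k) ↔ f ∈ piece F τ X Y a b := by
  induction k with
  | zero => rfl
  | succ k ih =>
    rw [← ih]
    exact ⟨piece_lower F τ hT, piece_raise F τ⟩

theorem mem_degPart (hT : ∃ T' : C, Nonempty (T ⊗ T' ≅ 𝟙_ C)) {X Y : C} {n : ℤ} {a b : ℕ}
    (hn : (b : ℤ) - a = n) {f : F.obj X ⟶ F.obj Y} :
    f ∈ degPart F τ X Y n ↔ f ∈ piece F τ X Y a b := by
  unfold degPart
  have h1 : (-n).toNat + min a b = a := by omega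
  have h2 : n.toNat + min a b = b := by omega
  rw [← piece_raise_iff F τ hT (min a b), h1, h2]

theorem exists_grading (hT : ∃ T' : C, Nonempty (T ⊗ T' ≅ 𝟙_ C))
    (hint : ∀ X Y, DirectSum.IsInternal (degPart F τ X Y)) : Nonempty (FGrading F) := by
  have key : ∀ {X Y : C} {n : ℤ} {f : F.obj X ⟶ F.obj Y}, f ∈ degPart F τ X Y n →
      ∀ {a b : ℕ}, (b : ℤ) - a = n → TwP F X Y (triv F τ a) (triv F τ b) f := by
    intro X Y n f h a b hab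
    exact (mem_piece F τ).1 ((mem_degPart F τ hT hab).1 h)
  refine ⟨⟨degPart F τ, hint, ?_, ?_, ?_⟩⟩
  · intro X Y f
    rw [mem_degPart F τ hT (a := 0) (b := 0) (by simp), mem_piece]
    constructor
    · rintro ⟨g, hg⟩
      rw [untwist_zero, untwist_zero] at hg
      exact ⟨_, tw_zero F g hg⟩
    · rintro ⟨g, rfl⟩
      exact TwP.map g _
  · intro X Y Z a b f g hf hg
    have hf1 := key hf (a := (-a).toNat + (-b).toNat) (b := a.toNat + (-b).toNat) (by omega)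
    have hg1 := key hg (a := a.toNat + (-b).toNat) (b := a.toNat + b.toNat) (by omega)
    exact (mem_degPart F τ hT (by omega)).2 ((mem_piece F τ).2 (hf1.comp hg1))
  · intro X Y X' Y' a b f g hf hg
    have hf1 := key hf (a := (-a).toNat + (-b).toNat) (b := a.toNat + (-b).toNat) (by omega)
    have hg1 := key hg (a := a.toNat + (-b).toNat) (b := a.toNat + b.toNat) (by omega)
    exact (mem_degPart F τ hT (by omega)).2 ((mem_piece F τ).2 (hf1.tensor hg1))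

end Twist

end Pool.Agent.MP_6e5bed_ag
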