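import Pool.Agent.Lib.MP_6e5bed_ag.Descent
import Pool.Agent.Lib.MP_6e5bed_ag.Twist

set_option autoImplicit false

/-!
# Descent of Kimura-finiteness
-/

namespace Pool.Agent.MP_6e5bed_ag

open CategoryTheory MonoidalCategory Equiv

universe v u v' u'

section Lift

variable {C : Type u} [Category.{v} C] [MonoidalCategory C] [SymmetricCategory C]
  [Preadditive C] [MonoidalPreadditive C]

theorem TNil.sub {X Y : C} {f g : X ⟶ Y} (hf : TNil f) (hg : TNil g) : TNil (f - g) := by
  rw [sub_eq_add_neg]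
  exact hf.add hg.neg

/-- The ideal of the tensor-nilpotent endomorphisms. -/
def nilIdeal (M : C) : TwoSidedIdeal (End M) :=
  TwoSidedIdeal.mk' {f : End M | TNil (f : M ⟶ M)} (tNil_zero M M) (fun hf hg => TNil.add hf hg)
    (fun hf => TNil.neg hf) (fun {x _} hy => TNil.comp_right hy x)
    (fun {_ y} hx => TNil.comp_left y hx)

theorem mem_nilIdeal (M : C) (f : End M) : f ∈ nilIdeal M ↔ TNil (f : M ⟶ M) := by
  unfold nilIdeal
  rw [TwoSidedIdeal.mem_mk']
  rfl

/-- An endomorphism that is idempotent modulo tensor-nilpotent ones is congruent to an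
idempotent. -/
theorem exists_idempotent {M M' : C} [ExactPairing M' M] {g : M ⟶ M} (hg : TNil (g ≫ g - g)) :
    ∃ g' : M ⟶ M, g' ≫ g' = g' ∧ TNil (g' - g) := by
  have hmem : ∀ x : End M, (nilIdeal M).ringCon.mk' x = 0 ↔ TNil (x : M ⟶ M) := by
    intro x
    rw [← mem_nilIdeal, ← (nilIdeal M).ringCon.mk'.map_zero]
    exact (RingCon.eq _).trans (TwoSidedIdeal.mem_iff _ _).symm
  obtain ⟨γ, hγ⟩ : ∃ γ : End M, γ = g := ⟨g, rfl⟩
  have h3 : (nilIdeal M).ringCon.mk' (γ * γ - γ) = 0 := (hmem (γ * γ - γ)).2 (by rw [hγ]; exact hg)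
  obtain ⟨g', h1, h2⟩ := exists_isIdempotentElem_eq_of_ker_isNilpotent
    (nilIdeal M).ringCon.mk' (fun x hx => ((hmem x).1 hx).isNilpotent (M' := M'))
    ((nilIdeal M).ringCon.mk' γ) ⟨γ, rfl⟩ (by
      rw [map_sub, map_mul, sub_eq_zero] at h3
      exact h3)
  have h5 : (nilIdeal M).ringCon.mk' (g' - γ) = 0 := by
    rw [map_sub, h2, sub_self]
  refine ⟨g', h1, ?_⟩
  have h6 := (hmem (g' - γ)).1 h5
  rw [hγ] at h6
  exact h6

/-- If two idempotents are congruent modulo tensor-nilpotent endomorphisms, then the first one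
factors through the second one. -/
theorem exists_factor {X X' : C} [ExactPairing X' X] {e f : X ⟶ X} (hf : f ≫ f = f)
    (hef : TNil (f - e)) : ∃ v : X ⟶ X, f = v ≫ f ≫ e ≫ f := by
  have hn : TNil (f ≫ (f - e) ≫ f) := (hef.comp_right f).comp_left f
  obtain ⟨v, hv⟩ := (hn.isNilpotent (M' := X')).isUnit_one_sub.exists_right_inv
  have h1 : (v : X ⟶ X) ≫ (𝟙 X - f ≫ (f - e) ≫ f) = 𝟙 X := hv
  refine ⟨v, ?_⟩
  have h2 : (𝟙 X - f ≫ (f - e) ≫ f) ≫ f = f ≫ e ≫ f := by
    simp only [Preadditive.sub_comp, Preadditive.comp_sub, Category.id_comp, Category.assoc, hf]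
    abel
  rw [← h2, ← Category.assoc, h1, Category.id_comp]

theorem kill_of_congr {X X' : C} [ExactPairing X' X] {e f : X ⟶ X} (hf : f ≫ f = f)
    (hef : TNil (f - e)) {r : ℕ} {A : tpow X r ⟶ tpow X r}
    (hA : ∀ g : X ⟶ X, tmap g r ≫ A = A ≫ tmap g r) (h : A ≫ tmap e r = 0) :
    A ≫ tmap f r = 0 := by
  obtain ⟨v, hv⟩ := exists_factor (X' := X') hf hef
  rw [hv, tmap_comp, tmap_comp, tmap_comp, ← Category.assoc, ← hA, Category.assoc,
    ← Category.assoc A, ← hA, Category.assoc, ← Category.assoc A, h, Limits.zero_comp,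
    Limits.comp_zero, Limits.comp_zero]

end Lift

section Core

variable {C : Type u} [Category.{v} C] [MonoidalCategory C] [SymmetricCategory C]
  [Preadditive C]
  {D : Type u'} [Category.{v'} D] [MonoidalCategory D] [SymmetricCategory D]
  [Preadditive D]
  {F : C ⥤ D} [F.Braided] [F.Additive]

theorem tNil_map_iff [F.Faithful] {X Y : C} (f : X ⟶ Y) : TNil (F.map f) ↔ TNil f := by
  refine exists_congr fun n => ?_
  have h := powIso_tmap F f n
  constructor
  · intro h1
    rw [h1, Limits.comp_zero] at h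
    have h2 : F.map (tmap f n) = 0 := by
      rw [← cancel_mono (powIso F Y n).hom, h, Limits.zero_comp]
    exact (F.map_eq_zero_iff).1 h2
  · intro h1
    rw [h1, F.map_zero, Limits.zero_comp] at h
    rw [← cancel_epi (powIso F X n).hom, ← h, Limits.comp_zero]

theorem even_of_split {M P : C} {g : M ⟶ M} {i : P ⟶ M} {p : M ⟶ P} (h1 : i ≫ p = 𝟙 P)
    (h2 : p ≫ i = g) {r : ℕ} (h : altSum M r ≫ tmap g r = 0) : altSum P r = 0 := by
  have h3 : p = g ≫ p := by rw [← h2, Category.assoc, h1, Category.comp_id]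
  have h4 : altSum P r = altSum P r ≫ tmap (i ≫ g ≫ p) r := by
    rw [← h3, h1, tmap_id, Category.comp_id]
  rw [h4, tmap_comp, tmap_comp, ← Category.assoc, ← altSum_nat, Category.assoc,
    ← Category.assoc (altSum M r), h, Limits.zero_comp, Limits.comp_zero]

theorem odd_of_split {M P : C} {g : M ⟶ M} {i : P ⟶ M} {p : M ⟶ P} (h1 : i ≫ p = 𝟙 P)
    (h2 : p ≫ i = g) {r : ℕ} (h : symSum M r ≫ tmap g r = 0) : symSum P r = 0 := by
  have h3 : p = g ≫ p := by rw [← h2, Category.assoc, h1, Category.comp_id]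
  have h4 : symSum P r = symSum P r ≫ tmap (i ≫ g ≫ p) r := by
    rw [← h3, h1, tmap_id, Category.comp_id]
  rw [h4, tmap_comp, tmap_comp, ← Category.assoc, ← symSum_nat, Category.assoc,
    ← Category.assoc (symSum M r), h, Limits.zero_comp, Limits.comp_zero]

theorem map_kill_alt [F.Faithful] {M : C} {g : M ⟶ M} {r : ℕ}
    (h : altSum (F.obj M) r ≫ tmap (F.map g) r = 0) : altSum M r ≫ tmap g r = 0 := by
  apply (F.map_eq_zero_iff).1
  rw [← cancel_mono (powIso F M r).hom, F.map_comp, Category.assoc, powIso_tmap,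
    ← Category.assoc, powIso_altSum, Category.assoc, h, Limits.comp_zero, Limits.zero_comp]

theorem map_kill_sym [F.Faithful] {M : C} {g : M ⟶ M} {r : ℕ}
    (h : symSum (F.obj M) r ≫ tmap (F.map g) r = 0) : symSum M r ≫ tmap g r = 0 := by
  apply (F.map_eq_zero_iff).1
  rw [← cancel_mono (powIso F M r).hom, F.map_comp, Category.assoc, powIso_tmap,
    ← Category.assoc, powIso_symSum, Category.assoc, h, Limits.comp_zero, Limits.zero_comp]

variable [MonoidalPreadditive C] [Linear ℚ C] [MonoidalPreadditive D] [Linear ℚ D]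

theorem kimuraFinite_of_descent [F.Faithful] [IsIdempotentComplete C] (G : Descent F) {M M' : C}
    [ExactPairing M' M] (hM : KimuraFinite (F.obj M)) : KimuraFinite M := by
  obtain ⟨P, Q, i, p, j, q, hip, hjq, hsum, hP, hQ⟩ := hM
  obtain ⟨r, hr⟩ := (isEven_iff P).1 hP
  obtain ⟨s, hs⟩ := (isOdd_iff Q).1 hQ
  -- the idempotent
  have he : (p ≫ i) ≫ (p ≫ i) = p ≫ i := by
    rw [Category.assoc, ← Category.assoc i, hip, Category.id_comp]
  have hq : 𝟙 (F.obj M) - p ≫ i = q ≫ j := by rw [← hsum, add_sub_cancel_left]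
  have hA : altSum (F.obj M) r ≫ tmap (p ≫ i) r = 0 := by
    rw [tmap_comp, ← Category.assoc, ← altSum_nat, hr, Limits.comp_zero, Limits.zero_comp]
  have hB : symSum (F.obj M) s ≫ tmap (𝟙 (F.obj M) - p ≫ i) s = 0 := by
    rw [hq, tmap_comp, ← Category.assoc, ← symSum_nat, hs, Limits.comp_zero, Limits.zero_comp]
  obtain ⟨g, hg⟩ := G.exists_congr hA hB
  -- the idempotent of `M`
  have hg2 : TNil (g ≫ g - g) := by
    rw [← tNil_map_iff (F := F)]
    have h1 : F.map (g ≫ g - g) = (F.map g ≫ (F.map g - p ≫ i) + (F.map g - p ≫ i) ≫ (p ≫ i)) -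
        (F.map g - p ≫ i) := by
      rw [F.map_sub, F.map_comp]
      simp only [Preadditive.comp_sub, Preadditive.sub_comp, he]
      abel
    rw [h1]
    exact ((hg.comp_left _).add (hg.comp_right _)).sub hg
  obtain ⟨g', hg', hgg⟩ := exists_idempotent (M' := M') hg2
  have hfe : TNil (F.map g' - p ≫ i) := by
    have h1 : F.map g' - p ≫ i = F.map (g' - g) + (F.map g - p ≫ i) := by
      rw [F.map_sub]
      abel
    rw [h1]
    exact ((tNil_map_iff (F := F) _).2 hgg).add hg
  obtain ⟨hd⟩ := exists_exactPairing_map F M' M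
  have hf : F.map g' ≫ F.map g' = F.map g' := by rw [← F.map_comp, hg']
  have hA' : altSum (F.obj M) r ≫ tmap (F.map g') r = 0 :=
    kill_of_congr (X' := F.obj M') hf hfe (fun g => altSum_nat g r) hA
  have hf' : F.map (𝟙 M - g') ≫ F.map (𝟙 M - g') = F.map (𝟙 M - g') := by
    rw [← F.map_comp]
    congr 1
    simp only [Preadditive.comp_sub, Preadditive.sub_comp, Category.id_comp, Category.comp_id, hg']
    abel
  have hfe' : TNil (F.map (𝟙 M - g') - (𝟙 (F.obj M) - p ≫ i)) := by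
    have h1 : F.map (𝟙 M - g') - (𝟙 (F.obj M) - p ≫ i) = -(F.map g' - p ≫ i) := by
      rw [F.map_sub, F.map_id]
      abel
    rw [h1]
    exact hfe.neg
  have hB' : symSum (F.obj M) s ≫ tmap (F.map (𝟙 M - g')) s = 0 :=
    kill_of_congr (X' := F.obj M') hf' hfe' (fun g => symSum_nat g s) hB
  -- split the idempotents
  obtain ⟨P', i', p', h1, h2⟩ := IsIdempotentComplete.idempotents_split M g' hg'
  obtain ⟨Q', j', q', h3, h4⟩ := IsIdempotentComplete.idempotents_split M (𝟙 M - g') (by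
    simp only [Preadditive.comp_sub, Preadditive.sub_comp, Category.id_comp, Category.comp_id, hg']
    abel)
  refine ⟨P', Q', i', p', j', q', h1, h3, ?_, ?_, ?_⟩
  · rw [h2, h4, add_sub_cancel]
  · exact (isEven_iff P').2 ⟨r, even_of_split h1 h2 (map_kill_alt hA')⟩
  · exact (isOdd_iff Q').2 ⟨s, odd_of_split h3 h4 (map_kill_sym hB')⟩

omit [MonoidalPreadditive C] [MonoidalPreadditive D] in
theorem kimuraFinite_map (M : C) (hM : KimuraFinite M) : KimuraFinite (F.obj M) := by
  obtain ⟨P, Q, i, p, j, q, hip, hjq, hsum, hP, hQ⟩ := hM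
  obtain ⟨r, hr⟩ := (isEven_iff P).1 hP
  obtain ⟨s, hs⟩ := (isOdd_iff Q).1 hQ
  refine ⟨F.obj P, F.obj Q, F.map i, F.map p, F.map j, F.map q, ?_, ?_, ?_, ?_, ?_⟩
  · rw [← F.map_comp, hip, F.map_id]
  · rw [← F.map_comp, hjq, F.map_id]
  · rw [← F.map_comp, ← F.map_comp, ← F.map_add, hsum, F.map_id]
  · rw [isEven_iff]
    refine ⟨r, ?_⟩
    have h := powIso_altSum F P r
    rw [hr, F.map_zero, Limits.zero_comp] at h
    rw [← cancel_epi (powIso F P r).hom, ← h, Limits.comp_zero]
  · rw [isOdd_iff]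
    refine ⟨s, ?_⟩
    have h := powIso_symSum F Q s
    rw [hs, F.map_zero, Limits.zero_comp] at h
    rw [← cancel_epi (powIso F Q s).hom, ← h, Limits.comp_zero]

/-- Kimura-finiteness and gradings. -/
theorem kimuraFinite_iff_of_grading [MonoidalLinear ℚ D] [F.Faithful] [IsIdempotentComplete C] (G : FGrading F)
    {M M' : C} [ExactPairing M' M] : KimuraFinite (F.obj M) ↔ KimuraFinite M := by
  obtain ⟨G'⟩ := exists_descent_of_grading G
  exact ⟨kimuraFinite_of_descent G' (M' := M'), kimuraFinite_map M⟩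

/-- Kimura-finiteness and group actions with finite orbits. -/
theorem kimuraFinite_iff_of_action [F.Faithful] [IsIdempotentComplete C] {Γ : Type} [Group Γ]
    (G : FAction F Γ) {M M' : C} [ExactPairing M' M] :
    KimuraFinite (F.obj M) ↔ KimuraFinite M := by
  obtain ⟨G'⟩ := exists_descent_of_action G
  exact ⟨kimuraFinite_of_descent G' (M' := M'), kimuraFinite_map M⟩

variable (F) in
/-- Kimura-finiteness and orbit categories. -/
theorem kimuraFinite_iff_of_tate [MonoidalLinear ℚ C] [MonoidalLinear ℚ D] [F.Linear ℚ]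
    [F.Faithful] [IsIdempotentComplete C] {T : C}
    (τ : F.obj T ≅ 𝟙_ D) (hT : ∃ T' : C, Nonempty (T ⊗ T' ≅ 𝟙_ C))
    (hint : ∀ X Y, DirectSum.IsInternal (degPart F τ X Y)) {M M' : C} [ExactPairing M' M] :
    KimuraFinite (F.obj M) ↔ KimuraFinite M := by
  obtain ⟨G⟩ := exists_grading F τ hT hint
  exact kimuraFinite_iff_of_grading G (M' := M')

end Core

end Pool.Agent.MP_6e5bed_ag
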