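import Pool.Agent.Lib.MP_6e5bed_ag.Defs

set_option autoImplicit false

/-!
# Homomorphisms from the symmetric group, from the relations of neighbouring transpositions
-/

namespace Pool.Agent.MP_6e5bed_ag

open Equiv

section Cox

/-- the permutation `σ` of `0, …, n - 1` moved to `1, …, n`. -/
def sh {n : ℕ} (σ : Perm (Fin n)) : Perm (Fin (n + 1)) := Perm.decomposeFin.symm (0, σ)

theorem sh_zero {n : ℕ} (σ : Perm (Fin n)) : sh σ 0 = 0 := by
  simp [sh]

theorem sh_succ {n : ℕ} (σ : Perm (Fin n)) (i : Fin n) : sh σ i.succ = (σ i).succ := by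
  simp [sh]

theorem sh_mul {n : ℕ} (σ τ : Perm (Fin n)) : sh (σ * τ) = sh σ * sh τ := by
  ext i
  refine Fin.cases ?_ (fun i => ?_) i
  · simp [sh_zero]
  · simp [sh_succ]

theorem sh_one {n : ℕ} : sh (1 : Perm (Fin n)) = 1 := by
  ext i
  refine Fin.cases ?_ (fun i => ?_) i
  · simp [sh_zero]
  · simp [sh_succ]

theorem sh_swap {n : ℕ} (a b : Fin n) : sh (swap a b) = swap a.succ b.succ := by
  ext i
  refine Fin.cases ?_ (fun i => ?_) i
  · rw [sh_zero, swap_apply_of_ne_of_ne]
    · exact (Fin.succ_ne_zero a).symm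
    · exact (Fin.succ_ne_zero b).symm
  · rw [sh_succ, ← (Fin.succ_injective n).swap_apply]

theorem sh_eq {n : ℕ} (σ : Perm (Fin n)) : sh σ = σ.viaEmbedding (Fin.succEmb n) := by
  ext i
  refine Fin.cases ?_ (fun i => ?_) i
  · rw [sh_zero, Perm.viaEmbedding_apply_of_notMem]
    rintro ⟨j, hj⟩
    exact Fin.succ_ne_zero j hj
  · rw [sh_succ]
    exact (congrArg Fin.val (Perm.viaEmbedding_apply σ (Fin.succEmb n) i)).symm

theorem exists_sh {n : ℕ} (σ : Perm (Fin (n + 1))) (h : σ 0 = 0) : ∃ τ, sh τ = σ := by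
  refine ⟨(Perm.decomposeFin σ).2, ?_⟩
  have h1 : Perm.decomposeFin.symm (Perm.decomposeFin σ) = σ := Equiv.symm_apply_apply _ _
  have h2 : (Perm.decomposeFin σ).1 = 0 := by
    have h3 := congrArg (fun f : Perm (Fin (n + 1)) => f 0) h1
    have h4 : Perm.decomposeFin.symm (Perm.decomposeFin σ) 0 = (Perm.decomposeFin σ).1 := by
      rw [← Prod.mk.eta (p := Perm.decomposeFin σ), Perm.decomposeFin_symm_apply_zero]
    rw [← h4, h1, h]
  unfold sh
  rw [← h2, Prod.mk.eta, h1]

theorem sh_injective {n : ℕ} {σ τ : Perm (Fin n)} (h : sh σ = sh τ) : σ = τ := by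
  ext i
  have h1 := congrArg (fun f : Perm (Fin (n + 1)) => f i.succ) h
  simp only [sh_succ, Fin.succ_inj] at h1
  rw [h1]

/-- the product `t (p - 1) * ⋯ * t 0`. -/
def cyc {G : Type*} [Monoid G] (t : ℕ → G) : ℕ → G
  | 0 => 1
  | p + 1 => t p * cyc t p

theorem cyc_succ {G : Type*} [Monoid G] (t : ℕ → G) (p : ℕ) :
    cyc t (p + 1) = t p * cyc t p := rfl

theorem cyc_comm_of_lt {G : Type*} [Monoid G] {n : ℕ} {t : ℕ → G}
    (h3 : ∀ i j, i + 2 ≤ j → j < n → t i * t j = t j * t i) {p i : ℕ} (hp : p < i) (hi : i < n) :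
    t i * cyc t p = cyc t p * t i := by
  induction p with
  | zero => simp [cyc]
  | succ p ih =>
    unfold cyc
    rw [mul_assoc, ← ih (by omega), ← mul_assoc, ← mul_assoc, h3 p i (by omega) hi]

theorem cyc_comm_of_gt {G : Type*} [Monoid G] {n : ℕ} {t : ℕ → G}
    (h2 : ∀ i, i + 1 < n → t i * t (i + 1) * t i = t (i + 1) * t i * t (i + 1))
    (h3 : ∀ i j, i + 2 ≤ j → j < n → t i * t j = t j * t i) {p i : ℕ} (hp : i + 2 ≤ p)
    (hi : p ≤ n) : t i * cyc t p = cyc t p * t (i + 1) := by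
  induction p with
  | zero => omega
  | succ p ih =>
    by_cases h : i + 2 ≤ p
    · have h4 := ih h (by omega)
      unfold cyc
      rw [mul_assoc, ← h4, ← mul_assoc, ← mul_assoc, h3 i p h (by omega)]
    · obtain rfl : p = i + 1 := by omega
      unfold cyc
      unfold cyc
      rw [mul_assoc, mul_assoc, ← cyc_comm_of_lt h3 (Nat.lt_succ_self i) (by omega)]
      have h5 := h2 i (by omega)
      calc t i * (t (i + 1) * (t i * cyc t i)) = (t i * t (i + 1) * t i) * cyc t i := by
            simp only [mul_assoc]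
        _ = (t (i + 1) * t i * t (i + 1)) * cyc t i := by rw [h5]
        _ = t (i + 1) * (t i * (t (i + 1) * cyc t i)) := by simp only [mul_assoc]

/-- the neighbouring transposition -/
def nb (n i : ℕ) : Perm (Fin (n + 1)) :=
  if h : i < n then swap ⟨i, h.trans (Nat.lt_succ_self n)⟩ ⟨i + 1, Nat.succ_lt_succ h⟩ else 1

theorem nb_mul_self (n i : ℕ) : nb n i * nb n i = 1 := by
  unfold nb
  split_ifs
  · exact swap_mul_self _ _
  · rfl

theorem nb_braid (n i : ℕ) (h : i + 1 < n) :
    nb n i * nb n (i + 1) * nb n i = nb n (i + 1) * nb n i * nb n (i + 1) := by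
  unfold nb
  rw [dif_pos (show i < n by omega), dif_pos h]
  rw [swap_mul_swap_mul_swap (x := (⟨i, by omega⟩ : Fin (n + 1))) (y := ⟨i + 1, by omega⟩)
    (z := ⟨i + 2, by omega⟩) (by simp) (by simp)]
  rw [swap_comm (⟨i, by omega⟩ : Fin (n + 1)) ⟨i + 1, by omega⟩,
    swap_comm (⟨i + 1, by omega⟩ : Fin (n + 1)) ⟨i + 1 + 1, by omega⟩]
  rw [swap_mul_swap_mul_swap (x := (⟨i + 2, by omega⟩ : Fin (n + 1))) (y := ⟨i + 1, by omega⟩)
    (z := ⟨i, by omega⟩) (by simp) (by simp)]
  exact swap_comm _ _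

theorem nb_comm (n i j : ℕ) (h : i + 2 ≤ j) (hj : j < n) : nb n i * nb n j = nb n j * nb n i := by
  unfold nb
  rw [dif_pos (show i < n by omega), dif_pos hj, mul_swap_eq_swap_mul,
    swap_apply_of_ne_of_ne, swap_apply_of_ne_of_ne]
  all_goals
    simp only [ne_eq, Fin.mk.injEq]
    omega

theorem cyc_nb_zero (n p : ℕ) (hp : p ≤ n) :
    (cyc (nb n) p : Perm (Fin (n + 1))) 0 = ⟨p, Nat.lt_succ_of_le hp⟩ := by
  induction p with
  | zero => rfl
  | succ p ih =>
    unfold cyc
    rw [Perm.mul_apply, ih (by omega)]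
    unfold nb
    rw [dif_pos (show p < n by omega), swap_apply_left]

theorem exists_decomp {n : ℕ} (σ : Perm (Fin (n + 1))) :
    ∃ τ, σ = cyc (nb n) (σ 0).val * sh τ := by
  obtain ⟨τ, hτ⟩ := exists_sh ((cyc (nb n) (σ 0).val)⁻¹ * σ) (by
    rw [Perm.mul_apply, Perm.inv_eq_iff_eq, cyc_nb_zero n _ (Nat.le_of_lt_succ (σ 0).2)])
  refine ⟨τ, ?_⟩
  rw [hτ, mul_inv_cancel_left]

/-- Elements of a monoid which satisfy the relations of the neighbouring transpositions give a
homomorphism from the symmetric group. -/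
theorem exists_perm_hom {G : Type*} [Monoid G] (n : ℕ) (t : ℕ → G)
    (h1 : ∀ i < n, t i * t i = 1)
    (h2 : ∀ i, i + 1 < n → t i * t (i + 1) * t i = t (i + 1) * t i * t (i + 1))
    (h3 : ∀ i j, i + 2 ≤ j → j < n → t i * t j = t j * t i) :
    ∃ φ : Perm (Fin (n + 1)) →* G, ∀ i : Fin n, φ (swap i.castSucc i.succ) = t i := by
  induction n generalizing t with
  | zero => exact ⟨1, fun i => i.elim0⟩
  | succ n ih =>
    obtain ⟨φ', hφ'⟩ := ih (fun i => t (i + 1)) (fun i hi => h1 _ (by omega))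
      (fun i hi => h2 _ (by omega)) (fun i j hij hj => h3 _ _ (by omega) (by omega))
    have hdec := fun σ : Perm (Fin (n + 2)) => exists_decomp σ
    choose r hr using hdec
    -- the map
    let Φ : Perm (Fin (n + 2)) → G := fun σ => cyc t (σ 0).val * φ' (r σ)
    have hΦ : ∀ p, p ≤ n + 1 → ∀ τ, Φ (cyc (nb (n + 1)) p * sh τ) = cyc t p * φ' τ := by
      intro p hp τ
      have h4 : (cyc (nb (n + 1)) p * sh τ) 0 = ⟨p, Nat.lt_succ_of_le hp⟩ := by
        rw [Perm.mul_apply, sh_zero, cyc_nb_zero _ _ hp]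
      have h5 := hr (cyc (nb (n + 1)) p * sh τ)
      rw [h4] at h5
      have h6 : τ = r (cyc (nb (n + 1)) p * sh τ) := sh_injective (mul_left_cancel h5)
      change cyc t ((cyc (nb (n + 1)) p * sh τ) 0).val * φ' (r _) = _
      rw [h4, ← h6]
    have hstep : ∀ i, i < n + 1 → ∀ σ, Φ (nb (n + 1) i * σ) = t i * Φ σ := by
      intro i hi σ
      obtain ⟨τ, hτ⟩ := exists_decomp σ
      obtain ⟨p, hp, hσ⟩ : ∃ p, p ≤ n + 1 ∧ σ = cyc (nb (n + 1)) p * sh τ :=
        ⟨(σ 0).val, Nat.le_of_lt_succ (σ 0).2, hτ⟩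
      clear hτ
      subst hσ
      rw [hΦ p hp]
      rcases lt_trichotomy i p with hlt | rfl | hgt
      · by_cases h : i + 2 ≤ p
        · rw [← mul_assoc, cyc_comm_of_gt (nb_braid (n + 1)) (nb_comm (n + 1)) h hp, mul_assoc]
          have h7 : nb (n + 1) (i + 1) = sh (nb n i) := by
            unfold nb
            rw [dif_pos (by omega), dif_pos (by omega), sh_swap]
            rfl
          have h8 : φ' (nb n i) = t (i + 1) := by
            have h9 := hφ' ⟨i, by omega⟩
            unfold nb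
            rw [dif_pos (by omega)]
            exact h9
          rw [h7, ← sh_mul, hΦ p hp, map_mul, h8, ← mul_assoc, ← mul_assoc,
            cyc_comm_of_gt h2 h3 h hp]
        · obtain rfl : p = i + 1 := by omega
          have h7 : nb (n + 1) i * (cyc (nb (n + 1)) (i + 1) * sh τ) =
              cyc (nb (n + 1)) i * sh τ := by
            rw [cyc_succ, mul_assoc, ← mul_assoc, nb_mul_self, one_mul]
          rw [h7, hΦ i (by omega), cyc_succ, ← mul_assoc, ← mul_assoc, h1 i hi, one_mul]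
      · have h7 : nb (n + 1) i * (cyc (nb (n + 1)) i * sh τ) = cyc (nb (n + 1)) (i + 1) * sh τ := by
          rw [← mul_assoc]
          rfl
        rw [h7, hΦ (i + 1) (by omega), ← mul_assoc]
        rfl
      · rw [← mul_assoc, cyc_comm_of_lt (nb_comm (n + 1)) hgt hi, mul_assoc]
        obtain ⟨k, rfl⟩ : ∃ k, i = k + 1 := ⟨i - 1, by omega⟩
        have h7 : nb (n + 1) (k + 1) = sh (nb n k) := by
          unfold nb
          rw [dif_pos (by omega), dif_pos (by omega), sh_swap]
          rfl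
        have h8 : φ' (nb n k) = t (k + 1) := by
          have h9 := hφ' ⟨k, by omega⟩
          unfold nb
          rw [dif_pos (by omega)]
          exact h9
        rw [h7, ← sh_mul, hΦ p hp, map_mul, h8, ← mul_assoc, ← mul_assoc,
          cyc_comm_of_lt h3 hgt hi]
    have hone : Φ 1 = 1 := by
      have h4 := hΦ 0 (by omega) 1
      rw [sh_one, mul_one, map_one, mul_one] at h4
      exact h4
    have hgen : ∀ i : Fin (n + 1), swap i.castSucc i.succ = nb (n + 1) i := by
      intro i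
      unfold nb
      rw [dif_pos i.2]
      rfl
    have hgen2 : ∀ i : Fin (n + 1), Φ (swap i.castSucc i.succ) = t i := by
      intro i
      have h4 := hstep i i.2 1
      rw [mul_one, hone, mul_one] at h4
      rw [hgen, h4]
    have hmul : ∀ σ τ, Φ (σ * τ) = Φ σ * Φ τ := by
      intro σ
      have hσ : σ ∈ Submonoid.closure
          (Set.range fun i : Fin (n + 1) => swap i.castSucc i.succ) := by
        rw [Perm.mclosure_swap_castSucc_succ]
        exact Submonoid.mem_top σ
      induction hσ using Submonoid.closure_induction with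
      | mem x hx =>
        obtain ⟨i, rfl⟩ := hx
        intro τ
        simp only
        rw [hgen2, hgen, hstep i i.2]
      | one =>
        intro τ
        rw [one_mul, hone, one_mul]
      | mul x y _ _ ihx ihy =>
        intro τ
        rw [mul_assoc, ihx, ihy, ihx]
        exact (mul_assoc _ _ _).symm
    exact ⟨⟨⟨Φ, hone⟩, hmul⟩, hgen2⟩

end Cox

end Pool.Agent.MP_6e5bed_ag
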