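import Pool.Agent.Lib.MP_6e5bed_ag.Core
import Pool.Agent.Lib.MP_6e5bed_ag.BLift

set_option autoImplicit false

/-!
# Descent of Kimura-finiteness in terms of idempotents
-/

namespace Pool.Agent.MP_6e5bed_ag

open CategoryTheory MonoidalCategory Equiv

universe v u v' u'

variable {C : Type u} [Category.{v} C] [MonoidalCategory C] [SymmetricCategory C]
  [Preadditive C]
  {D : Type u'} [Category.{v'} D] [MonoidalCategory D] [SymmetricCategory D]
  [Preadditive D] {F : C ⥤ D} [F.Braided] [F.Additive]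

theorem opKF_of_faithful [F.Faithful] {X : C} {e : X ⟶ X} (he : e ≫ e = e)
    (h : (∃ r, altSum (F.obj X) r ≫ tmap (F.map e) r = 0) ∧
      ∃ s, symSum (F.obj X) s ≫ tmap (𝟙 (F.obj X) - F.map e) s = 0) : OpKF X := by
  obtain ⟨⟨r, hr⟩, s, hs⟩ := h
  have hs' : symSum (F.obj X) s ≫ tmap (F.map (𝟙 X - e)) s = 0 := by
    rw [F.map_sub, F.map_id]
    exact hs
  exact ⟨e, he, ⟨r, map_kill_alt hr⟩, s, map_kill_sym hs'⟩

theorem opKF_iff_of_full [F.Full] [F.Faithful] (X : C) : OpKF (F.obj X) ↔ OpKF X := by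
  constructor
  · rintro ⟨e, he, hr, hs⟩
    obtain ⟨f, rfl⟩ := F.map_surjective e
    refine opKF_of_faithful (F := F) (e := f) (F.map_injective ?_) ⟨hr, hs⟩
    rw [F.map_comp, he]
  · exact fun h => h.map F

variable [MonoidalPreadditive C] [Linear ℚ C] [MonoidalPreadditive D] [Linear ℚ D]

theorem opKF_of_descent [F.Faithful] (G : Descent F) {M M' : C} [ExactPairing M' M]
    (hM : OpKF (F.obj M)) : OpKF M := by
  obtain ⟨e, he, ⟨r, hA⟩, s, hB⟩ := hM
  obtain ⟨g, hg⟩ := G.exists_congr hA hB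
  -- the idempotent of `M`
  have hg2 : TNil (g ≫ g - g) := by
    rw [← tNil_map_iff (F := F)]
    have h1 : F.map (g ≫ g - g) = (F.map g ≫ (F.map g - e) + (F.map g - e) ≫ e) -
        (F.map g - e) := by
      rw [F.map_sub, F.map_comp]
      simp only [Preadditive.comp_sub, Preadditive.sub_comp, he]
      abel
    rw [h1]
    exact ((hg.comp_left _).add (hg.comp_right _)).sub hg
  obtain ⟨g', hg', hgg⟩ := exists_idempotent (M' := M') hg2
  have hfe : TNil (F.map g' - e) := by
    have h1 : F.map g' - e = F.map (g' - g) + (F.map g - e) := by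
      rw [F.map_sub]
      abel
    rw [h1]
    exact ((tNil_map_iff (F := F) _).2 hgg).add hg
  obtain ⟨hd⟩ := exists_exactPairing_map F M' M
  have hf : F.map g' ≫ F.map g' = F.map g' := by rw [← F.map_comp, hg']
  have hA' : altSum (F.obj M) r ≫ tmap (F.map g') r = 0 :=
    kill_of_congr (X' := F.obj M') hf hfe (fun g => altSum_nat g r) hA
  have hf' : F.map (𝟙 M - g') ≫ F.map (𝟙 M - g') = F.map (𝟙 M - g') := by
    rw [← F.map_comp]
    congr 1
    simp only [Preadditive.comp_sub, Preadditive.sub_comp, Category.id_comp, Category.comp_id, hg']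
    abel
  have hfe' : TNil (F.map (𝟙 M - g') - (𝟙 (F.obj M) - e)) := by
    have h1 : F.map (𝟙 M - g') - (𝟙 (F.obj M) - e) = -(F.map g' - e) := by
      rw [F.map_sub, F.map_id]
      abel
    rw [h1]
    exact hfe.neg
  have hB' : symSum (F.obj M) s ≫ tmap (F.map (𝟙 M - g')) s = 0 :=
    kill_of_congr (X' := F.obj M') hf' hfe' (fun g => symSum_nat g s) hB
  exact ⟨g', hg', ⟨r, map_kill_alt hA'⟩, s, map_kill_sym hB'⟩

end Pool.Agent.MP_6e5bed_ag
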