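import Pool.Agent.Lib.MP_6e5bed_ag.Defs

set_option autoImplicit false

/-! # Duals: tensor-nilpotent endomorphisms are nilpotent; monoidal functors preserve duals -/

namespace Pool.Agent.MP_6e5bed_ag

open CategoryTheory MonoidalCategory Equiv

universe v u v' u'

section Dual

section Nil

variable {C : Type u} [Category.{v} C] [MonoidalCategory C] [SymmetricCategory C]

/-- `A ⊗ (P ⊗ B) ≅ P ⊗ (A ⊗ B)`. -/
def dual_swap (A P B : C) : A ⊗ (P ⊗ B) ≅ P ⊗ (A ⊗ B) :=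
  (α_ A P B).symm ≪≫ whiskerRightIso (β_ A P) B ≪≫ α_ P A B

theorem dual_swap_natural {A A' B B' : C} (P : C) (a : A ⟶ A') (b : B ⟶ B') :
    a ⊗ₘ (P ◁ b) = (dual_swap A P B).hom ≫ (P ◁ (a ⊗ₘ b)) ≫ (dual_swap A' P B').inv := by
  rw [← Category.assoc, Iso.eq_comp_inv]
  simp only [dual_swap, Iso.trans_hom, Iso.symm_hom, whiskerRightIso_hom, Category.assoc,
    ← id_tensorHom, ← tensorHom_id]
  rw [← associator_naturality, MonoidalCategory.tensorHom_comp_tensorHom_assoc,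
    ← BraidedCategory.braiding_naturality, Category.id_comp,
    MonoidalCategory.associator_inv_naturality_assoc,
    MonoidalCategory.tensorHom_comp_tensorHom_assoc, Category.comp_id]

theorem dual_comp {M M' : C} [ExactPairing M' M] (a b : M ⟶ M) :
    a ≫ b = (ρ_ M).inv ≫ (M ◁ η_ M' M) ≫ (a ⊗ₘ (M' ◁ b)) ≫ (α_ M M' M).inv ≫
      (ε_ M' M ▷ M) ≫ (λ_ M).hom := by
  have h := ExactPairing.coevaluation_evaluation M' M
  have h1 : b = (ρ_ M).inv ≫ M ◁ η_ M' M ≫ (α_ M M' M).inv ≫ ε_ M' M ▷ M ≫ (λ_ M).hom ≫ b := by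
    have h2 := congrArg (fun z => (ρ_ M).inv ≫ z ≫ (λ_ M).hom ≫ b) h
    simp only [Category.assoc, Iso.inv_hom_id_assoc] at h2
    exact h2.symm
  have h3 : (ρ_ M).inv ≫ (M ◁ η_ M' M) ≫ (a ⊗ₘ (M' ◁ b)) ≫ (α_ M M' M).inv ≫
      (ε_ M' M ▷ M) ≫ (λ_ M).hom = a ≫ (ρ_ M).inv ≫ M ◁ η_ M' M ≫ (α_ M M' M).inv ≫
      ε_ M' M ▷ M ≫ (λ_ M).hom ≫ b := by
    rw [MonoidalCategory.tensorHom_def, Category.assoc, associator_inv_naturality_right_assoc,
      whisker_exchange_assoc, whisker_exchange_assoc, leftUnitor_naturality,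
      ← rightUnitor_inv_naturality_assoc]
  rw [h3, ← h1]

variable [Preadditive C] [MonoidalPreadditive C]

omit [SymmetricCategory C] [Preadditive C] [MonoidalPreadditive C] in
theorem dual_aux {A B B' D K L : C} (x : A ⟶ B) (y : B ⟶ B') (z : B' ⟶ D) (h : K ⟶ L) :
    (x ≫ y ≫ z) ⊗ₘ h = (x ▷ K) ≫ (y ⊗ₘ h) ≫ (z ▷ L) := by
  simp only [MonoidalCategory.tensorHom_def, comp_whiskerRight, Category.assoc]
  rw [whisker_exchange]

theorem dual_zero_step {M M' K L : C} [ExactPairing M' M] (a b : M ⟶ M) (h : K ⟶ L)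
    (h0 : a ⊗ₘ (b ⊗ₘ h) = 0) : (a ≫ b) ⊗ₘ h = 0 := by
  have h1 : (a ⊗ₘ (M' ◁ b)) ⊗ₘ h = 0 := by
    have e1 : (a ⊗ₘ (M' ◁ b)) ⊗ₘ h =
        (α_ _ _ _).hom ≫ (a ⊗ₘ ((M' ◁ b) ⊗ₘ h)) ≫ (α_ _ _ _).inv := by
      simp
    have e2 : ((M' ◁ b) ⊗ₘ h) = (α_ _ _ _).hom ≫ (M' ◁ (b ⊗ₘ h)) ≫ (α_ _ _ _).inv := by
      simp [← id_tensorHom]
    have e3 : a ⊗ₘ (M' ◁ (b ⊗ₘ h)) = 0 := by
      rw [dual_swap_natural, h0]
      simp
    have e4 : a ⊗ₘ ((M' ◁ b) ⊗ₘ h) =
        (M ◁ (α_ _ _ _).hom) ≫ (a ⊗ₘ (M' ◁ (b ⊗ₘ h))) ≫ (M ◁ (α_ _ _ _).inv) := by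
      rw [e2]
      simp [MonoidalCategory.tensorHom_def]
    rw [e1, e4, e3]
    simp
  rw [dual_comp (M' := M') a b]
  have e5 := dual_aux ((ρ_ M).inv ≫ (M ◁ η_ M' M)) (a ⊗ₘ (M' ◁ b)) ((α_ M M' M).inv ≫
      (ε_ M' M ▷ M) ≫ (λ_ M).hom) h
  rw [Category.assoc] at e5
  rw [e5, h1]
  simp

theorem dual_ind {M M' : C} [ExactPairing M' M] (f : M ⟶ M) (n : ℕ) :
    ∀ a : M ⟶ M, a ⊗ₘ (tmap f n) = 0 → a ≫ ((show End M from f) ^ n : End M) = 0 := by
  induction n with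
  | zero =>
    intro a h
    have h1 : a = (ρ_ M).inv ≫ (a ⊗ₘ 𝟙 (𝟙_ C)) ≫ (ρ_ M).hom := by
      simp
    have h2 : a ⊗ₘ 𝟙 (𝟙_ C) = 0 := h
    rw [h2] at h1
    have h3 : a = 0 := by
      rw [h1]
      simp
    rw [h3]
    simp
  | succ n ih =>
    intro a h
    have h1 := dual_zero_step (M' := M') a f (tmap f n) h
    have h2 := ih (a ≫ f) h1
    rw [pow_succ]
    show a ≫ (f ≫ ((show End M from f) ^ n : End M)) = 0
    rw [← Category.assoc]
    exact h2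

/-- A tensor-nilpotent endomorphism of an object with a dual is nilpotent. -/
theorem TNil.isNilpotent {C : Type u} [Category.{v} C] [MonoidalCategory C] [SymmetricCategory C]
    [Preadditive C] [MonoidalPreadditive C] {M M' : C} [ExactPairing M' M] {f : M ⟶ M}
    (hf : TNil f) : IsNilpotent (R := End M) f := by
  obtain ⟨n, hn⟩ := hf
  refine ⟨n, ?_⟩
  have h1 : (𝟙 M) ⊗ₘ (tmap f n) = 0 := by
    rw [hn]
    simp
  have h2 := dual_ind (M' := M') f n (𝟙 M) h1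
  rw [Category.id_comp] at h2
  exact h2

end Nil

open Functor.LaxMonoidal Functor.OplaxMonoidal in
/-- A monoidal functor preserves duals. -/
theorem exists_exactPairing_map {C : Type u} [Category.{v} C] [MonoidalCategory C]
    {D : Type u'} [Category.{v'} D] [MonoidalCategory D] (F : C ⥤ D) [F.Monoidal] (X Y : C)
    [ExactPairing X Y] : Nonempty (ExactPairing (F.obj X) (F.obj Y)) := by
  refine ⟨{ coevaluation' := ε F ≫ F.map (η_ X Y) ≫ δ F X Y
            evaluation' := μ F Y X ≫ F.map (ε_ X Y) ≫ η F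
            coevaluation_evaluation' := ?_
            evaluation_coevaluation' := ?_ }⟩
  · have h := congrArg F.map (ExactPairing.coevaluation_evaluation X Y)
    simp only [Functor.map_comp, Functor.Monoidal.map_whiskerLeft,
      Functor.Monoidal.map_whiskerRight, Functor.Monoidal.map_associator_inv,
      Functor.Monoidal.map_rightUnitor, Functor.Monoidal.map_leftUnitor_inv, Category.assoc,
      Functor.Monoidal.μ_δ_assoc] at h
    have h1 := (cancel_epi (δ F Y (𝟙_ C))).mp h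
    have h2 : F.obj Y ◁ F.map (η_ X Y) ≫ F.obj Y ◁ δ F X Y ≫ (α_ _ _ _).inv ≫
        μ F Y X ▷ F.obj Y ≫ F.map (ε_ X Y) ▷ F.obj Y =
        F.obj Y ◁ η F ≫ (ρ_ (F.obj Y)).hom ≫ (λ_ (F.obj Y)).inv ≫ ε F ▷ F.obj Y := by
      rw [← cancel_mono (μ F (𝟙_ C) Y)]
      simpa only [Category.assoc] using h1
    simp only [MonoidalCategory.whiskerLeft_comp, comp_whiskerRight, Category.assoc]
    have h3 := congrArg (fun z => F.obj Y ◁ ε F ≫ z ≫ η F ▷ F.obj Y) h2
    simp only [Category.assoc, Functor.Monoidal.whiskerRight_ε_η, Category.comp_id,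
      Functor.Monoidal.whiskerLeft_ε_η_assoc] at h3
    exact h3
  · have h := congrArg F.map (ExactPairing.evaluation_coevaluation X Y)
    simp only [Functor.map_comp, Functor.Monoidal.map_whiskerLeft,
      Functor.Monoidal.map_whiskerRight, Functor.Monoidal.map_associator,
      Functor.Monoidal.map_rightUnitor_inv, Functor.Monoidal.map_leftUnitor, Category.assoc,
      Functor.Monoidal.μ_δ_assoc] at h
    have h1 := (cancel_epi (δ F (𝟙_ C) X)).mp h
    have h2 : F.map (η_ X Y) ▷ F.obj X ≫ δ F X Y ▷ F.obj X ≫ (α_ _ _ _).hom ≫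
        F.obj X ◁ μ F Y X ≫ F.obj X ◁ F.map (ε_ X Y) =
        η F ▷ F.obj X ≫ (λ_ (F.obj X)).hom ≫ (ρ_ (F.obj X)).inv ≫ F.obj X ◁ ε F := by
      rw [← cancel_mono (μ F X (𝟙_ C))]
      simpa only [Category.assoc] using h1
    simp only [MonoidalCategory.whiskerLeft_comp, comp_whiskerRight, Category.assoc]
    have h3 := congrArg (fun z => ε F ▷ F.obj X ≫ z ≫ F.obj X ◁ η F) h2
    simp only [Category.assoc, Functor.Monoidal.whiskerLeft_ε_η, Category.comp_id,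
      Functor.Monoidal.whiskerRight_ε_η_assoc] at h3
    exact h3

end Dual

end Pool.Agent.MP_6e5bed_ag
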