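import Pool.Agent.Lib.MP_6e5bed_ag.Kill
import Pool.Agent.Lib.MP_6e5bed_ag.Ideal
import Pool.Agent.Lib.MP_6e5bed_ag.Dual
import Pool.Agent.Lib.MP_6e5bed_ag.Grad
import Pool.Agent.Lib.MP_6e5bed_ag.Fun

set_option autoImplicit false

/-!
# Descent along automorphisms
-/

namespace Pool.Agent.MP_6e5bed_ag

open CategoryTheory MonoidalCategory Equiv

universe v u v' u'

section Pow

variable {C : Type u} [Category.{v} C] [MonoidalCategory C]
  {D : Type u'} [Category.{v'} D] [MonoidalCategory D] (F : C ⥤ D) [F.Monoidal]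

/-- The tensor power of a morphism `F X ⟶ F Y`, as a morphism `F (X ⊗ ⋯) ⟶ F (Y ⊗ ⋯)`. -/
noncomputable def fpow {X Y : C} (f : F.obj X ⟶ F.obj Y) :
    (n : ℕ) → (F.obj (tpow X n) ⟶ F.obj (tpow Y n))
  | 0 => 𝟙 _
  | n + 1 => Functor.OplaxMonoidal.δ F X (tpow X n) ≫ (f ⊗ₘ fpow f n) ≫
      Functor.LaxMonoidal.μ F Y (tpow Y n)

theorem fpow_powIso {X Y : C} (f : F.obj X ⟶ F.obj Y) (n : ℕ) :
    fpow F f n ≫ (powIso F Y n).hom = (powIso F X n).hom ≫ tmap f n := by
  induction n with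
  | zero => exact (Category.id_comp _).trans (Category.comp_id _).symm
  | succ n ih =>
    have h1 : (powIso F Y (n + 1)).hom = Functor.OplaxMonoidal.δ F Y (tpow Y n) ≫
        (𝟙 (F.obj Y) ⊗ₘ (powIso F Y n).hom) := rfl
    have h2 : (powIso F X (n + 1)).hom = Functor.OplaxMonoidal.δ F X (tpow X n) ≫
        (𝟙 (F.obj X) ⊗ₘ (powIso F X n).hom) := rfl
    have h3 : fpow F f (n + 1) = Functor.OplaxMonoidal.δ F X (tpow X n) ≫ (f ⊗ₘ fpow F f n) ≫
      Functor.LaxMonoidal.μ F Y (tpow Y n) := rfl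
    have h4 : (Functor.OplaxMonoidal.δ F X (tpow X n) ≫ (f ⊗ₘ fpow F f n) ≫
        Functor.LaxMonoidal.μ F Y (tpow Y n)) ≫ Functor.OplaxMonoidal.δ F Y (tpow Y n) ≫
        (𝟙 (F.obj Y) ⊗ₘ (powIso F Y n).hom) =
        (Functor.OplaxMonoidal.δ F X (tpow X n) ≫ (𝟙 (F.obj X) ⊗ₘ (powIso F X n).hom)) ≫
          (f ⊗ₘ tmap f n) := by
      simp only [Category.assoc, Functor.Monoidal.μ_δ_assoc, tensorHom_comp_tensorHom,
        Category.comp_id, Category.id_comp, ih]
    exact h4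

end Pow

section Descent

variable {C : Type u} [Category.{v} C] [MonoidalCategory C]
  {D : Type u'} [Category.{v'} D] [MonoidalCategory D] [Preadditive D] [Linear ℚ D]
  (F : C ⥤ D) [F.Monoidal]

/-- Automorphisms of the morphisms `F X ⟶ F Y`, compatible with composition and tensor products
and trivial on the image of `F`, such that a morphism that is invariant modulo a stable subspace
comes from `C` modulo this subspace. -/
structure Descent where
  /-- the index set of the automorphisms -/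
  ι : Type
  /-- the automorphisms -/
  act : ι → ∀ {X Y : C}, (F.obj X ⟶ F.obj Y) →ₗ[ℚ] (F.obj X ⟶ F.obj Y)
  act_comp : ∀ (a : ι) {X Y Z : C} (f : F.obj X ⟶ F.obj Y) (g : F.obj Y ⟶ F.obj Z),
    act a (f ≫ g) = act a f ≫ act a g
  act_map : ∀ (a : ι) {X Y : C} (g : X ⟶ Y), act a (F.map g) = F.map g
  act_tensor : ∀ (a : ι) {X Y X' Y' : C} (f : F.obj X ⟶ F.obj Y) (g : F.obj X' ⟶ F.obj Y'),
    act a (Functor.OplaxMonoidal.δ F X X' ≫ (f ⊗ₘ g) ≫ Functor.LaxMonoidal.μ F Y Y') =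
      Functor.OplaxMonoidal.δ F X X' ≫ (act a f ⊗ₘ act a g) ≫ Functor.LaxMonoidal.μ F Y Y'
  reynolds : ∀ {X Y : C} (N : Submodule ℚ (F.obj X ⟶ F.obj Y)),
    (∀ a, ∀ f ∈ N, act a f ∈ N) → ∀ f, (∀ a, act a f - f ∈ N) → ∃ g : X ⟶ Y, f - F.map g ∈ N

variable {F}

theorem Descent.act_fpow (G : Descent F) (a : G.ι) {X Y : C} (f : F.obj X ⟶ F.obj Y) (n : ℕ) :
    G.act a (fpow F f n) = fpow F (G.act a f) n := by
  induction n with
  | zero =>
    have h : (𝟙 (F.obj (tpow X 0))) = F.map (𝟙 (tpow X 0)) := (F.map_id _).symm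
    change G.act a (𝟙 (F.obj (tpow X 0))) = 𝟙 (F.obj (tpow X 0))
    rw [h, G.act_map]
  | succ n ih =>
    have h := G.act_tensor a f (fpow F f n)
    rw [ih] at h
    exact h

/-- A grading gives a descent datum. -/
theorem exists_descent_of_grading [MonoidalPreadditive D] [MonoidalLinear ℚ D] (G : FGrading F) :
    Nonempty (Descent F) := by
  obtain ⟨φ, h1, h2, h3, h4⟩ := G.exists_auto
  refine ⟨⟨Unit, fun _ => φ, fun _ => h1, fun _ => h2, fun _ => h3, ?_⟩⟩
  intro X Y N hN f hf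
  obtain ⟨w, hw, hfw⟩ := homogeneous (G.internal X Y) (φ := φ) (fun n v hv => h4 n v hv) (hN ())
    (hf ())
  obtain ⟨g, hg⟩ := (G.mem_zero w).1 hw
  exact ⟨g, by rw [hg]; exact hfw⟩

end Descent

section Galois

variable {C : Type u} [Category.{v} C] [MonoidalCategory C]
  {D : Type u'} [Category.{v'} D] [MonoidalCategory D] [Preadditive D] [Linear ℚ D]
  (F : C ⥤ D) [F.Monoidal] (Γ : Type) [Group Γ]

/-- An action of a group on the morphisms `F X ⟶ F Y`, with finite orbits, compatible with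
composition and tensor products, with the image of `F` as the set of fixed morphisms. -/
structure FAction where
  /-- the action -/
  act : Γ → ∀ {X Y : C}, (F.obj X ⟶ F.obj Y) →ₗ[ℚ] (F.obj X ⟶ F.obj Y)
  act_one : ∀ {X Y : C} (f : F.obj X ⟶ F.obj Y), act 1 f = f
  act_mul : ∀ (a b : Γ) {X Y : C} (f : F.obj X ⟶ F.obj Y), act (a * b) f = act a (act b f)
  act_comp : ∀ (a : Γ) {X Y Z : C} (f : F.obj X ⟶ F.obj Y) (g : F.obj Y ⟶ F.obj Z),
    act a (f ≫ g) = act a f ≫ act a g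
  act_tensor : ∀ (a : Γ) {X Y X' Y' : C} (f : F.obj X ⟶ F.obj Y) (g : F.obj X' ⟶ F.obj Y'),
    act a (Functor.OplaxMonoidal.δ F X X' ≫ (f ⊗ₘ g) ≫ Functor.LaxMonoidal.μ F Y Y') =
      Functor.OplaxMonoidal.δ F X X' ≫ (act a f ⊗ₘ act a g) ≫ Functor.LaxMonoidal.μ F Y Y'
  finite_orbit : ∀ {X Y : C} (f : F.obj X ⟶ F.obj Y), (Set.range fun a => act a f).Finite
  fixed_iff : ∀ {X Y : C} (f : F.obj X ⟶ F.obj Y),
    (∀ a, act a f = f) ↔ ∃ g : X ⟶ Y, F.map g = f

variable {F Γ}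

theorem exists_descent_of_action (G : FAction F Γ) : Nonempty (Descent F) := by
  classical
  refine ⟨⟨Γ, G.act, G.act_comp, fun a X Y g => (G.fixed_iff (F.map g)).2 ⟨g, rfl⟩ a,
    G.act_tensor, ?_⟩⟩
  intro X Y N _ f hf
  obtain ⟨O, hO⟩ : ∃ O : Finset (F.obj X ⟶ F.obj Y), ∀ x, x ∈ O ↔ ∃ a, G.act a f = x :=
    ⟨(G.finite_orbit f).toFinset, fun x => by simp⟩
  have hne : O.Nonempty := ⟨f, (hO f).2 ⟨1, G.act_one f⟩⟩
  have hc : ((O.card : ℕ) : ℚ) ≠ 0 := Nat.cast_ne_zero.2 hne.card_ne_zero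
  have hinv : ∀ b, ∑ x ∈ O, G.act b x = ∑ x ∈ O, x := by
    intro b
    refine Finset.sum_bij (fun x _ => G.act b x) ?_ ?_ ?_ (fun _ _ => rfl)
    · intro x hx
      obtain ⟨a, rfl⟩ := (hO x).1 hx
      exact (hO _).2 ⟨b * a, G.act_mul b a f⟩
    · intro x _ y _ hxy
      have h1 := congrArg (G.act b⁻¹) hxy
      rwa [← G.act_mul, ← G.act_mul, inv_mul_cancel, G.act_one, G.act_one] at h1
    · intro x hx
      obtain ⟨a, rfl⟩ := (hO x).1 hx
      refine ⟨G.act (b⁻¹ * a) f, (hO _).2 ⟨_, rfl⟩, ?_⟩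
      rw [← G.act_mul, mul_inv_cancel_left]
  have h1 : ∀ b, G.act b (((O.card : ℕ) : ℚ)⁻¹ • ∑ x ∈ O, x) =
      ((O.card : ℕ) : ℚ)⁻¹ • ∑ x ∈ O, x := by
    intro b
    rw [map_smul, map_sum, hinv]
  obtain ⟨g, hg⟩ := (G.fixed_iff _).1 h1
  refine ⟨g, ?_⟩
  rw [hg]
  have h2 : f - ((O.card : ℕ) : ℚ)⁻¹ • ∑ x ∈ O, x =
      -(((O.card : ℕ) : ℚ)⁻¹ • ∑ x ∈ O, (x - f)) := by
    rw [Finset.sum_sub_distrib, Finset.sum_const, smul_sub, ← Nat.cast_smul_eq_nsmul ℚ, smul_smul,
      inv_mul_cancel₀ hc, one_smul]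
    abel
  rw [h2]
  refine N.neg_mem (N.smul_mem _ (N.sum_mem fun x hx => ?_))
  obtain ⟨a, rfl⟩ := (hO x).1 hx
  exact hf a

end Galois

section Congr

variable {C : Type u} [Category.{v} C] [MonoidalCategory C] [SymmetricCategory C]
  [Preadditive C]
  {D : Type u'} [Category.{v'} D] [MonoidalCategory D] [SymmetricCategory D]
  [Preadditive D] [MonoidalPreadditive D] [Linear ℚ D]
  {F : C ⥤ D} [F.Braided] [F.Additive]

/-- The subspace of the tensor-nilpotent morphisms. -/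
def nilSub (X Y : D) : Submodule ℚ (X ⟶ Y) where
  carrier := {f | TNil f}
  add_mem' := fun hf hg => TNil.add hf hg
  zero_mem' := tNil_zero X Y
  smul_mem' := fun c _ hf => TNil.smul hf c

omit [SymmetricCategory C] [Preadditive C] [MonoidalPreadditive D] [F.Additive]
  [SymmetricCategory D] [F.Braided] in
theorem Descent.tNil_act [F.Monoidal] (G : Descent F) (a : G.ι) {X Y : C}
    {f : F.obj X ⟶ F.obj Y} (hf : TNil f) : TNil (G.act a f) := by
  obtain ⟨n, hn⟩ := hf
  refine ⟨n, ?_⟩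
  have h1 := fpow_powIso F f n
  rw [hn, Limits.comp_zero] at h1
  have h2 : fpow F f n = 0 := by
    rw [← cancel_mono (powIso F Y n).hom, h1, Limits.zero_comp]
  have h3 := fpow_powIso F (G.act a f) n
  rw [← G.act_fpow, h2, map_zero, Limits.zero_comp] at h3
  rw [← cancel_epi (powIso F X n).hom, ← h3, Limits.comp_zero]

omit [MonoidalPreadditive D] in
theorem Descent.alt_act (G : Descent F) (a : G.ι) {M : C} {f : F.obj M ⟶ F.obj M} {r : ℕ}
    (h : altSum (F.obj M) r ≫ tmap f r = 0) : altSum (F.obj M) r ≫ tmap (G.act a f) r = 0 := by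
  have h1 : F.map (altSum M r) ≫ fpow F f r = 0 := by
    rw [← cancel_mono (powIso F M r).hom, Category.assoc, fpow_powIso, ← Category.assoc,
      powIso_altSum, Category.assoc, h, Limits.comp_zero, Limits.zero_comp]
  have h2 := congrArg (G.act a) h1
  rw [G.act_comp, G.act_map, G.act_fpow, map_zero] at h2
  rw [← cancel_epi (powIso F M r).hom, Limits.comp_zero, ← Category.assoc, ← powIso_altSum,
    Category.assoc, ← fpow_powIso, ← Category.assoc, h2, Limits.zero_comp]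

omit [MonoidalPreadditive D] in
theorem Descent.sym_act (G : Descent F) (a : G.ι) {M : C} {f : F.obj M ⟶ F.obj M} {r : ℕ}
    (h : symSum (F.obj M) r ≫ tmap f r = 0) : symSum (F.obj M) r ≫ tmap (G.act a f) r = 0 := by
  have h1 : F.map (symSum M r) ≫ fpow F f r = 0 := by
    rw [← cancel_mono (powIso F M r).hom, Category.assoc, fpow_powIso, ← Category.assoc,
      powIso_symSum, Category.assoc, h, Limits.comp_zero, Limits.zero_comp]
  have h2 := congrArg (G.act a) h1
  rw [G.act_comp, G.act_map, G.act_fpow, map_zero] at h2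
  rw [← cancel_epi (powIso F M r).hom, Limits.comp_zero, ← Category.assoc, ← powIso_symSum,
    Category.assoc, ← fpow_powIso, ← Category.assoc, h2, Limits.zero_comp]

/-- An idempotent `e` of `F M` that cuts out an even part, and whose complement is odd, is
congruent to a morphism of `C` modulo tensor-nilpotent morphisms. -/
theorem Descent.exists_congr (G : Descent F) {M : C} {e : F.obj M ⟶ F.obj M} {r s : ℕ}
    (hA : altSum (F.obj M) r ≫ tmap e r = 0)
    (hB : symSum (F.obj M) s ≫ tmap (𝟙 _ - e) s = 0) :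
    ∃ g : M ⟶ M, TNil (F.map g - e) := by
  obtain ⟨g, hg⟩ := G.reynolds (nilSub (F.obj M) (F.obj M)) (fun a f hf => G.tNil_act a hf) e
    (by
      intro a
      have h1 : G.act a (𝟙 _ - e) = 𝟙 _ - G.act a e := by
        rw [map_sub, ← F.map_id, G.act_map]
      have hA' := G.alt_act a hA
      have hB' := G.sym_act a hB
      rw [h1] at hB'
      -- `e (1 - e')` and `(1 - e) e'`
      have h2 : TNil (e ≫ (𝟙 _ - G.act a e)) := (tNil_comp hA hB').1
      have h3 : TNil ((𝟙 _ - e) ≫ G.act a e) := (tNil_comp hA' hB).2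
      have h4 : G.act a e - e = (𝟙 _ - e) ≫ G.act a e + -(e ≫ (𝟙 _ - G.act a e)) := by
        simp only [Preadditive.sub_comp, Preadditive.comp_sub, Category.id_comp,
          Category.comp_id]
        abel
      rw [h4]
      exact h3.add h2.neg)
  refine ⟨g, ?_⟩
  have h5 : F.map g - e = -(e - F.map g) := by abel
  rw [h5]
  exact TNil.neg hg

end Congr

end Pool.Agent.MP_6e5bed_ag
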