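import Pool.Agent.Lib.MP_6e5bed_ag.Cox

set_option autoImplicit false

/-!
# The action of the symmetric group on tensor powers; even, odd and Kimura-finite objects
-/

namespace Pool.Agent.MP_6e5bed_ag

open CategoryTheory MonoidalCategory Equiv

universe v u v' u'

theorem perm_induction {n : ℕ} {P : Perm (Fin n) → Prop} (one : P 1)
    (nbr : ∀ (i : ℕ) (h : i + 1 < n), P (swap ⟨i, (Nat.lt_succ_self i).trans h⟩ ⟨i + 1, h⟩))
    (mul : ∀ a b, P a → P b → P (a * b)) (σ : Perm (Fin n)) : P σ := by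
  cases n with
  | zero =>
    have h : σ = 1 := Subsingleton.elim _ _
    rw [h]
    exact one
  | succ n =>
    have hσ : σ ∈ Submonoid.closure (Set.range fun i : Fin n => swap i.castSucc i.succ) := by
      rw [Perm.mclosure_swap_castSucc_succ]
      exact Submonoid.mem_top σ
    induction hσ using Submonoid.closure_induction with
    | mem x hx =>
      obtain ⟨i, rfl⟩ := hx
      exact nbr i (Nat.succ_lt_succ i.2)
    | one => exact one
    | mul x y _ _ ihx ihy => exact mul x y ihx ihy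

section PermAct

variable {C : Type u} [Category.{v} C] [MonoidalCategory C]

theorem tmap_zero' {X Y : C} (f : X ⟶ Y) : tmap f 0 = 𝟙 (𝟙_ C) := rfl

theorem tmap_succ {X Y : C} (f : X ⟶ Y) (n : ℕ) : tmap f (n + 1) = f ⊗ₘ tmap f n := rfl

theorem tmap_id (X : C) (n : ℕ) : tmap (𝟙 X) n = 𝟙 (tpow X n) := by
  induction n with
  | zero => rfl
  | succ n ih =>
    rw [tmap_succ, ih]
    exact id_tensorHom_id _ _

theorem tmap_comp {X Y Z : C} (f : X ⟶ Y) (g : Y ⟶ Z) (n : ℕ) :
    tmap (f ≫ g) n = tmap f n ≫ tmap g n := by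
  induction n with
  | zero => exact (Category.comp_id _).symm
  | succ n ih =>
    rw [tmap_succ, tmap_succ, tmap_succ, ih]
    exact (tensorHom_comp_tensorHom _ _ _ _).symm

variable [SymmetricCategory C]

/-- The exchange of the first two factors. -/
def sw (X T : C) : X ⊗ (X ⊗ T) ⟶ X ⊗ (X ⊗ T) :=
  (α_ X X T).inv ≫ ((β_ X X).hom ▷ T) ≫ (α_ X X T).hom

theorem sw_sq (X T : C) : sw X T ≫ sw X T = 𝟙 _ := by
  unfold sw
  simp only [Category.assoc, Iso.hom_inv_id_assoc]
  rw [← comp_whiskerRight_assoc, SymmetricCategory.symmetry, id_whiskerRight,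
    Category.id_comp, Iso.inv_hom_id]

theorem sw_comm (X : C) {T S : C} (f : T ⟶ S) :
    sw X T ≫ X ◁ X ◁ f = X ◁ X ◁ f ≫ sw X S := by
  unfold sw
  simp only [Category.assoc, associator_inv_naturality_right_assoc,
    ← associator_naturality_right, whisker_exchange_assoc]

theorem sw_nat {X Y : C} (f : X ⟶ Y) {T S : C} (g : T ⟶ S) :
    (f ⊗ₘ (f ⊗ₘ g)) ≫ sw Y S = sw X T ≫ (f ⊗ₘ (f ⊗ₘ g)) := by
  unfold sw
  simp only [Category.assoc]
  rw [associator_inv_naturality_assoc, ← associator_naturality]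
  congr 1
  rw [← Category.assoc, ← Category.assoc, ← tensorHom_id, ← tensorHom_id,
    tensorHom_comp_tensorHom, tensorHom_comp_tensorHom, BraidedCategory.braiding_naturality,
    Category.comp_id, Category.id_comp]

theorem sw_braid (X T : C) :
    sw X (X ⊗ T) ≫ X ◁ sw X T ≫ sw X (X ⊗ T) =
      X ◁ sw X T ≫ sw X (X ⊗ T) ≫ X ◁ sw X T := by
  have h := congrArg (fun f => (α_ X X (X ⊗ T)).inv ≫ (α_ (X ⊗ X) X T).inv ≫
    ((α_ X X X).hom ≫ f) ▷ T ≫ (α_ X (X ⊗ X) T).hom ≫ X ◁ (α_ X X T).hom)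
    (BraidedCategory.yang_baxter X X X)
  have h1 : sw X (X ⊗ T) ≫ X ◁ sw X T ≫ sw X (X ⊗ T) = (α_ X X (X ⊗ T)).inv ≫
      (α_ (X ⊗ X) X T).inv ≫ ((α_ X X X).hom ≫ (α_ X X X).inv ≫ (β_ X X).hom ▷ X ≫
      (α_ X X X).hom ≫ X ◁ (β_ X X).hom ≫ (α_ X X X).inv ≫ (β_ X X).hom ▷ X ≫
      (α_ X X X).hom) ▷ T ≫ (α_ X (X ⊗ X) T).hom ≫ X ◁ (α_ X X T).hom := by
    unfold sw
    monoidal
  have h2 : X ◁ sw X T ≫ sw X (X ⊗ T) ≫ X ◁ sw X T = (α_ X X (X ⊗ T)).inv ≫
      (α_ (X ⊗ X) X T).inv ≫ ((α_ X X X).hom ≫ X ◁ (β_ X X).hom ≫ (α_ X X X).inv ≫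
      (β_ X X).hom ▷ X ≫ (α_ X X X).hom ≫ X ◁ (β_ X X).hom) ▷ T ≫
      (α_ X (X ⊗ X) T).hom ≫ X ◁ (α_ X X T).hom := by
    unfold sw
    monoidal
  rw [h1, h2]
  exact h

omit [SymmetricCategory C] in
theorem wl_sq {X T : C} {f : T ⟶ T} (h : f ≫ f = 𝟙 T) : X ◁ f ≫ X ◁ f = 𝟙 (X ⊗ T) := by
  rw [← MonoidalCategory.whiskerLeft_comp, h, MonoidalCategory.whiskerLeft_id]

omit [SymmetricCategory C] in
theorem wl_comm {X T : C} {f g : T ⟶ T} (h : f ≫ g = g ≫ f) :
    X ◁ f ≫ X ◁ g = X ◁ g ≫ X ◁ f := by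
  rw [← MonoidalCategory.whiskerLeft_comp, h, MonoidalCategory.whiskerLeft_comp]

omit [SymmetricCategory C] in
theorem wl_braid {X T : C} {f g : T ⟶ T} (h : f ≫ g ≫ f = g ≫ f ≫ g) :
    X ◁ f ≫ X ◁ g ≫ X ◁ f = X ◁ g ≫ X ◁ f ≫ X ◁ g := by
  rw [← MonoidalCategory.whiskerLeft_comp, ← MonoidalCategory.whiskerLeft_comp, h,
    MonoidalCategory.whiskerLeft_comp, MonoidalCategory.whiskerLeft_comp]

theorem adj_sq (X : C) (n i : ℕ) : adj X n i ≫ adj X n i = 𝟙 _ := by
  induction n generalizing i with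
  | zero => exact Category.comp_id _
  | succ n ih =>
    cases n with
    | zero => exact Category.comp_id _
    | succ n =>
      cases i with
      | zero => exact sw_sq X (tpow X n)
      | succ i => exact wl_sq (ih i)

theorem adj_comm (X : C) (n i j : ℕ) (h : i + 2 ≤ j) :
    adj X n i ≫ adj X n j = adj X n j ≫ adj X n i := by
  induction n generalizing i j with
  | zero => rfl
  | succ n ih =>
    cases n with
    | zero => rfl
    | succ n =>
      cases i with
      | zero =>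
        obtain ⟨k, rfl⟩ : ∃ k, j = k + 2 := ⟨j - 2, by omega⟩
        cases n with
        | zero =>
          have h1 : adj X 2 (k + 2) = 𝟙 _ := MonoidalCategory.whiskerLeft_id _ _
          rw [h1]
          exact (Category.comp_id _).trans (Category.id_comp _).symm
        | succ n => exact sw_comm X (adj X (n + 1) k)
      | succ i =>
        obtain ⟨k, rfl⟩ : ∃ k, j = k + 1 := ⟨j - 1, by omega⟩
        exact wl_comm (ih i k (by omega))

theorem adj_braid (X : C) (n i : ℕ) (h : i + 2 < n) :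
    adj X n i ≫ adj X n (i + 1) ≫ adj X n i =
      adj X n (i + 1) ≫ adj X n i ≫ adj X n (i + 1) := by
  induction n generalizing i with
  | zero => omega
  | succ n ih =>
    cases n with
    | zero => omega
    | succ n =>
      cases i with
      | zero =>
        obtain ⟨k, rfl⟩ : ∃ k, n = k + 1 := ⟨n - 1, by omega⟩
        exact sw_braid X (tpow X k)
      | succ i => exact wl_braid (ih i (by omega))

theorem adj_nat {X Y : C} (f : X ⟶ Y) (n i : ℕ) :
    tmap f n ≫ adj Y n i = adj X n i ≫ tmap f n := by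
  induction n generalizing i with
  | zero => exact (Category.comp_id _).trans (Category.id_comp _).symm
  | succ n ih =>
    cases n with
    | zero => exact (Category.comp_id _).trans (Category.id_comp _).symm
    | succ n =>
      cases i with
      | zero => exact sw_nat f (tmap f n)
      | succ i =>
        have h1 : (f ⊗ₘ tmap f (n + 1)) ≫ Y ◁ adj Y (n + 1) i =
            X ◁ adj X (n + 1) i ≫ (f ⊗ₘ tmap f (n + 1)) := by
          rw [← id_tensorHom, ← id_tensorHom, tensorHom_comp_tensorHom,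
            tensorHom_comp_tensorHom, ih i, Category.comp_id, Category.id_comp]
        exact h1

theorem exists_permHom (X : C) (n : ℕ) : ∃ φ : Perm (Fin n) →* End (tpow X n),
    ∀ (i : ℕ) (h : i + 1 < n),
      φ (swap ⟨i, (Nat.lt_succ_self i).trans h⟩ ⟨i + 1, h⟩) = adj X n i := by
  cases n with
  | zero => exact ⟨1, fun i h => absurd h (by omega)⟩
  | succ n =>
    obtain ⟨φ, hφ⟩ := exists_perm_hom (G := End (tpow X (n + 1))) n (fun i => adj X (n + 1) i)
      (fun i _ => adj_sq X (n + 1) i)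
      (fun i hi => by
        change adj X (n + 1) i ≫ adj X (n + 1) (i + 1) ≫ adj X (n + 1) i =
          adj X (n + 1) (i + 1) ≫ adj X (n + 1) i ≫ adj X (n + 1) (i + 1)
        exact adj_braid X (n + 1) i (by omega))
      (fun i j hij _ => (adj_comm X (n + 1) i j hij).symm)
    exact ⟨φ, fun i h => hφ ⟨i, by omega⟩⟩

/-- The action of the symmetric group on the tensor power: the homomorphism which maps the
transposition `(i, i + 1)` to the exchange of the factors number `i` and `i + 1`. -/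
noncomputable def perm (X : C) (n : ℕ) : Perm (Fin n) →* End (tpow X n) :=
  (exists_permHom X n).choose

theorem perm_adj (X : C) (n : ℕ) (i : ℕ) (h : i + 1 < n) :
    perm X n (swap ⟨i, (Nat.lt_succ_self i).trans h⟩ ⟨i + 1, h⟩) = adj X n i :=
  (exists_permHom X n).choose_spec i h

/-- `perm` is determined by the images of the neighbouring transpositions. -/
theorem perm_unique (X : C) (n : ℕ) (φ : Perm (Fin n) →* End (tpow X n))
    (hφ : ∀ (i : ℕ) (h : i + 1 < n),
      φ (swap ⟨i, (Nat.lt_succ_self i).trans h⟩ ⟨i + 1, h⟩) = adj X n i) : φ = perm X n := by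
  ext σ
  refine perm_induction (P := fun σ => φ σ = perm X n σ) ?_ ?_ ?_ σ
  · rw [map_one, map_one]
  · intro i h
    rw [hφ i h, perm_adj X n i h]
  · intro a b ha hb
    rw [map_mul, map_mul, ha, hb]

theorem perm_naturality {X Y : C} (f : X ⟶ Y) (n : ℕ) (σ : Perm (Fin n)) :
    tmap f n ≫ (perm Y n σ : tpow Y n ⟶ tpow Y n) =
      (perm X n σ : tpow X n ⟶ tpow X n) ≫ tmap f n := by
  refine perm_induction (P := fun σ => tmap f n ≫ (perm Y n σ : tpow Y n ⟶ tpow Y n) =
      (perm X n σ : tpow X n ⟶ tpow X n) ≫ tmap f n) ?_ ?_ ?_ σ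
  · rw [map_one, map_one]
    exact (Category.comp_id _).trans (Category.id_comp _).symm
  · intro i h
    rw [perm_adj X n i h, perm_adj Y n i h]
    exact adj_nat f n i
  · intro a b ha hb
    rw [map_mul, map_mul, End.mul_def, End.mul_def, ← Category.assoc, hb, Category.assoc, ha,
      Category.assoc]

/-- Permutations of the last `n` factors of `n + 1`. -/
theorem perm_sh (X : C) (n : ℕ) (σ : Perm (Fin n)) :
    perm X (n + 1) (sh σ) =
      (X ◁ (perm X n σ : tpow X n ⟶ tpow X n) : tpow X (n + 1) ⟶ tpow X (n + 1)) := by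
  refine perm_induction (P := fun σ => perm X (n + 1) (sh σ) =
      (X ◁ (perm X n σ : tpow X n ⟶ tpow X n) : tpow X (n + 1) ⟶ tpow X (n + 1))) ?_ ?_ ?_ σ
  · rw [sh_one, map_one, map_one]
    exact (MonoidalCategory.whiskerLeft_id X (tpow X n)).symm
  · intro i h
    obtain ⟨k, rfl⟩ : ∃ k, n = k + 1 := ⟨n - 1, by omega⟩
    rw [sh_swap, perm_adj X (k + 1) i h]
    exact perm_adj X (k + 1 + 1) (i + 1) (by omega)
  · intro a b ha hb
    rw [sh_mul, map_mul, map_mul, ha, hb]
    exact (MonoidalCategory.whiskerLeft_comp X _ _).symm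

theorem perm_succ (X : C) (n : ℕ) (σ : Perm (Fin n)) :
    perm X (n + 1) (σ.viaEmbedding (Fin.succEmb n)) =
      (X ◁ (perm X n σ : tpow X n ⟶ tpow X n) : tpow X (n + 1) ⟶ tpow X (n + 1)) := by
  rw [← sh_eq, perm_sh]

end PermAct

section Kimura

variable {C : Type u} [Category.{v} C] [MonoidalCategory C] [SymmetricCategory C]
  [Preadditive C]

/-- `∑ σ, sign σ • σ` on the `n`-th tensor power. -/
noncomputable def altSum (X : C) (n : ℕ) : tpow X n ⟶ tpow X n :=
  ∑ σ : Perm (Fin n), (Perm.sign σ : ℤ) • (perm X n σ : tpow X n ⟶ tpow X n)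

/-- `∑ σ, σ` on the `n`-th tensor power. -/
noncomputable def symSum (X : C) (n : ℕ) : tpow X n ⟶ tpow X n :=
  ∑ σ : Perm (Fin n), (perm X n σ : tpow X n ⟶ tpow X n)

/-- The idempotent with image `Λ^n X`. -/
noncomputable def altIdem [Linear ℚ C] (X : C) (n : ℕ) : tpow X n ⟶ tpow X n :=
  ((n.factorial : ℚ)⁻¹) • altSum X n

/-- The idempotent with image `Sym^n X`. -/
noncomputable def symIdem [Linear ℚ C] (X : C) (n : ℕ) : tpow X n ⟶ tpow X n :=
  ((n.factorial : ℚ)⁻¹) • symSum X n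

variable [Linear ℚ C]

/-- `Λ^n X = 0` for some `n`. -/
def IsEven (X : C) : Prop := ∃ n, altIdem X n = 0

/-- `Sym^n X = 0` for some `n`. -/
def IsOdd (X : C) : Prop := ∃ n, symIdem X n = 0

/-- `M = P ⊕ Q` with `P` even and `Q` odd; the direct sum is given by the inclusions `i`, `j`
and the projections `p`, `q`. -/
def KimuraFinite (M : C) : Prop :=
  ∃ (P Q : C) (i : P ⟶ M) (p : M ⟶ P) (j : Q ⟶ M) (q : M ⟶ Q),
    i ≫ p = 𝟙 P ∧ j ≫ q = 𝟙 Q ∧ p ≫ i + q ≫ j = 𝟙 M ∧ IsEven P ∧ IsOdd Q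

theorem isEven_iff (X : C) : IsEven X ↔ ∃ n, altSum X n = 0 := by
  refine exists_congr fun n => ?_
  unfold altIdem
  rw [smul_eq_zero, inv_eq_zero, Nat.cast_eq_zero]
  exact ⟨fun h => h.resolve_left n.factorial_ne_zero, Or.inr⟩

theorem isOdd_iff (X : C) : IsOdd X ↔ ∃ n, symSum X n = 0 := by
  refine exists_congr fun n => ?_
  unfold symIdem
  rw [smul_eq_zero, inv_eq_zero, Nat.cast_eq_zero]
  exact ⟨fun h => h.resolve_left n.factorial_ne_zero, Or.inr⟩

omit [Linear ℚ C] in
theorem altSum_nat {X Y : C} (f : X ⟶ Y) (n : ℕ) :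
    tmap f n ≫ altSum Y n = altSum X n ≫ tmap f n := by
  unfold altSum
  rw [Preadditive.comp_sum, Preadditive.sum_comp]
  refine Finset.sum_congr rfl fun σ _ => ?_
  rw [Preadditive.comp_zsmul, Preadditive.zsmul_comp, perm_naturality]

omit [Linear ℚ C] in
theorem symSum_nat {X Y : C} (f : X ⟶ Y) (n : ℕ) :
    tmap f n ≫ symSum Y n = symSum X n ≫ tmap f n := by
  unfold symSum
  rw [Preadditive.comp_sum, Preadditive.sum_comp]
  refine Finset.sum_congr rfl fun σ _ => ?_
  rw [perm_naturality]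

end Kimura

end Pool.Agent.MP_6e5bed_ag
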