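import Pool.Agent.Lib.MP_6e5bed_ag.SPeel

set_option autoImplicit false

/-!
# Tensor powers of a Schur functor
-/

namespace Pool.Agent.MP_6e5bed_ag

open CategoryTheory MonoidalCategory Equiv

universe v u

/-- `n + ⋯ + n` -/
def nk (n : ℕ) : ℕ → ℕ
  | 0 => 0
  | k + 1 => nk n k + n

/-- the product of `z` over `k` blocks -/
noncomputable def wk {n : ℕ} (z : MonoidAlgebra ℚ (Perm (Fin n))) :
    (k : ℕ) → MonoidAlgebra ℚ (Perm (Fin (nk n k)))
  | 0 => 1
  | k + 1 => gemb (hdEmb (nk n k) n) z * gemb (stEmb (nk n k) n) (wk z k)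

theorem wk_succ {n : ℕ} (z : MonoidAlgebra ℚ (Perm (Fin n))) (k : ℕ) :
    wk z (k + 1) = gemb (hdEmb (nk n k) n) z * gemb (stEmb (nk n k) n) (wk z k) := rfl

theorem stEmb_val (r k : ℕ) (i : Fin r) : ((stEmb r k i : Fin (r + k)) : ℕ) = i + k := by
  induction k with
  | zero => rfl
  | succ k ih =>
    change (((stEmb r k i : Fin (r + k)).succ : Fin (r + k + 1)) : ℕ) = _
    rw [Fin.val_succ, ih]
    rfl

section Blk

variable {C : Type u} [Category.{v} C] [MonoidalCategory C]

/-- the embedding of the tensor power -/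
def ik {M B : C} {n : ℕ} (i : B ⟶ tpow M n) : (k : ℕ) → (tpow B k ⟶ tpow M (nk n k))
  | 0 => 𝟙 (𝟙_ C)
  | k + 1 => (i ⊗ₘ ik i k) ≫ (psi M n (tpow M (nk n k))).inv ≫ (th M (nk n k) n).hom

/-- the projection to the tensor power -/
def rk {M B : C} {n : ℕ} (r : tpow M n ⟶ B) : (k : ℕ) → (tpow M (nk n k) ⟶ tpow B k)
  | 0 => 𝟙 (𝟙_ C)
  | k + 1 => (th M (nk n k) n).inv ≫ (psi M n (tpow M (nk n k))).hom ≫ (r ⊗ₘ rk r k)

theorem ik_rk {M B : C} {n : ℕ} {i : B ⟶ tpow M n} {r : tpow M n ⟶ B} (h : i ≫ r = 𝟙 B)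
    (k : ℕ) : ik i k ≫ rk r k = 𝟙 (tpow B k) := by
  induction k with
  | zero => exact Category.comp_id _
  | succ k ih =>
    change ((i ⊗ₘ ik i k) ≫ (psi M n (tpow M (nk n k))).inv ≫ (th M (nk n k) n).hom) ≫
      (th M (nk n k) n).inv ≫ (psi M n (tpow M (nk n k))).hom ≫ (r ⊗ₘ rk r k) = 𝟙 (B ⊗ tpow B k)
    simp only [Category.assoc, Iso.hom_inv_id_assoc, Iso.inv_hom_id_assoc]
    rw [tensorHom_comp_tensorHom, h, ih, id_tensorHom_id]

end Blk

section Blk2

variable {C : Type u} [Category.{v} C] [MonoidalCategory C] [SymmetricCategory C]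
  [Preadditive C] [MonoidalPreadditive C] [Linear ℚ C]

theorem rk_ik {M B : C} {n : ℕ} {i : B ⟶ tpow M n} {r : tpow M n ⟶ B}
    {z : MonoidAlgebra ℚ (Perm (Fin n))} (h : r ≫ i = za M z) (k : ℕ) :
    rk r k ≫ ik i k = za M (wk z k) := by
  induction k with
  | zero =>
    change 𝟙 (𝟙_ C) ≫ 𝟙 (𝟙_ C) = za M (1 : MonoidAlgebra ℚ (Perm (Fin 0)))
    rw [za_one]
    exact Category.comp_id _
  | succ k ih =>
    have h0 : za M (wk z (k + 1)) = (tl M (rk r k ≫ ik i k) n ≫ hd M (nk n k) (za M z) :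
        tpow M (nk n k + n) ⟶ tpow M (nk n k + n)) := by
      rw [hd_za, ih, tl_za, ← za_mul]
      rfl
    refine Eq.trans ?_ h0.symm
    change ((th M (nk n k) n).inv ≫ (psi M n (tpow M (nk n k))).hom ≫ (r ⊗ₘ rk r k)) ≫
      (i ⊗ₘ ik i k) ≫ (psi M n (tpow M (nk n k))).inv ≫ (th M (nk n k) n).hom = _
    have h1 : tl M (rk r k ≫ ik i k) n = (th M (nk n k) n).inv ≫
        tpwMap M (rk r k ≫ ik i k) n ≫ (th M (nk n k) n).hom := by
      rw [tpwMap_th, Iso.inv_hom_id_assoc]
    rw [h1]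
    unfold hd la
    simp only [Category.assoc, Iso.hom_inv_id_assoc]
    rw [← Category.assoc (tpwMap M _ n), tpwMap_psi, Category.assoc]
    congr 2
    rw [← Category.assoc, ← Category.assoc, tensorHom_comp_tensorHom, h,
      MonoidalCategory.tensorHom_def']
    simp only [Category.assoc]

end Blk2

section NilConj

variable {C : Type u} [Category.{v} C] [Preadditive C]

theorem nil_conj {X Y : C} (p : X ⟶ Y) (i : Y ⟶ X) (h : i ≫ p = 𝟙 Y) {ν : End Y}
    (hν : IsNilpotent ν) {a : End X} (ha : a = (p ≫ ν ≫ i : X ⟶ X)) : IsNilpotent a := by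
  obtain ⟨m, hm⟩ := hν
  have key : ∀ j : ℕ, a ^ (j + 1) = (p ≫ (ν ^ (j + 1) : End Y) ≫ i : X ⟶ X) := by
    intro j
    induction j with
    | zero => rw [zero_add, pow_one, pow_one, ha]
    | succ j ih =>
      rw [pow_succ, ih, pow_succ ν (j + 1), End.mul_def, End.mul_def, ha]
      simp only [Category.assoc]
      rw [← Category.assoc i p, h, Category.id_comp]
  refine ⟨m + 1, ?_⟩
  rw [key, pow_succ, hm, zero_mul, Limits.zero_comp, Limits.comp_zero]

end NilConj

section Base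

variable {C : Type u} [Category.{v} C] [MonoidalCategory C] [SymmetricCategory C]
  [Preadditive C] [MonoidalPreadditive C] [Linear ℚ C] [LeftRigidCategory C] [RatUnit C]

theorem good_base {M B : C} {u : M ⟶ M} (hu : u ≫ u = 𝟙 M) {n : ℕ} {i : B ⟶ tpow M n}
    {r : tpow M n ⟶ B} {z : MonoidAlgebra ℚ (Perm (Fin n))} (hir : i ≫ r = 𝟙 B)
    (hri : r ≫ i = za M z) (k : ℕ)
    (hnil : ∀ ν : End (tpow B k), NumZ (X := tpow B k) (Y := tpow B k) ν → IsNilpotent ν) :
    Good u (nk n k) (wk z k) := by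
  intro f hf hN
  obtain ⟨x, hx⟩ := exists_hypRep hu hf
  obtain ⟨w, hw⟩ := exists_hypRep hu (AN_za u (wk z k))
  have h1 := rk_ik hri k
  have h2 := ik_rk hir k
  have hidem : za M (wk z k) ≫ za M (wk z k) = za M (wk z k) := by
    rw [← h1, Category.assoc, ← Category.assoc (ik i k), h2, Category.id_comp]
  have h3 : hypRep M hu (nk n k) x * hypRep M hu (nk n k) w = 0 := by
    refine kill_of_nil (hypRep M hu (nk n k)) w x ?_ ?_
    · rw [hw]
      exact hidem
    · obtain ⟨T, hT⟩ : ∃ T : tpow M (nk n k) ⟶ tpow M (nk n k),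
          T = hypRep M hu (nk n k) (gst w) * hypRep M hu (nk n k) (gst x) *
            hypRep M hu (nk n k) x := ⟨_, rfl⟩
      have hTN : NumZ T := by
        rw [hT, hx, mul_assoc]
        exact (numIdeal C).comp_right _ ((numIdeal C).comp_right _ hN)
      have hν := hnil (ik i k ≫ T ≫ rk r k)
        ((numIdeal C).comp_left _ ((numIdeal C).comp_right _ hTN))
      refine nil_conj (rk r k) (ik i k) h2 hν ?_
      rw [← hT, hw, End.mul_def, End.mul_def]
      simp only [Category.assoc]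
      rw [← Category.assoc (rk r k), h1]
  rw [hx, hw] at h3
  exact h3

theorem gemb_one {a b : ℕ} (j : Fin a ↪ Fin b) : gemb j 1 = 1 := map_one _

theorem good_all {M B : C} {u : M ⟶ M} (hu : u ≫ u = 𝟙 M) {n : ℕ} (hn : 0 < n)
    {i : B ⟶ tpow M n} {r : tpow M n ⟶ B} {z : MonoidAlgebra ℚ (Perm (Fin n))}
    (hir : i ≫ r = 𝟙 B) (hri : r ≫ i = za M z) {g : tpow M n ⟶ tpow M n}
    (hg : trp M n (za M z ≫ g) ≠ 0)
    (hnil : ∀ (k : ℕ) (ν : End (tpow B k)), NumZ (X := tpow B k) (Y := tpow B k) ν →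
      IsNilpotent ν) (l : ℕ) :
    ∀ (k N : ℕ) (_ : N = nk n k + l) (j : Fin (nk n k) ↪ Fin N), Good u N (gemb j (wk z k)) := by
  induction l with
  | zero =>
    intro k N hN j
    subst hN
    have h1 : gemb (Function.Embedding.refl (Fin (nk n k))) (wk z k) = wk z k := by
      have h2 : ∀ x : MonoidAlgebra ℚ (Perm (Fin (nk n k))),
          gemb (Function.Embedding.refl (Fin (nk n k))) x = x := by
        intro x
        induction x using MonoidAlgebra.induction_on with
        | of σ =>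
          change gemb _ (MonoidAlgebra.single σ 1) = MonoidAlgebra.single σ 1
          rw [gemb_single, viaEmbedding_refl]
        | add x y hx hy => rw [map_add, hx, hy]
        | smul c x hx => rw [map_smul, hx]
      exact h2 _
    have h3 := good_base hu hir hri k (hnil k)
    rw [← h1] at h3
    exact h3.of_emb hu j
  | succ l ih =>
    intro k N hN j
    subst hN
    have hle : nk n k ≤ nk n k + l := Nat.le_add_right _ _
    have h1 : Good u (nk n k + l + n) (gemb (hdEmb (nk n k + l) n) z *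
        gemb (stEmb (nk n k + l) n) (gemb (Fin.castLEEmb hle) (wk z k))) := by
      have hle' : nk n k + n ≤ nk n k + l + n := by omega
      have h2 := ih (k + 1) (nk n k + l + n) (by change _ = nk n k + n + l; omega)
        (Fin.castLEEmb hle')
      have h3 : gemb (Fin.castLEEmb hle') (gemb (hdEmb (nk n k) n) z *
          gemb (stEmb (nk n k) n) (wk z k)) = gemb (hdEmb (nk n k + l) n) z *
        gemb (stEmb (nk n k + l) n) (gemb (Fin.castLEEmb hle) (wk z k)) := by
        rw [map_mul, ← gemb_trans, ← gemb_trans, ← gemb_trans]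
        have h4 : (hdEmb (nk n k) n).trans (Fin.castLEEmb hle') = hdEmb (nk n k + l) n := by
          ext a
          rfl
        have h5 : (stEmb (nk n k) n).trans (Fin.castLEEmb hle') =
            (Fin.castLEEmb hle).trans (stEmb (nk n k + l) n) := by
          ext a
          change ((stEmb (nk n k) n a : Fin (nk n k + n)) : ℕ) =
            ((stEmb (nk n k + l) n (Fin.castLE hle a) : Fin (nk n k + l + n)) : ℕ)
          rw [stEmb_val, stEmb_val]
          rfl
        rw [h4, h5]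
      rw [← h3]
      exact h2
    have h6 := h1.peel hu hn hg
    rw [← gemb_trans] at h6
    exact h6.of_emb hu j

/-- Numerically trivial elements of the algebra vanish. -/
theorem eq_zero_of_AN {M B : C} {u : M ⟶ M} (hu : u ≫ u = 𝟙 M) {n : ℕ} (hn : 0 < n)
    {i : B ⟶ tpow M n} {r : tpow M n ⟶ B} {z : MonoidAlgebra ℚ (Perm (Fin n))}
    (hir : i ≫ r = 𝟙 B) (hri : r ≫ i = za M z) {g : tpow M n ⟶ tpow M n}
    (hg : trp M n (za M z ≫ g) ≠ 0)
    (hnil : ∀ (k : ℕ) (ν : End (tpow B k)), NumZ (X := tpow B k) (Y := tpow B k) ν →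
      IsNilpotent ν) {l : ℕ} {f : tpow M l ⟶ tpow M l} (hf : f ∈ AN u l) (hN : NumZ f) :
    f = 0 := by
  obtain ⟨j⟩ : Nonempty (Fin (nk n 0) ↪ Fin l) := ⟨Fin.castLEEmb (Nat.zero_le l)⟩
  have h2 := good_all hu hn hir hri hg hnil l 0 l (Nat.zero_add l).symm j f hf hN
  have h3 : gemb j (wk z 0) = 1 := map_one _
  rwa [h3, za_one, Category.id_comp] at h2

end Base

end Pool.Agent.MP_6e5bed_ag
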