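import Pool.Agent.Lib.MP_6e5bed_ag.T10

set_option autoImplicit false

/-!
# Schur functors: definitions
-/

namespace Pool.Agent.MP_6e5bed_ag

open CategoryTheory MonoidalCategory Equiv

universe v u

section SDefs

variable {C : Type u} [Category.{v} C] [MonoidalCategory C] [SymmetricCategory C] [Preadditive C]

/-- Kimura-finiteness in terms of idempotents: no splitting of `e` is asked for. -/
def OpKF (X : C) : Prop := ∃ e : X ⟶ X, e ≫ e = e ∧ (∃ r, altSum X r ≫ tmap e r = 0) ∧
  ∃ s, symSum X s ≫ tmap (𝟙 X - e) s = 0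

variable [Linear ℚ C]

/-- The action of the group algebra of `S_n` on the tensor power. -/
noncomputable def act (X : C) (n : ℕ) : MonoidAlgebra ℚ (Perm (Fin n)) →ₐ[ℚ] End (tpow X n) :=
  MonoidAlgebra.lift ℚ (End (tpow X n)) (Perm (Fin n)) (perm X n)

/-- `f` is numerically trivial. -/
def NumZ [RatUnit C] {X Y : C} [HasLeftDual X] (f : X ⟶ Y) : Prop :=
  ∀ g : Y ⟶ X, tr X (f ≫ g) = 0

/-- The only numerically trivial morphisms are the zero morphisms. -/
class NumFree (C : Type u) [Category.{v} C] [MonoidalCategory C] [SymmetricCategory C]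
    [Preadditive C] [Linear ℚ C] [RatUnit C] : Prop where
  eq_zero : ∀ {X Y : C} [HasLeftDual X] (f : X ⟶ Y), NumZ f → f = 0

end SDefs

end Pool.Agent.MP_6e5bed_ag
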