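import Pool.Agent.Lib.MP_6e5bed_ag.SOp

set_option autoImplicit false

/-!
# The dual of a Kimura-finite object
-/

namespace Pool.Agent.MP_6e5bed_ag

open CategoryTheory MonoidalCategory Equiv

universe v u

section Pev

variable {C : Type u} [Category.{v} C] [MonoidalCategory C] [SymmetricCategory C]

/-- The pairing of the tensor powers. -/
def pev {X X' : C} (p : X ⊗ X' ⟶ 𝟙_ C) : (n : ℕ) → (tpow X n ⊗ tpow X' n ⟶ 𝟙_ C)
  | 0 => (λ_ (𝟙_ C)).hom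
  | n + 1 => tensorμ X (tpow X n) X' (tpow X' n) ≫ (p ⊗ₘ pev p n) ≫ (λ_ (𝟙_ C)).hom

variable (C) in
/-- `𝟙 ⊗ (𝟙 ⊗ ⋯) ≅ 𝟙` -/
def coll : (n : ℕ) → (tpow (𝟙_ C) n ⟶ 𝟙_ C)
  | 0 => 𝟙 (𝟙_ C)
  | n + 1 => ((𝟙_ C) ◁ coll n) ≫ (λ_ (𝟙_ C)).hom

theorem sw_unit' (T : C) : sw (𝟙_ C) T = 𝟙 _ := by
  unfold sw
  have h : (β_ (𝟙_ C) (𝟙_ C)).hom = 𝟙 _ := by
    rw [braiding_tensorUnit_left, unitors_equal, Iso.hom_inv_id]
  rw [h, id_whiskerRight, Category.id_comp, Iso.inv_hom_id]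

theorem adj_unit (n i : ℕ) : adj (𝟙_ C) n i = 𝟙 _ := by
  induction n generalizing i with
  | zero => rfl
  | succ n ih =>
    cases n with
    | zero => rfl
    | succ n =>
      cases i with
      | zero => exact sw_unit' _
      | succ i =>
        change (𝟙_ C) ◁ adj (𝟙_ C) (n + 1) i = _
        rw [ih]
        exact MonoidalCategory.whiskerLeft_id _ _

theorem perm_unit (n : ℕ) (σ : Perm (Fin n)) :
    (perm (𝟙_ C) n σ : tpow (𝟙_ C) n ⟶ tpow (𝟙_ C) n) = 𝟙 _ := by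
  rw [← perm_unique (𝟙_ C) n 1 (fun i h => (adj_unit n i).symm)]
  rfl

theorem tensorδ_eq' (X₁ X₂ Y₁ Y₂ : C) : tensorδ X₁ X₂ Y₁ Y₂ = tensorμ X₁ Y₁ X₂ Y₂ := by
  unfold tensorδ tensorμ
  rw [← SymmetricCategory.braiding_swap_eq_inv_braiding]

theorem shuf_pev {X X' : C} (p : X ⊗ X' ⟶ 𝟙_ C) (n : ℕ) :
    shuf X X' n ≫ pev p n = tmap p n ≫ coll C n := by
  induction n with
  | zero =>
    change (λ_ (𝟙_ C)).inv ≫ (λ_ (𝟙_ C)).hom = 𝟙 (𝟙_ C) ≫ 𝟙 (𝟙_ C)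
    rw [Iso.inv_hom_id, Category.comp_id]
  | succ n ih =>
    change (((X ⊗ X') ◁ shuf X X' n) ≫ tensorμ X X' (tpow X n) (tpow X' n)) ≫
      tensorμ X (tpow X n) X' (tpow X' n) ≫ (p ⊗ₘ pev p n) ≫ (λ_ (𝟙_ C)).hom =
      (p ⊗ₘ tmap p n) ≫ ((𝟙_ C) ◁ coll C n) ≫ (λ_ (𝟙_ C)).hom
    rw [Category.assoc, ← tensorδ_eq' X X' (tpow X n) (tpow X' n), tensorμ_tensorδ_assoc,
      ← id_tensorHom, tensorHom_comp_tensorHom_assoc, ih, ← id_tensorHom,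
      tensorHom_comp_tensorHom_assoc, Category.id_comp, Category.comp_id]

theorem pev_perm {X X' : C} (p : X ⊗ X' ⟶ 𝟙_ C) (n : ℕ) (σ : Perm (Fin n)) :
    ((perm X n σ : tpow X n ⟶ tpow X n) ⊗ₘ (perm X' n σ : tpow X' n ⟶ tpow X' n)) ≫ pev p n =
      pev p n := by
  have := isIso_shuf X X' n
  rw [← cancel_epi (shuf X X' n), ← Category.assoc, ← shuf_perm, Category.assoc, shuf_pev,
    ← Category.assoc, ← perm_naturality, perm_unit, Category.comp_id]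

theorem pev_tmap {X X' : C} (p : X ⊗ X' ⟶ 𝟙_ C) (f : X ⟶ X) (g : X' ⟶ X') (n : ℕ) :
    (tmap f n ⊗ₘ tmap g n) ≫ pev p n = pev ((f ⊗ₘ g) ≫ p) n := by
  have := isIso_shuf X X' n
  rw [← cancel_epi (shuf X X' n), ← Category.assoc, ← shuf_tmap, Category.assoc, shuf_pev,
    shuf_pev, tmap_comp, Category.assoc]

theorem pair_eq {A A' B B' : C} (p : A ⊗ A' ⟶ 𝟙_ C) (q : B ⊗ B' ⟶ 𝟙_ C) :
    tensorμ A B A' B' ≫ (p ⊗ₘ q) ≫ (λ_ (𝟙_ C)).hom =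
      ((A ⊗ B) ◁ (β_ A' B').hom) ≫ (α_ A B (B' ⊗ A')).hom ≫
        (A ◁ ((α_ B B' A').inv ≫ (q ▷ A') ≫ (λ_ A').hom)) ≫ p := by
  have h1 : q ▷ A' ≫ (λ_ A').hom = (β_ (B ⊗ B') A').hom ≫ A' ◁ q ≫ (ρ_ A').hom := by
    rw [← BraidedCategory.braiding_naturality_left_assoc, braiding_rightUnitor]
  have h2 : B ◁ (β_ A' B').hom ≫ (α_ B B' A').inv ≫ (q ▷ A') ≫ (λ_ A').hom =
      (α_ B A' B').inv ≫ ((β_ B A').hom ▷ B') ≫ (α_ A' B B').hom ≫ A' ◁ q ≫ (ρ_ A').hom := by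
    rw [h1, BraidedCategory.braiding_tensor_left_hom]
    simp only [Category.assoc, Iso.inv_hom_id_assoc]
    rw [← MonoidalCategory.whiskerLeft_comp_assoc, SymmetricCategory.symmetry,
      MonoidalCategory.whiskerLeft_id, Category.id_comp]
  have h3 : ((A ⊗ B) ◁ (β_ A' B').hom) ≫ (α_ A B (B' ⊗ A')).hom ≫
        (A ◁ ((α_ B B' A').inv ≫ (q ▷ A') ≫ (λ_ A').hom)) ≫ p =
      (α_ A B (A' ⊗ B')).hom ≫ (A ◁ (B ◁ (β_ A' B').hom ≫ (α_ B B' A').inv ≫ (q ▷ A') ≫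
        (λ_ A').hom)) ≫ p := by
    rw [associator_naturality_right_assoc]
    simp only [MonoidalCategory.whiskerLeft_comp, Category.assoc]
  rw [h3, h2]
  unfold tensorμ
  rw [MonoidalCategory.tensorHom_def']
  simp only [Category.assoc, MonoidalCategory.whiskerLeft_comp]
  have h4 : (α_ A A' (B ⊗ B')).inv ≫ (A ⊗ A') ◁ q ≫ p ▷ 𝟙_ C ≫ (λ_ (𝟙_ C)).hom =
      A ◁ A' ◁ q ≫ A ◁ (ρ_ A').hom ≫ p := by
    rw [← associator_inv_naturality_right_assoc, unitors_equal, rightUnitor_naturality]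
    congr 1
    rw [rightUnitor_tensor_hom, Category.assoc, Iso.inv_hom_id_assoc]
  rw [h4]

theorem tensor_eval {X₁ X₂ Y₁ Y₂ : C} [ExactPairing X₁ Y₁] [ExactPairing X₂ Y₂] :
    ε_ (X₁ ⊗ X₂) (Y₂ ⊗ Y₁) = (α_ Y₂ Y₁ (X₁ ⊗ X₂)).hom ≫
      (Y₂ ◁ ((α_ Y₁ X₁ X₂).inv ≫ (ε_ X₁ Y₁ ▷ X₂) ≫ (λ_ X₂).hom)) ≫ ε_ X₂ Y₂ := by
  change 𝟙 _ ⊗≫ Y₂ ◁ (ε_ X₁ Y₁ ▷ X₂) ⊗≫ ε_ X₂ Y₂ = _
  monoidal

/-- The tensor powers are dual to each other, with pairing `pev`. -/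
theorem exists_pairing {X X' : C} [h : ExactPairing X' X] (n : ℕ) :
    ∃ E : ExactPairing (tpow X' n) (tpow X n), E.evaluation' = pev (ε_ X' X) n := by
  induction n with
  | zero =>
    refine ⟨exactPairingUnit, ?_⟩
    exact unitors_equal.symm
  | succ n ih =>
    obtain ⟨E, hE⟩ := ih
    refine ⟨@exactPairingCongrLeft C _ _ (X' ⊗ tpow X' n) (tpow X' n ⊗ X') (X ⊗ tpow X n)
      (@ExactPairing.tensor C _ _ (tpow X' n) X' (tpow X n) X E h) (β_ X' (tpow X' n)), ?_⟩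
    change (X ⊗ tpow X n) ◁ (β_ X' (tpow X' n)).hom ≫ ε_ (tpow X' n ⊗ X') (X ⊗ tpow X n) = _
    rw [tensor_eval]
    have h1 : ε_ (tpow X' n) (tpow X n) = pev (ε_ X' X) n := hE
    rw [h1]
    exact (pair_eq (ε_ X' X) (pev (ε_ X' X) n)).symm

theorem eq_zero_of_pairing [Preadditive C] [MonoidalPreadditive C] {A A' S : C}
    (E : ExactPairing A' A) {f : S ⟶ A'} (h : A ◁ f ≫ E.evaluation' = 0) : f = 0 := by
  have h1 : (tensorLeftHomEquiv S A' A (𝟙_ C)).symm (f ≫ (ρ_ A').inv) = 0 := by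
    change A ◁ (f ≫ (ρ_ A').inv) ≫ (α_ _ _ _).inv ≫ E.evaluation' ▷ _ ≫ (λ_ _).hom = 0
    have h2 : A ◁ (f ≫ (ρ_ A').inv) ≫ (α_ _ _ _).inv ≫ E.evaluation' ▷ _ ≫ (λ_ (𝟙_ C)).hom =
        (A ◁ f ≫ E.evaluation') ≫ (ρ_ (𝟙_ C)).inv ≫ (λ_ (𝟙_ C)).hom := by
      rw [MonoidalCategory.whiskerLeft_comp, Category.assoc, Category.assoc]
      congr 1
      monoidal
    rw [h2, h, Limits.zero_comp]
  have h3 : f ≫ (ρ_ A').inv = tensorLeftHomEquiv S A' A (𝟙_ C) 0 := by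
    rw [← h1, Equiv.apply_symm_apply]
  have h4 : tensorLeftHomEquiv S A' A (𝟙_ C) 0 = 0 := by
    change (λ_ _).inv ≫ η_ _ _ ▷ _ ≫ (α_ _ _ _).hom ≫ _ ◁ (0 : A ⊗ S ⟶ 𝟙_ C) = 0
    rw [MonoidalPreadditive.whiskerLeft_zero, Limits.comp_zero, Limits.comp_zero,
      Limits.comp_zero]
  rw [h4] at h3
  rw [← cancel_mono (ρ_ A').inv, h3, Limits.zero_comp]

end Pev

section DualKF

variable {C : Type u} [Category.{v} C] [MonoidalCategory C] [SymmetricCategory C]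
  [Preadditive C] [MonoidalPreadditive C] [Linear ℚ C]

/-- A killed endomorphism of an object gives a killed endomorphism of the dual. -/
theorem gSum_kill_dual (χ : ℤˣ →* ℤ) {X X' : C} [ExactPairing X' X] {e : X ⟶ X} {e' : X' ⟶ X'}
    (hm : (e ⊗ₘ 𝟙 X') ≫ ε_ X' X = (𝟙 X ⊗ₘ e') ≫ ε_ X' X) {n : ℕ}
    (h : gSum χ X n ≫ tmap e n = 0) : gSum χ X' n ≫ tmap e' n = 0 := by
  obtain ⟨E, hE⟩ := exists_pairing (X := X) (X' := X') n
  apply eq_zero_of_pairing E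
  rw [hE, MonoidalCategory.whiskerLeft_comp, Category.assoc]
  have h1 : tpow X n ◁ tmap e' n ≫ pev (ε_ X' X) n = tmap e n ▷ tpow X' n ≫ pev (ε_ X' X) n := by
    have h2 := pev_tmap (ε_ X' X) (𝟙 X) e' n
    have h3 := pev_tmap (ε_ X' X) e (𝟙 X') n
    rw [tmap_id, id_tensorHom] at h2
    rw [tmap_id, tensorHom_id] at h3
    rw [h2, h3, hm]
  rw [h1]
  have h4 : ∀ σ : Perm (Fin n), tpow X n ◁ ps X' σ ≫ pev (ε_ X' X) n =
      ps X σ⁻¹ ▷ tpow X' n ≫ pev (ε_ X' X) n := by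
    intro σ
    have h5 := pev_perm (ε_ X' X) n σ
    have h6 : ps X σ⁻¹ ▷ tpow X' n ≫ ((perm X n σ : tpow X n ⟶ tpow X n) ⊗ₘ
        (perm X' n σ : tpow X' n ⟶ tpow X' n)) = tpow X n ◁ ps X' σ := by
      change ps X σ⁻¹ ▷ tpow X' n ≫ (ps X σ ⊗ₘ ps X' σ) = _
      rw [← tensorHom_id, tensorHom_comp_tensorHom, ps_comp, mul_inv_cancel, ps_one,
        Category.id_comp, id_tensorHom]
    rw [← h6, Category.assoc, h5]
  have h7 : tpow X n ◁ gSum χ X' n ≫ (tmap e n ▷ tpow X' n ≫ pev (ε_ X' X) n) =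
      (tmap e n ≫ gSum χ X n) ▷ tpow X' n ≫ pev (ε_ X' X) n := by
    rw [whisker_exchange_assoc, comp_whiskerRight, Category.assoc]
    congr 1
    unfold gSum
    rw [← MonoidalCategory.tensorHom_id, ← MonoidalCategory.id_tensorHom, tensor_sum, sum_tensor,
      Preadditive.sum_comp, Preadditive.sum_comp,
      ← Equiv.sum_comp (Equiv.inv (Perm (Fin n)))]
    refine Finset.sum_congr rfl fun σ _ => ?_
    rw [Equiv.inv_apply, Perm.sign_inv, MonoidalCategory.tensorHom_id,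
      MonoidalCategory.id_tensorHom, whiskerLeft_zsmul, Preadditive.zsmul_comp, h4 σ⁻¹, inv_inv]
    have h9 : (χ (Perm.sign σ) • ps X σ) ▷ tpow X' n = χ (Perm.sign σ) • (ps X σ ▷ tpow X' n) :=
      (tensorRight _).map_zsmul
    rw [h9, Preadditive.zsmul_comp]
  rw [h7]
  have h8 : tmap e n ≫ gSum χ X n = gSum χ X n ≫ tmap e n := by
    unfold gSum
    rw [Preadditive.comp_sum, Preadditive.sum_comp]
    refine Finset.sum_congr rfl fun σ _ => ?_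
    rw [Preadditive.comp_zsmul, Preadditive.zsmul_comp]
    congr 1
    exact perm_naturality e n σ
  rw [h8, h, MonoidalPreadditive.zero_whiskerRight, Limits.zero_comp]

theorem OpKF.dual {X X' : C} [ExactPairing X' X] (h : OpKF X) : OpKF X' := by
  obtain ⟨e, he, ⟨r, hr⟩, s, hs⟩ := h
  let _ : HasLeftDual X := ⟨X'⟩
  have hm : ∀ f : X ⟶ X, (f ⊗ₘ 𝟙 X') ≫ ε_ X' X = (𝟙 X ⊗ₘ leftAdjointMate f) ≫ ε_ X' X := by
    intro f
    rw [tensorHom_id, id_tensorHom]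
    exact (leftAdjointMate_comp_evaluation f).symm
  have hsub : leftAdjointMate (𝟙 X - e) = 𝟙 X' - leftAdjointMate e := by
    have h1 : ∀ f g : X ⟶ X, leftAdjointMate (f + g) = leftAdjointMate f + leftAdjointMate g := by
      intro f g
      unfold leftAdjointMate
      rw [MonoidalPreadditive.whiskerLeft_add, MonoidalPreadditive.add_whiskerRight,
        Preadditive.add_comp, Preadditive.comp_add, Preadditive.comp_add]
    have h2 := h1 (𝟙 X - e) e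
    rw [sub_add_cancel, leftAdjointMate_id] at h2
    exact eq_sub_of_add_eq h2.symm
  refine ⟨leftAdjointMate e, ?_, ⟨r, ?_⟩, s, ?_⟩
  · rw [← comp_leftAdjointMate, he]
  · exact gSum_kill_dual (Units.coeHom ℤ) (hm e) hr
  · rw [← gSum_one] at hs ⊢
    rw [← hsub]
    exact gSum_kill_dual 1 (hm _) hs

end DualKF

end Pool.Agent.MP_6e5bed_ag
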