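import Pool.Agent.Lib.MP_6e5bed_ag.SFinal

set_option autoImplicit false

/-!
# A direct summand of an object with a dual has a dual
-/

namespace Pool.Agent.MP_6e5bed_ag

open CategoryTheory MonoidalCategory Equiv

universe v u

section DR

variable {C : Type u} [Category.{v} C] [MonoidalCategory C]

theorem dr_one {T T' B B' : C} (eta : 𝟙_ C ⟶ T' ⊗ T) (eps : T ⊗ T' ⟶ 𝟙_ C)
    (hz : T ◁ eta ≫ (α_ T T' T).inv ≫ eps ▷ T = (ρ_ T).hom ≫ (λ_ T).inv)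
    (i : B ⟶ T) (r : T ⟶ B) (hir : i ≫ r = 𝟙 B) (j : B' ⟶ T') (p : T' ⟶ B')
    (hm : T ◁ (p ≫ j) ≫ eps = (r ≫ i) ▷ T' ≫ eps) :
    B ◁ (eta ≫ (p ⊗ₘ r)) ≫ (α_ B B' B).inv ≫ ((i ⊗ₘ j) ≫ eps) ▷ B =
      (ρ_ B).hom ≫ (λ_ B).inv := by
  have h1 : B ◁ (p ⊗ₘ r) ≫ (α_ B B' B).inv ≫ (i ⊗ₘ j) ▷ B =
      (i ⊗ₘ (𝟙 T' ⊗ₘ r)) ≫ (α_ T T' B).inv ≫ (T ◁ (p ≫ j)) ▷ B := by
    rw [← id_tensorHom, ← tensorHom_id, ← tensorHom_id, ← id_tensorHom,
      associator_inv_naturality_assoc, associator_inv_naturality_assoc,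
      tensorHom_comp_tensorHom, tensorHom_comp_tensorHom, tensorHom_comp_tensorHom,
      tensorHom_comp_tensorHom]
    simp only [Category.id_comp, Category.comp_id]
  have h2 : (i ⊗ₘ (𝟙 T' ⊗ₘ r)) ≫ (α_ T T' B).inv ≫ ((r ≫ i) ▷ T') ▷ B =
      (i ⊗ₘ (𝟙 T' ⊗ₘ r)) ≫ (α_ T T' B).inv := by
    rw [associator_inv_naturality, associator_inv_naturality_assoc, ← tensorHom_id,
      ← tensorHom_id, tensorHom_comp_tensorHom, tensorHom_comp_tensorHom, ← Category.assoc i r i,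
      hir]
    simp only [Category.id_comp, Category.comp_id]
  have h3 : (i ⊗ₘ (𝟙 T' ⊗ₘ r)) ≫ (α_ T T' B).inv ≫ eps ▷ B =
      i ▷ (T' ⊗ T) ≫ (α_ T T' T).inv ≫ eps ▷ T ≫ (𝟙_ C) ◁ r := by
    rw [MonoidalCategory.tensorHom_def, id_tensorHom, Category.assoc,
      associator_inv_naturality_right_assoc, whisker_exchange]
  calc B ◁ (eta ≫ (p ⊗ₘ r)) ≫ (α_ B B' B).inv ≫ ((i ⊗ₘ j) ≫ eps) ▷ B
      = B ◁ eta ≫ (B ◁ (p ⊗ₘ r) ≫ (α_ B B' B).inv ≫ (i ⊗ₘ j) ▷ B) ≫ eps ▷ B := by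
        simp only [MonoidalCategory.whiskerLeft_comp, comp_whiskerRight, Category.assoc]
    _ = B ◁ eta ≫ (i ⊗ₘ (𝟙 T' ⊗ₘ r)) ≫ (α_ T T' B).inv ≫ (T ◁ (p ≫ j) ≫ eps) ▷ B := by
        rw [h1]
        simp only [comp_whiskerRight, Category.assoc]
    _ = B ◁ eta ≫ ((i ⊗ₘ (𝟙 T' ⊗ₘ r)) ≫ (α_ T T' B).inv ≫ ((r ≫ i) ▷ T') ▷ B) ≫ eps ▷ B := by
        rw [hm]
        simp only [comp_whiskerRight, Category.assoc]
    _ = B ◁ eta ≫ i ▷ (T' ⊗ T) ≫ (α_ T T' T).inv ≫ eps ▷ T ≫ (𝟙_ C) ◁ r := by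
        rw [h2, Category.assoc, h3]
    _ = i ▷ 𝟙_ C ≫ (T ◁ eta ≫ (α_ T T' T).inv ≫ eps ▷ T) ≫ (𝟙_ C) ◁ r := by
        rw [whisker_exchange_assoc]
        simp only [Category.assoc]
    _ = (ρ_ B).hom ≫ (λ_ B).inv := by
        rw [hz, Category.assoc, rightUnitor_naturality_assoc, ← leftUnitor_inv_naturality,
          ← Category.assoc i r, hir, Category.id_comp]

theorem dr_two {T T' B B' : C} (eta : 𝟙_ C ⟶ T' ⊗ T) (eps : T ⊗ T' ⟶ 𝟙_ C)
    (hz : eta ▷ T' ≫ (α_ T' T T').hom ≫ T' ◁ eps = (λ_ T').hom ≫ (ρ_ T').inv)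
    (i : B ⟶ T) (r : T ⟶ B) (j : B' ⟶ T') (p : T' ⟶ B') (hjp : j ≫ p = 𝟙 B')
    (hm : T ◁ (p ≫ j) ≫ eps = (r ≫ i) ▷ T' ≫ eps) :
    (eta ≫ (p ⊗ₘ r)) ▷ B' ≫ (α_ B' B B').hom ≫ B' ◁ ((i ⊗ₘ j) ≫ eps) =
      (λ_ B').hom ≫ (ρ_ B').inv := by
  have h1 : (p ⊗ₘ r) ▷ B' ≫ (α_ B' B B').hom ≫ B' ◁ (i ⊗ₘ j) =
      ((p ⊗ₘ 𝟙 T) ⊗ₘ j) ≫ (α_ B' T T').hom ≫ B' ◁ ((r ≫ i) ▷ T') := by
    rw [← id_tensorHom, ← tensorHom_id, ← tensorHom_id, ← id_tensorHom,
      associator_naturality_assoc, associator_naturality_assoc,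
      tensorHom_comp_tensorHom, tensorHom_comp_tensorHom, tensorHom_comp_tensorHom,
      tensorHom_comp_tensorHom]
    simp only [Category.id_comp, Category.comp_id]
  have h2 : ((p ⊗ₘ 𝟙 T) ⊗ₘ j) ≫ (α_ B' T T').hom ≫ B' ◁ (T ◁ (p ≫ j)) =
      ((p ⊗ₘ 𝟙 T) ⊗ₘ j) ≫ (α_ B' T T').hom := by
    rw [associator_naturality, associator_naturality_assoc, ← id_tensorHom,
      ← id_tensorHom, tensorHom_comp_tensorHom, tensorHom_comp_tensorHom, ← Category.assoc j p j,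
      hjp]
    simp only [Category.id_comp, Category.comp_id]
  have h3 : ((p ⊗ₘ 𝟙 T) ⊗ₘ j) ≫ (α_ B' T T').hom ≫ B' ◁ eps =
      (T' ⊗ T) ◁ j ≫ (α_ T' T T').hom ≫ T' ◁ eps ≫ p ▷ 𝟙_ C := by
    rw [MonoidalCategory.tensorHom_def', tensorHom_id, Category.assoc,
      associator_naturality_left_assoc, ← whisker_exchange]
  calc (eta ≫ (p ⊗ₘ r)) ▷ B' ≫ (α_ B' B B').hom ≫ B' ◁ ((i ⊗ₘ j) ≫ eps)
      = eta ▷ B' ≫ ((p ⊗ₘ r) ▷ B' ≫ (α_ B' B B').hom ≫ B' ◁ (i ⊗ₘ j)) ≫ B' ◁ eps := by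
        simp only [MonoidalCategory.whiskerLeft_comp, comp_whiskerRight, Category.assoc]
    _ = eta ▷ B' ≫ ((p ⊗ₘ 𝟙 T) ⊗ₘ j) ≫ (α_ B' T T').hom ≫ B' ◁ ((r ≫ i) ▷ T' ≫ eps) := by
        rw [h1]
        simp only [MonoidalCategory.whiskerLeft_comp, Category.assoc]
    _ = eta ▷ B' ≫ (((p ⊗ₘ 𝟙 T) ⊗ₘ j) ≫ (α_ B' T T').hom ≫ B' ◁ (T ◁ (p ≫ j))) ≫
          B' ◁ eps := by
        rw [← hm]
        simp only [MonoidalCategory.whiskerLeft_comp, Category.assoc]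
    _ = eta ▷ B' ≫ (T' ⊗ T) ◁ j ≫ (α_ T' T T').hom ≫ T' ◁ eps ≫ p ▷ 𝟙_ C := by
        rw [h2, Category.assoc, h3]
    _ = (𝟙_ C) ◁ j ≫ (eta ▷ T' ≫ (α_ T' T T').hom ≫ T' ◁ eps) ≫ p ▷ 𝟙_ C := by
        rw [← whisker_exchange_assoc]
        simp only [Category.assoc]
    _ = (λ_ B').hom ≫ (ρ_ B').inv := by
        rw [hz, Category.assoc, leftUnitor_naturality_assoc, ← rightUnitor_inv_naturality,
          ← Category.assoc j p, hjp, Category.id_comp]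

variable [IsIdempotentComplete C]

/-- A direct summand of an object with a dual has a dual. -/
theorem exists_dual_retract {T B : C} [HasLeftDual T] (i : B ⟶ T) (r : T ⟶ B)
    (hir : i ≫ r = 𝟙 B) : Nonempty (HasLeftDual B) := by
  obtain ⟨e, he⟩ : ∃ e : (ᘁT) ⟶ (ᘁT), e = leftAdjointMate (r ≫ i) := ⟨_, rfl⟩
  have hee : e ≫ e = e := by
    rw [he, ← comp_leftAdjointMate, Category.assoc, ← Category.assoc i r i, hir,
      Category.id_comp]
  obtain ⟨B', j, p, hjp, hpj⟩ := IsIdempotentComplete.idempotents_split (ᘁT) e hee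
  have hm : T ◁ (p ≫ j) ≫ ε_ (ᘁT) T = (r ≫ i) ▷ (ᘁT) ≫ ε_ (ᘁT) T := by
    rw [hpj, he]
    exact leftAdjointMate_comp_evaluation (r ≫ i)
  let E : ExactPairing B' B :=
    { coevaluation' := η_ (ᘁT) T ≫ (p ⊗ₘ r)
      evaluation' := (i ⊗ₘ j) ≫ ε_ (ᘁT) T
      coevaluation_evaluation' := dr_one _ _ (ExactPairing.coevaluation_evaluation (ᘁT) T) i r
        hir j p hm
      evaluation_coevaluation' := dr_two _ _ (ExactPairing.evaluation_coevaluation (ᘁT) T) i r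
        j p hjp hm }
  exact ⟨⟨B'⟩⟩

end DR

section Sub

variable (C : Type u) [Category.{v} C] [MonoidalCategory C]

attribute [local instance] hasLeftDualUnit hasLeftDualTensor

/-- the objects with a dual -/
def dualizable : ObjectProperty C := fun X => Nonempty (HasLeftDual X)

instance : (dualizable C).IsMonoidal where
  prop_unit := ⟨hasLeftDualUnit⟩
  prop_tensor X Y hX hY := by
    obtain ⟨hX⟩ := hX
    obtain ⟨hY⟩ := hY
    exact ⟨hasLeftDualTensor⟩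

end Sub

section Sub2

variable {C : Type u} [Category.{v} C] [MonoidalCategory C] [SymmetricCategory C]

theorem dualizable_leftDual (X : C) [HasLeftDual X] : dualizable C (ᘁX) :=
  ⟨{ leftDual := X
     exact := BraidedCategory.exactPairing_swap (ᘁX) X }⟩

/-- the dual in the full subcategory -/
@[implicit_reducible]
def subDual (X : C) (d : HasLeftDual X) :
    HasLeftDual (⟨X, ⟨d⟩⟩ : (dualizable C).FullSubcategory) where
  leftDual := ⟨ᘁX, dualizable_leftDual X⟩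
  exact :=
    { coevaluation' := ObjectProperty.homMk (η_ (ᘁX) X)
      evaluation' := ObjectProperty.homMk (ε_ (ᘁX) X)
      coevaluation_evaluation' := by
        apply ObjectProperty.hom_ext
        exact ExactPairing.coevaluation_evaluation (ᘁX) X
      evaluation_coevaluation' := by
        apply ObjectProperty.hom_ext
        exact ExactPairing.evaluation_coevaluation (ᘁX) X }

/-- The full subcategory of the objects with a dual is rigid. -/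
@[implicit_reducible]
noncomputable def subRigid : LeftRigidCategory (dualizable C).FullSubcategory where
  leftDual X := subDual X.obj X.property.some

variable [Preadditive C] [MonoidalPreadditive C] [Linear ℚ C]

omit [SymmetricCategory C] [MonoidalPreadditive C] in
theorem subRatUnit [RatUnit C] : RatUnit (dualizable C).FullSubcategory where
  ex a := by
    obtain ⟨c, hc⟩ := RatUnit.ex (C := C) a.hom
    refine ⟨c, ?_⟩
    apply ObjectProperty.hom_ext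
    exact hc
  ne h := by
    apply RatUnit.ne (C := C)
    exact congrArg (fun f => f.hom) h

omit [MonoidalPreadditive C] [Linear ℚ C] in
theorem sub_opKF {X : (dualizable C).FullSubcategory} :
    OpKF X ↔ OpKF X.obj := by
  constructor
  · intro h
    exact h.map (dualizable C).ι
  · intro h
    obtain ⟨e, he, ⟨r, hr⟩, s, hs⟩ := h
    rw [← gSum_coe] at hr
    rw [← gSum_one] at hs
    obtain ⟨f, hf⟩ : ∃ f : X ⟶ X, f = ObjectProperty.homMk e := ⟨_, rfl⟩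
    have hfe : (dualizable C).ι.map f = e := by rw [hf]; rfl
    have hz : ∀ {Y Z : (dualizable C).FullSubcategory} (g : Y ⟶ Z),
        (dualizable C).ι.map g = 0 → g = 0 := by
      intro Y Z g hg
      exact (dualizable C).ι.map_injective (hg.trans ((dualizable C).ι.map_zero Y Z).symm)
    refine ⟨f, ?_, ⟨r, ?_⟩, s, ?_⟩
    · apply (dualizable C).ι.map_injective
      rw [Functor.map_comp, hfe, he]
    · rw [← gSum_coe]
      apply hz
      rw [map_kill_iff, hfe]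
      exact hr
    · rw [← gSum_one]
      apply hz
      rw [map_kill_iff, Functor.map_sub, CategoryTheory.Functor.map_id, hfe]
      exact hs

/-- The main theorem in operator form: only `M` is supposed to have a dual. -/
theorem opKF_of_schur_dual [IsIdempotentComplete C] [RatUnit C] {M B : C} [dM : HasLeftDual M]
    {n : ℕ} (hn : 0 < n) (z : MonoidAlgebra ℚ (Perm (Fin n)))
    (i : B ⟶ tpow M n) (r : tpow M n ⟶ B) (hir : i ≫ r = 𝟙 B) (hri : r ≫ i = za M z)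
    (hB : OpKF B) (h0 : 𝟙 B ≠ 0) : OpKF M := by
  have hdB : Nonempty (HasLeftDual B) :=
    @exists_dual_retract C _ _ _ (tpow M n) B (tpowDual M n) i r hir
  obtain ⟨M₁, hM₁⟩ : ∃ M₁ : (dualizable C).FullSubcategory, M₁.obj = M := ⟨⟨M, ⟨dM⟩⟩, rfl⟩
  obtain ⟨B₁, hB₁⟩ : ∃ B₁ : (dualizable C).FullSubcategory, B₁.obj = B := ⟨⟨B, hdB⟩, rfl⟩
  subst hM₁
  subst hB₁
  obtain ⟨φ, hφ⟩ : ∃ φ, φ = powIso (dualizable C).ι M₁ n := ⟨_, rfl⟩
  obtain ⟨i₁, hi₁⟩ : ∃ i₁ : B₁ ⟶ tpow M₁ n, (dualizable C).ι.map i₁ = i ≫ φ.inv :=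
    ⟨ObjectProperty.homMk (i ≫ φ.inv), rfl⟩
  obtain ⟨r₁, hr₁⟩ : ∃ r₁ : tpow M₁ n ⟶ B₁, (dualizable C).ι.map r₁ = φ.hom ≫ r :=
    ⟨ObjectProperty.homMk (φ.hom ≫ r), rfl⟩
  have h1 : i₁ ≫ r₁ = 𝟙 B₁ := by
    apply (dualizable C).ι.map_injective
    rw [Functor.map_comp, hi₁, hr₁, CategoryTheory.Functor.map_id, Category.assoc,
      Iso.inv_hom_id_assoc]
    exact hir
  have h2 : r₁ ≫ i₁ = za M₁ z := by
    apply (dualizable C).ι.map_injective
    have h3 := map_za (dualizable C).ι M₁ z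
    rw [← hφ] at h3
    rw [Functor.map_comp, hi₁, hr₁, Category.assoc, ← Category.assoc r i, hri,
      ← cancel_mono φ.hom, h3]
    simp only [Category.assoc, Iso.inv_hom_id]
    rw [Category.comp_id]
    rfl
  letI := subRigid (C := C)
  haveI := subRatUnit (C := C)
  rw [← sub_opKF]
  refine opKF_of_schur hn z i₁ r₁ h1 h2 (sub_opKF.2 hB) ?_
  intro h3
  apply h0
  have h4 := congrArg (fun f => (dualizable C).ι.map f) h3
  exact h4

end Sub2

end Pool.Agent.MP_6e5bed_ag
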