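import Pool.Agent.Lib.MP_6e5bed_ag.SGrp

set_option autoImplicit false

/-!
# Blocks of factors
-/

namespace Pool.Agent.MP_6e5bed_ag

open CategoryTheory MonoidalCategory Equiv

universe v u

section GEmb

/-- the embedding of the group algebras -/
noncomputable def gemb {a b : ℕ} (j : Fin a ↪ Fin b) :
    MonoidAlgebra ℚ (Perm (Fin a)) →ₐ[ℚ] MonoidAlgebra ℚ (Perm (Fin b)) :=
  MonoidAlgebra.mapDomainAlgHom ℚ ℚ (Perm.viaEmbeddingHom j)

theorem gemb_single {a b : ℕ} (j : Fin a ↪ Fin b) (σ : Perm (Fin a)) (c : ℚ) :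
    gemb j (MonoidAlgebra.single σ c) = MonoidAlgebra.single (σ.viaEmbedding j) c :=
  MonoidAlgebra.mapDomain_single

theorem gemb_trans {a b c : ℕ} (j : Fin a ↪ Fin b) (k : Fin b ↪ Fin c)
    (x : MonoidAlgebra ℚ (Perm (Fin a))) : gemb (j.trans k) x = gemb k (gemb j x) := by
  induction x using MonoidAlgebra.induction_on with
  | of σ =>
    change gemb (j.trans k) (MonoidAlgebra.single σ 1) = gemb k (gemb j (MonoidAlgebra.single σ 1))
    rw [gemb_single, gemb_single, gemb_single, viaEmbedding_trans]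
  | add x y hx hy => rw [map_add, map_add, map_add, hx, hy]
  | smul c x hx => rw [map_smul, map_smul, map_smul, hx]

theorem gemb_conj {a b : ℕ} (j j' : Fin a ↪ Fin b) (g : Perm (Fin b)) (h : ∀ i, j' i = g (j i))
    (x : MonoidAlgebra ℚ (Perm (Fin a))) :
    gemb j' x = MonoidAlgebra.single g 1 * gemb j x * MonoidAlgebra.single g⁻¹ 1 := by
  induction x using MonoidAlgebra.induction_on with
  | of σ =>
    change gemb j' (MonoidAlgebra.single σ 1) = _ * gemb j (MonoidAlgebra.single σ 1) * _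
    rw [gemb_single, gemb_single, MonoidAlgebra.single_mul_single,
      MonoidAlgebra.single_mul_single, viaEmbedding_conj σ j g j' h, one_mul, mul_one]
  | add x y hx hy => rw [map_add, map_add, hx, hy, mul_add, add_mul]
  | smul c x hx => rw [map_smul, map_smul, hx, mul_smul_comm, smul_mul_assoc]

/-- the first `n` points -/
def hdEmb (N n : ℕ) : Fin n ↪ Fin (N + n) := Fin.castLEEmb (Nat.le_add_left n N)

end GEmb

section Th

variable {C : Type u} [Category.{v} C] [MonoidalCategory C]

/-- `M ⊗ (⋯ ⊗ M^{⊗ N}) ≅ M^{⊗ (N + n)}` -/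
def th (M : C) (N : ℕ) : (n : ℕ) → (tpw M n (tpow M N) ≅ tpow M (N + n))
  | 0 => Iso.refl _
  | n + 1 => whiskerLeftIso M (th M N n)

/-- an endomorphism of the last `N` factors -/
def tl (M : C) {N : ℕ} (f : tpow M N ⟶ tpow M N) : (n : ℕ) →
    (tpow M (N + n) ⟶ tpow M (N + n))
  | 0 => f
  | n + 1 => wl M (tl M f n)

variable [SymmetricCategory C]

theorem tl_ps (M : C) {N : ℕ} (τ : Perm (Fin N)) (n : ℕ) :
    tl M (ps M τ) n = ps M (τ.viaEmbedding (stEmb N n)) := by
  induction n with
  | zero =>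
    have h2 : τ.viaEmbedding (stEmb N 0) = τ := viaEmbedding_refl τ
    rw [h2]
    rfl
  | succ n ih =>
    have h2 : τ.viaEmbedding (stEmb N (n + 1)) =
        sh (τ.viaEmbedding (stEmb N n)) := by
      rw [sh_eq, ← viaEmbedding_trans]
      rfl
    have h3 : ps M (sh (τ.viaEmbedding (stEmb N n))) = wl M (ps M (τ.viaEmbedding (stEmb N n))) :=
      ps_sh M _
    rw [h2]
    refine Eq.trans ?_ h3.symm
    rw [← ih]
    rfl

omit [SymmetricCategory C] in
theorem tpwMap_th (M : C) {N : ℕ} (f : tpow M N ⟶ tpow M N) (n : ℕ) :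
    tpwMap M f n ≫ (th M N n).hom = (th M N n).hom ≫ tl M f n := by
  induction n with
  | zero => exact (Category.comp_id _).trans (Category.id_comp _).symm
  | succ n ih =>
    change M ◁ tpwMap M f n ≫ M ◁ (th M N n).hom = M ◁ (th M N n).hom ≫ M ◁ tl M f n
    rw [← MonoidalCategory.whiskerLeft_comp, ih, MonoidalCategory.whiskerLeft_comp]

/-- an endomorphism of the first `n` factors -/
def hd (M : C) (N : ℕ) {n : ℕ} (a : tpow M n ⟶ tpow M n) : tpow M (N + n) ⟶ tpow M (N + n) :=
  (th M N n).inv ≫ la (tpow M N) a ≫ (th M N n).hom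

omit [SymmetricCategory C] in
theorem hd_comp (M : C) (N : ℕ) {n : ℕ} (a b : tpow M n ⟶ tpow M n) :
    hd M N (a ≫ b) = hd M N a ≫ hd M N b := by
  unfold hd
  rw [la_comp]
  simp only [Category.assoc, Iso.hom_inv_id_assoc]

omit [SymmetricCategory C] in
theorem hd_id (M : C) (N n : ℕ) : hd M N (𝟙 (tpow M n)) = 𝟙 _ := by
  unfold hd
  rw [la_id, Category.id_comp, Iso.inv_hom_id]

omit [SymmetricCategory C] in
theorem hd_wl (M : C) (N : ℕ) {n : ℕ} (a : tpow M n ⟶ tpow M n) :
    hd M N (wl M a) = wl M (hd M N a) := by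
  unfold hd
  rw [la_wl]
  change M ◁ (th M N n).inv ≫ M ◁ la (tpow M N) a ≫ M ◁ (th M N n).hom =
    M ◁ ((th M N n).inv ≫ la (tpow M N) a ≫ (th M N n).hom)
  rw [← MonoidalCategory.whiskerLeft_comp, ← MonoidalCategory.whiskerLeft_comp]

theorem hd_adj (M : C) (N n i : ℕ) (h : i + 1 < n) : hd M N (adj M n i) = adj M (N + n) i := by
  induction n generalizing i with
  | zero => omega
  | succ n ih =>
    cases n with
    | zero => omega
    | succ n =>
      cases i with
      | zero =>
        have h1 : adj M (n + 2) 0 = ps M (swap 0 1) := (ps_swap M n).symm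
        have h2 : adj M (N + (n + 2)) 0 = sw M (tpow M (N + n)) := rfl
        rw [h2]
        unfold hd
        change (th M N (n + 2)).inv ≫ la (tpow M N) (adj M (n + 2) 0) ≫ (th M N (n + 2)).hom = _
        rw [h1]
        change (th M N (n + 2)).inv ≫ pw M (n + 2) (tpow M N) (swap 0 1) ≫
          (th M N (n + 2)).hom = _
        rw [pw_swap]
        change (M ◁ M ◁ (th M N n).inv) ≫ sw M (tpw M n (tpow M N)) ≫
          (M ◁ M ◁ (th M N n).hom) = _
        rw [sw_comm, ← Category.assoc, ← MonoidalCategory.whiskerLeft_comp,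
          ← MonoidalCategory.whiskerLeft_comp, Iso.inv_hom_id, MonoidalCategory.whiskerLeft_id,
          MonoidalCategory.whiskerLeft_id, Category.id_comp]
      | succ i =>
        have h1 : adj M (n + 1 + 1) (i + 1) = wl M (adj M (n + 1) i) := rfl
        have h2 : adj M (N + (n + 1 + 1)) (i + 1) = wl M (adj M (N + (n + 1)) i) := rfl
        rw [h1, h2, hd_wl, ih i (by omega)]

theorem hd_ps (M : C) (N : ℕ) {n : ℕ} (σ : Perm (Fin n)) :
    hd M N (ps M σ) = ps M (σ.viaEmbedding (hdEmb N n)) := by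
  refine perm_induction (P := fun σ => hd M N (ps M σ) =
    ps M (σ.viaEmbedding (hdEmb N n))) ?_ ?_ ?_ σ
  · rw [ps_one, VanishAux.via_one, ps_one, hd_id]
  · intro i h
    have h1 : ps M (swap (⟨i, (Nat.lt_succ_self i).trans h⟩ : Fin n) ⟨i + 1, h⟩) = adj M n i :=
      perm_adj M n i h
    have h2 : (swap (⟨i, (Nat.lt_succ_self i).trans h⟩ : Fin n) ⟨i + 1, h⟩).viaEmbedding
        (hdEmb N n) = swap (⟨i, by omega⟩ : Fin (N + n)) ⟨i + 1, by omega⟩ := by
      rw [VanishAux.via_swap]
      rfl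
    have h3 : ps M (swap (⟨i, by omega⟩ : Fin (N + n)) ⟨i + 1, by omega⟩) =
        adj M (N + n) i := perm_adj M (N + n) i (by omega)
    rw [h1, h2, h3, hd_adj M N n i h]
  · intro a b ha hb
    rw [← ps_comp, hd_comp, ha, hb, ps_comp, VanishAux.via_mul]

variable [Preadditive C] [Linear ℚ C]

theorem sza_single (M : C) {n : ℕ} (σ : Perm (Fin n)) (c : ℚ) :
    za M (MonoidAlgebra.single σ c) = c • ps M σ := by
  unfold za act
  rw [MonoidAlgebra.lift_single]
  rfl

theorem sza_add (M : C) {n : ℕ} (x y : MonoidAlgebra ℚ (Perm (Fin n))) :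
    za M (x + y) = za M x + za M y := map_add (act M n) x y

theorem sza_smul (M : C) {n : ℕ} (c : ℚ) (x : MonoidAlgebra ℚ (Perm (Fin n))) :
    za M (c • x) = c • za M x := map_smul (act M n) c x

theorem sza_zero (M : C) (n : ℕ) : za M (0 : MonoidAlgebra ℚ (Perm (Fin n))) = 0 :=
  map_zero (act M n)

variable [MonoidalPreadditive C]

theorem hd_za (M : C) (N : ℕ) {n : ℕ} (z : MonoidAlgebra ℚ (Perm (Fin n))) :
    hd M N (za M z) = za M (gemb (hdEmb N n) z) := by
  induction z using MonoidAlgebra.induction_on with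
  | of σ =>
    change hd M N (za M (MonoidAlgebra.single σ 1)) = za M (gemb _ (MonoidAlgebra.single σ 1))
    rw [gemb_single, sza_single, sza_single, one_smul, one_smul, hd_ps]
  | add x y hx hy =>
    rw [map_add, sza_add, sza_add, ← hx, ← hy]
    unfold hd
    rw [la_add, Preadditive.add_comp, Preadditive.comp_add]
  | smul c x hx =>
    rw [map_smul, sza_smul, sza_smul, ← hx]
    unfold hd
    rw [la_smul, Linear.smul_comp, Linear.comp_smul]

theorem swl_add (M : C) {n : ℕ} (a b : tpow M n ⟶ tpow M n) : wl M (a + b) = wl M a + wl M b :=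
  MonoidalPreadditive.whiskerLeft_add ..

theorem swl_smul (M : C) {n : ℕ} (c : ℚ) (a : tpow M n ⟶ tpow M n) : wl M (c • a) = c • wl M a :=
  whiskerLeft_qsmul M c a

theorem tl_add (M : C) {N : ℕ} (a b : tpow M N ⟶ tpow M N) (n : ℕ) :
    tl M (a + b) n = tl M a n + tl M b n := by
  induction n with
  | zero => rfl
  | succ n ih =>
    change wl M (tl M (a + b) n) = wl M (tl M a n) + wl M (tl M b n)
    rw [ih, swl_add]

theorem tl_smul (M : C) {N : ℕ} (c : ℚ) (a : tpow M N ⟶ tpow M N) (n : ℕ) :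
    tl M (c • a) n = c • tl M a n := by
  induction n with
  | zero => rfl
  | succ n ih =>
    change wl M (tl M (c • a) n) = c • wl M (tl M a n)
    rw [ih, swl_smul]

theorem tl_za (M : C) {N : ℕ} (w : MonoidAlgebra ℚ (Perm (Fin N))) (n : ℕ) :
    tl M (za M w) n = za M (gemb (stEmb N n) w) := by
  induction w using MonoidAlgebra.induction_on with
  | of σ =>
    change tl M (za M (MonoidAlgebra.single σ 1)) n = za M (gemb _ (MonoidAlgebra.single σ 1))
    rw [gemb_single, sza_single, sza_single, one_smul, one_smul, tl_ps]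
  | add x y hx hy =>
    rw [map_add, sza_add, sza_add, ← hx, ← hy]
    exact tl_add M _ _ n
  | smul c x hx =>
    rw [map_smul, sza_smul, sza_smul, ← hx]
    exact tl_smul M c _ n

end Th

end Pool.Agent.MP_6e5bed_ag
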