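import Pool.Agent.Lib.MP_6e5bed_ag.SBlock
import Pool.Agent.Lib.MP_6e5bed_ag.BLift

set_option autoImplicit false

/-!
# Schur functors detect Kimura-finiteness
-/

namespace Pool.Agent.MP_6e5bed_ag

open CategoryTheory MonoidalCategory Equiv

universe v u

section SFinal

variable {C : Type u} [Category.{v} C] [MonoidalCategory C] [SymmetricCategory C]
  [Preadditive C] [MonoidalPreadditive C] [Linear ℚ C]

theorem AN_gSum (χ : ℤˣ →* ℤ) {M : C} (u : M ⟶ M) (m : ℕ) : gSum χ M m ∈ AN u m := by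
  unfold gSum
  refine Submodule.sum_mem _ fun σ _ => ?_
  have h := Submodule.smul_mem (AN u m) ((χ (Perm.sign σ) : ℤ) : ℚ) (AN_ps (M := M) u σ)
  rwa [Int.cast_smul_eq_zsmul] at h

variable [LeftRigidCategory C] [RatUnit C]

/-- There are no phantoms. -/
theorem phantom {M B : C} {n : ℕ} (hn : 0 < n) (z : MonoidAlgebra ℚ (Perm (Fin n)))
    (i : B ⟶ tpow M n) (r : tpow M n ⟶ B) (hir : i ≫ r = 𝟙 B) (hri : r ≫ i = za M z)
    (hB : OpKF B) (h0 : 𝟙 B ≠ 0) (χ : ℤˣ →* ℤ) (e : M ⟶ M) (m : ℕ) (he : e ≫ e = e)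
    (h : NumZ (gSum χ M m ≫ tmap e m)) : gSum χ M m ≫ tmap e m = 0 := by
  obtain ⟨g, hg⟩ := exists_trp_ne z i r hir hri hB h0
  obtain ⟨u, hu⟩ : ∃ u : M ⟶ M, u = e - (𝟙 M - e) := ⟨_, rfl⟩
  have huu : u ≫ u = 𝟙 M := by rw [hu]; exact parity_sq he
  have he' : e = (1 / 2 : ℚ) • 𝟙 M + (1 / 2 : ℚ) • u := by
    rw [hu]
    match_scalars <;> norm_num
  refine eq_zero_of_AN huu hn hir hri hg (fun k ν hν => nilp (hB.tpow k) hν)
    (AN_comp huu (AN_gSum χ u m) ?_) h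
  rw [he']
  exact AN_tmap huu _ _ m

/-- the operator form of the main theorem -/
theorem opKF_of_schur {M B : C} {n : ℕ} (hn : 0 < n) (z : MonoidAlgebra ℚ (Perm (Fin n)))
    (i : B ⟶ tpow M n) (r : tpow M n ⟶ B) (hir : i ≫ r = 𝟙 B) (hri : r ≫ i = za M z)
    (hB : OpKF B) (h0 : 𝟙 B ≠ 0) : OpKF M :=
  opKF_of_phantom hn z i r hir hri hB h0
    (fun χ e m he h => phantom hn z i r hir hri hB h0 χ e m he h)

theorem kimuraFinite_of_schur [IsIdempotentComplete C] {M B : C} {n : ℕ} (hn : 0 < n)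
    (z : MonoidAlgebra ℚ (Perm (Fin n)))
    (i : B ⟶ tpow M n) (r : tpow M n ⟶ B) (hir : i ≫ r = 𝟙 B) (hri : r ≫ i = za M z)
    (hB : KimuraFinite B) (h0 : 𝟙 B ≠ 0) : KimuraFinite M :=
  kimuraFinite_of_opKF (opKF_of_schur hn z i r hir hri (opKF_of_kimuraFinite hB) h0)

end SFinal

end Pool.Agent.MP_6e5bed_ag
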