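import Pool.Agent.Lib.MP_6e5bed_ag.STfam

set_option autoImplicit false

/-!
# Sums of killed endomorphisms are killed
-/

namespace Pool.Agent.MP_6e5bed_ag

open CategoryTheory MonoidalCategory Equiv

universe v u

section Sum

variable {C : Type u} [Category.{v} C] [MonoidalCategory C] [SymmetricCategory C]
  [Preadditive C] [MonoidalPreadditive C]

theorem gCat_kill_st {X : C} {a : X ⟶ X} {r : ℕ} {c : Perm (Fin r) → ℤ}
    (ha : (∑ σ : Perm (Fin r), c σ • (perm X r σ : tpow X r ⟶ tpow X r)) ≫ tmap a r = 0) :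
    ∀ (k : ℕ) (w : Fin (r + k) → (X ⟶ X)), (∀ i, w (stEmb r k i) = a) →
      gCat X (r + k) c (stEmb r k) ≫ tfam (r + k) w = 0 := by
  intro k
  induction k with
  | zero =>
    intro w hw
    have h : gCat X r c (stEmb r 0) =
        ∑ σ : Perm (Fin r), c σ • (perm X r σ : tpow X r ⟶ tpow X r) := by
      unfold gCat
      refine Finset.sum_congr rfl fun σ _ => ?_
      have h2 : σ.viaEmbedding (stEmb r 0) = σ := viaEmbedding_refl σ
      rw [h2]
    have h2 : w = fun _ => a := funext hw
    rw [h2]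
    change gCat X r c (stEmb r 0) ≫ tfam r (fun _ => a) = 0
    rw [h, tfam_const, ha]
  | succ k ih =>
    intro w hw
    have h := gCat_succ X c (stEmb r k)
    change gCat X (r + k + 1) c ((stEmb r k).trans (Fin.succEmb (r + k))) ≫
      (w 0 ⊗ₘ tfam (r + k) (fun i => w i.succ)) = 0
    rw [h]
    exact tensor_kill (w 0) (ih _ hw)

theorem perm_tfam {X : C} {n : ℕ} (g : Perm (Fin n)) (w : Fin n → (X ⟶ X)) :
    (perm X n g : tpow X n ⟶ tpow X n) ≫ tfam n w =
      tfam n (fun j => w (g j)) ≫ (perm X n g : tpow X n ⟶ tpow X n) := by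
  have h : ∀ j, g (g⁻¹ j) = j := fun j => g.apply_symm_apply j
  rw [tfam_perm]
  simp only [h]

theorem gCat_kill_tfam {X : C} {a : X ⟶ X} {r : ℕ} {c : Perm (Fin r) → ℤ}
    (ha : (∑ σ : Perm (Fin r), c σ • (perm X r σ : tpow X r ⟶ tpow X r)) ≫ tmap a r = 0)
    {m : ℕ} (f : Fin r ↪ Fin m) (w : Fin m → (X ⟶ X)) (hw : ∀ i, w (f i) = a) :
    gCat X m c f ≫ tfam m w = 0 := by
  obtain ⟨k, rfl⟩ : ∃ k, m = r + k := by
    have h := Fintype.card_le_of_embedding f
    rw [Fintype.card_fin, Fintype.card_fin] at h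
    exact ⟨m - r, by omega⟩
  obtain ⟨g, hg⟩ := exists_perm_embedding (stEmb r k) f
  rw [gCat_conj X c (stEmb r k) f g hg, Category.assoc, Category.assoc, perm_tfam,
    ← Category.assoc (gCat X (r + k) c (stEmb r k)),
    gCat_kill_st ha k _ (fun i => by rw [← hg i]; exact hw i), Limits.zero_comp, Limits.comp_zero]

/-- expansion of the tensor power of a sum -/
theorem tmap_add {X : C} (a b : X ⟶ X) (n : ℕ) :
    tmap (a + b) n = ∑ c : Fin n → Bool, tfam n (fun i => if c i then a else b) := by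
  induction n with
  | zero =>
    rw [Fintype.sum_unique]
    rfl
  | succ n ih =>
    rw [tmap_succ, ih, ← (Fin.consEquiv (fun _ => Bool)).sum_comp, Fintype.sum_prod_type,
      Fintype.sum_bool]
    have h1 : ∀ t : Fin n → Bool, tfam (n + 1) (fun i => if (Fin.consEquiv (fun _ => Bool))
        (true, t) i then a else b) = a ⊗ₘ tfam n (fun i => if t i then a else b) := fun t => rfl
    have h2 : ∀ t : Fin n → Bool, tfam (n + 1) (fun i => if (Fin.consEquiv (fun _ => Bool))
        (false, t) i then a else b) = b ⊗ₘ tfam n (fun i => if t i then a else b) := fun t => rfl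
    simp only [h1, h2]
    rw [MonoidalPreadditive.add_tensor, tensor_sum, tensor_sum]
    rfl

theorem gSum_gCat (χ : ℤˣ →* ℤ) (X : C) {n r : ℕ} (f : Fin r ↪ Fin n) :
    gSum χ X n ≫ gCat X n (fun σ => χ (Perm.sign σ)) f = (r.factorial : ℤ) • gSum χ X n := by
  unfold gCat
  rw [Preadditive.comp_sum]
  have h : ∀ σ : Perm (Fin r), gSum χ X n ≫ (χ (Perm.sign σ) •
      (perm X n (σ.viaEmbedding f) : tpow X n ⟶ tpow X n)) = gSum χ X n := by
    intro σ
    have h1 := gSum_ps χ X (σ.viaEmbedding f)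
    rw [sign_via] at h1
    rw [Preadditive.comp_zsmul]
    change χ (Perm.sign σ) • (gSum χ X n ≫ ps X (σ.viaEmbedding f)) = _
    rw [h1, smul_smul, chi_mul_self, one_smul]
  rw [Finset.sum_congr rfl fun σ _ => h σ, Finset.sum_const, Finset.card_univ, Fintype.card_perm,
    Fintype.card_fin, natCast_zsmul]

theorem gSum_kill_tfam [Linear ℚ C] (χ : ℤˣ →* ℤ) {X : C} {a : X ⟶ X} {r n : ℕ}
    (ha : gSum χ X r ≫ tmap a r = 0) (w : Fin n → (X ⟶ X)) (f : Fin r ↪ Fin n)
    (hw : ∀ i, w (f i) = a) : gSum χ X n ≫ tfam n w = 0 := by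
  have h1 := gCat_kill_tfam (c := fun σ => χ (Perm.sign σ)) ha f w hw
  have h2 : (r.factorial : ℤ) • (gSum χ X n ≫ tfam n w) = 0 := by
    rw [← Preadditive.zsmul_comp, ← gSum_gCat χ X f, Category.assoc, h1, Limits.comp_zero]
  have h3 : ((r.factorial : ℤ) : ℚ) • (gSum χ X n ≫ tfam n w) = 0 := by
    rw [Int.cast_smul_eq_zsmul, h2]
  refine (smul_eq_zero.1 h3).resolve_left ?_
  simp [Nat.factorial_ne_zero]

/-- the sum of two killed endomorphisms is killed -/
theorem gSum_kill_add [Linear ℚ C] (χ : ℤˣ →* ℤ) {X : C} {a b : X ⟶ X} {r s : ℕ}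
    (ha : gSum χ X r ≫ tmap a r = 0) (hb : gSum χ X s ≫ tmap b s = 0) :
    gSum χ X (r + s) ≫ tmap (a + b) (r + s) = 0 := by
  rw [tmap_add, Preadditive.comp_sum]
  refine Finset.sum_eq_zero fun c _ => ?_
  by_cases h : r ≤ (Finset.univ.filter (fun i => c i = true)).card
  · obtain ⟨t, ht, htc⟩ := Finset.exists_subset_card_eq h
    have e := (t.orderEmbOfFin htc)
    refine gSum_kill_tfam χ ha _ (t.orderEmbOfFin htc).toEmbedding fun i => ?_
    have h2 := ht (t.orderEmbOfFin_mem htc i)
    rw [Finset.mem_filter] at h2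
    have h3 : c ((t.orderEmbOfFin htc).toEmbedding i) = true := h2.2
    rw [h3]
    rfl
  · have h' : s ≤ (Finset.univ.filter (fun i => c i = false)).card := by
      have h4 := Finset.card_filter_add_card_filter_not (s := (Finset.univ : Finset (Fin (r + s))))
        (fun i => c i = true)
      rw [Finset.card_univ, Fintype.card_fin] at h4
      have h5 : (Finset.univ.filter (fun i => ¬ c i = true)) =
          (Finset.univ.filter (fun i => c i = false)) := by
        congr 1
        funext i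
        simp
      rw [h5] at h4
      omega
    obtain ⟨t, ht, htc⟩ := Finset.exists_subset_card_eq h'
    refine gSum_kill_tfam χ hb _ (t.orderEmbOfFin htc).toEmbedding fun i => ?_
    have h2 := ht (t.orderEmbOfFin_mem htc i)
    rw [Finset.mem_filter] at h2
    have h3 : c ((t.orderEmbOfFin htc).toEmbedding i) = false := h2.2
    rw [h3]
    rfl

end Sum

end Pool.Agent.MP_6e5bed_ag
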