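import Pool.Agent.Lib.MP_6e5bed_ag.BPos
import Pool.Agent.Lib.MP_6e5bed_ag.SSum
import Pool.Agent.Lib.MP_6e5bed_ag.BSwap

set_option autoImplicit false

/-!
# The algebra generated by the permutations and an involution of `M`
-/

namespace Pool.Agent.MP_6e5bed_ag

open CategoryTheory MonoidalCategory Equiv

universe v u

section Kill

/-- An element of an ideal which is nilpotent in the corner of an idempotent vanishes there. -/
theorem kill_of_nil {G A : Type*} [Group G] [Finite G] [Ring A] [Algebra ℚ A]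
    (φ : MonoidAlgebra ℚ G →ₐ[ℚ] A) (w x : MonoidAlgebra ℚ G) (hw : φ w * φ w = φ w)
    (h : IsNilpotent (φ w * (φ (gst w) * φ (gst x) * φ x) * φ w)) : φ x * φ w = 0 := by
  obtain ⟨t, ht⟩ : ∃ t, t = x * w := ⟨_, rfl⟩
  obtain ⟨s, hs⟩ : ∃ s, s = gst t * t := ⟨_, rfl⟩
  have hs' : φ s = φ (gst w) * φ (gst x) * φ x * φ w := by
    rw [hs, ht, gst_mul, map_mul, map_mul, map_mul, mul_assoc, mul_assoc, mul_assoc]
  have hsw : φ s * φ w = φ s := by
    rw [hs', mul_assoc, hw]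
  have hn : IsNilpotent (φ s) := by
    obtain ⟨k, hk⟩ := h
    have h1 : φ w * (φ (gst w) * φ (gst x) * φ x) * φ w = φ w * φ s := by
      rw [hs', mul_assoc]
    rw [h1] at hk
    refine ⟨k + 1, ?_⟩
    have h2 : ∀ j : ℕ, φ s * (φ w * φ s) ^ j = φ s ^ (j + 1) := by
      intro j
      induction j with
      | zero => rw [pow_zero, mul_one, pow_one]
      | succ j ih =>
        rw [pow_succ' (φ w * φ s) j, ← mul_assoc, ← mul_assoc, hsw, mul_assoc, ih, ← pow_succ']
    rw [← h2, hk, mul_zero]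
  have hss : gst s = s := by rw [hs, gst_mul, gst_gst]
  have hsp : ∀ m : ℕ, gst (s ^ m) = s ^ m := by
    intro m
    induction m with
    | zero => rw [pow_zero, gst_one]
    | succ m ih => rw [pow_succ, gst_mul, ih, hss, ← pow_succ', ← pow_succ]
  have hd : ∀ j : ℕ, φ s ^ (2 ^ j) = 0 → φ s = 0 := by
    intro j
    induction j with
    | zero => intro h1; rwa [pow_zero, pow_one] at h1
    | succ j ih =>
      intro h1
      apply ih
      rw [← map_pow]
      apply pos_one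
      rw [hsp, ← pow_add, map_pow]
      have h2 : 2 ^ j + 2 ^ j = 2 ^ (j + 1) := by rw [pow_succ]; ring
      rw [h2, h1]
  obtain ⟨k, hk⟩ := hn
  have h0 : φ s = 0 := by
    apply hd k
    have h1 : k ≤ 2 ^ k := (Nat.lt_two_pow_self).le
    exact pow_eq_zero_of_le h1 hk
  have h3 : φ t = 0 := pos_one φ t (by rw [← hs, h0])
  rw [← map_mul, ← ht, h3]

end Kill

section Sg

variable {C : Type u} [Category.{v} C] [MonoidalCategory C] {M : C}

/-- an involution on the factors with sign `-1` -/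
def sg (u : M ⟶ M) {N : ℕ} (ε : Fin N → ℤˣ) : tpow M N ⟶ tpow M N :=
  tfam N (fun i => if ε i = 1 then 𝟙 M else u)

theorem sg_one (u : M ⟶ M) (N : ℕ) : sg u (1 : Fin N → ℤˣ) = 𝟙 _ := by
  unfold sg
  simp only [Pi.one_apply, if_true]
  exact tfam_one N

theorem sg_mul {u : M ⟶ M} (hu : u ≫ u = 𝟙 M) {N : ℕ} (ε δ : Fin N → ℤˣ) :
    sg u ε ≫ sg u δ = sg u (ε * δ) := by
  unfold sg
  rw [tfam_comp]
  congr 1
  funext i
  rw [Pi.mul_apply]
  rcases Int.units_eq_one_or (ε i) with h | h <;> rcases Int.units_eq_one_or (δ i) with h' | h' <;>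
    simp [h, h', hu]

theorem sg_cons (u : M ⟶ M) {N : ℕ} (ε : Fin N → ℤˣ) :
    sg u (Fin.cons 1 ε : Fin (N + 1) → ℤˣ) = wl M (sg u ε) := by
  unfold sg
  rw [tfam_succ]
  simp only [Fin.cons_zero, Fin.cons_succ, if_true]
  exact id_tensorHom _ _

variable [SymmetricCategory C]

theorem ps_sg (u : M ⟶ M) {N : ℕ} (σ : Perm (Fin N)) (ε : Fin N → ℤˣ) :
    ps M σ ≫ sg u ε = sg u (fun i => ε (σ i)) ≫ ps M σ := by
  have h : ∀ j, σ (σ⁻¹ j) = j := fun j => σ.apply_symm_apply j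
  have h1 := tfam_perm N σ (fun i => if ε (σ i) = 1 then 𝟙 M else u)
  unfold sg
  refine Eq.trans ?_ h1.symm
  simp only [h]
  rfl

/-- the group generated by the permutations and the involutions of the factors -/
def hyp (M : C) {u : M ⟶ M} (hu : u ≫ u = 𝟙 M) (N : ℕ) : Subgroup (End (tpow M N))ˣ where
  carrier := {a | ∃ (ε : Fin N → ℤˣ) (σ : Perm (Fin N)),
    (a : End (tpow M N)) = (sg u ε ≫ ps M σ : tpow M N ⟶ tpow M N)}
  mul_mem' := by
    rintro a b ⟨ε, σ, ha⟩ ⟨δ, τ, hb⟩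
    refine ⟨δ * (fun i => ε (τ i)), σ * τ, ?_⟩
    rw [Units.val_mul, ha, hb, End.mul_def, ← sg_mul hu, ← ps_comp, Category.assoc,
      Category.assoc]
    congr 1
    rw [← Category.assoc, ps_sg, Category.assoc]
  one_mem' := ⟨1, 1, by rw [sg_one, ps_one, Category.comp_id]; rfl⟩
  inv_mem' := by
    rintro a ⟨ε, σ, ha⟩
    refine ⟨fun i => ε (σ⁻¹ i), σ⁻¹, ?_⟩
    obtain ⟨b, hb⟩ : ∃ b : End (tpow M N), b = (sg u (fun i => ε (σ⁻¹ i)) ≫ ps M σ⁻¹ :
        tpow M N ⟶ tpow M N) := ⟨_, rfl⟩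
    have h1 : (a : End (tpow M N)) * b = 1 := by
      rw [ha, hb, End.mul_def, ← ps_sg u σ⁻¹ ε]
      have h3 : ε * ε = 1 := by
        funext i
        exact Int.units_mul_self _
      rw [Category.assoc, ← Category.assoc (sg u ε), sg_mul hu, h3, sg_one, Category.id_comp,
        ps_comp, mul_inv_cancel, ps_one]
      rfl
    rw [← hb]
    exact (Units.inv_eq_of_mul_eq_one_right h1)

instance (M : C) {u : M ⟶ M} (hu : u ≫ u = 𝟙 M) (N : ℕ) : Finite (hyp M hu N) := by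
  let F : (Fin N → ℤˣ) × Perm (Fin N) → End (tpow M N) := fun p =>
    (sg u p.1 ≫ ps M p.2 : tpow M N ⟶ tpow M N)
  have hF : (Set.range F).Finite := Set.finite_range F
  have := hF.to_subtype
  let G : hyp M hu N → Set.range F := fun a => ⟨a.1, by
    obtain ⟨ε, σ, h⟩ := a.2
    exact ⟨(ε, σ), h.symm⟩⟩
  refine Finite.of_injective G ?_
  intro a b hab
  apply Subtype.ext
  apply Units.ext
  exact congrArg Subtype.val hab

variable [Preadditive C] [Linear ℚ C]

/-- the representation of the group algebra -/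
noncomputable def hypRep (M : C) {u : M ⟶ M} (hu : u ≫ u = 𝟙 M) (N : ℕ) :
    MonoidAlgebra ℚ (hyp M hu N) →ₐ[ℚ] End (tpow M N) :=
  MonoidAlgebra.lift ℚ (End (tpow M N)) (hyp M hu N)
    ((Units.coeHom (End (tpow M N))).comp (hyp M hu N).subtype)

/-- the span of the group -/
def AN (u : M ⟶ M) (N : ℕ) : Submodule ℚ (tpow M N ⟶ tpow M N) :=
  Submodule.span ℚ (Set.range fun p : (Fin N → ℤˣ) × Perm (Fin N) => sg u p.1 ≫ ps M p.2)

theorem AN_gen (u : M ⟶ M) {N : ℕ} (ε : Fin N → ℤˣ) (σ : Perm (Fin N)) :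
    sg u ε ≫ ps M σ ∈ AN u N := Submodule.subset_span ⟨(ε, σ), rfl⟩

theorem AN_ps (u : M ⟶ M) {N : ℕ} (σ : Perm (Fin N)) : ps M σ ∈ AN u N := by
  have h := AN_gen u 1 σ
  rwa [sg_one, Category.id_comp] at h

theorem AN_sg (u : M ⟶ M) {N : ℕ} (ε : Fin N → ℤˣ) : sg u ε ∈ AN u N := by
  have h := AN_gen u ε 1
  rwa [ps_one, Category.comp_id] at h

theorem AN_za (u : M ⟶ M) {N : ℕ} (z : MonoidAlgebra ℚ (Perm (Fin N))) :
    za M z ∈ AN u N := by
  rw [za_eq]
  exact Submodule.sum_mem _ fun σ _ => Submodule.smul_mem _ _ (AN_ps u σ)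

theorem AN_comp {u : M ⟶ M} (hu : u ≫ u = 𝟙 M) {N : ℕ} {f g : tpow M N ⟶ tpow M N}
    (hf : f ∈ AN u N) (hg : g ∈ AN u N) : f ≫ g ∈ AN u N := by
  unfold AN at hf
  induction hf using Submodule.span_induction with
  | mem f hf =>
    obtain ⟨⟨ε, σ⟩, rfl⟩ := hf
    unfold AN at hg
    induction hg using Submodule.span_induction with
    | mem g hg =>
      obtain ⟨⟨δ, τ⟩, rfl⟩ := hg
      have h1 : (sg u ε ≫ ps M σ) ≫ sg u δ ≫ ps M τ =
          sg u (ε * fun i => δ (σ i)) ≫ ps M (τ * σ) := by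
        rw [← sg_mul hu, ← ps_comp, Category.assoc, Category.assoc]
        congr 1
        rw [← Category.assoc, ps_sg, Category.assoc]
      change (sg u ε ≫ ps M σ) ≫ sg u δ ≫ ps M τ ∈ _
      rw [h1]
      exact AN_gen u _ _
    | zero => rw [Limits.comp_zero]; exact Submodule.zero_mem _
    | add g g' _ _ ih ih' => rw [Preadditive.comp_add]; exact Submodule.add_mem _ ih ih'
    | smul c g _ ih => rw [Linear.comp_smul]; exact Submodule.smul_mem _ c ih
  | zero => rw [Limits.zero_comp]; exact Submodule.zero_mem _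
  | add f f' _ _ ih ih' => rw [Preadditive.add_comp]; exact Submodule.add_mem _ ih ih'
  | smul c f _ ih => rw [Linear.smul_comp]; exact Submodule.smul_mem _ c ih

theorem exists_hypRep {u : M ⟶ M} (hu : u ≫ u = 𝟙 M) {N : ℕ} {f : tpow M N ⟶ tpow M N}
    (hf : f ∈ AN u N) : ∃ x, hypRep M hu N x = f := by
  unfold AN at hf
  induction hf using Submodule.span_induction with
  | mem f hf =>
    obtain ⟨⟨ε, σ⟩, rfl⟩ := hf
    have h1 : ∃ a : hyp M hu N, ((a : (End (tpow M N))ˣ) : End (tpow M N)) =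
        (sg u ε ≫ ps M σ : tpow M N ⟶ tpow M N) := by
      have e1 : ε * ε = 1 := by
        funext i
        exact Int.units_mul_self _
      have e2 : (sg u ε ≫ ps M σ) ≫ ps M σ⁻¹ ≫ sg u ε = 𝟙 _ := by
        rw [Category.assoc, ← Category.assoc (ps M σ), ps_comp, inv_mul_cancel, ps_one,
          Category.id_comp, sg_mul hu, e1, sg_one]
      have e3 : (ps M σ⁻¹ ≫ sg u ε) ≫ (sg u ε ≫ ps M σ) = 𝟙 _ := by
        rw [Category.assoc, ← Category.assoc (sg u ε), sg_mul hu, e1, sg_one, Category.id_comp,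
          ps_comp, mul_inv_cancel, ps_one]
      exact ⟨⟨⟨(sg u ε ≫ ps M σ : tpow M N ⟶ tpow M N), (ps M σ⁻¹ ≫ sg u ε :
        tpow M N ⟶ tpow M N), e3, e2⟩, ε, σ, rfl⟩, rfl⟩
    obtain ⟨a, ha⟩ := h1
    refine ⟨MonoidAlgebra.single a 1, ?_⟩
    unfold hypRep
    rw [MonoidAlgebra.lift_single, one_smul]
    exact ha
  | zero => exact ⟨0, map_zero _⟩
  | add f f' _ _ ih ih' =>
    obtain ⟨x, hx⟩ := ih
    obtain ⟨y, hy⟩ := ih'
    exact ⟨x + y, by rw [map_add, hx, hy]⟩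
  | smul c f _ ih =>
    obtain ⟨x, hx⟩ := ih
    exact ⟨c • x, by rw [map_smul, hx]⟩

variable [MonoidalPreadditive C]

theorem AN_wl (u : M ⟶ M) {N : ℕ} {f : tpow M N ⟶ tpow M N} (hf : f ∈ AN u N) :
    wl M f ∈ AN u (N + 1) := by
  unfold AN at hf
  induction hf using Submodule.span_induction with
  | mem f hf =>
    obtain ⟨⟨ε, σ⟩, rfl⟩ := hf
    have h1 : wl M (sg u ε ≫ ps M σ) = sg u (Fin.cons 1 ε : Fin (N + 1) → ℤˣ) ≫ ps M (sh σ) := by
      rw [sg_cons, ps_sh]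
      exact MonoidalCategory.whiskerLeft_comp M _ _
    change wl M (sg u ε ≫ ps M σ) ∈ _
    rw [h1]
    exact AN_gen u _ _
  | zero =>
    have h : wl M (0 : tpow M N ⟶ tpow M N) = 0 := MonoidalPreadditive.whiskerLeft_zero
    rw [h]
    exact Submodule.zero_mem _
  | add f f' _ _ ih ih' =>
    have h : wl M (f + f') = wl M f + wl M f' := MonoidalPreadditive.whiskerLeft_add ..
    rw [h]
    exact Submodule.add_mem _ ih ih'
  | smul c f _ ih =>
    have h : wl M (c • f) = c • wl M f := whiskerLeft_qsmul M c f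
    rw [h]
    exact Submodule.smul_mem _ c ih

theorem AN_tmap {u : M ⟶ M} (hu : u ≫ u = 𝟙 M) (c d : ℚ) (N : ℕ) :
    tmap (c • 𝟙 M + d • u) N ∈ AN u N := by
  induction N with
  | zero =>
    have h := AN_ps (M := M) u (1 : Perm (Fin 0))
    rwa [ps_one] at h
  | succ N ih =>
    have h1 : tmap (c • 𝟙 M + d • u) (N + 1) =
        c • wl M (tmap (c • 𝟙 M + d • u) N) +
        d • (sg u (Fin.cons (-1) 1 : Fin (N + 1) → ℤˣ) ≫
          wl M (tmap (c • 𝟙 M + d • u) N)) := by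
      have h2 : sg u (Fin.cons (-1) 1 : Fin (N + 1) → ℤˣ) = (u ▷ tpow M N :
          tpow M (N + 1) ⟶ tpow M (N + 1)) := by
        unfold sg
        rw [tfam_succ]
        simp only [Fin.cons_zero, Fin.cons_succ, Pi.one_apply, if_true]
        have h3 : ¬ ((-1 : ℤˣ) = 1) := by decide
        rw [if_neg h3, tfam_one]
        exact tensorHom_id _ _
      obtain ⟨t, ht⟩ : ∃ t, t = tmap (c • 𝟙 M + d • u) N := ⟨_, rfl⟩
      rw [h2, tmap_succ, ← ht, MonoidalPreadditive.add_tensor, qsmul_tensor, qsmul_tensor,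
        id_tensorHom, MonoidalCategory.tensorHom_def]
      rfl
    rw [h1]
    exact Submodule.add_mem _ (Submodule.smul_mem _ _ (AN_wl u ih))
      (Submodule.smul_mem _ _ (AN_comp hu (AN_sg u _) (AN_wl u ih)))

end Sg

end Pool.Agent.MP_6e5bed_ag
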