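import Pool.Agent.Lib.MP_6e5bed_ag.SQuot

set_option autoImplicit false

/-!
# The ideal of the numerically trivial morphisms
-/

namespace Pool.Agent.MP_6e5bed_ag

open CategoryTheory MonoidalCategory Equiv

universe v u v' u'

section Loop

variable {C : Type u} [Category.{v} C] [MonoidalCategory C] [SymmetricCategory C]

/-- The trace as an endomorphism of the unit. -/
def loop (X : C) [HasLeftDual X] (f : X ⟶ X) : 𝟙_ C ⟶ 𝟙_ C :=
  η_ (ᘁX) X ≫ (ᘁX) ◁ f ≫ (β_ (ᘁX) X).hom ≫ ε_ (ᘁX) X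

theorem loop_comm {X Y : C} [HasLeftDual X] [HasLeftDual Y] (f : X ⟶ Y) (g : Y ⟶ X) :
    loop X (f ≫ g) = loop Y (g ≫ f) := by
  unfold loop
  calc η_ (ᘁX) X ≫ (ᘁX) ◁ (f ≫ g) ≫ (β_ (ᘁX) X).hom ≫ ε_ (ᘁX) X
      = η_ (ᘁX) X ≫ (ᘁX) ◁ f ≫ (β_ (ᘁX) Y).hom ≫ g ▷ (ᘁX : C) ≫ ε_ (ᘁX) X := by
        rw [MonoidalCategory.whiskerLeft_comp, Category.assoc,
          BraidedCategory.braiding_naturality_right_assoc]
    _ = η_ (ᘁX) X ≫ (ᘁX) ◁ f ≫ (β_ (ᘁX) Y).hom ≫ Y ◁ (leftAdjointMate g) ≫ ε_ (ᘁY) Y := by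
        rw [← leftAdjointMate_comp_evaluation]
    _ = η_ (ᘁX) X ≫ (leftAdjointMate g) ▷ X ≫ (ᘁY) ◁ f ≫ (β_ (ᘁY) Y).hom ≫ ε_ (ᘁY) Y := by
        rw [← BraidedCategory.braiding_naturality_left_assoc, ← whisker_exchange_assoc]
    _ = _ := by
        rw [coevaluation_comp_leftAdjointMate_assoc, MonoidalCategory.whiskerLeft_comp,
          Category.assoc]

theorem ptr_eq_loop (X : C) [HasLeftDual X] (f : X ⟶ X) (S : C) :
    ptr X (f ▷ S) = (λ_ S).inv ≫ loop X f ▷ S ≫ (λ_ S).hom := by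
  unfold ptr loop
  monoidal

variable [Preadditive C] [Linear ℚ C] [RatUnit C]

theorem loop_eq (X : C) [HasLeftDual X] (f : X ⟶ X) : loop X f = tr X f • 𝟙 (𝟙_ C) := by
  have h : ptr X (f ▷ 𝟙_ C) = loop X f := by
    rw [ptr_eq_loop, unitors_equal, rightUnitor_naturality, unitors_inv_equal,
      Iso.inv_hom_id_assoc]
  unfold tr
  rw [h]
  exact sc_spec _

theorem tr_eq_of_loop {X : C} [HasLeftDual X] {f : X ⟶ X} {c : ℚ}
    (h : loop X f = c • 𝟙 (𝟙_ C)) : tr X f = c := by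
  rw [loop_eq] at h
  have h2 : (tr X f - c) • 𝟙 (𝟙_ C) = 0 := by rw [sub_smul, h, sub_self]
  rcases smul_eq_zero.1 h2 with h3 | h3
  · exact sub_eq_zero.1 h3
  · exact absurd h3 RatUnit.ne

/-- cyclicity of the trace -/
theorem tr_cyc {X Y : C} [HasLeftDual X] [HasLeftDual Y] (f : X ⟶ Y) (g : Y ⟶ X) :
    tr X (f ≫ g) = tr Y (g ≫ f) := by
  apply tr_eq_of_loop
  rw [loop_comm, loop_eq]

/-- the trace does not depend on the choice of the dual -/
theorem tr_indep (X : C) (d₁ d₂ : HasLeftDual X) (f : X ⟶ X) :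
    @tr C _ _ _ _ _ X d₁ _ f = @tr C _ _ _ _ _ X d₂ _ f := by
  have h := @tr_cyc C _ _ _ _ _ _ X X d₁ d₂ f (𝟙 X)
  rwa [Category.comp_id, Category.id_comp] at h

theorem NumZ.indep {X Y : C} {d₁ d₂ : HasLeftDual X} {f : X ⟶ Y}
    (h : @NumZ C _ _ _ _ _ _ X Y d₁ f) : @NumZ C _ _ _ _ _ _ X Y d₂ f := by
  intro g
  rw [tr_indep X d₂ d₁]
  exact h g

end Loop

section Proj

variable {C : Type u} [Category.{v} C] [MonoidalCategory C] [SymmetricCategory C]
  [Preadditive C] [Linear ℚ C] [MonoidalPreadditive C]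

namespace TQ

variable (J : TIdeal C)

/-- The dual in the quotient category. -/
@[implicit_reducible]
def projDual (X : C) [HasLeftDual X] : HasLeftDual ((proj J).obj X) where
  leftDual := (proj J).obj (ᘁX)
  exact :=
    { coevaluation' := cl (η_ (ᘁX) X)
      evaluation' := cl (ε_ (ᘁX) X)
      coevaluation_evaluation' := congrArg cl (ExactPairing.coevaluation_evaluation (ᘁX) X)
      evaluation_coevaluation' := congrArg cl (ExactPairing.evaluation_coevaluation (ᘁX) X) }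

theorem loop_proj (X : C) [HasLeftDual X] (f : X ⟶ X) :
    @loop (TQ J) _ _ _ ((proj J).obj X) (projDual J X) ((proj J).map f) =
      (proj J).map (loop X f) := rfl

theorem ratUnit_of [RatUnit C] (h : 𝟙 (𝟙_ C) ∉ J.sub (𝟙_ C) (𝟙_ C)) : RatUnit (TQ J) where
  ex a := by
    obtain ⟨a, rfl⟩ := cl_surj a
    obtain ⟨c, hc⟩ := RatUnit.ex a
    exact ⟨c, congrArg cl hc⟩
  ne h1 := h (cl_eq_zero.1 h1)

theorem tr_proj [RatUnit C] [RatUnit (TQ J)] (X : C) (d : HasLeftDual X)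
    (d' : HasLeftDual ((proj J).obj X)) (f : X ⟶ X) :
    tr ((proj J).obj X) ((proj J).map f) = tr X f := by
  rw [tr_indep _ d' (projDual J X)]
  refine @tr_eq_of_loop (TQ J) _ _ _ _ _ _ _ (projDual J X) _ _ ?_
  rw [loop_proj, loop_eq]
  rfl

end TQ

end Proj

section NumIdeal

variable (C : Type u) [Category.{v} C] [MonoidalCategory C] [SymmetricCategory C]
  [Preadditive C] [Linear ℚ C] [MonoidalPreadditive C] [LeftRigidCategory C] [RatUnit C]

theorem numZ_whiskerLeft {C : Type u} [Category.{v} C] [MonoidalCategory C] [SymmetricCategory C]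
    [Preadditive C] [Linear ℚ C] [MonoidalPreadditive C] [RatUnit C] (X : C) {Y Z : C}
    [HasLeftDual X] [HasLeftDual Y] {f : Y ⟶ Z} (h : NumZ f) :
    @NumZ C _ _ _ _ _ _ (X ⊗ Y) (X ⊗ Z) hasLeftDualTensor (X ◁ f) := by
  intro g
  rw [tr_eq_tr_ptr, ptr_nat_left]
  exact h _

/-- The ideal of the numerically trivial morphisms. -/
def numIdeal : TIdeal C where
  sub X Y :=
    { carrier := {f | NumZ f}
      add_mem' := fun {f g} hf hg k => by
        rw [Preadditive.add_comp, tr_add, hf k, hg k, add_zero]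
      zero_mem' := fun k => by rw [Limits.zero_comp, tr_zero]
      smul_mem' := fun c f hf k => by
        rw [Linear.smul_comp, tr_smul, hf k, mul_zero] }
  comp_left {X Y Z} f {g} hg k := by
    rw [Category.assoc, tr_cyc, Category.assoc]
    exact hg _
  comp_right {X Y Z f} g hf k := by
    rw [Category.assoc]
    exact hf _
  whiskerLeft X {Y Z f} hf := (numZ_whiskerLeft X hf).indep
  whiskerRight X {Y Z f} hf k := by
    have h1 : f ▷ X = (β_ Y X).hom ≫ X ◁ f ≫ (β_ X Z).hom := by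
      rw [BraidedCategory.braiding_naturality_right, SymmetricCategory.symmetry_assoc]
    have h2 : f ▷ X ≫ k = (β_ Y X).hom ≫ (X ◁ f ≫ (β_ X Z).hom ≫ k) := by
      rw [h1, Category.assoc, Category.assoc]
    rw [h2, tr_cyc, Category.assoc]
    exact (numZ_whiskerLeft X hf).indep _

theorem mem_numIdeal {X Y : C} (f : X ⟶ Y) : f ∈ (numIdeal C).sub X Y ↔ NumZ f := Iff.rfl

instance : RatUnit (TQ (numIdeal C)) := by
  apply TQ.ratUnit_of
  intro h
  have h1 := h (𝟙 _)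
  rw [Category.comp_id, tr_indep _ _ hasLeftDualUnit, tr_unit, sc_eq (c := 1) (by rw [one_smul])] at h1
  exact one_ne_zero h1

instance : LeftRigidCategory (TQ (numIdeal C)) where
  leftDual X := TQ.projDual (numIdeal C) X.as

instance : NumFree (TQ (numIdeal C)) where
  eq_zero {X Y d} f hf := by
    obtain ⟨f, rfl⟩ := TQ.cl_surj f
    refine TQ.cl_eq_zero.2 fun g => ?_
    rw [← TQ.tr_proj (numIdeal C) X.as _ d]
    exact hf (TQ.cl g)

end NumIdeal

end Pool.Agent.MP_6e5bed_ag
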