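import Mathlib

set_option autoImplicit false

/-!
# Power sums and radicals
-/

namespace Pool.Agent.MP_6e5bed_ag

open Finset

section Comm

variable {R : Type*} [CommRing R] [Algebra ℚ R]

open MvPolynomial in
theorem esymm_mem_of_psum (I : Ideal R) {n : ℕ} (x : Fin n → R)
    (h : ∀ k, 0 < k → ∑ i, x i ^ k ∈ I) (k : ℕ) (hk : 0 < k) :
    (univ.val.map x).esymm k ∈ I := by
  have h1 := congrArg (aeval x) (mul_esymm_eq_sum (Fin n) ℚ k)
  rw [map_mul, map_natCast, aeval_esymm_eq_multiset_esymm] at h1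
  have h2 : (k : R) * (univ.val.map x).esymm k ∈ I := by
    rw [h1, map_mul, map_sum]
    refine I.mul_mem_left _ (I.sum_mem fun a ha => ?_)
    rw [map_mul]
    refine I.mul_mem_left _ ?_
    have h3 : aeval x (psum (Fin n) ℚ a.2) = ∑ i, x i ^ a.2 := by
      rw [psum, map_sum]
      refine Finset.sum_congr rfl fun i _ => ?_
      rw [map_pow, aeval_X]
    rw [h3]
    apply h
    have h4 := (Finset.mem_filter.1 ha).1
    have h5 := (Finset.mem_filter.1 ha).2
    rw [HasAntidiagonal.mem_antidiagonal] at h4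
    omega
  have h3 := I.mul_mem_left (algebraMap ℚ R (k : ℚ)⁻¹) h2
  rw [← mul_assoc, ← map_natCast (algebraMap ℚ R) k, ← map_mul,
    inv_mul_cancel₀ (Nat.cast_ne_zero.2 hk.ne'), map_one, one_mul] at h3
  exact h3

/-- if all power sums are in the ideal, then the `n`-th powers are -/
theorem pow_mem_of_psum (I : Ideal R) {n : ℕ} (x : Fin n → R)
    (h : ∀ k, 0 < k → ∑ i, x i ^ k ∈ I) (i : Fin n) : x i ^ n ∈ I := by
  have h1 := congrArg (Polynomial.eval (x i))
    (Multiset.prod_X_sub_X_eq_sum_esymm (univ.val.map x))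
  have hc : Multiset.card (univ.val.map x) = n := by
    rw [Multiset.card_map]
    exact Fintype.card_fin n
  rw [hc] at h1
  have h2 : Polynomial.eval (x i) ((univ.val.map x).map fun t =>
      Polynomial.X - Polynomial.C t).prod = 0 := by
    rw [Polynomial.eval_multiset_prod, Multiset.map_map]
    apply Multiset.prod_eq_zero
    rw [Multiset.mem_map]
    refine ⟨x i, Multiset.mem_map_of_mem _ (Finset.mem_univ_val i), ?_⟩
    simp
  rw [h2, Finset.sum_range_succ', Polynomial.eval_add, Polynomial.eval_finsetSum] at h1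
  have h3 : Polynomial.eval (x i) ((-1) ^ 0 * (Polynomial.C ((univ.val.map x).esymm 0) *
      Polynomial.X ^ (n - 0))) = x i ^ n := by
    have h0 : (univ.val.map x).esymm 0 = 1 := by
      rw [Multiset.esymm, Multiset.powersetCard_zero_left, Multiset.map_singleton,
        Multiset.prod_zero, Multiset.sum_singleton]
    rw [h0]
    simp
  rw [h3] at h1
  have h4 : ∑ j ∈ range n, Polynomial.eval (x i) ((-1) ^ (j + 1) *
      (Polynomial.C ((univ.val.map x).esymm (j + 1)) * Polynomial.X ^ (n - (j + 1)))) ∈ I := by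
    refine I.sum_mem fun j _ => ?_
    rw [Polynomial.eval_mul, Polynomial.eval_mul, Polynomial.eval_C]
    exact I.mul_mem_left _ (I.mul_mem_right _ (esymm_mem_of_psum I x h (j + 1) (Nat.succ_pos j)))
  have h5 : x i ^ n = -∑ j ∈ range n, Polynomial.eval (x i) ((-1) ^ (j + 1) *
      (Polynomial.C ((univ.val.map x).esymm (j + 1)) * Polynomial.X ^ (n - (j + 1)))) := by
    rw [eq_neg_iff_add_eq_zero, add_comm]
    exact h1.symm
  rw [h5]
  exact I.neg_mem h4

theorem rad_of_psum (I : Ideal R) {n : ℕ} (x : Fin n → R)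
    (h : ∀ k, 0 < k → ∃ N, (∑ i, x i ^ k) ^ N ∈ I) (i : Fin n) : ∃ N, x i ^ N ∈ I := by
  have h1 : x i ^ n ∈ I.radical := pow_mem_of_psum I.radical x
    (fun k hk => Ideal.mem_radical_iff.2 (h k hk)) i
  obtain ⟨N, hN⟩ := Ideal.mem_radical_iff.1 h1
  exact ⟨n * N, by rw [pow_mul]; exact hN⟩

end Comm

section NC

variable {A : Type*} [Ring A] [Algebra ℚ A]

open scoped IsMulCommutative in
/-- the noncommutative form: commuting elements of an algebra -/
theorem nc_psum {n : ℕ} (x : Fin n → A) (hc : ∀ i j, Commute (x i) (x j)) (y : A)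
    (h : ∀ k, 0 < k → ∃ N, (∑ i, x i ^ k) ^ N * y = 0) : ∃ N, ∀ i, x i ^ N * y = 0 := by
  have hcomm := Algebra.isMulCommutative_adjoin ℚ (s := Set.range x) (by
    rintro _ ⟨i, rfl⟩ _ ⟨j, rfl⟩
    exact (hc i j).eq)
  let S := Algebra.adjoin ℚ (Set.range x)
  let I : Ideal S :=
    { carrier := {r | (r : A) * y = 0}
      add_mem' := fun {a b} ha hb => by
        show ((a + b : S) : A) * y = 0
        rw [Subalgebra.coe_add, add_mul, ha, hb, add_zero]
      zero_mem' := by
        show ((0 : S) : A) * y = 0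
        rw [Subalgebra.coe_zero, zero_mul]
      smul_mem' := fun c a ha => by
        show ((c * a : S) : A) * y = 0
        rw [Subalgebra.coe_mul, mul_assoc, ha, mul_zero] }
  let x' : Fin n → S := fun i => ⟨x i, Algebra.subset_adjoin (Set.mem_range_self i)⟩
  have key : ∀ i, ∃ N, x' i ^ N ∈ I := by
    intro i
    refine rad_of_psum I x' (fun k hk => ?_) i
    obtain ⟨N, hN⟩ := h k hk
    refine ⟨N, ?_⟩
    show (((∑ i, x' i ^ k) ^ N : S) : A) * y = 0
    have h1 : (((∑ i, x' i ^ k) ^ N : S) : A) = (∑ i, x i ^ k) ^ N := by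
      rw [Subalgebra.coe_pow]
      congr 1
      have h2 := map_sum S.val (fun i => x' i ^ k) Finset.univ
      refine h2.trans (Finset.sum_congr rfl fun i _ => ?_)
      exact Subalgebra.coe_pow _ _ _
    rw [h1]
    exact hN
  choose N hN using key
  refine ⟨∑ i, N i, fun i => ?_⟩
  have h1 : ((x' i ^ N i : S) : A) * y = 0 := hN i
  rw [Subalgebra.coe_pow] at h1
  have h2 : N i ≤ ∑ i, N i := Finset.single_le_sum (fun _ _ => Nat.zero_le _) (Finset.mem_univ i)
  obtain ⟨c, hc'⟩ := Nat.exists_eq_add_of_le' h2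
  rw [hc', pow_add, mul_assoc]
  have h3 : x i ^ N i * y = 0 := h1
  rw [h3, mul_zero]

end NC

end Pool.Agent.MP_6e5bed_ag
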