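import Pool.Agent.Lib.MP_6e5bed_ag.BSwap
import Pool.Agent.Lib.MP_6e5bed_ag.SNum
import Pool.Agent.Lib.MP_6e5bed_ag.SRad

set_option autoImplicit false

/-!
# Numerically trivial endomorphisms of Kimura-finite objects are nilpotent
-/

namespace Pool.Agent.MP_6e5bed_ag

open CategoryTheory MonoidalCategory Equiv

universe v u

section Slots

variable {C : Type u} [Category.{v} C] [MonoidalCategory C]

theorem eq_of_whisker_unit {S T : C} {f g : S ⟶ T} (h : f ▷ 𝟙_ C = g ▷ 𝟙_ C) : f = g := by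
  rw [← cancel_epi (ρ_ S).hom, ← rightUnitor_naturality, ← rightUnitor_naturality, h]

theorem sl_comp {M : C} (f g : M ⟶ M) (n : ℕ) (i : Fin n) :
    sl (f ≫ g) n i = sl f n i ≫ sl g n i := by
  induction n with
  | zero => exact i.elim0
  | succ n ih =>
    refine Fin.cases ?_ (fun j => ?_) i
    · exact comp_whiskerRight f g _
    · change M ◁ sl (f ≫ g) n j = M ◁ sl f n j ≫ M ◁ sl g n j
      rw [ih j, MonoidalCategory.whiskerLeft_comp]

theorem sl_id {M : C} (n : ℕ) (i : Fin n) : sl (𝟙 M) n i = 𝟙 (tpow M n) := by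
  induction n with
  | zero => exact i.elim0
  | succ n ih =>
    refine Fin.cases ?_ (fun j => ?_) i
    · exact id_whiskerRight M _
    · change M ◁ sl (𝟙 M) n j = _
      rw [ih j]
      exact MonoidalCategory.whiskerLeft_id M _

theorem sl_comm {M : C} (f g : M ⟶ M) (n : ℕ) (i j : Fin n) (hij : i ≠ j) :
    sl f n i ≫ sl g n j = sl g n j ≫ sl f n i := by
  induction n with
  | zero => exact i.elim0
  | succ n ih =>
    revert hij
    refine Fin.cases ?_ (fun i => ?_) i
    · refine Fin.cases ?_ (fun j => ?_) j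
      · intro h
        exact absurd rfl h
      · intro _
        exact (whisker_exchange f (sl g n j)).symm
    · refine Fin.cases ?_ (fun j => ?_) j
      · intro _
        exact whisker_exchange g (sl f n i)
      · intro h
        change M ◁ sl f n i ≫ M ◁ sl g n j = M ◁ sl g n j ≫ M ◁ sl f n i
        rw [← MonoidalCategory.whiskerLeft_comp, ih i j (fun h' => h (by rw [h'])),
          MonoidalCategory.whiskerLeft_comp]

theorem sl_pow {M : C} (f : M ⟶ M) (n : ℕ) (i : Fin n) (k : ℕ) :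
    (show End (tpow M n) from sl f n i) ^ k = sl (show M ⟶ M from (show End M from f) ^ k) n i := by
  induction k with
  | zero =>
    rw [pow_zero, pow_zero]
    exact (sl_id n i).symm
  | succ k ih =>
    rw [pow_succ, pow_succ, ih]
    exact (sl_comp f _ n i).symm

theorem tmap_sl {M : C} (v w : M ⟶ M) (n : ℕ) :
    tmap v (n + 1) ≫ sl w (n + 1) 0 = um (v ≫ w) v n := by
  change (v ⊗ₘ tmap v n) ≫ (w ▷ tpow M n) = ((v ≫ w) ⊗ₘ tmap v n)
  rw [← tensorHom_id, tensorHom_comp_tensorHom, Category.comp_id]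

variable [SymmetricCategory C]

/-- equivariance -/
theorem sl_ps {M : C} (f : M ⟶ M) (n : ℕ) (i : Fin n) (σ : Perm (Fin n)) :
    sl f n i ≫ ps M σ = ps M σ ≫ sl f n (σ i) := by
  have h := fs_pw (f ▷ 𝟙_ C) n i σ
  rw [fs_end, fs_end] at h
  unfold pw at h
  rw [← la_comp, ← la_comp] at h
  exact eq_of_whisker_unit (la_injective _ h)

end Slots

section Nil

variable {C : Type u} [Category.{v} C] [MonoidalCategory C] [SymmetricCategory C]
  [Preadditive C] [MonoidalPreadditive C] [Linear ℚ C] [RatUnit C]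

omit [MonoidalCategory C] [SymmetricCategory C] [Preadditive C] [MonoidalPreadditive C]
  [Linear ℚ C] [RatUnit C] in
theorem epow_eq {X : C} (v : X ⟶ X) (k : ℕ) : epow v k = (show End X from v) ^ k := by
  induction k with
  | zero => rfl
  | succ k ih =>
    rw [pow_succ, ← ih]
    rfl

/-- the pure case -/
theorem pure_step (χ : ℤˣ →* ℤ) (X : C) [HasLeftDual X] {v : X ⟶ X}
    (htr : ∀ k, tr X (epow v (k + 1)) = 0) (m K : ℕ) (hK : 0 < K)
    (h : ∀ a, K ≤ a → gSum χ X (m + 2) ≫ um (epow v a) v (m + 1) = 0) :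
    ∀ a, K ≤ a → gSum χ X (m + 1) ≫ tmap v (m + 1) ≫ ∑ p, sl (epow v a) (m + 1) p = 0 := by
  intro a ha
  have h1 := ptrp_gSum χ X (epow v a) v m
  rw [h a ha] at h1
  have h0 : ptrp X (0 : tpow X (m + 2) ⟶ tpow X (m + 2)) = 0 := ptr_zero X
  obtain ⟨b, rfl⟩ : ∃ b, a = b + 1 := ⟨a - 1, by omega⟩
  rw [h0, htr, zero_smul, zero_add] at h1
  have hcomm : epow v (b + 1) ≫ v = v ≫ epow v (b + 1) := by
    rw [epow_eq]
    exact (Commute.self_pow (show End X from v) (b + 1)).eq
  have h2 : ∀ p : Fin (m + 1), χ (Perm.sign (swap 0 p)) •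
      (gSum χ X (m + 1) ≫ um (epow v (b + 1) ≫ v) v m ≫ ps X (swap 0 p)) =
      gSum χ X (m + 1) ≫ tmap v (m + 1) ≫ sl (epow v (b + 1)) (m + 1) p := by
    intro p
    rw [hcomm, ← tmap_sl, Category.assoc, sl_ps, swap_apply_left, ← Category.assoc (tmap v (m + 1)),
      ps_nat, Category.assoc, ← Category.assoc (gSum χ X (m + 1)), gSum_ps,
      Preadditive.zsmul_comp, smul_smul, chi_mul_self, one_smul]
  rw [Finset.sum_congr rfl fun p _ => h2 p, ← Preadditive.comp_sum, ← Preadditive.comp_sum] at h1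
  have h3 := congrArg (fun f => χ (-1) • f) h1
  simp only [smul_zero, smul_smul, chi_mul_self, one_smul] at h3
  exact h3.symm

theorem pure_descend (χ : ℤˣ →* ℤ) (X : C) [HasLeftDual X] {v : X ⟶ X}
    (htr : ∀ k, tr X (epow v (k + 1)) = 0) (n : ℕ) : ∀ K, 0 < K →
    (∀ a, K ≤ a → gSum χ X (n + 1) ≫ um (epow v a) v n = 0) → ∃ N, epow v N = 0 := by
  induction n with
  | zero =>
    intro K _ h
    have h1 := h K le_rfl
    rw [gSum_succ, Fin.sum_univ_zero, smul_zero, add_zero, gSum_zero] at h1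
    have h2 : X ◁ 𝟙 (𝟙_ C) ≫ (epow v K ⊗ₘ 𝟙 (𝟙_ C)) = 0 := h1
    rw [MonoidalCategory.whiskerLeft_id, Category.id_comp, tensorHom_id] at h2
    refine ⟨K, eq_of_whisker_unit ?_⟩
    rw [h2]
    exact MonoidalPreadditive.zero_whiskerRight.symm
  | succ m ih =>
    intro K hK h
    have h1 := pure_step χ X htr m K hK h
    let y : End (tpow X (m + 1)) := gSum χ X (m + 1) ≫ tmap v (m + 1)
    let x : Fin (m + 1) → End (tpow X (m + 1)) := fun p => sl (epow v K) (m + 1) p
    have hxp : ∀ p k, x p ^ k = sl (epow v (K * k)) (m + 1) p := by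
      intro p k
      have h2 := sl_pow (epow v K) (m + 1) p k
      rw [epow_eq, pow_mul, ← epow_eq v K]
      exact h2
    have hc : ∀ i j, Commute (x i) (x j) := by
      intro i j
      by_cases hij : i = j
      · rw [hij]
      · exact (sl_comm (epow v K) (epow v K) (m + 1) j i (Ne.symm hij))
    obtain ⟨N, hN⟩ := nc_psum x hc y (fun k hk => ⟨1, by
      rw [pow_one]
      have h2 := h1 (K * k) (Nat.le_mul_of_pos_right K hk)
      have h3 : ∑ i, x i ^ k = ∑ p, sl (epow v (K * k)) (m + 1) p :=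
        Finset.sum_congr rfl fun p _ => hxp p k
      rw [h3]
      exact (Category.assoc _ _ _).trans h2⟩)
    refine ih (K * N + 1) (Nat.succ_pos _) fun a ha => ?_
    obtain ⟨b, rfl⟩ : ∃ b, a = K * N + b + 1 := ⟨a - (K * N + 1), by omega⟩
    have h2 : y ≫ sl (epow v (K * N)) (m + 1) 0 = 0 := by
      rw [← hxp 0 N]
      exact hN 0
    have h3 : epow v (K * N + b) = epow v (K * N) ≫ epow v b := by
      rw [epow_eq, epow_eq, epow_eq, add_comm, pow_add]
      rfl
    have h4 : um (epow v (K * N + b + 1)) v m =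
        tmap v (m + 1) ≫ sl (epow v (K * N)) (m + 1) 0 ≫ sl (epow v b) (m + 1) 0 := by
      rw [← sl_comp, ← h3, tmap_sl]
      rfl
    rw [h4]
    have h5 : gSum χ X (m + 1) ≫ tmap v (m + 1) ≫ sl (epow v (K * N)) (m + 1) 0 ≫
        sl (epow v b) (m + 1) 0 = (y ≫ sl (epow v (K * N)) (m + 1) 0) ≫
        sl (epow v b) (m + 1) 0 := by
      simp only [Category.assoc]
      exact (Category.assoc _ _ _).symm
    rw [h5, h2, Limits.zero_comp]

theorem pure_nil (χ : ℤˣ →* ℤ) (X : C) [HasLeftDual X] {v : X ⟶ X}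
    (htr : ∀ k, tr X (epow v (k + 1)) = 0) {n : ℕ} (h : gSum χ X n ≫ tmap v n = 0) :
    IsNilpotent (R := End X) v := by
  have h1 := kill_succ χ h
  obtain ⟨N, hN⟩ := pure_descend χ X htr n 1 one_pos (fun a ha => by
    obtain ⟨b, rfl⟩ : ∃ b, a = b + 1 := ⟨a - 1, by omega⟩
    have h2 : um (epow v (b + 1)) v n = tmap v (n + 1) ≫ sl (epow v b) (n + 1) 0 := by
      rw [tmap_sl]
      rfl
    rw [h2, ← Category.assoc, h1, Limits.zero_comp])
  refine ⟨N, ?_⟩
  rw [← epow_eq]
  exact hN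

theorem nil_part (χ : ℤˣ →* ℤ) {X : C} [HasLeftDual X] {e : X ⟶ X} {r : ℕ}
    (h : gSum χ X r ≫ tmap e r = 0) {f : X ⟶ X} (hf : NumZ f) :
    IsNilpotent (R := End X) (show X ⟶ X from e ≫ f ≫ e) := by
  apply pure_nil χ X (n := r)
  · intro k
    have h1 : epow (e ≫ f ≫ e) (k + 1) = e ≫ (f ≫ e ≫ epow (e ≫ f ≫ e) k) := by
      change (e ≫ f ≫ e) ≫ epow (e ≫ f ≫ e) k = _
      simp only [Category.assoc]
    rw [h1, tr_comm, Category.assoc]
    exact hf _
  · rw [tmap_comp, ← Category.assoc, h, Limits.zero_comp]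

omit [Linear ℚ C] [RatUnit C] in
theorem tNil_pow_sub {X : C} {f w : X ⟶ X} (h : TNil (f - w)) (k : ℕ) :
    TNil (show X ⟶ X from (show End X from f) ^ k - (show End X from w) ^ k) := by
  induction k with
  | zero =>
    rw [pow_zero, pow_zero, sub_self]
    exact tNil_zero X X
  | succ k ih =>
    have h1 := (h.comp_right (show X ⟶ X from (show End X from f) ^ k)).add (ih.comp_left w)
    have h2 : (f - w) ≫ (show X ⟶ X from (show End X from f) ^ k) +
        w ≫ (show X ⟶ X from (show End X from f) ^ k - (show End X from w) ^ k) =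
        (show X ⟶ X from (show End X from f) ^ (k + 1) - (show End X from w) ^ (k + 1)) := by
      rw [pow_succ, pow_succ]
      change (f - w) ≫ (show X ⟶ X from (show End X from f) ^ k) +
        w ≫ ((show X ⟶ X from (show End X from f) ^ k) -
          (show X ⟶ X from (show End X from w) ^ k)) =
        f ≫ (show X ⟶ X from (show End X from f) ^ k) -
          w ≫ (show X ⟶ X from (show End X from w) ^ k)
      rw [Preadditive.sub_comp, Preadditive.comp_sub]
      abel
    rwa [h2] at h1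

/-- a numerically trivial endomorphism of a Kimura-finite object is nilpotent -/
theorem nilp {X : C} [HasLeftDual X] (h : OpKF X) {f : X ⟶ X} (hf : NumZ f) :
    IsNilpotent (R := End X) f := by
  obtain ⟨e, he, ⟨r, hr⟩, ⟨s, hs⟩⟩ := h
  obtain ⟨g, hg⟩ : ∃ g, g = 𝟙 X - e := ⟨_, rfl⟩
  rw [← hg] at hs
  have heg : e ≫ g = 0 := by
    rw [hg, Preadditive.comp_sub, Category.comp_id, he, sub_self]
  have hge : g ≫ e = 0 := by
    rw [hg, Preadditive.sub_comp, Category.id_comp, he, sub_self]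
  have ha := nil_part (Units.coeHom ℤ) (e := e) (r := r) (by rw [gSum_coe]; exact hr) hf
  have hb := nil_part 1 (e := g) (r := s) (by rw [gSum_one]; exact hs) hf
  have hab : (show End X from e ≫ f ≫ e) * (show End X from g ≫ f ≫ g) = 0 := by
    change (g ≫ f ≫ g) ≫ (e ≫ f ≫ e) = 0
    simp only [Category.assoc]
    rw [← Category.assoc g e, hge, Limits.zero_comp, Limits.comp_zero, Limits.comp_zero]
  have hba : (show End X from g ≫ f ≫ g) * (show End X from e ≫ f ≫ e) = 0 := by
    change (e ≫ f ≫ e) ≫ (g ≫ f ≫ g) = 0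
    simp only [Category.assoc]
    rw [← Category.assoc e g, heg, Limits.zero_comp, Limits.comp_zero, Limits.comp_zero]
  have hw : IsNilpotent ((show End X from e ≫ f ≫ e) + (show End X from g ≫ f ≫ g)) :=
    Commute.isNilpotent_add (hab.trans hba.symm) ha hb
  have ht : TNil (f - (e ≫ f ≫ e + g ≫ f ≫ g)) := by
    have h1 := (tNil_comp_alt_sym hr hs f).add (tNil_comp_sym_alt hr hs f)
    have h2 : e ≫ f ≫ g + g ≫ f ≫ e = f - (e ≫ f ≫ e + g ≫ f ≫ g) := by
      rw [hg]
      simp only [Preadditive.comp_sub, Preadditive.sub_comp, Category.id_comp, Category.comp_id]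
      abel
    rwa [h2] at h1
  obtain ⟨k, hk⟩ := hw
  have h3 := tNil_pow_sub ht k
  have h4 : (show X ⟶ X from (show End X from f) ^ k -
      (show End X from (e ≫ f ≫ e + g ≫ f ≫ g)) ^ k) = (show X ⟶ X from (show End X from f) ^ k) := by
    have h5 : (show End X from (e ≫ f ≫ e + g ≫ f ≫ g)) ^ k = 0 := hk
    rw [h5, sub_zero]
  rw [h4] at h3
  have h5 := TNil.isNilpotent (M := X) (M' := ᘁX) h3
  obtain ⟨l, hl⟩ := h5
  refine ⟨k * l, ?_⟩
  rw [pow_mul]
  exact hl

end Nil

end Pool.Agent.MP_6e5bed_ag
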