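import Pool.Agent.Lib.MP_6e5bed_ag.T6

set_option autoImplicit false

/-!
# The parity commutes with all morphisms, modulo tensor-nilpotent morphisms
-/

namespace Pool.Agent.MP_6e5bed_ag

open CategoryTheory MonoidalCategory Equiv

universe v u

section T7

variable {C : Type u} [Category.{v} C] [MonoidalCategory C] [SymmetricCategory C]
  [Preadditive C] [MonoidalPreadditive C] [Linear ℚ C]

theorem tNil_comp_alt_sym {X : C} {a b : X ⟶ X} {r s : ℕ}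
    (ha : altSum X r ≫ tmap a r = 0) (hb : symSum X s ≫ tmap b s = 0) (y : X ⟶ X) :
    TNil (a ≫ y ≫ b) := by
  have h : altSum X r ≫ tmap (a ≫ y) r = 0 := by
    rw [tmap_comp, ← Category.assoc, ha, Limits.zero_comp]
  have h2 := (tNil_comp h hb).1
  rw [Category.assoc] at h2
  exact h2

theorem tNil_comp_sym_alt {X : C} {a b : X ⟶ X} {r s : ℕ}
    (ha : altSum X r ≫ tmap a r = 0) (hb : symSum X s ≫ tmap b s = 0) (y : X ⟶ X) :
    TNil (b ≫ y ≫ a) := by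
  have h : symSum X s ≫ tmap (b ≫ y) s = 0 := by
    rw [tmap_comp, ← Category.assoc, hb, Limits.zero_comp]
  have h2 := (tNil_comp ha h).2
  rw [Category.assoc] at h2
  exact h2

theorem par_comm {X : C} {e : X ⟶ X} (_he : e ≫ e = e) {r s : ℕ}
    (hA : altSum X r ≫ tmap e r = 0) (hB : symSum X s ≫ tmap (𝟙 X - e) s = 0)
    (y : X ⊗ X ⟶ X ⊗ X) :
    TNil (y - ((e - (𝟙 X - e)) ⊗ₘ (e - (𝟙 X - e))) ≫ y ≫
      ((e - (𝟙 X - e)) ⊗ₘ (e - (𝟙 X - e)))) := by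
  generalize hg : 𝟙 X - e = g at hB ⊢
  obtain ⟨m1, h1⟩ := kill_alt_alt hA hA
  obtain ⟨m2, h2⟩ := kill_sym_sym hB hB
  obtain ⟨m3, h3⟩ := kill_alt_sym hA hB
  obtain ⟨m4, h4⟩ := kill_sym_alt hB hA
  generalize hp1 : (e ⊗ₘ e) = p1 at h1
  generalize hp2 : (g ⊗ₘ g) = p2 at h2
  generalize hp3 : (e ⊗ₘ g) = p3 at h3
  generalize hp4 : (g ⊗ₘ e) = p4 at h4
  have hs : ((e - g) ⊗ₘ (e - g)) = p1 + p2 - p3 - p4 := by
    have h : e - g = e + (-1 : ℤ) • g := by rw [neg_one_zsmul, sub_eq_add_neg]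
    rw [h, ← hp1, ← hp2, ← hp3, ← hp4, MonoidalPreadditive.tensor_add,
      MonoidalPreadditive.add_tensor, MonoidalPreadditive.add_tensor, tensor_zsmul, tensor_zsmul,
      zsmul_tensor, zsmul_tensor, smul_smul]
    simp only [neg_one_zsmul, neg_mul_neg, one_mul, one_zsmul]
    abel
  have h1' : 𝟙 (X ⊗ X) = p1 + p2 + p3 + p4 := by
    have h : 𝟙 X = e + g := by rw [← hg]; abel
    rw [← id_tensorHom_id, h, ← hp1, ← hp2, ← hp3, ← hp4]
    simp only [MonoidalCategory.tensorHom_def, MonoidalPreadditive.add_whiskerRight,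
      MonoidalPreadditive.whiskerLeft_add, Preadditive.add_comp, Preadditive.comp_add]
    abel
  have hy : y = (p1 + p2 + p3 + p4) ≫ y ≫ (p1 + p2 + p3 + p4) := by
    rw [← h1', Category.id_comp, Category.comp_id]
  have key : y - ((e - g) ⊗ₘ (e - g)) ≫ y ≫ ((e - g) ⊗ₘ (e - g)) =
      ((((p1 ≫ y ≫ p3 + p1 ≫ y ≫ p4) + (p2 ≫ y ≫ p3 + p2 ≫ y ≫ p4)) +
        ((p3 ≫ y ≫ p1 + p3 ≫ y ≫ p2) + (p4 ≫ y ≫ p1 + p4 ≫ y ≫ p2)))) +
      ((((p1 ≫ y ≫ p3 + p1 ≫ y ≫ p4) + (p2 ≫ y ≫ p3 + p2 ≫ y ≫ p4)) +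
        ((p3 ≫ y ≫ p1 + p3 ≫ y ≫ p2) + (p4 ≫ y ≫ p1 + p4 ≫ y ≫ p2)))) := by
    rw [hs]
    refine (congrArg (fun z => z - (p1 + p2 - p3 - p4) ≫ y ≫ (p1 + p2 - p3 - p4)) hy).trans ?_
    simp only [Preadditive.add_comp, Preadditive.comp_add, Preadditive.sub_comp,
      Preadditive.comp_sub]
    abel
  rw [key]
  have t := (((((tNil_comp_alt_sym h1 h3 y).add (tNil_comp_alt_sym h1 h4 y)).add
    ((tNil_comp_alt_sym h2 h3 y).add (tNil_comp_alt_sym h2 h4 y)))).add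
    (((tNil_comp_sym_alt h1 h3 y).add (tNil_comp_sym_alt h2 h3 y)).add
      ((tNil_comp_sym_alt h1 h4 y).add (tNil_comp_sym_alt h2 h4 y))))
  exact t.add t

end T7

end Pool.Agent.MP_6e5bed_ag
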