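import Pool.Agent.Lib.MP_6e5bed_ag.SSum
import Pool.Agent.Lib.MP_6e5bed_ag.SNum
import Pool.Agent.Lib.MP_6e5bed_ag.T7

set_option autoImplicit false

/-!
# The operator form of Kimura-finiteness: tensor products, retracts
-/

namespace Pool.Agent.MP_6e5bed_ag

open CategoryTheory MonoidalCategory Equiv

universe v u v' u'

section SOp

variable {C : Type u} [Category.{v} C] [MonoidalCategory C] [SymmetricCategory C]
  [Preadditive C] [MonoidalPreadditive C] [Linear ℚ C]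

theorem altSum_kill_add {X : C} {a b : X ⟶ X} (ha : ∃ r, altSum X r ≫ tmap a r = 0)
    (hb : ∃ r, altSum X r ≫ tmap b r = 0) : ∃ r, altSum X r ≫ tmap (a + b) r = 0 := by
  obtain ⟨r, ha⟩ := ha
  obtain ⟨s, hb⟩ := hb
  exact ⟨r + s, gSum_kill_add (Units.coeHom ℤ) ha hb⟩

theorem symSum_kill_add {X : C} {a b : X ⟶ X} (ha : ∃ r, symSum X r ≫ tmap a r = 0)
    (hb : ∃ r, symSum X r ≫ tmap b r = 0) : ∃ r, symSum X r ≫ tmap (a + b) r = 0 := by
  obtain ⟨r, ha⟩ := ha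
  obtain ⟨s, hb⟩ := hb
  rw [← gSum_one] at ha hb
  refine ⟨r + s, ?_⟩
  rw [← gSum_one]
  exact gSum_kill_add 1 ha hb

theorem OpKF.tensor {X Y : C} (hX : OpKF X) (hY : OpKF Y) : OpKF (X ⊗ Y) := by
  obtain ⟨e, he, ⟨r, hr⟩, s, hs⟩ := hX
  obtain ⟨f, hf, ⟨t, ht⟩, u, hu⟩ := hY
  have he0 : e ≫ (𝟙 X - e) = 0 := by rw [Preadditive.comp_sub, Category.comp_id, he, sub_self]
  have he1 : (𝟙 X - e) ≫ e = 0 := by rw [Preadditive.sub_comp, Category.id_comp, he, sub_self]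
  have hf0 : f ≫ (𝟙 Y - f) = 0 := by rw [Preadditive.comp_sub, Category.comp_id, hf, sub_self]
  have he2 : (𝟙 X - e) ≫ (𝟙 X - e) = 𝟙 X - e := by
    rw [Preadditive.sub_comp, Category.id_comp, he0, sub_zero]
  have hf2 : (𝟙 Y - f) ≫ (𝟙 Y - f) = 𝟙 Y - f := by
    rw [Preadditive.sub_comp, Category.id_comp, hf0, sub_zero]
  refine ⟨(e ⊗ₘ f) + ((𝟙 X - e) ⊗ₘ (𝟙 Y - f)), ?_, ?_, ?_⟩
  · rw [Preadditive.add_comp, Preadditive.comp_add, Preadditive.comp_add,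
      tensorHom_comp_tensorHom, tensorHom_comp_tensorHom, tensorHom_comp_tensorHom,
      tensorHom_comp_tensorHom, he, hf, he0, he1, he2, hf2, MonoidalPreadditive.zero_tensor,
      MonoidalPreadditive.zero_tensor, add_zero, zero_add]
  · exact altSum_kill_add (kill_alt_alt hr ht) (kill_sym_sym hs hu)
  · have h1 : 𝟙 (X ⊗ Y) - ((e ⊗ₘ f) + ((𝟙 X - e) ⊗ₘ (𝟙 Y - f))) =
        (e ⊗ₘ (𝟙 Y - f)) + ((𝟙 X - e) ⊗ₘ f) := by
      have h2 : 𝟙 (X ⊗ Y) = (e ⊗ₘ f) + (e ⊗ₘ (𝟙 Y - f)) + (((𝟙 X - e) ⊗ₘ f) +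
          ((𝟙 X - e) ⊗ₘ (𝟙 Y - f))) := by
        rw [← MonoidalPreadditive.tensor_add, ← MonoidalPreadditive.tensor_add,
          ← MonoidalPreadditive.add_tensor]
        simp
      rw [h2]
      abel
    rw [h1]
    exact symSum_kill_add (kill_alt_sym hr hu) (kill_sym_alt hs ht)

theorem sw_unit (T : C) : sw (𝟙_ C) T = 𝟙 _ := by
  unfold sw
  have h : (β_ (𝟙_ C) (𝟙_ C)).hom = 𝟙 _ := by
    rw [braiding_tensorUnit_left, unitors_equal, Iso.hom_inv_id]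
  rw [h, id_whiskerRight, Category.id_comp, Iso.inv_hom_id]

theorem opKF_unit : OpKF (𝟙_ C) := by
  refine ⟨𝟙 _, Category.comp_id _, ⟨2, ?_⟩, 1, ?_⟩
  · have h1 : gSum (Units.coeHom ℤ) (𝟙_ C) 1 = 𝟙 _ := by
      unfold gSum
      rw [Fintype.sum_unique]
      change (Units.coeHom ℤ) (Perm.sign 1) • ps (𝟙_ C) 1 = _
      rw [ps_one, map_one, map_one, one_smul]
    have h2 := gSum_succ (Units.coeHom ℤ) (𝟙_ C) 1
    have h3 : ps (𝟙_ C) (swap (0 : Fin 2) (Fin.succ default)) = 𝟙 _ :=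
      (ps_swap (𝟙_ C) 0).trans (sw_unit (C := C) _)
    have h4 : wl (𝟙_ C) (𝟙 (Pool.Agent.MP_6e5bed_ag.tpow (𝟙_ C) 1)) = 𝟙 _ :=
      MonoidalCategory.whiskerLeft_id _ _
    rw [Fintype.sum_unique, h1, h3, h4, Category.comp_id] at h2
    have h5 : gSum (Units.coeHom ℤ) (𝟙_ C) 2 = 0 := by
      rw [h2]
      simp
    change gSum (Units.coeHom ℤ) (𝟙_ C) 2 ≫ _ = 0
    rw [h5, Limits.zero_comp]
  · rw [sub_self]
    have h1 : tmap (0 : 𝟙_ C ⟶ 𝟙_ C) 1 = 0 := MonoidalPreadditive.zero_tensor _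
    rw [h1, Limits.comp_zero]

theorem OpKF.tpow {X : C} (hX : OpKF X) (n : ℕ) : OpKF (tpow X n) := by
  induction n with
  | zero => exact opKF_unit
  | succ n ih => exact hX.tensor ih

theorem opKF_of_kimuraFinite {X : C} (h : KimuraFinite X) : OpKF X := by
  obtain ⟨P, Q, i, p, j, q, hip, hjq, hsum, hP, hQ⟩ := h
  obtain ⟨r, hr⟩ := (isEven_iff P).1 hP
  obtain ⟨s, hs⟩ := (isOdd_iff Q).1 hQ
  refine ⟨p ≫ i, ?_, ⟨r, ?_⟩, s, ?_⟩
  · rw [Category.assoc, ← Category.assoc i, hip, Category.id_comp]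
  · rw [tmap_comp, ← Category.assoc, ← altSum_nat, hr, Limits.comp_zero, Limits.zero_comp]
  · have hq : 𝟙 X - p ≫ i = q ≫ j := by rw [← hsum, add_sub_cancel_left]
    rw [hq, tmap_comp, ← Category.assoc, ← symSum_nat, hs, Limits.comp_zero, Limits.zero_comp]

theorem kimuraFinite_of_opKF [IsIdempotentComplete C] {X : C} (h : OpKF X) : KimuraFinite X := by
  obtain ⟨g, hg, ⟨n, hgA⟩, m, hgB⟩ := h
  have hg' : (𝟙 X - g) ≫ (𝟙 X - g) = 𝟙 X - g := by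
    simp only [Preadditive.sub_comp, Preadditive.comp_sub, Category.id_comp, Category.comp_id, hg]
    abel
  obtain ⟨P', i', p', h1, h2⟩ := IsIdempotentComplete.idempotents_split X g hg
  obtain ⟨Q', j', q', h3, h4⟩ := IsIdempotentComplete.idempotents_split X (𝟙 X - g) hg'
  refine ⟨P', Q', i', p', j', q', h1, h3, ?_, ?_, ?_⟩
  · rw [h2, h4, add_sub_cancel]
  · exact (isEven_iff P').2 ⟨n, even_of_split h1 h2 hgA⟩
  · exact (isOdd_iff Q').2 ⟨m, odd_of_split h3 h4 hgB⟩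

theorem tmap_sandwich {X Z : C} (i : X ⟶ Z) (f : Z ⟶ Z) (p : Z ⟶ X) {r : ℕ} {A : tpow X r ⟶ tpow X r}
    {B : tpow Z r ⟶ tpow Z r} (hn : tmap i r ≫ B = A ≫ tmap i r) (h : B ≫ tmap f r = 0) :
    A ≫ tmap (i ≫ f ≫ p) r = 0 := by
  rw [tmap_comp, tmap_comp, ← Category.assoc, ← hn, Category.assoc, ← Category.assoc B, h,
    Limits.zero_comp, Limits.comp_zero]

theorem OpKF.of_iso {X Y : C} (φ : X ≅ Y) (h : OpKF X) : OpKF Y := by
  obtain ⟨e, he, ⟨r, hr⟩, s, hs⟩ := h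
  refine ⟨φ.inv ≫ e ≫ φ.hom, ?_, ⟨r, ?_⟩, s, ?_⟩
  · simp only [Category.assoc, Iso.hom_inv_id_assoc]
    rw [← Category.assoc e e, he]
  · exact tmap_sandwich _ _ _ (altSum_nat _ _) hr
  · have h1 : 𝟙 Y - φ.inv ≫ e ≫ φ.hom = φ.inv ≫ (𝟙 X - e) ≫ φ.hom := by
      rw [Preadditive.sub_comp, Preadditive.comp_sub, Category.id_comp, Iso.inv_hom_id]
    rw [h1]
    exact tmap_sandwich _ _ _ (symSum_nat _ _) hs

/-- tensor-nilpotent morphisms are numerically trivial -/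
theorem TNil.numZ [RatUnit C] {X Y : C} [HasLeftDual X] {f : X ⟶ Y} (h : TNil f) : NumZ f :=
  fun g => tr_of_tNil X (h.comp_right g)

theorem TNil.eq_zero [RatUnit C] [NumFree C] {X Y : C} [HasLeftDual X] {f : X ⟶ Y}
    (h : TNil f) : f = 0 := NumFree.eq_zero f h.numZ

/-- The parity is central if there are no numerically trivial morphisms. -/
theorem parity_comm [RatUnit C] [NumFree C] {X : C} [HasLeftDual X] {e : X ⟶ X} {r s : ℕ}
    (hr : altSum X r ≫ tmap e r = 0) (hs : symSum X s ≫ tmap (𝟙 X - e) s = 0) (y : X ⟶ X) :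
    e ≫ y = y ≫ e := by
  have h1 := (tNil_comp_alt_sym hr hs y).eq_zero
  have h2 := (tNil_comp_sym_alt hr hs y).eq_zero
  rw [Preadditive.comp_sub, Preadditive.comp_sub, Category.comp_id, sub_eq_zero] at h1
  rw [Preadditive.sub_comp, Category.id_comp, sub_eq_zero] at h2
  exact h1.trans h2.symm

/-- retracts -/
theorem OpKF.retract [RatUnit C] [NumFree C] {E Z : C} [HasLeftDual Z] (i : E ⟶ Z) (p : Z ⟶ E)
    (hip : i ≫ p = 𝟙 E) (h : OpKF Z) : OpKF E := by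
  obtain ⟨e, he, ⟨r, hr⟩, s, hs⟩ := h
  have hc := parity_comm hr hs (p ≫ i)
  refine ⟨i ≫ e ≫ p, ?_, ⟨r, ?_⟩, s, ?_⟩
  · calc (i ≫ e ≫ p) ≫ i ≫ e ≫ p = i ≫ e ≫ (p ≫ i) ≫ e ≫ p := by
          simp only [Category.assoc]
      _ = i ≫ (p ≫ i) ≫ (e ≫ e) ≫ p := by
          rw [← Category.assoc e (p ≫ i), hc]
          simp only [Category.assoc]
      _ = i ≫ e ≫ p := by
          rw [he, ← Category.assoc i (p ≫ i), ← Category.assoc i p i, hip, Category.id_comp]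
  · exact tmap_sandwich _ _ _ (altSum_nat _ _) hr
  · have h1 : 𝟙 E - i ≫ e ≫ p = i ≫ (𝟙 Z - e) ≫ p := by
      rw [Preadditive.sub_comp, Preadditive.comp_sub, Category.id_comp, hip]
    rw [h1]
    exact tmap_sandwich _ _ _ (symSum_nat _ _) hs

end SOp

end Pool.Agent.MP_6e5bed_ag
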