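import Pool.Agent.Lib.MP_6e5bed_ag.BIdent
import Pool.Agent.Lib.MP_6e5bed_ag.SDual

set_option autoImplicit false

/-!
# The endomorphisms of `M` act on the Schur functor
-/

namespace Pool.Agent.MP_6e5bed_ag

open CategoryTheory MonoidalCategory Equiv

universe v u

section Rho

variable {C : Type u} [Category.{v} C] [MonoidalCategory C] [SymmetricCategory C]

theorem tpwMap_fs {M W W' W'' : C} (h : W ⟶ W') (f : M ⊗ W' ⟶ M ⊗ W'') (n : ℕ) (i : Fin n) :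
    tpwMap M h n ≫ fs f n i = fs ((M ◁ h) ≫ f) n i := by
  induction n with
  | zero => exact i.elim0
  | succ n ih =>
    cases n with
    | zero =>
      obtain rfl : i = 0 := Fin.fin_one_eq_zero i
      rfl
    | succ m =>
      refine Fin.cases ?_ (fun k => ?_) i
      · have h1 : tpwMap M h (m + 2) ≫ pw M (m + 2) W' (swap 0 1) =
            pw M (m + 2) W (swap 0 1) ≫ tpwMap M h (m + 2) := (pw_nat M h (m + 2) _).symm
        rw [fs_zero, fs_zero, ← ih 0, wq_comp, ← Category.assoc, h1, tpwMap_succ M h (m + 1)]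
        simp only [Category.assoc]
      · rw [fs_succ, fs_succ, ← ih k, wq_comp, tpwMap_succ]

variable [Preadditive C]

theorem tpwMap_fsum {M W W' W'' : C} (h : W ⟶ W') (f : M ⊗ W' ⟶ M ⊗ W'') (n : ℕ) :
    tpwMap M h n ≫ fsum f n = fsum ((M ◁ h) ≫ f) n := by
  unfold fsum
  rw [Preadditive.comp_sum]
  exact Finset.sum_congr rfl fun i _ => tpwMap_fs h f n i

variable [MonoidalPreadditive C] [Linear ℚ C]

theorem fsum_za {M W W' : C} (f : M ⊗ W ⟶ M ⊗ W') {n : ℕ}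
    (z : MonoidAlgebra ℚ (Perm (Fin n))) :
    fsum f n ≫ la W' (za M z) = la W (za M z) ≫ fsum f n := by
  rw [la_za, la_za, Preadditive.comp_sum, Preadditive.sum_comp]
  refine Finset.sum_congr rfl fun σ _ => ?_
  rw [Linear.comp_smul, Linear.smul_comp, fsum_pw]

end Rho

section RhoDef

variable {C : Type u} [Category.{v} C] [MonoidalCategory C]

/-- the evaluation `M ⊗ (M' ⊗ M) → M` -/
def kap (M : C) [HasLeftDual M] : M ⊗ ((ᘁM) ⊗ M) ⟶ M :=
  (tensorLeftHomEquiv ((ᘁM) ⊗ M) (ᘁM) M M).symm (𝟙 _)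

section RhoZ

variable [Preadditive C] [MonoidalPreadditive C]

theorem tensorLeftHomEquiv_zero (X Y Y' Z : C) [ExactPairing Y Y'] :
    tensorLeftHomEquiv X Y Y' Z 0 = 0 := by
  change (λ_ _).inv ≫ η_ _ _ ▷ _ ≫ (α_ _ _ _).hom ≫ _ ◁ (0 : Y' ⊗ X ⟶ Z) = 0
  rw [MonoidalPreadditive.whiskerLeft_zero, Limits.comp_zero, Limits.comp_zero,
    Limits.comp_zero]

theorem tensorLeftHomEquiv_symm_zero (X Y Y' Z : C) [ExactPairing Y Y'] :
    (tensorLeftHomEquiv X Y Y' Z).symm 0 = 0 := by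
  rw [Equiv.symm_apply_eq, tensorLeftHomEquiv_zero]

theorem eq_zero_of_kap {M W : C} [HasLeftDual M] {h : W ⟶ (ᘁM) ⊗ M}
    (hh : (M ◁ h) ≫ kap M = 0) : h = 0 := by
  unfold kap at hh
  rw [← tensorLeftHomEquiv_symm_naturality, Category.comp_id, Equiv.symm_apply_eq,
    tensorLeftHomEquiv_zero] at hh
  exact hh

end RhoZ

variable [SymmetricCategory C] [Preadditive C]

/-- the action of `M' ⊗ M` on the image of an idempotent -/
noncomputable def actB {M B : C} [HasLeftDual M] {n : ℕ} (i : B ⟶ tpow M n)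
    (r : tpow M n ⟶ B) : B ⊗ ((ᘁM) ⊗ M) ⟶ B :=
  (i ▷ _) ≫ (psi M n _).inv ≫ fsum (kap M ≫ (ρ_ M).inv) n ≫ (psi M n (𝟙_ C)).hom ≫
    (ρ_ (tpow M n)).hom ≫ r

/-- the corresponding morphism `M' ⊗ M → B' ⊗ B` -/
noncomputable def rho {M B : C} [HasLeftDual M] [HasLeftDual B] {n : ℕ} (i : B ⟶ tpow M n)
    (r : tpow M n ⟶ B) : ((ᘁM) ⊗ M) ⟶ ((ᘁB) ⊗ B) :=
  tensorLeftHomEquiv ((ᘁM) ⊗ M) (ᘁB) B B (actB i r)

theorem whisker_actB {M B W : C} [HasLeftDual M] {n : ℕ} (i : B ⟶ tpow M n)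
    (r : tpow M n ⟶ B) (h : W ⟶ (ᘁM) ⊗ M) :
    (B ◁ h) ≫ actB i r = (i ▷ W) ≫ (psi M n W).inv ≫
      fsum ((M ◁ h) ≫ kap M ≫ (ρ_ M).inv) n ≫ (psi M n (𝟙_ C)).hom ≫ (ρ_ (tpow M n)).hom ≫ r := by
  unfold actB
  rw [whisker_exchange_assoc, ← reassoc_of% (psi_inv_tpwMap M h n), ← tpwMap_fsum,
    Category.assoc]

variable [MonoidalPreadditive C] [Linear ℚ C]

/-- The action is faithful. -/
theorem rho_inj {M B W : C} [HasLeftDual M] [HasLeftDual B] {n : ℕ} {i : B ⟶ tpow M n}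
    {r : tpow M n ⟶ B} {z : MonoidAlgebra ℚ (Perm (Fin n))} (hri : r ≫ i = za M z)
    (hz : z * z = z)
    (hD : ∀ {W W' : C} (f : M ⊗ W ⟶ M ⊗ W'), la W (za M z) ≫ ∑ i, fs f n i = 0 → f = 0)
    {h : W ⟶ (ᘁM) ⊗ M} (hh : h ≫ rho i r = 0) : h = 0 := by
  have h1 : (B ◁ h) ≫ actB i r = 0 := by
    have h2 := tensorLeftHomEquiv_symm_naturality (Y := (ᘁB)) (Y' := B) h (rho i r)
    rw [hh, tensorLeftHomEquiv_symm_zero] at h2
    unfold rho at h2
    rw [Equiv.symm_apply_apply] at h2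
    exact h2.symm
  rw [whisker_actB] at h1
  obtain ⟨g, hg⟩ : ∃ g : M ⊗ W ⟶ M ⊗ 𝟙_ C, g = (M ◁ h) ≫ kap M ≫ (ρ_ M).inv := ⟨_, rfl⟩
  rw [← hg] at h1
  have h3 : la W (za M z) ≫ fsum g n = 0 := by
    have h4 : (psi M n W).hom ≫ (r ▷ W) ≫ ((i ▷ W) ≫ (psi M n W).inv ≫ fsum g n ≫
        (psi M n (𝟙_ C)).hom ≫ (ρ_ (tpow M n)).hom ≫ r) ≫ i ≫ (ρ_ (tpow M n)).inv ≫
        (psi M n (𝟙_ C)).inv = la W (za M z) ≫ fsum g n ≫ la (𝟙_ C) (za M z) := by
      unfold la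
      rw [← hri, comp_whiskerRight, comp_whiskerRight]
      simp only [Category.assoc]
      rw [rightUnitor_inv_naturality_assoc, rightUnitor_inv_naturality_assoc,
        Iso.hom_inv_id_assoc]
    have h5 : za M z ≫ za M z = za M z := by
      rw [← za_mul M z z, hz]
    rw [h1, Limits.zero_comp, Limits.comp_zero, Limits.comp_zero, fsum_za, ← Category.assoc,
      ← la_comp, h5] at h4
    exact h4.symm
  have h6 := hD g h3
  rw [hg, ← Category.assoc] at h6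
  apply eq_zero_of_kap
  rwa [← cancel_mono (ρ_ M).inv, Limits.zero_comp]

end RhoDef

end Pool.Agent.MP_6e5bed_ag
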