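import Pool.Agent.Lib.MP_6e5bed_ag.SEmb
import Pool.Agent.Lib.MP_6e5bed_ag.SRho

set_option autoImplicit false

/-!
# Numerically trivial elements of the algebra of the permutations and of an involution
-/

namespace Pool.Agent.MP_6e5bed_ag

open CategoryTheory MonoidalCategory Equiv

universe v u

section Fsn

variable {C : Type u} [Category.{v} C] [MonoidalCategory C] [SymmetricCategory C]

/-- the slot number `i` of a block of `n` slots, all the others unchanged -/
def fsn {M : C} {N : ℕ} (f : M ⊗ tpow M N ⟶ M ⊗ tpow M N) (n : ℕ) (i : Fin n) :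
    tpow M (N + n) ⟶ tpow M (N + n) :=
  (th M N n).inv ≫ fs f n i ≫ (th M N n).hom

theorem fsn_succ {M : C} {N : ℕ} (f : M ⊗ tpow M N ⟶ M ⊗ tpow M N) (n : ℕ) (i : Fin n) :
    fsn f (n + 1) i.succ = wl M (fsn f n i) := by
  unfold fsn
  rw [fs_succ]
  change M ◁ (th M N n).inv ≫ M ◁ fs f n i ≫
    M ◁ (th M N n).hom = M ◁ ((th M N n).inv ≫ fs f n i ≫ (th M N n).hom)
  rw [← MonoidalCategory.whiskerLeft_comp, ← MonoidalCategory.whiskerLeft_comp]

theorem fsn_one {M : C} {N : ℕ} (f : M ⊗ tpow M N ⟶ M ⊗ tpow M N) : fsn f 1 0 = f := by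
  change (M ◁ 𝟙 (tpow M N)) ≫ f ≫ (M ◁ 𝟙 (tpow M N)) = f
  rw [MonoidalCategory.whiskerLeft_id]
  exact (Category.id_comp _).trans (Category.comp_id _)

theorem fsn_zero {M : C} {N : ℕ} (f : M ⊗ tpow M N ⟶ M ⊗ tpow M N) (n : ℕ) :
    fsn f (n + 2) 0 = ps M (swap (0 : Fin (N + n + 2)) 1) ≫ wl M (fsn f (n + 1) 0) ≫
      ps M (swap (0 : Fin (N + n + 2)) 1) := by
  have h1 : (th M N (n + 2)).inv ≫ pw M (n + 2) (tpow M N) (swap 0 1) =
      ps M (swap (0 : Fin (N + n + 2)) 1) ≫ (th M N (n + 2)).inv := by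
    rw [pw_swap, ps_swap]
    change (M ◁ M ◁ (th M N n).inv) ≫ sw M (tpw M n (tpow M N)) =
      sw M (tpow M (N + n)) ≫ (M ◁ M ◁ (th M N n).inv)
    rw [sw_comm]
  have h2 : pw M (n + 2) (tpow M N) (swap 0 1) ≫ (th M N (n + 2)).hom =
      (th M N (n + 2)).hom ≫ ps M (swap (0 : Fin (N + n + 2)) 1) := by
    rw [pw_swap, ps_swap]
    change sw M (tpw M n (tpow M N)) ≫ (M ◁ M ◁ (th M N n).hom) =
      (M ◁ M ◁ (th M N n).hom) ≫ sw M (tpow M (N + n))
    rw [sw_comm]
  have h3 : (th M N (n + 2)).inv ≫ wq (fs f (n + 1) 0) ≫ (th M N (n + 2)).hom =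
      wl M (fsn f (n + 1) 0) := by
    unfold fsn
    change M ◁ (th M N (n + 1)).inv ≫ M ◁ fs f (n + 1) 0 ≫
      M ◁ (th M N (n + 1)).hom = M ◁ ((th M N (n + 1)).inv ≫ fs f (n + 1) 0 ≫
      (th M N (n + 1)).hom)
    rw [← MonoidalCategory.whiskerLeft_comp, ← MonoidalCategory.whiskerLeft_comp]
  rw [← h3]
  unfold fsn
  rw [fs_zero, Category.assoc, Category.assoc, h2, ← Category.assoc, h1]
  simp only [Category.assoc]

end Fsn

section AN

variable {C : Type u} [Category.{v} C] [MonoidalCategory C] [SymmetricCategory C]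
  [Preadditive C] [MonoidalPreadditive C] [Linear ℚ C]

theorem AN_fsn {M : C} {u : M ⟶ M} (hu : u ≫ u = 𝟙 M) {N : ℕ}
    {f : M ⊗ tpow M N ⟶ M ⊗ tpow M N} (hf : f ∈ AN u (N + 1)) (n : ℕ) (i : Fin n) :
    fsn f n i ∈ AN u (N + n) := by
  induction n with
  | zero => exact i.elim0
  | succ n ih =>
    refine Fin.cases ?_ (fun k => ?_) i
    · cases n with
      | zero =>
        have h : fsn f 1 0 = f := fsn_one f
        change fsn f 1 0 ∈ AN u (N + 1)
        rw [h]
        exact hf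
      | succ n =>
        have h := fsn_zero f n
        change fsn f (n + 2) 0 ∈ AN u (N + n + 2)
        rw [h]
        exact AN_comp hu (AN_ps u _) (AN_comp hu (AN_wl u (ih 0)) (AN_ps u _))
    · rw [fsn_succ]
      exact AN_wl u (ih k)

omit [MonoidalPreadditive C] in
/-- tensor ideals are stable -/
theorem fs_mem (J : TIdeal C) {M W W' : C} {f : M ⊗ W ⟶ M ⊗ W'} (hf : f ∈ J.sub _ _) (n : ℕ)
    (i : Fin n) : fs f n i ∈ J.sub _ _ := by
  induction n with
  | zero => exact i.elim0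
  | succ n ih =>
    refine Fin.cases ?_ (fun k => ?_) i
    · cases n with
      | zero => exact hf
      | succ n =>
        rw [fs_zero]
        exact J.comp_left _ (J.comp_right _ (J.whiskerLeft M (ih 0)))
    · rw [fs_succ]
      exact J.whiskerLeft M (ih k)

end AN

section Good

variable {C : Type u} [Category.{v} C] [MonoidalCategory C] [SymmetricCategory C]
  [Preadditive C] [MonoidalPreadditive C] [Linear ℚ C] [LeftRigidCategory C] [RatUnit C]

/-- The numerically trivial elements of the algebra vanish on the image of `w`. -/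
def Good {M : C} (u : M ⟶ M) (N : ℕ) (w : MonoidAlgebra ℚ (Perm (Fin N))) : Prop :=
  ∀ f ∈ AN u N, NumZ f → za M w ≫ f = 0

theorem Good.conj {M : C} {u : M ⟶ M} (hu : u ≫ u = 𝟙 M) {N : ℕ}
    {w : MonoidAlgebra ℚ (Perm (Fin N))} (h : Good u N w) (g g' : Perm (Fin N)) :
    Good u N (MonoidAlgebra.single g 1 * w * MonoidAlgebra.single g' 1) := by
  intro f hf hN
  rw [za_mul, za_mul, sza_single, sza_single, one_smul, one_smul, Category.assoc, Category.assoc,
    h _ (AN_comp hu (AN_ps u g) hf) ((numIdeal C).comp_left _ hN), Limits.comp_zero]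

theorem Good.of_emb {M : C} {u : M ⟶ M} (hu : u ≫ u = 𝟙 M) {a N : ℕ}
    {w : MonoidAlgebra ℚ (Perm (Fin a))} {j : Fin a ↪ Fin N} (h : Good u N (gemb j w))
    (j' : Fin a ↪ Fin N) : Good u N (gemb j' w) := by
  obtain ⟨g, hg⟩ := exists_perm_embedding j j'
  rw [gemb_conj j j' g hg]
  exact h.conj hu _ _

/-- a block of slots is replaced by one slot -/
theorem Good.peel {M : C} {u : M ⟶ M} (hu : u ≫ u = 𝟙 M) {n : ℕ} (hn : 0 < n)
    {z : MonoidAlgebra ℚ (Perm (Fin n))} {g : tpow M n ⟶ tpow M n}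
    (hg : trp M n (za M z ≫ g) ≠ 0) {N : ℕ} {w : MonoidAlgebra ℚ (Perm (Fin N))}
    (h : Good u (N + n) (gemb (hdEmb N n) z * gemb (stEmb N n) w)) :
    Good u (N + 1) (gemb (stEmb N 1) w) := by
  suffices key : ∀ f : M ⊗ tpow M N ⟶ M ⊗ tpow M N, f ∈ AN u (N + 1) → NumZ f →
      (M ◁ za M w) ≫ f = 0 by
    intro f hf hN
    rw [← tl_za]
    exact key f hf hN
  intro f hf hN
  refine swap_lemma hn z g hg (W := tpow M N) (W' := tpow M N) _ ?_
  intro i
  have h1 := h (fsn f n i) (AN_fsn hu hf n i) ((numIdeal C).comp_left _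
    ((numIdeal C).comp_right _ (fs_mem (numIdeal C) hN n i)))
  rw [za_mul, ← hd_za, ← tl_za] at h1
  have h2 : (th M N n).hom ≫ ((tl M (za M w) n ≫ hd M N (za M z)) ≫ fsn f n i) ≫
      (th M N n).inv = tpwMap M (za M w) n ≫ la (tpow M N) (za M z) ≫ fs f n i := by
    unfold hd fsn
    simp only [Category.assoc, Iso.hom_inv_id, Iso.hom_inv_id_assoc, Category.comp_id]
    rw [← Category.assoc, ← tpwMap_th, Category.assoc, Iso.hom_inv_id_assoc]
  rw [h1, Limits.zero_comp, Limits.comp_zero, ← Category.assoc, ← la_nat, Category.assoc,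
    tpwMap_fs] at h2
  exact h2.symm

end Good

end Pool.Agent.MP_6e5bed_ag
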