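import Pool.Agent.Lib.MP_6e5bed_ag.SDefs

set_option autoImplicit false

/-!
# The quotient of a monoidal category by a tensor ideal
-/

namespace Pool.Agent.MP_6e5bed_ag

open CategoryTheory MonoidalCategory Equiv

universe v u

/-- A tensor ideal. -/
structure TIdeal (C : Type u) [Category.{v} C] [MonoidalCategory C] [Preadditive C]
    [Linear ℚ C] where
  /-- the morphisms of the ideal -/
  sub : ∀ X Y : C, Submodule ℚ (X ⟶ Y)
  comp_left : ∀ {X Y Z : C} (f : X ⟶ Y) {g : Y ⟶ Z}, g ∈ sub Y Z → f ≫ g ∈ sub X Z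
  comp_right : ∀ {X Y Z : C} {f : X ⟶ Y} (g : Y ⟶ Z), f ∈ sub X Y → f ≫ g ∈ sub X Z
  whiskerLeft : ∀ (X : C) {Y Z : C} {f : Y ⟶ Z}, f ∈ sub Y Z → X ◁ f ∈ sub (X ⊗ Y) (X ⊗ Z)
  whiskerRight : ∀ (X : C) {Y Z : C} {f : Y ⟶ Z}, f ∈ sub Y Z → f ▷ X ∈ sub (Y ⊗ X) (Z ⊗ X)

section Quot

variable {C : Type u} [Category.{v} C] [MonoidalCategory C] [Preadditive C] [Linear ℚ C]

/-- The quotient category. -/
@[ext]
structure TQ (J : TIdeal C) where
  /-- the underlying object -/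
  as : C

namespace TQ

variable (J : TIdeal C)

/-- The morphisms of the quotient category. -/
def HomQ (X Y : C) : Type v := (X ⟶ Y) ⧸ J.sub X Y

instance (X Y : C) : AddCommGroup (HomQ J X Y) :=
  inferInstanceAs (AddCommGroup ((X ⟶ Y) ⧸ J.sub X Y))

instance (X Y : C) : Module ℚ (HomQ J X Y) :=
  inferInstanceAs (Module ℚ ((X ⟶ Y) ⧸ J.sub X Y))

variable {J}

/-- The class of a morphism. -/
def cl {X Y : C} (f : X ⟶ Y) : HomQ J X Y := Submodule.Quotient.mk f

theorem cl_eq {X Y : C} {f g : X ⟶ Y} : (cl f : HomQ J X Y) = cl g ↔ f - g ∈ J.sub X Y :=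
  Submodule.Quotient.eq _

theorem cl_zero (X Y : C) : (cl (0 : X ⟶ Y) : HomQ J X Y) = 0 := rfl

theorem cl_eq_zero {X Y : C} {f : X ⟶ Y} : (cl f : HomQ J X Y) = 0 ↔ f ∈ J.sub X Y :=
  Submodule.Quotient.mk_eq_zero _

theorem cl_add {X Y : C} (f g : X ⟶ Y) : (cl (f + g) : HomQ J X Y) = cl f + cl g := rfl

theorem cl_smul {X Y : C} (c : ℚ) (f : X ⟶ Y) : (cl (c • f) : HomQ J X Y) = c • cl f := rfl

theorem cl_surj {X Y : C} (f : HomQ J X Y) : ∃ g : X ⟶ Y, cl g = f :=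
  Submodule.Quotient.mk_surjective _ f

/-- Lift a map to the quotient. -/
def lift₁ {X Y X' Y' : C} (F : (X ⟶ Y) → (X' ⟶ Y'))
    (hF : ∀ f g, f - g ∈ J.sub X Y → F f - F g ∈ J.sub X' Y') (f : HomQ J X Y) : HomQ J X' Y' :=
  Quotient.liftOn' (s₁ := (J.sub X Y).quotientRel) f (fun a => cl (F a)) (fun a b hab => by
    rw [cl_eq]
    exact hF a b ((Submodule.quotientRel_def _).1 hab))

/-- Lift a map of two arguments to the quotient. -/
def lift₂ {X Y X' Y' X'' Y'' : C} (F : (X ⟶ Y) → (X' ⟶ Y') → (X'' ⟶ Y''))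
    (hF : ∀ f g f' g', f - g ∈ J.sub X Y → f' - g' ∈ J.sub X' Y' →
      F f f' - F g g' ∈ J.sub X'' Y'') (f : HomQ J X Y) (f' : HomQ J X' Y') : HomQ J X'' Y'' :=
  Quotient.liftOn₂' (s₁ := (J.sub X Y).quotientRel) (s₂ := (J.sub X' Y').quotientRel) f f'
    (fun a b => cl (F a b)) (fun a b a' b' h h' => by
      rw [cl_eq]
      exact hF _ _ _ _ ((Submodule.quotientRel_def _).1 h) ((Submodule.quotientRel_def _).1 h'))

variable (J)

theorem comp_aux {X Y Z : C} (f g : X ⟶ Y) (f' g' : Y ⟶ Z) (h : f - g ∈ J.sub X Y)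
    (h' : f' - g' ∈ J.sub Y Z) : f ≫ f' - g ≫ g' ∈ J.sub X Z := by
  have h1 : f ≫ f' - g ≫ g' = (f - g) ≫ f' + g ≫ (f' - g') := by
    rw [Preadditive.sub_comp, Preadditive.comp_sub]
    abel
  rw [h1]
  exact (J.sub X Z).add_mem (J.comp_right _ h) (J.comp_left _ h')

instance : Category (TQ J) where
  Hom X Y := HomQ J X.as Y.as
  id X := cl (𝟙 X.as)
  comp f g := lift₂ (fun a b => a ≫ b) (comp_aux J) f g
  id_comp f := by
    obtain ⟨f, rfl⟩ := cl_surj f
    exact congrArg cl (Category.id_comp f)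
  comp_id f := by
    obtain ⟨f, rfl⟩ := cl_surj f
    exact congrArg cl (Category.comp_id f)
  assoc f g h := by
    obtain ⟨f, rfl⟩ := cl_surj f
    obtain ⟨g, rfl⟩ := cl_surj g
    obtain ⟨h, rfl⟩ := cl_surj h
    exact congrArg cl (Category.assoc f g h)

instance (X Y : TQ J) : AddCommGroup (X ⟶ Y) := inferInstanceAs (AddCommGroup (HomQ J X.as Y.as))

instance (X Y : TQ J) : Module ℚ (X ⟶ Y) := inferInstanceAs (Module ℚ (HomQ J X.as Y.as))

instance : Preadditive (TQ J) where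
  homGroup X Y := inferInstance
  add_comp X Y Z f f' g := by
    obtain ⟨f, rfl⟩ := cl_surj f
    obtain ⟨f', rfl⟩ := cl_surj f'
    obtain ⟨g, rfl⟩ := cl_surj g
    exact congrArg cl (Preadditive.add_comp _ _ _ f f' g)
  comp_add X Y Z f g g' := by
    obtain ⟨f, rfl⟩ := cl_surj f
    obtain ⟨g, rfl⟩ := cl_surj g
    obtain ⟨g', rfl⟩ := cl_surj g'
    exact congrArg cl (Preadditive.comp_add _ _ _ f g g')

instance : Linear ℚ (TQ J) where
  homModule X Y := inferInstance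
  smul_comp X Y Z c f g := by
    obtain ⟨f, rfl⟩ := cl_surj f
    obtain ⟨g, rfl⟩ := cl_surj g
    exact congrArg cl (Linear.smul_comp _ _ _ c f g)
  comp_smul X Y Z f c g := by
    obtain ⟨f, rfl⟩ := cl_surj f
    obtain ⟨g, rfl⟩ := cl_surj g
    exact congrArg cl (Linear.comp_smul _ _ _ f c g)

/-- The projection functor. -/
def proj : C ⥤ TQ J where
  obj X := ⟨X⟩
  map f := cl f
  map_id _ := rfl
  map_comp _ _ := rfl

instance : (proj J).Full where
  map_surjective f := cl_surj f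

instance : (proj J).Additive where
  map_add := rfl

theorem proj_map_eq_zero {X Y : C} (f : X ⟶ Y) : (proj J).map f = 0 ↔ f ∈ J.sub X Y := cl_eq_zero

variable [MonoidalPreadditive C]

theorem tensor_mem_left {X Y X' Y' : C} {f : X ⟶ Y} (hf : f ∈ J.sub X Y) (g : X' ⟶ Y') :
    f ⊗ₘ g ∈ J.sub (X ⊗ X') (Y ⊗ Y') := by
  rw [MonoidalCategory.tensorHom_def]
  exact J.comp_right _ (J.whiskerRight _ hf)

theorem tensor_mem_right {X Y X' Y' : C} (f : X ⟶ Y) {g : X' ⟶ Y'} (hg : g ∈ J.sub X' Y') :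
    f ⊗ₘ g ∈ J.sub (X ⊗ X') (Y ⊗ Y') := by
  rw [MonoidalCategory.tensorHom_def]
  exact J.comp_left _ (J.whiskerLeft _ hg)

theorem tensor_aux {X Y X' Y' : C} (f g : X ⟶ Y) (f' g' : X' ⟶ Y') (h : f - g ∈ J.sub X Y)
    (h' : f' - g' ∈ J.sub X' Y') : (f ⊗ₘ f') - (g ⊗ₘ g') ∈ J.sub (X ⊗ X') (Y ⊗ Y') := by
  have h1 : (f ⊗ₘ f') - (g ⊗ₘ g') = ((f - g) ⊗ₘ f') + (g ⊗ₘ (f' - g')) := by
    rw [sub_tensor, tensor_sub]
    abel
  rw [h1]
  exact (J.sub _ _).add_mem (tensor_mem_left J h _) (tensor_mem_right J _ h')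

instance : MonoidalCategory (TQ J) where
  tensorObj X Y := ⟨X.as ⊗ Y.as⟩
  whiskerLeft X {Y Z} f := lift₁ (X := Y.as) (Y := Z.as) (fun a => X.as ◁ a) (fun f g h => by
    have h1 := tensor_aux J (𝟙 X.as) (𝟙 X.as) f g (by rw [sub_self]; exact zero_mem _) h
    rwa [id_tensorHom, id_tensorHom] at h1) f
  whiskerRight {Y Z} f X := lift₁ (X := Y.as) (Y := Z.as) (fun a => a ▷ X.as) (fun f g h => by
    have h1 := tensor_aux J f g (𝟙 X.as) (𝟙 X.as) h (by rw [sub_self]; exact zero_mem _)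
    rwa [tensorHom_id, tensorHom_id] at h1) f
  tensorHom f g := lift₂ (fun a b => a ⊗ₘ b) (tensor_aux J) f g
  tensorUnit := ⟨𝟙_ C⟩
  associator X Y Z := (proj J).mapIso (α_ X.as Y.as Z.as)
  leftUnitor X := (proj J).mapIso (λ_ X.as)
  rightUnitor X := (proj J).mapIso (ρ_ X.as)
  tensorHom_def f g := by
    obtain ⟨f, rfl⟩ := cl_surj f
    obtain ⟨g, rfl⟩ := cl_surj g
    exact congrArg cl (MonoidalCategory.tensorHom_def f g)
  id_tensorHom_id X Y := congrArg cl (MonoidalCategory.id_tensorHom_id X.as Y.as)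
  tensorHom_comp_tensorHom f g h k := by
    obtain ⟨f, rfl⟩ := cl_surj f
    obtain ⟨g, rfl⟩ := cl_surj g
    obtain ⟨h, rfl⟩ := cl_surj h
    obtain ⟨k, rfl⟩ := cl_surj k
    exact congrArg cl (MonoidalCategory.tensorHom_comp_tensorHom f g h k)
  whiskerLeft_id X Y := congrArg cl (MonoidalCategory.whiskerLeft_id X.as Y.as)
  id_whiskerRight X Y := congrArg cl (MonoidalCategory.id_whiskerRight X.as Y.as)
  associator_naturality f g h := by
    obtain ⟨f, rfl⟩ := cl_surj f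
    obtain ⟨g, rfl⟩ := cl_surj g
    obtain ⟨h, rfl⟩ := cl_surj h
    exact congrArg cl (MonoidalCategory.associator_naturality f g h)
  leftUnitor_naturality f := by
    obtain ⟨f, rfl⟩ := cl_surj f
    exact congrArg cl (MonoidalCategory.leftUnitor_naturality f)
  rightUnitor_naturality f := by
    obtain ⟨f, rfl⟩ := cl_surj f
    exact congrArg cl (MonoidalCategory.rightUnitor_naturality f)
  pentagon W X Y Z := congrArg cl (MonoidalCategory.pentagon W.as X.as Y.as Z.as)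
  triangle X Y := congrArg cl (MonoidalCategory.triangle X.as Y.as)

instance : MonoidalPreadditive (TQ J) where
  whiskerLeft_zero {X Y Z} := congrArg cl (MonoidalPreadditive.whiskerLeft_zero (X := X.as) (Y := Y.as) (Z := Z.as))
  zero_whiskerRight {X Y Z} := congrArg cl (MonoidalPreadditive.zero_whiskerRight (X := X.as) (Y := Y.as) (Z := Z.as))
  whiskerLeft_add f g := by
    obtain ⟨f, rfl⟩ := cl_surj f
    obtain ⟨g, rfl⟩ := cl_surj g
    exact congrArg cl (MonoidalPreadditive.whiskerLeft_add f g)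
  add_whiskerRight f g := by
    obtain ⟨f, rfl⟩ := cl_surj f
    obtain ⟨g, rfl⟩ := cl_surj g
    exact congrArg cl (MonoidalPreadditive.add_whiskerRight f g)

end TQ

end Quot

section QuotBraided

variable {C : Type u} [Category.{v} C] [MonoidalCategory C] [SymmetricCategory C]
  [Preadditive C] [Linear ℚ C] [MonoidalPreadditive C] (J : TIdeal C)

namespace TQ

instance : BraidedCategory (TQ J) where
  braiding X Y := (proj J).mapIso (β_ X.as Y.as)
  braiding_naturality_right X {Y Z} f := by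
    obtain ⟨f, rfl⟩ := cl_surj f
    exact congrArg cl (BraidedCategory.braiding_naturality_right X.as f)
  braiding_naturality_left f Z := by
    obtain ⟨f, rfl⟩ := cl_surj f
    exact congrArg cl (BraidedCategory.braiding_naturality_left f Z.as)
  hexagon_forward X Y Z := congrArg cl (BraidedCategory.hexagon_forward X.as Y.as Z.as)
  hexagon_reverse X Y Z := congrArg cl (BraidedCategory.hexagon_reverse X.as Y.as Z.as)

instance : SymmetricCategory (TQ J) where
  symmetry X Y := congrArg cl (SymmetricCategory.symmetry X.as Y.as)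

/-- The structure of a monoidal functor on the projection. -/
def projCore : (proj J).CoreMonoidal where
  εIso := Iso.refl _
  μIso X Y := Iso.refl _
  μIso_hom_natural_left {X Y} f X' := congrArg cl (show f ▷ X' ≫ 𝟙 (Y ⊗ X') =
    𝟙 (X ⊗ X') ≫ f ▷ X' by rw [Category.comp_id, Category.id_comp])
  μIso_hom_natural_right {X Y} X' f := congrArg cl (show X' ◁ f ≫ 𝟙 (X' ⊗ Y) =
    𝟙 (X' ⊗ X) ≫ X' ◁ f by rw [Category.comp_id, Category.id_comp])
  associativity X Y Z := congrArg cl (show 𝟙 (X ⊗ Y) ▷ Z ≫ 𝟙 ((X ⊗ Y) ⊗ Z) ≫ (α_ X Y Z).hom =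
    (α_ X Y Z).hom ≫ X ◁ 𝟙 (Y ⊗ Z) ≫ 𝟙 (X ⊗ (Y ⊗ Z)) by simp)
  left_unitality X := congrArg cl (show (λ_ X).hom = 𝟙 (𝟙_ C) ▷ X ≫ 𝟙 (𝟙_ C ⊗ X) ≫ (λ_ X).hom
    by simp)
  right_unitality X := congrArg cl (show (ρ_ X).hom = X ◁ 𝟙 (𝟙_ C) ≫ 𝟙 (X ⊗ 𝟙_ C) ≫ (ρ_ X).hom
    by simp)

instance : (proj J).Monoidal := (projCore J).toMonoidal

instance : (proj J).Braided where
  braided X Y := congrArg cl (show 𝟙 (X ⊗ Y) ≫ (β_ X Y).hom = (β_ X Y).hom ≫ 𝟙 (Y ⊗ X)
    by rw [Category.comp_id, Category.id_comp])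

end TQ

end QuotBraided

end Pool.Agent.MP_6e5bed_ag
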