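import Pool.Agent.Lib.MP_6e5bed_ag.SDefs

set_option autoImplicit false

/-!
# Tensor products of families of endomorphisms
-/

namespace Pool.Agent.MP_6e5bed_ag

open CategoryTheory MonoidalCategory Equiv

universe v u

section Tfam

variable {C : Type u} [Category.{v} C] [MonoidalCategory C]

/-- `w 0 ⊗ (w 1 ⊗ ⋯)` -/
def tfam {X : C} : (n : ℕ) → (Fin n → (X ⟶ X)) → (tpow X n ⟶ tpow X n)
  | 0, _ => 𝟙 (𝟙_ C)
  | n + 1, w => w 0 ⊗ₘ tfam n (fun i => w i.succ)

theorem tfam_succ {X : C} (n : ℕ) (w : Fin (n + 1) → (X ⟶ X)) :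
    tfam (n + 1) w = w 0 ⊗ₘ tfam n (fun i => w i.succ) := rfl

theorem tfam_const {X : C} (f : X ⟶ X) (n : ℕ) : tfam n (fun _ => f) = tmap f n := by
  induction n with
  | zero => rfl
  | succ n ih => rw [tfam_succ, ih, tmap_succ]

theorem tfam_one {X : C} (n : ℕ) : tfam n (fun _ => 𝟙 X) = 𝟙 (tpow X n) := by
  rw [tfam_const, tmap_id]

theorem tfam_comp {X : C} (n : ℕ) (w w' : Fin n → (X ⟶ X)) :
    tfam n w ≫ tfam n w' = tfam n (fun i => w i ≫ w' i) := by
  induction n with
  | zero => exact Category.comp_id _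
  | succ n ih =>
    rw [tfam_succ, tfam_succ, tfam_succ, ← ih]
    exact tensorHom_comp_tensorHom _ _ _ _

variable [SymmetricCategory C]

theorem sw_nat₂ {X : C} (f g : X ⟶ X) {T S : C} (h : T ⟶ S) :
    (f ⊗ₘ (g ⊗ₘ h)) ≫ sw X S = sw X T ≫ (g ⊗ₘ (f ⊗ₘ h)) := by
  unfold sw
  simp only [Category.assoc]
  rw [associator_inv_naturality_assoc, ← associator_naturality]
  congr 1
  rw [← Category.assoc, ← Category.assoc, ← tensorHom_id, ← tensorHom_id,
    tensorHom_comp_tensorHom, tensorHom_comp_tensorHom, BraidedCategory.braiding_naturality,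
    Category.comp_id, Category.id_comp]

theorem adj_tfam {X : C} (n : ℕ) : ∀ (i : ℕ) (h : i + 1 < n) (w : Fin n → (X ⟶ X)),
    tfam n w ≫ adj X n i = adj X n i ≫
      tfam n (fun j => w (swap ⟨i, (Nat.lt_succ_self i).trans h⟩ ⟨i + 1, h⟩ j)) := by
  induction n with
  | zero => intro i h; omega
  | succ n ih =>
    intro i h w
    cases n with
    | zero => omega
    | succ n =>
      cases i with
      | zero =>
        have h1 := sw_nat₂ (w 0) (w 1) (tfam n (fun i => w i.succ.succ))
        refine h1.trans ?_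
        change sw X (tpow X n) ≫ _ = sw X (tpow X n) ≫ _
        congr 1
      | succ i =>
        have h1 := ih i (by omega) (fun j => w j.succ)
        generalize hw' : (fun j => w (swap (⟨i + 1, (Nat.lt_succ_self (i + 1)).trans h⟩ :
          Fin (n + 1 + 1)) ⟨i + 1 + 1, h⟩ j)) = w'
        have e0 : w' 0 = w 0 := by
          rw [← hw']
          congr 1
        have e1 : (fun j => w' (Fin.succ j)) = fun j => w (swap
            (⟨i, (Nat.lt_succ_self i).trans (Nat.lt_of_succ_lt_succ h)⟩ : Fin (n + 1))
              ⟨i + 1, Nat.lt_of_succ_lt_succ h⟩ j).succ := by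
          funext j
          rw [← hw']
          congr 1
          simp only [swap_apply_def]
          by_cases h2 : j = ⟨i, (Nat.lt_succ_self i).trans (Nat.lt_of_succ_lt_succ h)⟩
          · subst h2
            simp [Fin.succ]
          · by_cases h3 : j = ⟨i + 1, Nat.lt_of_succ_lt_succ h⟩
            · subst h3
              simp [Fin.succ]
            · have h2' : j.succ ≠ (⟨i + 1, (Nat.lt_succ_self (i + 1)).trans h⟩ :
                  Fin (n + 1 + 1)) := by
                intro h4
                apply h2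
                apply Fin.ext
                have := congrArg Fin.val h4
                simpa using this
              have h3' : j.succ ≠ (⟨i + 1 + 1, h⟩ : Fin (n + 1 + 1)) := by
                intro h4
                apply h3
                apply Fin.ext
                have := congrArg Fin.val h4
                simpa using this
              rw [if_neg h2', if_neg h3', if_neg h2, if_neg h3]
        change (w 0 ⊗ₘ tfam (n + 1) (fun i => w i.succ)) ≫ X ◁ adj X (n + 1) i =
          X ◁ adj X (n + 1) i ≫ (w' 0 ⊗ₘ tfam (n + 1) (fun j => w' (Fin.succ j)))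
        rw [e0, e1]
        rw [← id_tensorHom, tensorHom_comp_tensorHom, tensorHom_comp_tensorHom, h1,
          Category.comp_id, Category.id_comp]

/-- equivariance -/
theorem tfam_perm {X : C} (n : ℕ) (σ : Perm (Fin n)) : ∀ w : Fin n → (X ⟶ X),
    tfam n w ≫ (perm X n σ : tpow X n ⟶ tpow X n) =
      (perm X n σ : tpow X n ⟶ tpow X n) ≫ tfam n (fun j => w (σ⁻¹ j)) := by
  refine perm_induction (P := fun σ => ∀ w : Fin n → (X ⟶ X),
    tfam n w ≫ (perm X n σ : tpow X n ⟶ tpow X n) =
      (perm X n σ : tpow X n ⟶ tpow X n) ≫ tfam n (fun j => w (σ⁻¹ j))) ?_ ?_ ?_ σ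
  · intro w
    rw [map_one]
    exact (Category.comp_id _).trans (Category.id_comp _).symm
  · intro i h w
    rw [perm_adj X n i h, swap_inv]
    exact adj_tfam n i h w
  · intro a b ha hb w
    rw [map_mul, End.mul_def, ← Category.assoc, hb, Category.assoc, ha, Category.assoc]
    rfl

end Tfam

end Pool.Agent.MP_6e5bed_ag
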