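import Pool.Agent.Lib.MP_6e5bed_ag.TDefs

set_option autoImplicit false

/-!
# Partial traces: first properties
-/

namespace Pool.Agent.MP_6e5bed_ag

open CategoryTheory MonoidalCategory Equiv

universe v u

section T1

variable {C : Type u} [Category.{v} C] [MonoidalCategory C] [SymmetricCategory C]

theorem ptr_nat_left (X : C) [HasLeftDual X] {S S' T : C} (g : S' ⟶ S) (f : X ⊗ S ⟶ X ⊗ T) :
    ptr X (X ◁ g ≫ f) = g ≫ ptr X f := by
  unfold ptr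
  rw [MonoidalCategory.whiskerLeft_comp, Category.assoc, ← associator_naturality_right_assoc,
    ← whisker_exchange_assoc, ← leftUnitor_inv_naturality_assoc]

theorem ptr_nat_right (X : C) [HasLeftDual X] {S T T' : C} (f : X ⊗ S ⟶ X ⊗ T)
    (h : T ⟶ T') : ptr X (f ≫ X ◁ h) = ptr X f ≫ h := by
  unfold ptr
  simp only [MonoidalCategory.whiskerLeft_comp, Category.assoc]
  rw [associator_inv_naturality_right_assoc, whisker_exchange_assoc, whisker_exchange_assoc,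
    leftUnitor_naturality]

theorem ptr_nat (X : C) [HasLeftDual X] {S S' T T' : C} (g : S' ⟶ S) (f : X ⊗ S ⟶ X ⊗ T)
    (h : T ⟶ T') : ptr X (X ◁ g ≫ f ≫ X ◁ h) = g ≫ ptr X f ≫ h := by
  rw [ptr_nat_left, ptr_nat_right]

theorem ptr_assoc (X : C) [HasLeftDual X] {S T : C} (f : X ⊗ S ⟶ X ⊗ T) (U : C) :
    ptr X ((α_ X S U).inv ≫ (f ▷ U) ≫ (α_ X T U).hom) = ptr X f ▷ U := by
  unfold ptr
  monoidal

theorem ptr_swap (X : C) [HasLeftDual X] : ptr X (β_ X X).hom = 𝟙 X := by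
  unfold ptr
  have h1 : (α_ (ᘁX) X X).hom ≫ (ᘁX) ◁ (β_ X X).hom ≫ (α_ (ᘁX) X X).inv ≫
      (β_ (ᘁX) X).hom ▷ X = (β_ ((ᘁX : C) ⊗ X) X).hom ≫ (α_ X (ᘁX) X).inv := by
    rw [BraidedCategory.braiding_tensor_left_hom]
    simp
  have h2 : (λ_ X).inv ≫ (η_ (ᘁX) X ▷ X) ≫ (β_ ((ᘁX : C) ⊗ X) X).hom =
      (ρ_ X).inv ≫ X ◁ η_ (ᘁX) X := by
    rw [BraidedCategory.braiding_naturality_left, leftUnitor_inv_braiding_assoc]
  have h3 := ExactPairing.coevaluation_evaluation (ᘁX) X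
  calc _ = (λ_ X).inv ≫ (η_ (ᘁX) X ▷ X) ≫ ((α_ (ᘁX) X X).hom ≫ (ᘁX) ◁ (β_ X X).hom ≫
      (α_ (ᘁX) X X).inv ≫ (β_ (ᘁX) X).hom ▷ X) ≫ (ε_ (ᘁX) X ▷ X) ≫ (λ_ X).hom := by
        simp only [Category.assoc]
    _ = ((λ_ X).inv ≫ (η_ (ᘁX) X ▷ X) ≫ (β_ ((ᘁX : C) ⊗ X) X).hom) ≫ (α_ X (ᘁX) X).inv ≫
      (ε_ (ᘁX) X ▷ X) ≫ (λ_ X).hom := by rw [h1]; simp only [Category.assoc]
    _ = (ρ_ X).inv ≫ (X ◁ η_ (ᘁX) X ≫ (α_ X (ᘁX) X).inv ≫ (ε_ (ᘁX) X ▷ X)) ≫ (λ_ X).hom := by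
        rw [h2]; simp only [Category.assoc]
    _ = 𝟙 X := by
        rw [h3]
        simp

/-- the partial trace of the exchange of the first two factors -/
theorem ptr_sw (X : C) [HasLeftDual X] (S : C) : ptr X (sw X S) = 𝟙 (X ⊗ S) := by
  have h := ptr_assoc X (β_ X X).hom S
  rw [ptr_swap, id_whiskerRight] at h
  exact h

variable [Preadditive C] [MonoidalPreadditive C]

theorem ptr_add (X : C) [HasLeftDual X] {S T : C} (f g : X ⊗ S ⟶ X ⊗ T) :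
    ptr X (f + g) = ptr X f + ptr X g := by
  unfold ptr
  simp only [MonoidalPreadditive.whiskerLeft_add, Preadditive.add_comp, Preadditive.comp_add]

/-- The partial trace as an additive map. -/
def ptrHom (X : C) [HasLeftDual X] (S T : C) : (X ⊗ S ⟶ X ⊗ T) →+ (S ⟶ T) :=
  AddMonoidHom.mk' (ptr X) (ptr_add X)

theorem ptr_sub (X : C) [HasLeftDual X] {S T : C} (f g : X ⊗ S ⟶ X ⊗ T) :
    ptr X (f - g) = ptr X f - ptr X g := (ptrHom X S T).map_sub f g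

theorem ptr_zero (X : C) [HasLeftDual X] {S T : C} :
    ptr X (0 : X ⊗ S ⟶ X ⊗ T) = 0 := (ptrHom X S T).map_zero

theorem ptr_sum (X : C) [HasLeftDual X] {S T : C} {ι : Type*} (t : Finset ι)
    (f : ι → (X ⊗ S ⟶ X ⊗ T)) : ptr X (∑ i ∈ t, f i) = ∑ i ∈ t, ptr X (f i) :=
  map_sum (ptrHom X S T) f t

theorem ptr_zsmul (X : C) [HasLeftDual X] {S T : C} (n : ℤ) (f : X ⊗ S ⟶ X ⊗ T) :
    ptr X (n • f) = n • ptr X f := map_zsmul (ptrHom X S T) n f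

theorem ptr_smul [Linear ℚ C] (X : C) [HasLeftDual X] {S T : C} (c : ℚ) (f : X ⊗ S ⟶ X ⊗ T) :
    ptr X (c • f) = c • ptr X f :=
  (ptrHom X S T).toRatLinearMap.map_smul c f

theorem TNil.tensor_left {S T S' T' : C} {f : S ⟶ T} (h : TNil f) (g : S' ⟶ T') :
    TNil (f ⊗ₘ g) := by
  rw [tNil_iff] at *
  obtain ⟨n, hn⟩ := h
  refine ⟨n, ?_⟩
  rw [cls_tensor, mul_pow]
  exact hn.mul_right _

theorem TNil.tensor_right {S T S' T' : C} (g : S' ⟶ T') {f : S ⟶ T} (h : TNil f) :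
    TNil (g ⊗ₘ f) := by
  rw [tNil_iff] at *
  obtain ⟨n, hn⟩ := h
  refine ⟨n, ?_⟩
  rw [cls_tensor, mul_pow]
  exact hn.mul_left _

theorem TNil.whiskerLeft (X : C) {S T : C} {f : S ⟶ T} (h : TNil f) : TNil (X ◁ f) := by
  rw [← id_tensorHom]
  exact h.tensor_right _

theorem TNil.whiskerRight {S T : C} {f : S ⟶ T} (h : TNil f) (X : C) : TNil (f ▷ X) := by
  rw [← tensorHom_id]
  exact h.tensor_left _

theorem TNil.ptr (X : C) [HasLeftDual X] {S T : C} {f : X ⊗ S ⟶ X ⊗ T} (h : TNil f) :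
    TNil (ptr X f) := by
  unfold Pool.Agent.MP_6e5bed_ag.ptr
  exact ((((h.whiskerLeft _).comp_right _).comp_left _).comp_left _).comp_left _

end T1

end Pool.Agent.MP_6e5bed_ag
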