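import Pool.Agent.Lib.MP_6e5bed_ag.T9C

set_option autoImplicit false

/-!
# Tensor cancellation for Kimura-finiteness
-/

namespace Pool.Agent.MP_6e5bed_ag

open CategoryTheory MonoidalCategory Equiv

universe v u

section T10

variable {C : Type u} [Category.{v} C] [MonoidalCategory C] [SymmetricCategory C]
  [Preadditive C] [Linear ℚ C]

theorem KimuraFinite.of_iso {X Y : C} (φ : X ≅ Y) (h : KimuraFinite X) : KimuraFinite Y := by
  obtain ⟨P, Q, i, p, j, q, hip, hjq, hsum, hP, hQ⟩ := h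
  refine ⟨P, Q, i ≫ φ.hom, φ.inv ≫ p, j ≫ φ.hom, φ.inv ≫ q, ?_, ?_, ?_, hP, hQ⟩
  · rw [Category.assoc, Iso.hom_inv_id_assoc, hip]
  · rw [Category.assoc, Iso.hom_inv_id_assoc, hjq]
  · calc (φ.inv ≫ p) ≫ i ≫ φ.hom + (φ.inv ≫ q) ≫ j ≫ φ.hom =
        φ.inv ≫ (p ≫ i + q ≫ j) ≫ φ.hom := by
          simp only [Preadditive.add_comp, Preadditive.comp_add, Category.assoc]
      _ = 𝟙 Y := by rw [hsum, Category.id_comp, Iso.inv_hom_id]

variable [MonoidalPreadditive C] [IsIdempotentComplete C]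

attribute [local instance] hasLeftDualTensor

theorem kimuraFinite_left (hU : ∀ a : 𝟙_ C ⟶ 𝟙_ C, ∃ c : ℚ, a = c • 𝟙 (𝟙_ C))
    {M M' N N' : C} [ExactPairing M' M] [ExactPairing N' N] (h0 : 𝟙 (M ⊗ N) ≠ 0)
    (h : KimuraFinite (M ⊗ N)) : KimuraFinite M := by
  letI : HasLeftDual M := ⟨M'⟩
  letI : HasLeftDual N := ⟨N'⟩
  have hne : 𝟙 (𝟙_ C) ≠ 0 := by
    intro h1
    apply h0
    have h2 : 𝟙 (𝟙_ C ⊗ (M ⊗ N)) = 0 := by
      rw [← id_tensorHom_id, h1, MonoidalPreadditive.zero_tensor]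
    rw [← cancel_epi (λ_ (M ⊗ N)).hom, Category.comp_id, Limits.comp_zero,
      ← Category.id_comp (λ_ (M ⊗ N)).hom, h2, Limits.zero_comp]
  haveI : RatUnit C := ⟨hU, hne⟩
  obtain ⟨P, Q, i, p, j, q, hip, hjq, hsum, hP, hQ⟩ := h
  obtain ⟨r, hr⟩ := (isEven_iff P).1 hP
  obtain ⟨s, hs⟩ := (isOdd_iff Q).1 hQ
  have he : (p ≫ i) ≫ (p ≫ i) = p ≫ i := by
    rw [Category.assoc, ← Category.assoc i, hip, Category.id_comp]
  have hq : 𝟙 (M ⊗ N) - p ≫ i = q ≫ j := by rw [← hsum, add_sub_cancel_left]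
  have hA : altSum (M ⊗ N) r ≫ tmap (p ≫ i) r = 0 := by
    rw [tmap_comp, ← Category.assoc, ← altSum_nat, hr, Limits.comp_zero, Limits.zero_comp]
  have hB : symSum (M ⊗ N) s ≫ tmap (𝟙 (M ⊗ N) - p ≫ i) s = 0 := by
    rw [hq, tmap_comp, ← Category.assoc, ← symSum_nat, hs, Limits.comp_zero, Limits.zero_comp]
  obtain ⟨a, b, D, c, hR⟩ := exists_rank1 M N he hA hB h0
  obtain ⟨g, n, m, hg, hgA, hgB⟩ := hR.exists_idem he hA hB
  have hg' : (𝟙 M - g) ≫ (𝟙 M - g) = 𝟙 M - g := by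
    simp only [Preadditive.sub_comp, Preadditive.comp_sub, Category.id_comp, Category.comp_id, hg]
    abel
  obtain ⟨P', i', p', h1, h2⟩ := IsIdempotentComplete.idempotents_split M g hg
  obtain ⟨Q', j', q', h3, h4⟩ := IsIdempotentComplete.idempotents_split M (𝟙 M - g) hg'
  refine ⟨P', Q', i', p', j', q', h1, h3, ?_, ?_, ?_⟩
  · rw [h2, h4, add_sub_cancel]
  · exact (isEven_iff P').2 ⟨n, even_of_split h1 h2 hgA⟩
  · exact (isOdd_iff Q').2 ⟨m, odd_of_split h3 h4 hgB⟩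

theorem kimuraFinite_of_tensor (hU : ∀ a : 𝟙_ C ⟶ 𝟙_ C, ∃ c : ℚ, a = c • 𝟙 (𝟙_ C))
    {M M' N N' : C} [ExactPairing M' M] [ExactPairing N' N] (h0 : 𝟙 (M ⊗ N) ≠ 0)
    (h : KimuraFinite (M ⊗ N)) : KimuraFinite M ∧ KimuraFinite N := by
  refine ⟨kimuraFinite_left hU (M' := M') (N' := N') h0 h,
    kimuraFinite_left hU (M' := N') (N' := M') ?_ (h.of_iso (β_ M N))⟩
  intro h1
  apply h0
  rw [← Iso.hom_inv_id (β_ M N), ← Category.comp_id (β_ M N).hom, h1, Limits.comp_zero,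
    Limits.zero_comp]

end T10

end Pool.Agent.MP_6e5bed_ag
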