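import Pool.Agent.Lib.MP_6e5bed_ag.T1

set_option autoImplicit false

/-!
# Partial traces: cyclicity and tensor products
-/

namespace Pool.Agent.MP_6e5bed_ag

open CategoryTheory MonoidalCategory Equiv

universe v u

section T2

variable {C : Type u} [Category.{v} C] [MonoidalCategory C] [SymmetricCategory C]

attribute [local instance] hasLeftDualTensor

/-- cyclicity, before taking numbers -/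
theorem ptr_comm (X : C) [HasLeftDual X] (f g : X ⟶ X) (S : C) :
    ptr X ((f ≫ g) ▷ S) = ptr X ((g ≫ f) ▷ S) := by
  have key : ∀ f g : X ⟶ X, η_ (ᘁX) X ≫ (ᘁX) ◁ (f ≫ g) ≫ (β_ (ᘁX) X).hom ≫ ε_ (ᘁX) X =
      η_ (ᘁX) X ≫ (ᘁX) ◁ (g ≫ f) ≫ (β_ (ᘁX) X).hom ≫ ε_ (ᘁX) X := by
    intro f g
    calc η_ (ᘁX) X ≫ (ᘁX) ◁ (f ≫ g) ≫ (β_ (ᘁX) X).hom ≫ ε_ (ᘁX) X
        = η_ (ᘁX) X ≫ (ᘁX) ◁ f ≫ (β_ (ᘁX) X).hom ≫ g ▷ (ᘁX : C) ≫ ε_ (ᘁX) X := by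
          rw [MonoidalCategory.whiskerLeft_comp, Category.assoc,
            BraidedCategory.braiding_naturality_right_assoc]
      _ = η_ (ᘁX) X ≫ (ᘁX) ◁ f ≫ (β_ (ᘁX) X).hom ≫ X ◁ (leftAdjointMate g) ≫ ε_ (ᘁX) X := by
          rw [← leftAdjointMate_comp_evaluation]
      _ = η_ (ᘁX) X ≫ (leftAdjointMate g) ▷ X ≫ (ᘁX) ◁ f ≫ (β_ (ᘁX) X).hom ≫ ε_ (ᘁX) X := by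
          rw [← BraidedCategory.braiding_naturality_left_assoc, ← whisker_exchange_assoc]
      _ = _ := by
          rw [coevaluation_comp_leftAdjointMate_assoc, MonoidalCategory.whiskerLeft_comp,
            Category.assoc]
  have h : ∀ f : X ⟶ X, ptr X (f ▷ S) = (λ_ S).inv ≫
      (η_ (ᘁX) X ≫ (ᘁX) ◁ f ≫ (β_ (ᘁX) X).hom ≫ ε_ (ᘁX) X) ▷ S ≫ (λ_ S).hom := by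
    intro f
    unfold ptr
    monoidal
  rw [h, h, key]

theorem ptr_unit {S T : C} (f : 𝟙_ C ⊗ S ⟶ 𝟙_ C ⊗ T) :
    ptr (𝟙_ C) f = (λ_ S).inv ≫ f ≫ (λ_ T).hom := by
  unfold ptr
  have h1 : (β_ (ᘁ(𝟙_ C)) (𝟙_ C)).hom = 𝟙 (𝟙_ C ⊗ 𝟙_ C) := by
    change (β_ (𝟙_ C) (𝟙_ C)).hom = _
    rw [braiding_tensorUnit_left, unitors_equal, Iso.hom_inv_id]
  have h2 : η_ (ᘁ(𝟙_ C)) (𝟙_ C) = (ρ_ (𝟙_ C)).inv := rfl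
  have h3 : ε_ (ᘁ(𝟙_ C)) (𝟙_ C) = (ρ_ (𝟙_ C)).hom := rfl
  rw [h1, h2, h3]
  change (λ_ S).inv ≫ ((ρ_ (𝟙_ C)).inv ▷ S) ≫ (α_ (𝟙_ C) (𝟙_ C) S).hom ≫ ((𝟙_ C) ◁ f) ≫
    (α_ (𝟙_ C) (𝟙_ C) T).inv ≫ (𝟙 (𝟙_ C ⊗ 𝟙_ C) ▷ T) ≫ ((ρ_ (𝟙_ C)).hom ▷ T) ≫ (λ_ T).hom = _
  monoidal

theorem tz_aux0 {A V : C} (u : V ⟶ 𝟙_ C) :
    A ◁ u ≫ (ρ_ A).hom = (β_ A V).hom ≫ u ▷ A ≫ (λ_ A).hom := by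
  rw [← BraidedCategory.braiding_naturality_right_assoc, braiding_leftUnitor]

theorem tz_aux1 {A B Y : C} (z : A ⊗ Y ⟶ 𝟙_ C) :
    (β_ A B).hom ▷ Y ≫ (α_ B A Y).hom ≫ B ◁ z ≫ (ρ_ B).hom =
      (α_ A B Y).hom ≫ A ◁ (β_ B Y).hom ≫ (α_ A Y B).inv ≫ z ▷ B ≫ (λ_ B).hom := by
  rw [tz_aux0, BraidedCategory.braiding_tensor_right_hom]
  simp only [Category.assoc, Iso.hom_inv_id_assoc]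
  rw [← comp_whiskerRight_assoc, SymmetricCategory.symmetry, id_whiskerRight, Category.id_comp]

theorem tz_key {A B X Y : C} (u : X ⊗ B ⟶ 𝟙_ C) (w : Y ⊗ A ⟶ 𝟙_ C) :
    (β_ (A ⊗ B) (X ⊗ Y)).hom ≫ (α_ X Y (A ⊗ B)).hom ≫
      X ◁ ((α_ Y A B).inv ≫ (w ▷ B) ≫ (λ_ B).hom) ≫ u =
    (α_ A B (X ⊗ Y)).hom ≫ A ◁ ((α_ B X Y).inv ≫ (((β_ B X).hom ≫ u) ▷ Y) ≫ (λ_ Y).hom) ≫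
      (β_ A Y).hom ≫ w := by
  obtain ⟨z, hz⟩ : ∃ z, z = (β_ A Y).hom ≫ w := ⟨_, rfl⟩
  have hAu : A ◁ u = (β_ A (X ⊗ B)).hom ≫ u ▷ A ≫ (λ_ A).hom ≫ (ρ_ A).inv := by
    have h := tz_aux0 (A := A) u
    rw [← Category.assoc (u ▷ A), ← Category.assoc, Iso.eq_comp_inv, h]
  rw [← hz]
  calc _ = 𝟙 _ ⊗≫ A ◁ ((β_ B X).hom ▷ Y) ⊗≫ ((A ⊗ X) ◁ (β_ B Y).hom ≫
        (β_ A X).hom ▷ (Y ⊗ B)) ⊗≫ X ◁ (((β_ A Y).hom ≫ w) ▷ B) ⊗≫ u := by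
        rw [BraidedCategory.braiding_tensor_left_hom, BraidedCategory.braiding_tensor_right_hom,
          BraidedCategory.braiding_tensor_right_hom]
        monoidal
    _ = 𝟙 _ ⊗≫ A ◁ ((β_ B X).hom ▷ Y) ⊗≫ (β_ A X).hom ▷ (B ⊗ Y) ⊗≫
        X ◁ ((α_ A B Y).hom ≫ A ◁ (β_ B Y).hom ≫ (α_ A Y B).inv ≫ z ▷ B ≫ (λ_ B).hom) ⊗≫ u := by
        rw [whisker_exchange, ← hz]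
        monoidal
    _ = 𝟙 _ ⊗≫ A ◁ ((β_ B X).hom ▷ Y) ⊗≫ (β_ A X).hom ▷ (B ⊗ Y) ⊗≫
        X ◁ ((β_ A B).hom ▷ Y ≫ (α_ B A Y).hom ≫ B ◁ z ≫ (ρ_ B).hom) ⊗≫ u := by
        rw [tz_aux1]
    _ = 𝟙 _ ⊗≫ A ◁ ((β_ B X).hom ▷ Y) ⊗≫ (β_ A (X ⊗ B)).hom ▷ Y ⊗≫
        ((X ⊗ B) ◁ z ≫ u ▷ 𝟙_ C) ⊗≫ 𝟙 _ := by
        rw [BraidedCategory.braiding_tensor_right_hom]
        monoidal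
    _ = 𝟙 _ ⊗≫ A ◁ ((β_ B X).hom ▷ Y) ⊗≫
        ((β_ A (X ⊗ B)).hom ≫ u ▷ A ≫ (λ_ A).hom ≫ (ρ_ A).inv) ▷ Y ⊗≫ z ⊗≫ 𝟙 _ := by
        rw [whisker_exchange]
        monoidal
    _ = 𝟙 _ ⊗≫ A ◁ ((β_ B X).hom ▷ Y) ⊗≫ (A ◁ u) ▷ Y ⊗≫ z ⊗≫ 𝟙 _ := by
        rw [hAu]
    _ = _ := by monoidal

/-- the partial trace over a tensor product -/
theorem ptr_ptr (X Y : C) [HasLeftDual X] [HasLeftDual Y] {S T : C}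
    (f : (X ⊗ Y) ⊗ S ⟶ (X ⊗ Y) ⊗ T) :
    ptr (X ⊗ Y) f = ptr Y (ptr X ((α_ X Y S).inv ≫ f ≫ (α_ X Y T).hom)) := by
  have h1 : ptr (X ⊗ Y) f = (λ_ S).inv ≫
      ((η_ (ᘁY) Y ⊗≫ ((ᘁY) ◁ η_ (ᘁX) X) ▷ Y ⊗≫ 𝟙 (((ᘁY : C) ⊗ (ᘁX : C)) ⊗ (X ⊗ Y))) ▷ S) ≫
      (α_ ((ᘁY : C) ⊗ (ᘁX : C)) (X ⊗ Y) S).hom ≫ (((ᘁY : C) ⊗ (ᘁX : C)) ◁ f) ≫
      (α_ ((ᘁY : C) ⊗ (ᘁX : C)) (X ⊗ Y) T).inv ≫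
      (((β_ ((ᘁY : C) ⊗ (ᘁX : C)) (X ⊗ Y)).hom ≫ (α_ X Y ((ᘁY : C) ⊗ (ᘁX : C))).hom ≫
        X ◁ ((α_ Y (ᘁY) (ᘁX)).inv ≫ (ε_ (ᘁY) Y ▷ (ᘁX)) ≫ (λ_ (ᘁX)).hom) ≫ ε_ (ᘁX) X) ▷ T) ≫
      (λ_ T).hom := by
    have h2 : ptr (X ⊗ Y) f = (λ_ S).inv ≫
      ((η_ (ᘁY) Y ⊗≫ ((ᘁY) ◁ η_ (ᘁX) X) ▷ Y ⊗≫ 𝟙 (((ᘁY : C) ⊗ (ᘁX : C)) ⊗ (X ⊗ Y))) ▷ S) ≫
      (α_ ((ᘁY : C) ⊗ (ᘁX : C)) (X ⊗ Y) S).hom ≫ (((ᘁY : C) ⊗ (ᘁX : C)) ◁ f) ≫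
      (α_ ((ᘁY : C) ⊗ (ᘁX : C)) (X ⊗ Y) T).inv ≫
      ((β_ ((ᘁY : C) ⊗ (ᘁX : C)) (X ⊗ Y)).hom ▷ T) ≫
      ((𝟙 ((X ⊗ Y) ⊗ ((ᘁY : C) ⊗ (ᘁX : C))) ⊗≫ X ◁ (ε_ (ᘁY) Y ▷ (ᘁX)) ⊗≫ ε_ (ᘁX) X) ▷ T) ≫
      (λ_ T).hom := rfl
    rw [h2]
    monoidal
  rw [h1, tz_key]
  unfold ptr
  monoidal

end T2

end Pool.Agent.MP_6e5bed_ag
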