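import Pool.Agent.Lib.MP_6e5bed_ag.T2

set_option autoImplicit false

/-!
# Traces
-/

namespace Pool.Agent.MP_6e5bed_ag

open CategoryTheory MonoidalCategory Equiv

universe v u

section T3a

variable {C : Type u} [Category.{v} C] [MonoidalCategory C] [SymmetricCategory C]
  [Preadditive C] [MonoidalPreadditive C] [Linear ℚ C]

omit [SymmetricCategory C] in
theorem whiskerLeft_qsmul (X : C) {S T : C} (c : ℚ) (f : S ⟶ T) : X ◁ (c • f) = c • (X ◁ f) :=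
  (tensorLeft X).map_smul c f

omit [SymmetricCategory C] in
theorem qsmul_whiskerRight {S T : C} (c : ℚ) (f : S ⟶ T) (X : C) : (c • f) ▷ X = c • (f ▷ X) :=
  (tensorRight X).map_smul c f

omit [SymmetricCategory C] in
theorem qsmul_tensor {S T S' T' : C} (c : ℚ) (f : S ⟶ T) (g : S' ⟶ T') :
    ((c • f) ⊗ₘ g) = c • (f ⊗ₘ g) := by
  rw [MonoidalCategory.tensorHom_def, MonoidalCategory.tensorHom_def, qsmul_whiskerRight, Linear.smul_comp]

omit [SymmetricCategory C] in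
theorem tensor_qsmul {S T S' T' : C} (c : ℚ) (f : S ⟶ T) (g : S' ⟶ T') :
    (f ⊗ₘ (c • g)) = c • (f ⊗ₘ g) := by
  rw [MonoidalCategory.tensorHom_def, MonoidalCategory.tensorHom_def, whiskerLeft_qsmul, Linear.comp_smul]

omit [SymmetricCategory C] [Linear ℚ C] in
theorem sub_tensor {S T S' T' : C} (f f' : S ⟶ T) (g : S' ⟶ T') :
    ((f - f') ⊗ₘ g) = (f ⊗ₘ g) - (f' ⊗ₘ g) := by
  have h : ((f - f') ⊗ₘ g) + (f' ⊗ₘ g) = (f ⊗ₘ g) := by
    rw [← MonoidalPreadditive.add_tensor, sub_add_cancel]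
  rw [← h, add_sub_cancel_right]

omit [SymmetricCategory C] [Linear ℚ C] in
theorem tensor_sub {S T S' T' : C} (f : S ⟶ T) (g g' : S' ⟶ T') :
    (f ⊗ₘ (g - g')) = (f ⊗ₘ g) - (f ⊗ₘ g') := by
  have h : (f ⊗ₘ (g - g')) + (f ⊗ₘ g') = (f ⊗ₘ g) := by
    rw [← MonoidalPreadditive.tensor_add, sub_add_cancel]
  rw [← h, add_sub_cancel_right]

end T3a

section T3

variable {C : Type u} [Category.{v} C] [MonoidalCategory C] [SymmetricCategory C]
  [Preadditive C] [MonoidalPreadditive C] [Linear ℚ C] [RatUnit C]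

attribute [local instance] hasLeftDualTensor

omit [SymmetricCategory C] [MonoidalPreadditive C] in
theorem sc_spec (a : 𝟙_ C ⟶ 𝟙_ C) : a = sc a • 𝟙 (𝟙_ C) := (RatUnit.ex a).choose_spec

omit [SymmetricCategory C] [MonoidalPreadditive C] in
theorem sc_eq {a : 𝟙_ C ⟶ 𝟙_ C} {c : ℚ} (h : a = c • 𝟙 (𝟙_ C)) : sc a = c := by
  have h1 := sc_spec a
  rw [h] at h1
  have h2 : (sc a - c) • 𝟙 (𝟙_ C) = 0 := by
    rw [sub_smul, sub_eq_zero, ← h]
    exact (sc_spec a).symm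
  rcases smul_eq_zero.1 h2 with h3 | h3
  · exact sub_eq_zero.1 h3
  · exact absurd h3 RatUnit.ne

omit [MonoidalPreadditive C] in
theorem tr_spec (X : C) [HasLeftDual X] (f : X ⟶ X) :
    ptr X (f ▷ 𝟙_ C) = tr X f • 𝟙 (𝟙_ C) := sc_spec _

theorem ptr_whiskerRight (X : C) [HasLeftDual X] (f : X ⟶ X) (S : C) :
    ptr X (f ▷ S) = tr X f • 𝟙 S := by
  have h := ptr_assoc X (f ▷ 𝟙_ C) S
  rw [tr_spec, qsmul_whiskerRight, id_whiskerRight] at h
  have h2 := ptr_nat X (λ_ S).inv ((α_ X (𝟙_ C) S).inv ≫ ((f ▷ 𝟙_ C) ▷ S) ≫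
    (α_ X (𝟙_ C) S).hom) (λ_ S).hom
  rw [h] at h2
  have h3 : X ◁ (λ_ S).inv ≫ ((α_ X (𝟙_ C) S).inv ≫ ((f ▷ 𝟙_ C) ▷ S) ≫
    (α_ X (𝟙_ C) S).hom) ≫ X ◁ (λ_ S).hom = f ▷ S := by monoidal
  rw [h3] at h2
  rw [h2, Linear.smul_comp, Linear.comp_smul, Category.id_comp, Iso.inv_hom_id]

theorem ptr_tensor (X : C) [HasLeftDual X] (f : X ⟶ X) {S T : C} (g : S ⟶ T) :
    ptr X (f ⊗ₘ g) = tr X f • g := by
  rw [MonoidalCategory.tensorHom_def, ptr_nat_right, ptr_whiskerRight, Linear.smul_comp, Category.id_comp]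

omit [MonoidalPreadditive C] in
theorem tr_eq_of {X : C} [HasLeftDual X] {f : X ⟶ X} {c : ℚ}
    (h : ptr X (f ▷ 𝟙_ C) = c • 𝟙 (𝟙_ C)) : tr X f = c := sc_eq h

theorem tr_add (X : C) [HasLeftDual X] (f g : X ⟶ X) : tr X (f + g) = tr X f + tr X g := by
  apply tr_eq_of
  rw [MonoidalPreadditive.add_whiskerRight, ptr_add, tr_spec, tr_spec, add_smul]

/-- The trace as an additive map. -/
noncomputable def trHom (X : C) [HasLeftDual X] : (X ⟶ X) →+ ℚ :=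
  AddMonoidHom.mk' (tr X) (tr_add X)

theorem tr_sub (X : C) [HasLeftDual X] (f g : X ⟶ X) : tr X (f - g) = tr X f - tr X g :=
  (trHom X).map_sub f g

theorem tr_zero (X : C) [HasLeftDual X] : tr X (0 : X ⟶ X) = 0 := (trHom X).map_zero

theorem tr_neg (X : C) [HasLeftDual X] (f : X ⟶ X) : tr X (-f) = -tr X f := (trHom X).map_neg f

theorem tr_smul (X : C) [HasLeftDual X] (c : ℚ) (f : X ⟶ X) : tr X (c • f) = c * tr X f :=
  (trHom X).toRatLinearMap.map_smul c f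

theorem tr_sum (X : C) [HasLeftDual X] {ι : Type*} (t : Finset ι) (f : ι → (X ⟶ X)) :
    tr X (∑ i ∈ t, f i) = ∑ i ∈ t, tr X (f i) := map_sum (trHom X) f t

omit [MonoidalPreadditive C] in
theorem tr_comm (X : C) [HasLeftDual X] (f g : X ⟶ X) : tr X (f ≫ g) = tr X (g ≫ f) := by
  unfold tr
  rw [ptr_comm]

omit [MonoidalPreadditive C] in
theorem tr_eq_tr_ptr (X Y : C) [HasLeftDual X] [HasLeftDual Y] (f : X ⊗ Y ⟶ X ⊗ Y) :
    tr (X ⊗ Y) f = tr Y (ptr X f) := by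
  apply tr_eq_of
  rw [ptr_ptr, ptr_assoc, tr_spec]

theorem tr_tensor (X Y : C) [HasLeftDual X] [HasLeftDual Y] (f : X ⟶ X) (g : Y ⟶ Y) :
    tr (X ⊗ Y) (f ⊗ₘ g) = tr X f * tr Y g := by
  rw [tr_eq_tr_ptr, ptr_tensor, tr_smul]

omit [MonoidalPreadditive C] in
theorem tr_unit (f : 𝟙_ C ⟶ 𝟙_ C) : tr (𝟙_ C) f = sc f := by
  apply tr_eq_of
  rw [ptr_unit]
  have h : (λ_ (𝟙_ C)).inv ≫ (f ▷ 𝟙_ C) ≫ (λ_ (𝟙_ C)).hom = f := by
    rw [unitors_equal, rightUnitor_naturality, unitors_inv_equal, Iso.inv_hom_id_assoc]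
  rw [h]
  exact sc_spec f

theorem tr_of_tNil (X : C) [HasLeftDual X] {f : X ⟶ X} (h : TNil f) : tr X f = 0 := by
  have h1 := (h.whiskerRight (𝟙_ C)).ptr X
  rw [tr_spec] at h1
  obtain ⟨n, hn⟩ := h1
  have h2 : ∀ (c : ℚ) (n : ℕ), tmap (c • 𝟙 (𝟙_ C)) n = c ^ n • 𝟙 (tpow (𝟙_ C) n) := by
    intro c n
    induction n with
    | zero => rw [pow_zero, one_smul]; rfl
    | succ n ih =>
      rw [tmap_succ, ih, qsmul_tensor, tensor_qsmul, smul_smul, pow_succ', id_tensorHom_id]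
      rfl
  have h3 : ∀ n : ℕ, 𝟙 (tpow (𝟙_ C) n) ≠ 0 := by
    intro n
    induction n with
    | zero => exact RatUnit.ne
    | succ n ih =>
      intro h4
      apply ih
      have h5 : 𝟙 (𝟙_ C ⊗ tpow (𝟙_ C) n) = 0 := h4
      rw [← cancel_epi (λ_ (tpow (𝟙_ C) n)).hom, Category.comp_id, Limits.comp_zero,
        ← Category.id_comp (λ_ (tpow (𝟙_ C) n)).hom, h5, Limits.zero_comp]
  rw [h2] at hn
  rcases smul_eq_zero.1 hn with h4 | h4
  · exact eq_zero_of_pow_eq_zero h4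
  · exact absurd h4 (h3 n)

theorem tr_congr (X : C) [HasLeftDual X] {f g : X ⟶ X} (h : TNil (f - g)) :
    tr X f = tr X g := by
  have h1 := tr_of_tNil X h
  rw [tr_sub] at h1
  exact sub_eq_zero.1 h1

/-- a factor of a vanishing tensor product -/
theorem eq_zero_of_tensor' {Z Z' W : C} [HasLeftDual W] {A : Z ⟶ Z'} {B : W ⟶ W}
    (h : B ⊗ₘ A = 0) (hB : tr W B ≠ 0) : A = 0 := by
  have h1 := ptr_tensor W B A
  rw [h, ptr_zero] at h1
  exact (smul_eq_zero.1 h1.symm).resolve_left hB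

theorem eq_zero_of_tensor {Z Z' W : C} [HasLeftDual W] {A : Z ⟶ Z'} {B : W ⟶ W}
    (h : A ⊗ₘ B = 0) (hB : tr W B ≠ 0) : A = 0 := by
  refine eq_zero_of_tensor' (B := B) ?_ hB
  have h1 := BraidedCategory.braiding_naturality B A
  rw [h, Limits.comp_zero] at h1
  rw [← cancel_mono (β_ W Z').hom, h1, Limits.zero_comp]

end T3

end Pool.Agent.MP_6e5bed_ag
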