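import Pool.Agent.Lib.MP_6e5bed_ag.T4
import Mathlib

set_option autoImplicit false

/-!
# Newton's identities
-/

namespace Pool.Agent.MP_6e5bed_ag

open CategoryTheory MonoidalCategory Equiv

universe v u

section T5poly

open Polynomial

theorem irreducible_quad {c : ℚ} (hc : ¬ IsSquare c) :
    Irreducible (1 - C c * X ^ 2 : ℚ[X]) := by
  have hc0 : c ≠ 0 := by
    rintro rfl
    exact hc (IsSquare.zero)
  have hdeg : (1 - C c * X ^ 2 : ℚ[X]).natDegree = 2 := by
    compute_degree!
  rw [irreducible_iff_roots_eq_zero_of_degree_le_three (by omega) (by omega)]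
  rw [Multiset.eq_zero_iff_forall_notMem]
  intro z hz
  rw [mem_roots'] at hz
  have h := hz.2
  simp only [IsRoot.def, eval_sub, eval_one, eval_mul, eval_C, eval_pow, eval_X] at h
  have hz0 : z ≠ 0 := by
    rintro rfl
    norm_num at h
  apply hc
  refine ⟨z⁻¹, ?_⟩
  field_simp
  linarith

/-- the polynomial argument -/
theorem newton_poly {c : ℚ} (hc : ¬ IsSquare c) (p h : ℕ → ℚ) (h0 : h 0 = 1)
    (hnewton : ∀ n : ℕ, (n : ℚ) * h n = ∑ i ∈ Finset.range n, p (i + 1) * h (n - 1 - i))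
    (hp : ∀ i, p (i + 3) = c * p (i + 1)) {N : ℕ} (hN : ∀ n, N ≤ n → h n = 0) : p 1 = 0 := by
  -- the recursion
  have r0 : h 1 = p 1 * h 0 := by
    have h1 := hnewton 1
    simpa using h1
  have r1 : 2 * h 2 = p 1 * h 1 + p 2 * h 0 := by
    have h1 := hnewton 2
    rw [Finset.sum_range_succ, Finset.sum_range_one] at h1
    simpa using h1
  have r2 : ∀ n : ℕ, ((n : ℚ) + 3) * h (n + 3) =
      p 1 * h (n + 2) + p 2 * h (n + 1) + c * (((n : ℚ) + 1) * h (n + 1)) := by
    intro n
    have h1 := hnewton (n + 3)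
    have h2 := hnewton (n + 1)
    rw [Finset.sum_range_succ', Finset.sum_range_succ'] at h1
    have h3 : ∀ i ∈ Finset.range (n + 1), p (i + 1 + 1 + 1) * h (n + 3 - 1 - (i + 1 + 1)) =
        c * (p (i + 1) * h (n + 1 - 1 - i)) := by
      intro i hi
      rw [hp i, mul_assoc]
      congr 3
      omega
    rw [Finset.sum_congr rfl h3, ← Finset.mul_sum, ← h2] at h1
    push_cast at h1
    rw [h1]
    ring
  obtain ⟨H, hH⟩ : ∃ H : ℚ[X], ∀ n, H.coeff n = h n := by
    refine ⟨∑ n ∈ Finset.range N, monomial n (h n), fun n => ?_⟩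
    rw [finsetSum_coeff]
    simp only [coeff_monomial]
    rw [Finset.sum_ite_eq' (Finset.range N) n h]
    split_ifs with hn
    · rfl
    · exact (hN n (by simpa using hn)).symm
  have hH0 : H ≠ 0 := by
    intro h1
    have h2 := hH 0
    rw [h1, coeff_zero, h0] at h2
    exact zero_ne_one h2
  have hode : (1 - C c * X ^ 2) * derivative H = (C (p 1) + C (p 2) * X) * H := by
    ext n
    rw [sub_mul, add_mul, one_mul, coeff_sub, coeff_add, mul_assoc, coeff_C_mul, coeff_C_mul,
      mul_assoc (C (p 2)), coeff_C_mul, mul_comm (X ^ 2), mul_comm X, coeff_mul_X_pow',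
      coeff_derivative, hH, hH]
    rcases n with _ | _ | n
    · simp [r0]
    · rw [coeff_mul_X, hH]
      simp
      linarith [r1]
    · rw [coeff_mul_X, hH, if_pos (by omega), coeff_derivative, hH,
        show n + 1 + 1 - 2 + 1 = n + 1 by omega, show n + 1 + 1 - 2 = n by omega]
      push_cast
      have h4 := r2 n
      linear_combination h4
  obtain ⟨k, G, hG, hHG⟩ := WfDvdMonoid.max_power_factor hH0 (irreducible_quad hc)
  have hq0 : (1 - C c * X ^ 2 : ℚ[X]) ≠ 0 := (irreducible_quad hc).ne_zero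
  have hdq : derivative (1 - C c * X ^ 2 : ℚ[X]) = - (C (2 * c) * X) := by
    rw [derivative_sub, derivative_one, derivative_C_mul, derivative_X_pow]
    simp
    ring
  have hkey : (1 - C c * X ^ 2 : ℚ[X]) * derivative G =
      (C (p 1) + C (p 2) * X + C ((k : ℚ) * (2 * c)) * X) * G := by
    apply mul_left_cancel₀ (pow_ne_zero k hq0)
    have h5 : derivative H = (1 - C c * X ^ 2) ^ k * derivative G +
        C (k : ℚ) * (1 - C c * X ^ 2) ^ (k - 1) * (-(C (2 * c) * X)) * G := by
      rw [hHG, derivative_mul, derivative_pow, hdq]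
      ring
    rw [h5] at hode
    have h6 : C (k : ℚ) * (1 - C c * X ^ 2) * (1 - C c * X ^ 2) ^ (k - 1) =
        C (k : ℚ) * (1 - C c * X ^ 2 : ℚ[X]) ^ k := by
      cases k with
      | zero => simp
      | succ k =>
        rw [Nat.add_sub_cancel, pow_succ]
        ring
    rw [hHG] at hode
    have h7 : (1 - C c * X ^ 2) ^ k * ((1 - C c * X ^ 2) * derivative G) =
        (C (p 1) + C (p 2) * X) * ((1 - C c * X ^ 2) ^ k * G) +
          (C (k : ℚ) * (1 - C c * X ^ 2) * (1 - C c * X ^ 2) ^ (k - 1)) * (C (2 * c) * X) * G := by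
      rw [← hode]
      ring
    rw [h7, h6]
    simp only [C_mul]
    ring
  have hdvd : (1 - C c * X ^ 2 : ℚ[X]) ∣ C (p 1) + C (p 2) * X + C ((k : ℚ) * (2 * c)) * X := by
    have hprime := (irreducible_quad hc).prime
    rcases hprime.dvd_or_dvd (Dvd.intro _ hkey) with h1 | h1
    · exact h1
    · exact absurd h1 hG
  have hdeg2 : (1 - C c * X ^ 2 : ℚ[X]).natDegree = 2 := by
    have hc0 : c ≠ 0 := by
      rintro rfl
      exact hc (IsSquare.zero)
    compute_degree!
  have hlt : (C (p 1) + C (p 2) * X + C ((k : ℚ) * (2 * c)) * X : ℚ[X]).natDegree < 2 := by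
    refine lt_of_le_of_lt (b := 1) ?_ (by norm_num)
    compute_degree!
  have hz := eq_zero_of_dvd_of_natDegree_lt hdvd (by omega)
  have h8 := congrArg (fun f : ℚ[X] => f.coeff 0) hz
  simpa using h8

end T5poly

section T5

variable {C : Type u} [Category.{v} C] [MonoidalCategory C] [SymmetricCategory C]
  [Preadditive C] [MonoidalPreadditive C] [Linear ℚ C] [RatUnit C]

/-- powers of an endomorphism -/
def epow {X : C} (v : X ⟶ X) : ℕ → (X ⟶ X)
  | 0 => 𝟙 X
  | n + 1 => v ≫ epow v n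

/-- the recursion for `u` on the first factor and `v` on the other ones -/
theorem trp_um_succ (X : C) [HasLeftDual X] (u v : X ⟶ X) (m : ℕ) :
    trp X (m + 2) (gSum 1 X (m + 2) ≫ um u v (m + 1)) =
      tr X u * trp X (m + 1) (gSum 1 X (m + 1) ≫ tmap v (m + 1)) +
      ((m : ℚ) + 1) * trp X (m + 1) (gSum 1 X (m + 1) ≫ um (u ≫ v) v m) := by
  rw [trp_succ, ptrp_gSum, MonoidHom.one_apply, one_zsmul, trp_add, trp_smul, trp_sum]
  congr 1
  have h : ∀ p : Fin (m + 1), trp X (m + 1) ((1 : ℤˣ →* ℤ) (Perm.sign (swap 0 p)) •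
      (gSum 1 X (m + 1) ≫ um (u ≫ v) v m ≫ ps X (swap 0 p))) =
      trp X (m + 1) (gSum 1 X (m + 1) ≫ um (u ≫ v) v m) := by
    intro p
    rw [MonoidHom.one_apply, one_zsmul, ← Category.assoc, trp_comm, ← Category.assoc, ps_gSum,
      MonoidHom.one_apply, one_zsmul]
  rw [Finset.sum_congr rfl fun p _ => h p, Finset.sum_const, Finset.card_univ,
    Fintype.card_fin, nsmul_eq_mul]
  push_cast
  rfl

/-- the normalised trace of the symmetric power -/
noncomputable def hsym (X : C) [HasLeftDual X] (v : X ⟶ X) (n : ℕ) : ℚ :=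
  (n.factorial : ℚ)⁻¹ * trp X n (gSum 1 X n ≫ tmap v n)

omit [MonoidalPreadditive C] in
theorem hsym_zero (X : C) [HasLeftDual X] (v : X ⟶ X) : hsym X v 0 = 1 := by
  unfold hsym
  rw [gSum_zero, Category.id_comp, Nat.factorial_zero, Nat.cast_one, inv_one, one_mul]
  exact trp_zero_id X

theorem trp_um (X : C) [HasLeftDual X] (v : X ⟶ X) (n : ℕ) (u : X ⟶ X) :
    trp X (n + 1) (gSum 1 X (n + 1) ≫ um u v n) = (n.factorial : ℚ) *
      ∑ i ∈ Finset.range (n + 1), tr X (u ≫ epow v i) * hsym X v (n - i) := by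
  induction n generalizing u with
  | zero =>
    rw [trp_succ, ptrp_gSum_zero, trp_smul, Finset.sum_range_one, hsym_zero, trp_zero_id]
    have h : u ≫ epow v 0 = u := Category.comp_id u
    rw [h, Nat.factorial_zero, Nat.cast_one, one_mul]
  | succ m ih =>
    rw [trp_um_succ, ih, Finset.sum_range_succ' _ (m + 1)]
    have h : u ≫ epow v 0 = u := Category.comp_id u
    rw [h, Nat.sub_zero]
    have h2 : ∀ i ∈ Finset.range (m + 1), tr X ((u ≫ v) ≫ epow v i) * hsym X v (m - i) =
        tr X (u ≫ epow v (i + 1)) * hsym X v (m + 1 - (i + 1)) := by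
      intro i _
      rw [Category.assoc, Nat.add_sub_add_right]
      rfl
    rw [Finset.sum_congr rfl h2]
    have h3 : trp X (m + 1) (gSum 1 X (m + 1) ≫ tmap v (m + 1)) =
        ((m + 1).factorial : ℚ) * hsym X v (m + 1) := by
      unfold hsym
      rw [← mul_assoc, mul_inv_cancel₀ (by exact_mod_cast (m + 1).factorial_ne_zero), one_mul]
    rw [h3, Nat.factorial_succ]
    push_cast
    ring

theorem newton_hsym (X : C) [HasLeftDual X] (v : X ⟶ X) (n : ℕ) :
    (n : ℚ) * hsym X v n =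
      ∑ i ∈ Finset.range n, tr X (epow v (i + 1)) * hsym X v (n - 1 - i) := by
  cases n with
  | zero => simp
  | succ n =>
    have h := trp_um X v n v
    rw [um_self] at h
    have h2 : ((n + 1 : ℕ) : ℚ) * hsym X v (n + 1) =
        (n.factorial : ℚ)⁻¹ * trp X (n + 1) (gSum 1 X (n + 1) ≫ tmap v (n + 1)) := by
      unfold hsym
      rw [Nat.factorial_succ]
      push_cast
      have h3 : (n.factorial : ℚ) ≠ 0 := by exact_mod_cast n.factorial_ne_zero
      have h4 : (n : ℚ) + 1 ≠ 0 := by positivity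
      field_simp
    rw [h2, h, ← mul_assoc, inv_mul_cancel₀ (by exact_mod_cast n.factorial_ne_zero), one_mul]
    rfl

/-- Newton's identities for the traces of the symmetric powers -/
theorem newton_sym (X : C) [HasLeftDual X] (v : X ⟶ X) (n : ℕ) :
    (n : ℚ) * ((n.factorial : ℚ)⁻¹ * @tr C _ _ _ _ _ (tpow X n) (tpowDual X n) _
        (symSum X n ≫ tmap v n)) =
      ∑ i ∈ Finset.range n, tr X (epow v (i + 1)) * (((n - 1 - i).factorial : ℚ)⁻¹ *
        @tr C _ _ _ _ _ (tpow X (n - 1 - i)) (tpowDual X (n - 1 - i)) _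
          (symSum X (n - 1 - i) ≫ tmap v (n - 1 - i))) := by
  have h := newton_hsym X v n
  unfold hsym trp at h
  simp only [gSum_one] at h
  exact h

omit [Linear ℚ C] [RatUnit C] in
theorem kill_succ (χ : ℤˣ →* ℤ) {X : C} {v : X ⟶ X} {n : ℕ} (h : gSum χ X n ≫ tmap v n = 0) :
    gSum χ X (n + 1) ≫ tmap v (n + 1) = 0 := by
  have h1 : wl X (gSum χ X n) ≫ tmap v (n + 1) = 0 := tensor_kill v h
  have h2 : ∀ p : Fin n, (wl X (gSum χ X n) ≫ ps X (swap 0 p.succ)) ≫ tmap v (n + 1) = 0 := by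
    intro p
    rw [Category.assoc, ← ps_nat, ← Category.assoc, h1, Limits.zero_comp]
  rw [gSum_succ, Preadditive.add_comp, Preadditive.zsmul_comp, Preadditive.sum_comp, h1,
    Finset.sum_congr rfl fun p _ => h2 p, Finset.sum_const_zero, smul_zero, add_zero]

omit [Linear ℚ C] [RatUnit C] in
theorem kill_of_le (χ : ℤˣ →* ℤ) {X : C} {v : X ⟶ X} {n m : ℕ} (hnm : n ≤ m)
    (h : gSum χ X n ≫ tmap v n = 0) : gSum χ X m ≫ tmap v m = 0 := by
  induction m, hnm using Nat.le_induction with
  | base => exact h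
  | succ m _ ih => exact kill_succ χ ih

theorem tr_eq_zero_of_sym (X : C) [HasLeftDual X] {v : X ⟶ X} {c : ℚ} (hc : ¬ IsSquare c)
    (hv : TNil (v ≫ v ≫ v - c • v)) {n : ℕ} (h : symSum X n ≫ tmap v n = 0) : tr X v = 0 := by
  rw [← gSum_one] at h
  have h1 := newton_poly hc (fun i => tr X (epow v i)) (hsym X v) (hsym_zero X v)
    (newton_hsym X v) (fun i => ?_) (N := n) (fun m hm => ?_)
  · have h2 : epow v 1 = v := Category.comp_id v
    simp only [h2] at h1
    exact h1
  · rw [← tr_smul]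
    apply tr_congr
    have h3 := hv.comp_right (epow v i)
    have h4 : (v ≫ v ≫ v - c • v) ≫ epow v i = epow v (i + 3) - c • epow v (i + 1) := by
      rw [Preadditive.sub_comp, Linear.smul_comp, Category.assoc, Category.assoc]
      rfl
    rw [h4] at h3
    exact h3
  · unfold hsym
    rw [kill_of_le 1 hm h, trp_zero, mul_zero]

end T5

end Pool.Agent.MP_6e5bed_ag
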