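import Pool.Agent.Lib.MP_6e5bed_ag.TDefs

set_option autoImplicit false

/-!
# Tensor powers of a tensor product
-/

namespace Pool.Agent.MP_6e5bed_ag

open CategoryTheory MonoidalCategory Equiv

universe v u

section Shuffle

variable {C : Type u} [Category.{v} C] [MonoidalCategory C] [SymmetricCategory C]

/-- `(X ⊗ Y)^{⊗ n} ≅ X^{⊗ n} ⊗ Y^{⊗ n}` -/
def shuf (X Y : C) : (n : ℕ) → (tpow (X ⊗ Y) n ⟶ tpow X n ⊗ tpow Y n)
  | 0 => (λ_ (𝟙_ C)).inv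
  | n + 1 => ((X ⊗ Y) ◁ shuf X Y n) ≫ tensorμ X Y (tpow X n) (tpow Y n)

theorem isIso_tensorμ (X Y Z W : C) : IsIso (tensorμ X Y Z W) :=
  ⟨⟨tensorδ X Y Z W, tensorμ_tensorδ X Y Z W, tensorδ_tensorμ X Y Z W⟩⟩

theorem isIso_shuf (X Y : C) (n : ℕ) : IsIso (shuf X Y n) := by
  induction n with
  | zero =>
    change IsIso ((λ_ (𝟙_ C)).inv : 𝟙_ C ⟶ 𝟙_ C ⊗ 𝟙_ C)
    infer_instance
  | succ n ih =>
    have := isIso_tensorμ X Y (tpow X n) (tpow Y n)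
    change IsIso (((X ⊗ Y) ◁ shuf X Y n) ≫ tensorμ X Y (tpow X n) (tpow Y n))
    infer_instance

theorem tensorδ_eq (X Y : C) : tensorδ X Y X Y = tensorμ X X Y Y := by
  unfold tensorδ tensorμ
  rw [← SymmetricCategory.braiding_swap_eq_inv_braiding]

theorem braid_tensorμ (X Y : C) : (β_ (X ⊗ Y) (X ⊗ Y)).hom ≫ tensorμ X Y X Y =
    tensorμ X Y X Y ≫ ((β_ X X).hom ⊗ₘ (β_ Y Y).hom) := by
  have h := SymmetricCategory.tensorμ_braid_swap X Y
  rw [← tensorδ_eq] at h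
  have h2 := congrArg (fun f => tensorμ X Y X Y ≫ f ≫ tensorμ X Y X Y) h
  simp only [Category.assoc, tensorδ_tensorμ, Category.comp_id] at h2
  rw [← Category.assoc (tensorμ X Y X Y), tensorμ_tensorδ, Category.id_comp] at h2
  exact h2

theorem sw_shuf (X Y A B : C) :
    sw (X ⊗ Y) (A ⊗ B) ≫ ((X ⊗ Y) ◁ tensorμ X Y A B) ≫ tensorμ X Y (X ⊗ A) (Y ⊗ B) =
      ((X ⊗ Y) ◁ tensorμ X Y A B) ≫ tensorμ X Y (X ⊗ A) (Y ⊗ B) ≫ (sw X A ⊗ₘ sw Y B) := by
  have h := tensor_associativity X Y X Y A B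
  have h1 : ((X ⊗ Y) ◁ tensorμ X Y A B) ≫ tensorμ X Y (X ⊗ A) (Y ⊗ B) =
      (α_ (X ⊗ Y) (X ⊗ Y) (A ⊗ B)).inv ≫ (tensorμ X Y X Y ▷ (A ⊗ B)) ≫
        tensorμ (X ⊗ X) (Y ⊗ Y) A B ≫ ((α_ X X A).hom ⊗ₘ (α_ Y Y B).hom) := by
    rw [h, Iso.inv_hom_id_assoc]
  rw [h1]
  rw [← Category.assoc ((X ⊗ Y) ◁ tensorμ X Y A B), h1]
  unfold sw
  simp only [Category.assoc, Iso.hom_inv_id_assoc]
  rw [← comp_whiskerRight_assoc, braid_tensorμ, comp_whiskerRight_assoc]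
  congr 2
  rw [← Category.assoc (((β_ X X).hom ⊗ₘ (β_ Y Y).hom) ▷ (A ⊗ B)), tensorμ_natural_left,
    Category.assoc]
  congr 1
  rw [tensorHom_comp_tensorHom, tensorHom_comp_tensorHom]
  simp only [Iso.hom_inv_id_assoc]

theorem adj_shuf (X Y : C) (n i : ℕ) :
    adj (X ⊗ Y) n i ≫ shuf X Y n = shuf X Y n ≫ (adj X n i ⊗ₘ adj Y n i) := by
  induction n generalizing i with
  | zero =>
    change 𝟙 _ ≫ _ = _ ≫ (𝟙 _ ⊗ₘ 𝟙 _)
    rw [Category.id_comp, id_tensorHom_id, Category.comp_id]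
  | succ n ih =>
    cases n with
    | zero =>
      change 𝟙 _ ≫ _ = _ ≫ (𝟙 _ ⊗ₘ 𝟙 _)
      rw [Category.id_comp, id_tensorHom_id, Category.comp_id]
    | succ n =>
      cases i with
      | zero =>
        change sw (X ⊗ Y) (tpow (X ⊗ Y) n) ≫ ((X ⊗ Y) ◁ (((X ⊗ Y) ◁ shuf X Y n) ≫
            tensorμ X Y (tpow X n) (tpow Y n))) ≫
            tensorμ X Y (X ⊗ tpow X n) (Y ⊗ tpow Y n) =
          (((X ⊗ Y) ◁ (((X ⊗ Y) ◁ shuf X Y n) ≫ tensorμ X Y (tpow X n) (tpow Y n))) ≫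
            tensorμ X Y (X ⊗ tpow X n) (Y ⊗ tpow Y n)) ≫
            (sw X (tpow X n) ⊗ₘ sw Y (tpow Y n))
        rw [MonoidalCategory.whiskerLeft_comp, Category.assoc, Category.assoc, Category.assoc,
          ← Category.assoc (sw (X ⊗ Y) (tpow (X ⊗ Y) n)), sw_comm, Category.assoc, sw_shuf]
      | succ i =>
        change ((X ⊗ Y) ◁ adj (X ⊗ Y) (n + 1) i) ≫ ((X ⊗ Y) ◁ shuf X Y (n + 1)) ≫
            tensorμ X Y (tpow X (n + 1)) (tpow Y (n + 1)) =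
          (((X ⊗ Y) ◁ shuf X Y (n + 1)) ≫ tensorμ X Y (tpow X (n + 1)) (tpow Y (n + 1))) ≫
            ((X ◁ adj X (n + 1) i) ⊗ₘ (Y ◁ adj Y (n + 1) i))
        rw [← MonoidalCategory.whiskerLeft_comp_assoc, ih i,
          MonoidalCategory.whiskerLeft_comp_assoc, tensorμ_natural_right, Category.assoc]

theorem shuf_perm (X Y : C) (n : ℕ) (σ : Perm (Fin n)) :
    (perm (X ⊗ Y) n σ : tpow (X ⊗ Y) n ⟶ tpow (X ⊗ Y) n) ≫ shuf X Y n =
      shuf X Y n ≫ ((perm X n σ : tpow X n ⟶ tpow X n) ⊗ₘ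
        (perm Y n σ : tpow Y n ⟶ tpow Y n)) := by
  refine perm_induction (P := fun σ =>
    (perm (X ⊗ Y) n σ : tpow (X ⊗ Y) n ⟶ tpow (X ⊗ Y) n) ≫ shuf X Y n =
      shuf X Y n ≫ ((perm X n σ : tpow X n ⟶ tpow X n) ⊗ₘ
        (perm Y n σ : tpow Y n ⟶ tpow Y n))) ?_ ?_ ?_ σ
  · rw [map_one, map_one, map_one]
    change 𝟙 _ ≫ _ = _ ≫ (𝟙 _ ⊗ₘ 𝟙 _)
    rw [Category.id_comp, id_tensorHom_id, Category.comp_id]
  · intro i h
    rw [perm_adj _ n i h, perm_adj _ n i h, perm_adj _ n i h]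
    exact adj_shuf X Y n i
  · intro a b ha hb
    rw [map_mul, map_mul, map_mul, End.mul_def, End.mul_def, End.mul_def, Category.assoc, ha,
      ← Category.assoc, hb, Category.assoc, tensorHom_comp_tensorHom]

theorem shuf_tmap {X Y : C} (f : X ⟶ X) (g : Y ⟶ Y) (n : ℕ) :
    tmap (f ⊗ₘ g) n ≫ shuf X Y n = shuf X Y n ≫ (tmap f n ⊗ₘ tmap g n) := by
  induction n with
  | zero =>
    change 𝟙 _ ≫ _ = _ ≫ (𝟙 _ ⊗ₘ 𝟙 _)
    rw [Category.id_comp, id_tensorHom_id, Category.comp_id]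
  | succ n ih =>
    change ((f ⊗ₘ g) ⊗ₘ tmap (f ⊗ₘ g) n) ≫ ((X ⊗ Y) ◁ shuf X Y n) ≫
        tensorμ X Y (tpow X n) (tpow Y n) =
      (((X ⊗ Y) ◁ shuf X Y n) ≫ tensorμ X Y (tpow X n) (tpow Y n)) ≫
        ((f ⊗ₘ tmap f n) ⊗ₘ (g ⊗ₘ tmap g n))
    rw [Category.assoc, ← tensorμ_natural, ← id_tensorHom, tensorHom_comp_tensorHom_assoc,
      tensorHom_comp_tensorHom_assoc, ih, Category.comp_id, Category.id_comp]

end Shuffle

section T6

variable {C : Type u} [Category.{v} C] [MonoidalCategory C] [SymmetricCategory C]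
  [Preadditive C]

/-- The sign character (`true`) or the trivial character (`false`). -/
def chr (b : Bool) {n : ℕ} (σ : Perm (Fin n)) : ℤ := if b then (Perm.sign σ : ℤ) else 1

theorem chr_mul (b : Bool) {n : ℕ} (σ τ : Perm (Fin n)) : chr b (σ * τ) = chr b σ * chr b τ := by
  cases b
  · simp [chr]
  · simp [chr, Perm.sign_mul]

theorem chr_inv (b : Bool) {n : ℕ} (σ : Perm (Fin n)) : chr b σ⁻¹ = chr b σ := by
  cases b
  · simp [chr]
  · simp [chr, Perm.sign_inv]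

theorem chr_sq (b : Bool) {n : ℕ} (σ : Perm (Fin n)) : chr b σ * chr b σ = 1 := by
  cases b
  · simp [chr]
  · rcases Int.units_eq_one_or (Perm.sign σ) with h | h <;> simp [chr, h]

theorem chr_xor (b b' : Bool) {n : ℕ} (σ : Perm (Fin n)) :
    chr b σ * chr b' σ = chr (xor b b') σ := by
  cases b <;> cases b'
  · simp [chr]
  · simp [chr]
  · simp [chr]
  · rcases Int.units_eq_one_or (Perm.sign σ) with h | h <;> simp [chr, h]

theorem sign_via {r m : ℕ} (f : Fin r ↪ Fin m) (τ : Perm (Fin r)) :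
    Perm.sign (τ.viaEmbedding f) = Perm.sign τ := by
  have h : τ.viaEmbedding f = τ.viaFintypeEmbedding f := by
    refine Equiv.ext fun x => ?_
    by_cases hx : x ∈ Set.range f
    · obtain ⟨y, rfl⟩ := hx
      rw [Perm.viaEmbedding_apply, Perm.viaFintypeEmbedding_apply_image]
    · rw [Perm.viaEmbedding_apply_of_notMem _ _ _ hx,
        Perm.viaFintypeEmbedding_apply_notMem_range _ _ hx]
  rw [h, Perm.viaFintypeEmbedding_sign]

theorem chr_via (b : Bool) {r m : ℕ} (f : Fin r ↪ Fin m) (τ : Perm (Fin r)) :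
    chr b (τ.viaEmbedding f) = chr b τ := by
  unfold chr
  rw [sign_via]

/-- `∑ σ, χ σ • σ` -/
noncomputable def bSum (b : Bool) (X : C) (n : ℕ) : tpow X n ⟶ tpow X n :=
  ∑ σ : Perm (Fin n), chr b σ • (perm X n σ : tpow X n ⟶ tpow X n)

theorem bSum_true (X : C) (n : ℕ) : bSum true X n = altSum X n := rfl

theorem bSum_false (X : C) (n : ℕ) : bSum false X n = symSum X n := by
  unfold bSum symSum
  refine Finset.sum_congr rfl fun σ _ => ?_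
  exact one_zsmul _

omit [Preadditive C] in
theorem perm_comp (X : C) (n : ℕ) (σ τ : Perm (Fin n)) :
    (perm X n σ : tpow X n ⟶ tpow X n) ≫ (perm X n τ : tpow X n ⟶ tpow X n) =
      (perm X n (τ * σ) : tpow X n ⟶ tpow X n) := by
  rw [map_mul]
  rfl

variable [MonoidalPreadditive C]

omit [SymmetricCategory C] in
theorem tensor_zsmul {X X' Y Y' : C} (n : ℤ) (f : X ⟶ X') (g : Y ⟶ Y') :
    (f ⊗ₘ (n • g)) = n • (f ⊗ₘ g) := by
  rw [MonoidalCategory.tensorHom_def, MonoidalCategory.tensorHom_def, whiskerLeft_zsmul,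
    Preadditive.comp_zsmul]

omit [SymmetricCategory C] in
theorem zsmul_tensor {X X' Y Y' : C} (n : ℤ) (f : X ⟶ X') (g : Y ⟶ Y') :
    ((n • f) ⊗ₘ g) = n • (f ⊗ₘ g) := by
  have h : (n • f) ▷ Y = n • (f ▷ Y) := (tensorRight Y).map_zsmul
  rw [MonoidalCategory.tensorHom_def, MonoidalCategory.tensorHom_def, h,
    Preadditive.zsmul_comp]

/-- The image of `bSum b (X ⊗ Y) m ≫ tmap (a ⊗ c) m`. -/
noncomputable def wSum (b : Bool) {X Y : C} (a : X ⟶ X) (c : Y ⟶ Y) (m : ℕ) :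
    tpow X m ⊗ tpow Y m ⟶ tpow X m ⊗ tpow Y m :=
  ∑ σ : Perm (Fin m), chr b σ • (((perm X m σ : tpow X m ⟶ tpow X m) ≫ tmap a m) ⊗ₘ
    ((perm Y m σ : tpow Y m ⟶ tpow Y m) ≫ tmap c m))

omit [MonoidalPreadditive C] in
theorem bSum_shuf (b : Bool) {X Y : C} (a : X ⟶ X) (c : Y ⟶ Y) (m : ℕ) :
    (bSum b (X ⊗ Y) m ≫ tmap (a ⊗ₘ c) m) ≫ shuf X Y m = shuf X Y m ≫ wSum b a c m := by
  rw [Category.assoc, shuf_tmap]
  unfold bSum wSum
  rw [Preadditive.sum_comp, Preadditive.comp_sum]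
  refine Finset.sum_congr rfl fun σ _ => ?_
  rw [Preadditive.zsmul_comp, Preadditive.comp_zsmul, ← Category.assoc, shuf_perm,
    Category.assoc, tensorHom_comp_tensorHom]

omit [MonoidalPreadditive C] in
theorem bSum_eq_zero_iff (b : Bool) {X Y : C} (a : X ⟶ X) (c : Y ⟶ Y) (m : ℕ) :
    bSum b (X ⊗ Y) m ≫ tmap (a ⊗ₘ c) m = 0 ↔ wSum b a c m = 0 := by
  have := isIso_shuf X Y m
  have h := bSum_shuf b a c m
  constructor
  · intro h0
    rw [h0, Limits.zero_comp] at h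
    exact (cancel_epi (shuf X Y m)).1 (by rw [← h, Limits.comp_zero])
  · intro h0
    rw [h0, Limits.comp_zero] at h
    exact (cancel_mono (shuf X Y m)).1 (by rw [h, Limits.zero_comp])

/-- the second factor kills -/
theorem wSum_right (b β : Bool) {X Y : C} (a : X ⟶ X) (c : Y ⟶ Y) {s : ℕ}
    (hc : bSum β Y s ≫ tmap c s = 0) (m : ℕ) (f : Fin s ↪ Fin m) :
    wSum b a c m ≫ (𝟙 (tpow X m) ⊗ₘ gCat Y m (fun τ => chr β τ) f) = 0 := by
  unfold wSum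
  rw [Preadditive.sum_comp]
  refine Finset.sum_eq_zero fun σ _ => ?_
  have h : gCat Y m (fun τ => chr β τ) f ≫ tmap c m = 0 := gCat_kill (c := fun τ => chr β τ) hc f
  rw [Preadditive.zsmul_comp, tensorHom_comp_tensorHom,
    Category.assoc (perm Y m σ : tpow Y m ⟶ tpow Y m), gCat_nat, h, Limits.comp_zero]
  have h2 : (((perm X m σ : tpow X m ⟶ tpow X m) ≫ tmap a m) ≫ 𝟙 (tpow X m)) ⊗ₘ
      (0 : tpow Y m ⟶ tpow Y m) = 0 := MonoidalPreadditive.tensor_zero _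
  rw [h2, smul_zero]

omit [MonoidalPreadditive C] in
theorem wSum_shift (b : Bool) {X Y : C} (a : X ⟶ X) (c : Y ⟶ Y) (m : ℕ) (g : Perm (Fin m)) :
    wSum b a c m ≫ (𝟙 (tpow X m) ⊗ₘ (perm Y m g : tpow Y m ⟶ tpow Y m)) =
      chr b g • ∑ σ : Perm (Fin m), chr b σ •
        (((perm X m σ : tpow X m ⟶ tpow X m) ≫ (perm X m g⁻¹ : tpow X m ⟶ tpow X m) ≫
          tmap a m) ⊗ₘ ((perm Y m σ : tpow Y m ⟶ tpow Y m) ≫ tmap c m)) := by
  unfold wSum
  rw [Preadditive.sum_comp, Finset.smul_sum,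
    ← Equiv.sum_comp (Equiv.mulLeft g⁻¹)]
  refine Finset.sum_congr rfl fun σ _ => ?_
  rw [Equiv.coe_mulLeft, Preadditive.zsmul_comp, tensorHom_comp_tensorHom, Category.assoc,
    Category.assoc, perm_naturality, Category.comp_id, smul_smul, chr_mul, chr_inv,
    ← Category.assoc (perm Y m (g⁻¹ * σ) : tpow Y m ⟶ tpow Y m), perm_comp,
    ← Category.assoc (perm X m σ : tpow X m ⟶ tpow X m), perm_comp, mul_inv_cancel_left]

/-- the first factor kills -/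
theorem wSum_left (b ψ : Bool) {X Y : C} (a : X ⟶ X) (c : Y ⟶ Y) {r : ℕ}
    (ha : bSum (xor ψ b) X r ≫ tmap a r = 0) (m : ℕ) (f : Fin r ↪ Fin m) :
    wSum b a c m ≫ (𝟙 (tpow X m) ⊗ₘ gCat Y m (fun τ => chr ψ τ) f) = 0 := by
  have h : gCat X m (fun τ => chr (xor ψ b) τ) f ≫ tmap a m = 0 :=
    gCat_kill (c := fun τ => chr (xor ψ b) τ) ha f
  have h1 : wSum b a c m ≫ (𝟙 (tpow X m) ⊗ₘ gCat Y m (fun τ => chr ψ τ) f) =
      ∑ τ : Perm (Fin r), ∑ σ : Perm (Fin m), (chr ψ τ * chr b τ) • chr b σ •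
        (((perm X m σ : tpow X m ⟶ tpow X m) ≫
          (perm X m (τ.viaEmbedding f)⁻¹ : tpow X m ⟶ tpow X m) ≫
          tmap a m) ⊗ₘ ((perm Y m σ : tpow Y m ⟶ tpow Y m) ≫ tmap c m)) := by
    unfold gCat
    have h2 : (𝟙 (tpow X m) ⊗ₘ ∑ τ : Perm (Fin r), chr ψ τ •
        (perm Y m (τ.viaEmbedding f) : tpow Y m ⟶ tpow Y m)) =
        ∑ τ : Perm (Fin r), chr ψ τ • (𝟙 (tpow X m) ⊗ₘ
          (perm Y m (τ.viaEmbedding f) : tpow Y m ⟶ tpow Y m)) := by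
      rw [tensor_sum]
      exact Finset.sum_congr rfl fun τ _ => tensor_zsmul _ _ _
    rw [h2, Preadditive.comp_sum]
    refine Finset.sum_congr rfl fun τ _ => ?_
    rw [Preadditive.comp_zsmul, wSum_shift, chr_via, smul_smul, Finset.smul_sum]
  rw [h1, Finset.sum_comm]
  refine Finset.sum_eq_zero fun σ _ => ?_
  have h3 : ∑ τ : Perm (Fin r), (chr ψ τ * chr b τ) •
      ((perm X m (τ.viaEmbedding f)⁻¹ : tpow X m ⟶ tpow X m) ≫ tmap a m) = 0 := by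
    rw [← h]
    unfold gCat
    rw [Preadditive.sum_comp, ← Equiv.sum_comp (Equiv.inv (Perm (Fin r)))]
    refine Finset.sum_congr rfl fun τ _ => ?_
    rw [Equiv.inv_apply, chr_inv, chr_inv, VanishAux.via_inv, inv_inv, chr_xor, Preadditive.zsmul_comp]
  have h4 : ∀ τ : Perm (Fin r), (chr ψ τ * chr b τ) • chr b σ •
        (((perm X m σ : tpow X m ⟶ tpow X m) ≫
          (perm X m (τ.viaEmbedding f)⁻¹ : tpow X m ⟶ tpow X m) ≫
          tmap a m) ⊗ₘ ((perm Y m σ : tpow Y m ⟶ tpow Y m) ≫ tmap c m)) =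
      chr b σ • (((perm X m σ : tpow X m ⟶ tpow X m) ≫ ((chr ψ τ * chr b τ) •
          ((perm X m (τ.viaEmbedding f)⁻¹ : tpow X m ⟶ tpow X m) ≫
          tmap a m))) ⊗ₘ ((perm Y m σ : tpow Y m ⟶ tpow Y m) ≫ tmap c m)) := by
    intro τ
    rw [Preadditive.comp_zsmul, zsmul_tensor, smul_comm]
  rw [Finset.sum_congr rfl fun τ _ => h4 τ, ← Finset.smul_sum, ← sum_tensor,
    ← Preadditive.comp_sum, h3, Limits.comp_zero]
  have h5 : (0 : tpow X m ⟶ tpow X m) ⊗ₘ ((perm Y m σ : tpow Y m ⟶ tpow Y m) ≫ tmap c m) = 0 :=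
    MonoidalPreadditive.zero_tensor _
  rw [h5, smul_zero]

/-- a doubly killed sum vanishes -/
theorem wSum_split (b ψ : Bool) {X Y : C} (a : X ⟶ X) (c : Y ⟶ Y) (m : ℕ) :
    wSum b a c m ≫ (𝟙 (tpow X m) ⊗ₘ bSum ψ Y m) =
      ((bSum (xor ψ b) X m ≫ tmap a m) ⊗ₘ (bSum ψ Y m ≫ tmap c m)) := by
  have h1 : wSum b a c m ≫ (𝟙 (tpow X m) ⊗ₘ bSum ψ Y m) =
      ∑ σ : Perm (Fin m), ∑ τ : Perm (Fin m), (chr (xor ψ b) σ * chr ψ τ) •
        (((perm X m σ : tpow X m ⟶ tpow X m) ≫ tmap a m) ⊗ₘ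
          ((perm Y m τ : tpow Y m ⟶ tpow Y m) ≫ tmap c m)) := by
    unfold wSum bSum
    rw [Preadditive.sum_comp]
    refine Finset.sum_congr rfl fun σ _ => ?_
    rw [tensor_sum, Preadditive.comp_sum, ← Equiv.sum_comp (Equiv.mulRight σ⁻¹)]
    refine Finset.sum_congr rfl fun τ _ => ?_
    rw [Equiv.coe_mulRight, tensor_zsmul, Preadditive.comp_zsmul, Preadditive.zsmul_comp,
      tensorHom_comp_tensorHom, Category.comp_id,
      Category.assoc (perm Y m σ : tpow Y m ⟶ tpow Y m), perm_naturality,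
      ← Category.assoc (perm Y m σ : tpow Y m ⟶ tpow Y m), perm_comp, inv_mul_cancel_right,
      smul_smul, chr_mul, chr_inv, ← chr_xor]
    congr 1
    ring
  rw [h1]
  unfold bSum
  rw [Preadditive.sum_comp, Preadditive.sum_comp, sum_tensor]
  refine Finset.sum_congr rfl fun σ _ => ?_
  rw [tensor_sum]
  refine Finset.sum_congr rfl fun τ _ => ?_
  rw [Preadditive.zsmul_comp, Preadditive.zsmul_comp, zsmul_tensor, tensor_zsmul, smul_smul]

theorem split_gen (b ψ : Bool) {X Y : C} {e : X ⟶ X} {f : Y ⟶ Y} {n : ℕ}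
    (h : bSum b (X ⊗ Y) n ≫ tmap (e ⊗ₘ f) n = 0) :
    ((bSum (xor ψ b) X n ≫ tmap e n) ⊗ₘ (bSum ψ Y n ≫ tmap f n)) = 0 := by
  rw [← wSum_split, (bSum_eq_zero_iff b e f n).1 h, Limits.zero_comp]

theorem split_alt {X Y : C} {e : X ⟶ X} {f : Y ⟶ Y} {n : ℕ}
    (h : altSum (X ⊗ Y) n ≫ tmap (e ⊗ₘ f) n = 0) :
    ((altSum X n ≫ tmap e n) ⊗ₘ (symSum Y n ≫ tmap f n)) = 0 ∧
      ((symSum X n ≫ tmap e n) ⊗ₘ (altSum Y n ≫ tmap f n)) = 0 := by
  rw [← bSum_true] at h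
  have h1 := split_gen true false h
  have h2 := split_gen true true h
  simp only [Bool.xor_true, Bool.not_false, Bool.not_true, bSum_true, bSum_false] at h1 h2
  exact ⟨h1, h2⟩

theorem split_sym {X Y : C} {e : X ⟶ X} {f : Y ⟶ Y} {n : ℕ}
    (h : symSum (X ⊗ Y) n ≫ tmap (e ⊗ₘ f) n = 0) :
    ((altSum X n ≫ tmap e n) ⊗ₘ (altSum Y n ≫ tmap f n)) = 0 ∧
      ((symSum X n ≫ tmap e n) ⊗ₘ (symSum Y n ≫ tmap f n)) = 0 := by
  rw [← bSum_false] at h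
  have h1 := split_gen false true h
  have h2 := split_gen false false h
  simp only [Bool.xor_false, bSum_true, bSum_false] at h1 h2
  exact ⟨h1, h2⟩

variable [Linear ℚ C]

theorem wSum_vanish (b : Bool) {X Y : C} (a : X ⟶ X) (c : Y ⟶ Y) {r s m : ℕ}
    (hm : (r - 1) * (s - 1) < m)
    (hA : ∀ f : Fin r ↪ Fin m,
      wSum b a c m ≫ (𝟙 (tpow X m) ⊗ₘ gCat Y m (fun τ => chr true τ) f) = 0)
    (hB : ∀ f : Fin s ↪ Fin m,
      wSum b a c m ≫ (𝟙 (tpow X m) ⊗ₘ gCat Y m (fun τ => chr false τ) f) = 0) :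
    wSum b a c m = 0 := by
  let φ : Perm (Fin m) →* End (tpow X m ⊗ tpow Y m) :=
    { toFun := fun σ => 𝟙 (tpow X m) ⊗ₘ (perm Y m σ : tpow Y m ⟶ tpow Y m)
      map_one' := by
        rw [map_one]
        exact id_tensorHom_id _ _
      map_mul' := fun σ τ => by
        rw [End.mul_def, tensorHom_comp_tensorHom, Category.comp_id, perm_comp] }
  let ρ : Perm (Fin m) →* Module.End ℚ (End (tpow X m ⊗ tpow Y m)) :=
    ((Algebra.lmul ℚ (End (tpow X m ⊗ tpow Y m))).toRingHom.toMonoidHom).comp φ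
  have hρ : ∀ σ (z : End (tpow X m ⊗ tpow Y m)), ρ σ z =
      ((z : tpow X m ⊗ tpow Y m ⟶ tpow X m ⊗ tpow Y m) ≫
        (𝟙 (tpow X m) ⊗ₘ (perm Y m σ : tpow Y m ⟶ tpow Y m)) :
          tpow X m ⊗ tpow Y m ⟶ tpow X m ⊗ tpow Y m) := fun σ z => rfl
  have h0 : ∀ {l : ℕ} (d : Bool) (f : Fin l ↪ Fin m)
      (z : tpow X m ⊗ tpow Y m ⟶ tpow X m ⊗ tpow Y m),
      z ≫ (𝟙 (tpow X m) ⊗ₘ gCat Y m (fun τ => chr d τ) f) =
        ∑ τ : Perm (Fin l), chr d τ • (z ≫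
          (𝟙 (tpow X m) ⊗ₘ (perm Y m (τ.viaEmbedding f) : tpow Y m ⟶ tpow Y m))) := by
    intro l d f z
    unfold gCat
    rw [tensor_sum, Preadditive.comp_sum]
    refine Finset.sum_congr rfl fun τ _ => ?_
    rw [tensor_zsmul, Preadditive.comp_zsmul]
  refine vanish (r := r) (s := s) hm ρ (wSum b a c m) ?_ ?_
  · intro f
    rw [← hA f, h0]
    unfold altOf
    rw [LinearMap.sum_apply]
    refine Finset.sum_congr rfl fun σ _ => ?_
    rw [← zsmul_eq_mul, LinearMap.smul_apply, hρ]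
    rfl
  · intro f
    rw [← hB f, h0]
    unfold symOf
    rw [LinearMap.sum_apply]
    refine Finset.sum_congr rfl fun σ _ => ?_
    rw [hρ]
    exact (one_zsmul _).symm

theorem kill_gen (α β b : Bool) (hb : b = xor (xor α β) true) {X Y : C} {a : X ⟶ X} {c : Y ⟶ Y}
    {r s : ℕ} (ha : bSum α X r ≫ tmap a r = 0) (hc : bSum β Y s ≫ tmap c s = 0) :
    ∃ m, bSum b (X ⊗ Y) m ≫ tmap (a ⊗ₘ c) m = 0 := by
  cases β with
  | false =>
    refine ⟨(r - 1) * (s - 1) + 1, (bSum_eq_zero_iff _ _ _ _).2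
      (wSum_vanish b a c (r := r) (s := s) (Nat.lt_succ_self _) ?_ ?_)⟩
    · intro f
      refine wSum_left b true a c ?_ _ f
      have : xor true b = α := by
        subst hb
        cases α <;> rfl
      rw [this]
      exact ha
    · intro f
      exact wSum_right b false a c hc _ f
  | true =>
    refine ⟨(s - 1) * (r - 1) + 1, (bSum_eq_zero_iff _ _ _ _).2
      (wSum_vanish b a c (r := s) (s := r) (Nat.lt_succ_self _) ?_ ?_)⟩
    · intro f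
      exact wSum_right b true a c hc _ f
    · intro f
      refine wSum_left b false a c ?_ _ f
      have : xor false b = α := by
        subst hb
        cases α <;> rfl
      rw [this]
      exact ha

theorem kill_alt_alt {X Y : C} {a : X ⟶ X} {b : Y ⟶ Y} {r s : ℕ}
    (ha : altSum X r ≫ tmap a r = 0) (hb : altSum Y s ≫ tmap b s = 0) :
    ∃ m, altSum (X ⊗ Y) m ≫ tmap (a ⊗ₘ b) m = 0 :=
  kill_gen true true true rfl ha hb

theorem kill_sym_sym {X Y : C} {a : X ⟶ X} {b : Y ⟶ Y} {r s : ℕ}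
    (ha : symSum X r ≫ tmap a r = 0) (hb : symSum Y s ≫ tmap b s = 0) :
    ∃ m, altSum (X ⊗ Y) m ≫ tmap (a ⊗ₘ b) m = 0 := by
  rw [← bSum_false] at ha hb
  exact kill_gen false false true rfl ha hb

theorem kill_alt_sym {X Y : C} {a : X ⟶ X} {b : Y ⟶ Y} {r s : ℕ}
    (ha : altSum X r ≫ tmap a r = 0) (hb : symSum Y s ≫ tmap b s = 0) :
    ∃ m, symSum (X ⊗ Y) m ≫ tmap (a ⊗ₘ b) m = 0 := by
  rw [← bSum_false] at hb
  obtain ⟨m, hm⟩ := kill_gen true false false rfl ha hb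
  rw [bSum_false] at hm
  exact ⟨m, hm⟩

theorem kill_sym_alt {X Y : C} {a : X ⟶ X} {b : Y ⟶ Y} {r s : ℕ}
    (ha : symSum X r ≫ tmap a r = 0) (hb : altSum Y s ≫ tmap b s = 0) :
    ∃ m, symSum (X ⊗ Y) m ≫ tmap (a ⊗ₘ b) m = 0 := by
  rw [← bSum_false] at ha
  obtain ⟨m, hm⟩ := kill_gen false true false rfl ha hb
  rw [bSum_false] at hm
  exact ⟨m, hm⟩

end T6

end Pool.Agent.MP_6e5bed_ag
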