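import Pool.Agent.Lib.MP_6e5bed_ag.T3

set_option autoImplicit false

/-!
# Traces of exchanges
-/

namespace Pool.Agent.MP_6e5bed_ag

open CategoryTheory MonoidalCategory Equiv

universe v u

section T8

variable {C : Type u} [Category.{v} C] [MonoidalCategory C] [SymmetricCategory C]

attribute [local instance] hasLeftDualTensor

theorem flip13_sq (M N : C) : flip13 M N ≫ flip13 M N = 𝟙 _ := by
  unfold flip13
  simp only [Category.assoc, tensorδ_tensorμ_assoc]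
  rw [← comp_whiskerRight_assoc, SymmetricCategory.symmetry, id_whiskerRight, Category.id_comp,
    tensorμ_tensorδ]

theorem tensorδ_nat {M N : C} (f g : M ⟶ M) (h k : N ⟶ N) :
    ((f ⊗ₘ g) ⊗ₘ (h ⊗ₘ k)) ≫ tensorδ M N M N =
      tensorδ M N M N ≫ ((f ⊗ₘ h) ⊗ₘ (g ⊗ₘ k)) := by
  have h1 := tensorμ_natural f h g k
  calc _ = (tensorδ M N M N ≫ tensorμ M N M N) ≫ ((f ⊗ₘ g) ⊗ₘ (h ⊗ₘ k)) ≫
        tensorδ M N M N := by rw [tensorδ_tensorμ, Category.id_comp]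
    _ = tensorδ M N M N ≫ (((f ⊗ₘ h) ⊗ₘ (g ⊗ₘ k)) ≫ tensorμ M N M N) ≫
        tensorδ M N M N := by rw [h1]; simp only [Category.assoc]
    _ = _ := by simp only [Category.assoc, tensorμ_tensorδ, Category.comp_id]

theorem flip13_nat {M N : C} (f g : M ⟶ M) (h k : N ⟶ N) :
    ((f ⊗ₘ h) ⊗ₘ (g ⊗ₘ k)) ≫ flip13 M N = flip13 M N ≫ ((g ⊗ₘ h) ⊗ₘ (f ⊗ₘ k)) := by
  unfold flip13
  rw [tensorμ_natural_assoc]
  simp only [Category.assoc]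
  rw [← tensorδ_nat, ← tensorHom_id, tensorHom_comp_tensorHom_assoc,
    tensorHom_comp_tensorHom_assoc, BraidedCategory.braiding_naturality, Category.comp_id,
    Category.id_comp]

/-- the exchange of the outer factors of `N ⊗ (M ⊗ N)` -/
def exL (M N : C) : N ⊗ (M ⊗ N) ⟶ N ⊗ (M ⊗ N) :=
  (α_ N M N).inv ≫ (β_ N M).hom ▷ N ≫ (β_ (M ⊗ N) N).hom

def exL' (M N : C) : N ⊗ (M ⊗ N) ⟶ N ⊗ (M ⊗ N) :=
  (β_ N (M ⊗ N)).hom ≫ (β_ M N).hom ▷ N ≫ (α_ N M N).hom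

theorem exL_exL' (M N : C) : exL M N ≫ exL' M N = 𝟙 _ := by
  unfold exL exL'
  simp only [Category.assoc, SymmetricCategory.symmetry_assoc]
  rw [← comp_whiskerRight_assoc, SymmetricCategory.symmetry, id_whiskerRight, Category.id_comp,
    Iso.inv_hom_id]

theorem flip13_braid (M N : C) : flip13 M N ≫ (β_ (M ⊗ N) (M ⊗ N)).hom =
    (α_ M N (M ⊗ N)).hom ≫ M ◁ exL M N ≫ (α_ M N (M ⊗ N)).inv := by
  have hδ : tensorδ M N M N = tensorμ M M N N := by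
    unfold tensorδ tensorμ
    rw [SymmetricCategory.braiding_swap_eq_inv_braiding N M]
  unfold flip13 exL
  rw [hδ]
  simp only [Category.assoc]
  rw [SymmetricCategory.tensorμ_braid_swap, ← tensorHom_id, tensorHom_comp_tensorHom_assoc,
    SymmetricCategory.symmetry, Category.id_comp, id_tensorHom,
    BraidedCategory.braiding_tensor_left_hom]
  unfold tensorμ
  monoidal

theorem flip13_conj (M N : C) (s t : M ⊗ N ⟶ M ⊗ N) :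
    (α_ M N (M ⊗ N)).inv ≫ (flip13 M N ≫ (s ⊗ₘ t) ≫ flip13 M N) ≫ (α_ M N (M ⊗ N)).hom =
      M ◁ (exL M N ≫ N ◁ s) ≫ ((α_ M N (M ⊗ N)).inv ≫ (t ▷ (M ⊗ N)) ≫
        (α_ M N (M ⊗ N)).hom) ≫ M ◁ exL' M N := by
  have h1 : flip13 M N = (α_ M N (M ⊗ N)).hom ≫ M ◁ exL M N ≫ (α_ M N (M ⊗ N)).inv ≫
      (β_ (M ⊗ N) (M ⊗ N)).hom := by
    have h := flip13_braid M N
    calc flip13 M N = (flip13 M N ≫ (β_ (M ⊗ N) (M ⊗ N)).hom) ≫ (β_ (M ⊗ N) (M ⊗ N)).hom := by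
          rw [Category.assoc, SymmetricCategory.symmetry, Category.comp_id]
      _ = _ := by rw [h]; simp only [Category.assoc]
  have h2 : flip13 M N = (β_ (M ⊗ N) (M ⊗ N)).hom ≫ (α_ M N (M ⊗ N)).hom ≫ M ◁ exL' M N ≫
      (α_ M N (M ⊗ N)).inv := by
    have h3 : flip13 M N ≫ ((β_ (M ⊗ N) (M ⊗ N)).hom ≫ (α_ M N (M ⊗ N)).hom ≫ M ◁ exL' M N ≫
      (α_ M N (M ⊗ N)).inv) = 𝟙 _ := by
      rw [reassoc_of% (flip13_braid M N), Iso.inv_hom_id_assoc,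
        ← MonoidalCategory.whiskerLeft_comp_assoc, exL_exL', MonoidalCategory.whiskerLeft_id,
        Category.id_comp, Iso.hom_inv_id]
    calc flip13 M N = flip13 M N ≫ (flip13 M N ≫ ((β_ (M ⊗ N) (M ⊗ N)).hom ≫
          (α_ M N (M ⊗ N)).hom ≫ M ◁ exL' M N ≫ (α_ M N (M ⊗ N)).inv)) := by
          rw [h3, Category.comp_id]
      _ = _ := by rw [← Category.assoc, flip13_sq, Category.id_comp]
  have h4 : (β_ (M ⊗ N) (M ⊗ N)).hom ≫ (s ⊗ₘ t) ≫ (β_ (M ⊗ N) (M ⊗ N)).hom = (t ⊗ₘ s) := by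
    rw [BraidedCategory.braiding_naturality, SymmetricCategory.symmetry_assoc]
  calc _ = (α_ M N (M ⊗ N)).inv ≫ (((α_ M N (M ⊗ N)).hom ≫ M ◁ exL M N ≫
        (α_ M N (M ⊗ N)).inv ≫ (β_ (M ⊗ N) (M ⊗ N)).hom) ≫ (s ⊗ₘ t) ≫
        ((β_ (M ⊗ N) (M ⊗ N)).hom ≫ (α_ M N (M ⊗ N)).hom ≫ M ◁ exL' M N ≫
        (α_ M N (M ⊗ N)).inv)) ≫ (α_ M N (M ⊗ N)).hom := by
        rw [← h1, ← h2]
    _ = M ◁ exL M N ≫ (α_ M N (M ⊗ N)).inv ≫ ((β_ (M ⊗ N) (M ⊗ N)).hom ≫ (s ⊗ₘ t) ≫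
        (β_ (M ⊗ N) (M ⊗ N)).hom) ≫ (α_ M N (M ⊗ N)).hom ≫ M ◁ exL' M N := by
        simp only [Category.assoc, Iso.inv_hom_id_assoc, Iso.inv_hom_id, Category.comp_id]
    _ = _ := by
        rw [h4, MonoidalCategory.tensorHom_def']
        monoidal

theorem ptr_flip13_conj (M N : C) [HasLeftDual M] [HasLeftDual N] (s t : M ⊗ N ⟶ M ⊗ N) :
    ptr (M ⊗ N) (flip13 M N ≫ (s ⊗ₘ t) ≫ flip13 M N) =
      (ptr N ((β_ N M).hom ≫ s ≫ (β_ M N).hom)) ⊗ₘ (ptr M t) := by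
  rw [ptr_ptr, flip13_conj, ptr_nat, ptr_assoc]
  have h1 : exL M N ≫ N ◁ s = ((α_ N M N).inv ≫ (((β_ N M).hom ≫ s ≫ (β_ M N).hom) ▷ N) ≫
      (α_ N M N).hom) ≫ exL M N := by
    unfold exL
    simp only [Category.assoc, Iso.hom_inv_id_assoc]
    rw [← BraidedCategory.braiding_naturality_left, comp_whiskerRight, comp_whiskerRight]
    simp only [Category.assoc]
    rw [← comp_whiskerRight_assoc (β_ M N).hom, SymmetricCategory.symmetry, id_whiskerRight,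
      Category.id_comp]
  have h2 : ∀ b : N ⟶ N, exL M N ≫ b ▷ (M ⊗ N) = N ◁ (M ◁ b) ≫ exL M N := by
    intro b
    unfold exL
    simp only [Category.assoc]
    rw [← BraidedCategory.braiding_naturality_right, ← whisker_exchange_assoc,
      associator_inv_naturality_right_assoc]
  have h3 : (exL M N ≫ N ◁ s) ≫ ptr M t ▷ (M ⊗ N) ≫ exL' M N =
      ((α_ N M N).inv ≫ (((β_ N M).hom ≫ s ≫ (β_ M N).hom) ▷ N) ≫
      (α_ N M N).hom) ≫ N ◁ (M ◁ ptr M t) := by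
    rw [h1]
    simp only [Category.assoc]
    rw [reassoc_of% (h2 (ptr M t)), exL_exL', Category.comp_id]
  rw [h3, ptr_nat_right, ptr_assoc, MonoidalCategory.tensorHom_def]

variable [Preadditive C] [MonoidalPreadditive C] [Linear ℚ C] [RatUnit C]

theorem ptr_tensor_flip13 (M N : C) [HasLeftDual M] [HasLeftDual N] (f g : M ⟶ M)
    (h k : N ⟶ N) :
    ptr (M ⊗ N) (((f ⊗ₘ h) ⊗ₘ (g ⊗ₘ k)) ≫ flip13 M N) = tr N h • ((g ≫ f) ⊗ₘ k) := by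
  have h1 : ((f ⊗ₘ h) ⊗ₘ (g ⊗ₘ k)) ≫ flip13 M N =
      (M ⊗ N) ◁ (g ⊗ₘ k) ≫ ((M ◁ h) ▷ (M ⊗ N) ≫ flip13 M N) ≫ (M ⊗ N) ◁ (f ⊗ₘ 𝟙 N) := by
    have h2 := flip13_nat f (𝟙 M) (𝟙 N) (𝟙 N)
    have h3 : ((f ⊗ₘ h) ⊗ₘ (g ⊗ₘ k)) = (M ⊗ N) ◁ (g ⊗ₘ k) ≫ (M ◁ h) ▷ (M ⊗ N) ≫
        ((f ⊗ₘ 𝟙 N) ⊗ₘ (𝟙 M ⊗ₘ 𝟙 N)) := by
      simp only [← id_tensorHom, ← tensorHom_id, tensorHom_comp_tensorHom, Category.id_comp,
        Category.comp_id, id_tensorHom_id]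
    rw [h3]
    simp only [Category.assoc]
    rw [h2]
    simp only [← id_tensorHom, ← tensorHom_id, id_tensorHom_id]
  have h4 : (α_ M N (M ⊗ N)).inv ≫ ((M ◁ h) ▷ (M ⊗ N) ≫ flip13 M N) ≫
      (α_ M N (M ⊗ N)).hom = M ◁ (h ▷ (M ⊗ N) ≫ (α_ N M N).inv ≫ (β_ N M).hom ▷ N ≫
        (α_ M N N).hom) ≫ sw M (N ⊗ N) ≫ M ◁ ((α_ M N N).inv ≫ (β_ M N).hom ▷ N ≫
        (α_ N M N).hom) := by
    unfold flip13 sw tensorμ tensorδ
    rw [SymmetricCategory.braiding_swap_eq_inv_braiding N M]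
    monoidal
  have h5 : ptr (M ⊗ N) ((M ◁ h) ▷ (M ⊗ N) ≫ flip13 M N) = tr N h • 𝟙 (M ⊗ N) := by
    rw [ptr_ptr, h4, ptr_nat, ptr_sw]
    have h6 : (h ▷ (M ⊗ N) ≫ (α_ N M N).inv ≫ (β_ N M).hom ▷ N ≫ (α_ M N N).hom) ≫
        𝟙 (M ⊗ (N ⊗ N)) ≫ (α_ M N N).inv ≫ (β_ M N).hom ▷ N ≫ (α_ N M N).hom =
        h ▷ (M ⊗ N) := by
      simp only [Category.assoc, Category.id_comp, Iso.hom_inv_id_assoc]
      rw [← comp_whiskerRight_assoc (β_ N M).hom, SymmetricCategory.symmetry, id_whiskerRight,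
        Category.id_comp, Iso.inv_hom_id, Category.comp_id]
    rw [h6, ptr_whiskerRight]
  rw [h1, ptr_nat, h5, Linear.smul_comp, Linear.comp_smul, Category.id_comp,
    tensorHom_comp_tensorHom, Category.comp_id]

end T8

end Pool.Agent.MP_6e5bed_ag
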