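import Pool.Agent.Lib.MP_6e5bed_ag.T5
import Pool.Agent.Lib.MP_6e5bed_ag.T7
import Pool.Agent.Lib.MP_6e5bed_ag.T8

set_option autoImplicit false

/-!
# The parity has rank one
-/

namespace Pool.Agent.MP_6e5bed_ag

open CategoryTheory MonoidalCategory Equiv

universe v u

section T9A

variable {C : Type u} [Category.{v} C] [MonoidalCategory C] [SymmetricCategory C]
  [Preadditive C] [MonoidalPreadditive C] [Linear ℚ C] [RatUnit C]

attribute [local instance] hasLeftDualTensor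

/-- The parity `2 e - 1` is a multiple of `a ⊗ b`. -/
structure Rank1 (M N : C) [HasLeftDual M] [HasLeftDual N] (e : M ⊗ N ⟶ M ⊗ N) (a : M ⟶ M)
    (b : N ⟶ N) (D c : ℚ) : Prop where
  hD : 0 < D
  hc : c ≠ 0
  ha : TNil (a ≫ a - c • 𝟙 M)
  hb : TNil (b ≫ b - (D ^ 2 / c) • 𝟙 N)
  hs : TNil (D • (e - (𝟙 (M ⊗ N) - e)) - (a ⊗ₘ b))
  tra : tr M a = D
  trb : tr N b = D

omit [MonoidalPreadditive C] [RatUnit C] [SymmetricCategory C] [MonoidalCategory C] [Linear ℚ C] in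
theorem parity_sq {X : C} {e : X ⟶ X} (he : e ≫ e = e) :
    (e - (𝟙 X - e)) ≫ (e - (𝟙 X - e)) = 𝟙 X := by
  simp only [Preadditive.sub_comp, Preadditive.comp_sub, Category.id_comp, Category.comp_id, he]
  abel

omit [Preadditive C] [MonoidalPreadditive C] [Linear ℚ C] [RatUnit C] in
theorem braid_conj {M N : C} (f : M ⟶ M) (g : N ⟶ N) :
    (β_ N M).hom ≫ (f ⊗ₘ g) ≫ (β_ M N).hom = (g ⊗ₘ f) := by
  rw [BraidedCategory.braiding_naturality, SymmetricCategory.symmetry_assoc]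

theorem exists_rank1 (M N : C) [HasLeftDual M] [HasLeftDual N] {e : M ⊗ N ⟶ M ⊗ N}
    (he : e ≫ e = e) {r s : ℕ} (hA : altSum (M ⊗ N) r ≫ tmap e r = 0)
    (hB : symSum (M ⊗ N) s ≫ tmap (𝟙 (M ⊗ N) - e) s = 0) (hne : 𝟙 (M ⊗ N) ≠ 0) :
    ∃ (a : M ⟶ M) (b : N ⟶ N) (D c : ℚ), Rank1 M N e a b D c := by
  obtain ⟨S, hS⟩ : ∃ S, S = e - (𝟙 (M ⊗ N) - e) := ⟨_, rfl⟩
  have hSS : S ≫ S = 𝟙 _ := by rw [hS]; exact parity_sq he
  have he' : (𝟙 (M ⊗ N) - e) ≫ (𝟙 (M ⊗ N) - e) = 𝟙 (M ⊗ N) - e := by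
    simp only [Preadditive.sub_comp, Preadditive.comp_sub, Category.id_comp, Category.comp_id, he]
    abel
  obtain ⟨D, hDdef⟩ : ∃ D, D = tr (M ⊗ N) S := ⟨_, rfl⟩
  have hD : 0 < D := by
    obtain ⟨h1, h2⟩ := alt_dim (M ⊗ N) he hA
    obtain ⟨h3, h4⟩ := sym_dim (M ⊗ N) he' hB
    rw [hDdef, hS, tr_sub]
    rcases lt_or_eq_of_le h1 with h5 | h5
    · linarith
    · rcases lt_or_eq_of_le h3 with h6 | h6
      · linarith
      · exfalso
        have h7 := h2 h5.symm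
        have h8 := h4 h6
        rw [h7, sub_zero] at h8
        exact hne h8
  -- rank one
  have hTS : TNil ((S ⊗ₘ S) - flip13 M N ≫ (S ⊗ₘ S) ≫ flip13 M N) := by
    have h1 := par_comm he hA hB (flip13 M N)
    rw [← hS] at h1
    have hSq : (S ⊗ₘ S) ≫ (S ⊗ₘ S) = 𝟙 _ := by
      rw [tensorHom_comp_tensorHom, hSS, id_tensorHom_id]
    have h2 := (h1.comp_left (S ⊗ₘ S)).comp_right (flip13 M N)
    have h3 : ((S ⊗ₘ S) ≫ (flip13 M N - (S ⊗ₘ S) ≫ flip13 M N ≫ (S ⊗ₘ S))) ≫ flip13 M N =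
        (S ⊗ₘ S) - flip13 M N ≫ (S ⊗ₘ S) ≫ flip13 M N := by
      rw [Preadditive.comp_sub, Preadditive.sub_comp, ← Category.assoc (S ⊗ₘ S) (S ⊗ₘ S), hSq,
        Category.id_comp, Category.assoc, Category.assoc, flip13_sq, Category.comp_id]
    rwa [h3] at h2
  have hrank : TNil (D • S - ((ptr N ((β_ N M).hom ≫ S ≫ (β_ M N).hom)) ⊗ₘ (ptr M S))) := by
    have h1 := hTS.ptr (M ⊗ N)
    rwa [ptr_sub, ptr_tensor, ptr_flip13_conj, ← hDdef] at h1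
  obtain ⟨a, ha⟩ : ∃ a, a = ptr N ((β_ N M).hom ≫ S ≫ (β_ M N).hom) := ⟨_, rfl⟩
  obtain ⟨b, hb⟩ : ∃ b, b = ptr M S := ⟨_, rfl⟩
  rw [← ha, ← hb] at hrank
  have trb : tr N b = D := by rw [hb, ← tr_eq_tr_ptr, hDdef]
  have tra : tr M a = D := by
    have h1 := tr_congr (M ⊗ N) hrank
    rw [tr_smul, ← hDdef, tr_tensor, trb] at h1
    exact (mul_right_cancel₀ hD.ne' h1).symm
  -- the square
  have hsq : TNil ((a ≫ a ⊗ₘ b ≫ b) - D ^ 2 • 𝟙 (M ⊗ N)) := by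
    have h1 := ((hrank.comp_right (D • S)).add (hrank.comp_left (a ⊗ₘ b))).neg
    have h2 : -((D • S - (a ⊗ₘ b)) ≫ (D • S) + (a ⊗ₘ b) ≫ (D • S - (a ⊗ₘ b))) =
        (a ≫ a ⊗ₘ b ≫ b) - D ^ 2 • 𝟙 (M ⊗ N) := by
      simp only [Preadditive.sub_comp, Preadditive.comp_sub, Linear.smul_comp, Linear.comp_smul,
        hSS, tensorHom_comp_tensorHom, smul_sub, smul_smul, pow_two]
      abel
    rwa [h2] at h1
  -- the trace over `N`
  have h1 : TNil (tr N (b ≫ b ≫ b) • (a ≫ a) - D ^ 3 • 𝟙 M) := by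
    have h2 := (((hsq.comp_right (𝟙 M ⊗ₘ b)).comp_left (β_ N M).hom).comp_right
      (β_ M N).hom).ptr N
    have h3 : ((β_ N M).hom ≫ ((a ≫ a ⊗ₘ b ≫ b) - D ^ 2 • 𝟙 (M ⊗ N)) ≫ (𝟙 M ⊗ₘ b)) ≫
        (β_ M N).hom = ((b ≫ b ≫ b) ⊗ₘ (a ≫ a)) - D ^ 2 • (b ⊗ₘ 𝟙 M) := by
      rw [Preadditive.sub_comp, Preadditive.comp_sub, Preadditive.sub_comp,
        tensorHom_comp_tensorHom, Category.comp_id, Category.assoc, Category.assoc,
        Linear.smul_comp, Linear.comp_smul, Linear.smul_comp, Category.id_comp, Category.assoc,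
        braid_conj, braid_conj]
    rw [h3, ptr_sub, ptr_smul, ptr_tensor, ptr_tensor, trb, smul_smul] at h2
    have h4 : D ^ 2 * D = D ^ 3 := by ring
    rwa [h4] at h2
  have ht : tr N (b ≫ b ≫ b) ≠ 0 := by
    intro h2
    rw [h2, zero_smul, zero_sub] at h1
    have h3 : TNil a := by
      have h4 := ((h1.neg).smul (D ^ 3)⁻¹).comp_right a
      rw [neg_neg, smul_smul, inv_mul_cancel₀ (pow_ne_zero 3 hD.ne'), one_smul,
        Category.id_comp] at h4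
      exact h4
    rw [tr_of_tNil M h3] at tra
    exact hD.ne tra
  obtain ⟨c, hc⟩ : ∃ c, c = D ^ 3 / tr N (b ≫ b ≫ b) := ⟨_, rfl⟩
  have hc0 : c ≠ 0 := by rw [hc]; exact div_ne_zero (pow_ne_zero 3 hD.ne') ht
  have haa : TNil (a ≫ a - c • 𝟙 M) := by
    have h2 := h1.smul (tr N (b ≫ b ≫ b))⁻¹
    rw [smul_sub, smul_smul, smul_smul, inv_mul_cancel₀ ht, one_smul, mul_comm,
      ← div_eq_mul_inv, ← hc] at h2
    exact h2
  have hbb : TNil (b ≫ b - (D ^ 2 / c) • 𝟙 N) := by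
    have h2 := (hsq.comp_right (a ⊗ₘ 𝟙 N)).ptr M
    rw [Preadditive.sub_comp, tensorHom_comp_tensorHom, Category.comp_id, Linear.smul_comp,
      Category.id_comp, ptr_sub, ptr_smul, ptr_tensor, ptr_tensor, tra, smul_smul,
      Category.assoc] at h2
    have h3 : tr M (a ≫ a ≫ a) = c * D := by
      have h4 := tr_congr M (f := (a ≫ a) ≫ a) (g := (c • 𝟙 M) ≫ a) (by
        rw [← Preadditive.sub_comp]
        exact haa.comp_right a)
      rw [Category.assoc, Linear.smul_comp, Category.id_comp, tr_smul, tra] at h4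
      exact h4
    rw [h3] at h2
    have h5 := h2.smul (c * D)⁻¹
    rw [smul_sub, smul_smul, smul_smul, inv_mul_cancel₀ (mul_ne_zero hc0 hD.ne'), one_smul] at h5
    have h6 : (c * D)⁻¹ * (D ^ 2 * D) = D ^ 2 / c := by
      field_simp
    rwa [h6] at h5
  rw [hS] at hrank
  exact ⟨a, b, D, c, hD, hc0, haa, hbb, hrank, tra, trb⟩

end T9A

end Pool.Agent.MP_6e5bed_ag
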