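import Pool.Agent.Lib.MP_6e5bed_ag.T9A

set_option autoImplicit false

/-!
# The number `c` is a square
-/

namespace Pool.Agent.MP_6e5bed_ag

open CategoryTheory MonoidalCategory Equiv

universe v u

/-- a computation in a ring -/
theorem ring_cube {R : Type*} [Ring R] [Algebra ℚ R] {a1 a3 b2 b4 y P : R} {D c : ℚ}
    (h1 : a1 * a1 = algebraMap ℚ R c) (h3 : a3 * a3 = algebraMap ℚ R c)
    (h13 : a1 * a3 = a3 * a1) (h12 : a1 * b2 = b2 * a1) (h14 : a1 * b4 = b4 * a1)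
    (h32 : a3 * b2 = b2 * a3) (h34 : a3 * b4 = b4 * a3)
    (hya1 : y * a1 = a3 * y) (hya3 : y * a3 = a1 * y) (hyb2 : y * b2 = b2 * y)
    (hyb4 : y * b4 = b4 * y) (hyy : y * y = 1) (hP : P * P = P)
    (hPe : P = (1 / 4 : ℚ) • ((1 + D⁻¹ • (a1 * b2)) * (1 - D⁻¹ • (a3 * b4)))) :
    (P * ((1 / 2 : ℚ) • (a1 + a3)) * y) * (P * ((1 / 2 : ℚ) • (a1 + a3)) * y) *
      (P * ((1 / 2 : ℚ) • (a1 + a3)) * y) =
      c • (P * ((1 / 2 : ℚ) • (a1 + a3)) * y) := by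
  obtain ⟨h, hh⟩ : ∃ h, h = (1 / 2 : ℚ) • (a1 + a3) := ⟨_, rfl⟩
  rw [← hh]
  have hyh : y * h = h * y := by
    rw [hh, mul_smul_comm, smul_mul_assoc, mul_add, add_mul, hya1, hya3, add_comm]
  -- `h a1 = h a3`
  have hha : h * a1 = h * a3 := by
    rw [hh, smul_mul_assoc, smul_mul_assoc, add_mul, add_mul, h1, h3, h13, add_comm]
  have c1 : Commute h a1 := by
    change h * a1 = a1 * h
    rw [hh, smul_mul_assoc, mul_smul_comm, add_mul, mul_add, h13]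
  have c3 : Commute h a3 := by
    change h * a3 = a3 * h
    rw [hh, smul_mul_assoc, mul_smul_comm, add_mul, mul_add, h13]
  have c2 : Commute h b2 := by
    change h * b2 = b2 * h
    rw [hh, smul_mul_assoc, mul_smul_comm, add_mul, mul_add, h12, h32]
  have c4 : Commute h b4 := by
    change h * b4 = b4 * h
    rw [hh, smul_mul_assoc, mul_smul_comm, add_mul, mul_add, h14, h34]
  have C1 : Commute h (1 + D⁻¹ • (a1 * b2)) :=
    (Commute.one_right h).add_right ((c1.mul_right c2).smul_right _)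
  have C2 : Commute h (1 - D⁻¹ • (a3 * b4)) :=
    (Commute.one_right h).sub_right ((c3.mul_right c4).smul_right _)
  have hPh : h * P = P * h := by
    rw [hPe]
    exact ((C1.mul_right C2).smul_right _).eq
  have hyP : h * (y * P) = h * P * y := by
    have e1 : y * (a1 * b2) = a3 * b2 * y := by
      rw [← mul_assoc, hya1, mul_assoc, hyb2, mul_assoc]
    have e2 : y * (a3 * b4) = a1 * b4 * y := by
      rw [← mul_assoc, hya3, mul_assoc, hyb4, mul_assoc]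
    have e3 : y * (1 + D⁻¹ • (a1 * b2)) = (1 + D⁻¹ • (a3 * b2)) * y := by
      rw [mul_add, mul_one, mul_smul_comm, e1, add_mul, one_mul, smul_mul_assoc]
    have e4 : y * (1 - D⁻¹ • (a3 * b4)) = (1 - D⁻¹ • (a1 * b4)) * y := by
      rw [mul_sub, mul_one, mul_smul_comm, e2, sub_mul, one_mul, smul_mul_assoc]
    have e5 : h * (1 + D⁻¹ • (a3 * b2)) = h * (1 + D⁻¹ • (a1 * b2)) := by
      rw [mul_add, mul_add, mul_smul_comm, mul_smul_comm, ← mul_assoc, ← mul_assoc, hha]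
    have e6 : h * (1 - D⁻¹ • (a1 * b4)) = h * (1 - D⁻¹ • (a3 * b4)) := by
      rw [mul_sub, mul_sub, mul_smul_comm, mul_smul_comm, ← mul_assoc, ← mul_assoc, hha]
    calc h * (y * P) = (1 / 4 : ℚ) • (h * (y * (1 + D⁻¹ • (a1 * b2)) * (1 - D⁻¹ • (a3 * b4)))) := by
          rw [hPe, mul_smul_comm, mul_smul_comm, mul_assoc]
      _ = (1 / 4 : ℚ) • (h * (1 + D⁻¹ • (a3 * b2)) * (y * (1 - D⁻¹ • (a3 * b4)))) := by
          rw [e3]; simp only [mul_assoc]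
      _ = (1 / 4 : ℚ) • ((1 + D⁻¹ • (a1 * b2)) * (h * (1 - D⁻¹ • (a1 * b4))) * y) := by
          rw [e4, e5, C1.eq, mul_assoc, mul_assoc, mul_assoc]
      _ = (1 / 4 : ℚ) • (h * (1 + D⁻¹ • (a1 * b2)) * (1 - D⁻¹ • (a3 * b4)) * y) := by
          rw [e6, ← mul_assoc, ← C1.eq]
      _ = h * P * y := by
          rw [hPe, mul_smul_comm, smul_mul_assoc, mul_assoc h]
  have hhh : h * h = h * a1 := by
    calc h * h = h * ((1 / 2 : ℚ) • (a1 + a3)) := by rw [← hh]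
      _ = (1 / 2 : ℚ) • (h * a1 + h * a1) := by
          rw [mul_smul_comm, mul_add, ← hha]
      _ = h * a1 := by
          rw [← two_smul ℚ (h * a1), smul_smul]
          norm_num
  have hcube : h * h * h = c • h := by
    rw [hhh, mul_assoc, ← c1.eq, ← mul_assoc, hhh, mul_assoc, h1, ← Algebra.commutes,
      ← Algebra.smul_def]
  have s1 : (P * h * y) * (P * h * y) * (P * h * y) =
      P * (h * (y * P)) * (h * y) * (P * h * y) := by simp only [mul_assoc]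
  have s2 : P * (h * P * y) * (h * y) * (P * h * y) =
      P * (h * P) * (y * h) * (y * P) * h * y := by simp only [mul_assoc]
  have s3 : P * (h * P) * (h * y) * (y * P) * h * y =
      P * (h * P) * h * (y * y) * P * h * y := by simp only [mul_assoc]
  have s4 : P * (P * h) * h * 1 * P * h * y = P * P * h * (h * P) * h * y := by
    simp only [mul_assoc, one_mul]
  have s5 : P * P * h * (P * h) * h * y = P * P * (h * P) * h * h * y := by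
    simp only [mul_assoc]
  have s6 : P * P * (P * h) * h * h * y = P * P * P * (h * h * h) * y := by
    simp only [mul_assoc]
  rw [s1, hyP, s2, hyh, s3, hyy, hPh, s4, hPh, s5, hPh, s6, hP, hP, hcube, mul_smul_comm,
    smul_mul_assoc]

section T9B

variable {C : Type u} [Category.{v} C] [MonoidalCategory C] [SymmetricCategory C]
  [Preadditive C] [MonoidalPreadditive C] [Linear ℚ C]

/-- the endomorphisms modulo the tensor-nilpotent ones -/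
theorem exists_quot (X : C) : ∃ (R : Type v) (_ : Ring R) (_ : Algebra ℚ R)
    (π : End X →+* R), (∀ x : End X, π x = 0 ↔ TNil (x : X ⟶ X)) ∧
      ∀ (c : ℚ) (x : End X), π (c • x) = c • π x := by
  refine ⟨(nilIdeal X).ringCon.Quotient, inferInstance, inferInstance,
    (nilIdeal X).ringCon.mk', ?_, ?_⟩
  · intro x
    rw [← mem_nilIdeal, ← (nilIdeal X).ringCon.mk'.map_zero]
    exact (RingCon.eq _).trans (TwoSidedIdeal.mem_iff _ _).symm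
  · intro c x
    rfl

/-- the tensor product of four endomorphisms -/
def quad {M N : C} (f : M ⟶ M) (h : N ⟶ N) (g : M ⟶ M) (k : N ⟶ N) :
    End ((M ⊗ N) ⊗ (M ⊗ N)) := ((f ⊗ₘ h) ⊗ₘ (g ⊗ₘ k))

omit [SymmetricCategory C] [Preadditive C] [MonoidalPreadditive C] [Linear ℚ C] in
theorem quad_mul {M N : C} (f f' : M ⟶ M) (h h' : N ⟶ N) (g g' : M ⟶ M) (k k' : N ⟶ N) :
    quad f h g k * quad f' h' g' k' = quad (f' ≫ f) (h' ≫ h) (g' ≫ g) (k' ≫ k) := by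
  change ((f' ⊗ₘ h') ⊗ₘ (g' ⊗ₘ k')) ≫ ((f ⊗ₘ h) ⊗ₘ (g ⊗ₘ k)) = _
  rw [tensorHom_comp_tensorHom, tensorHom_comp_tensorHom, tensorHom_comp_tensorHom]
  rfl

variable [RatUnit C]

attribute [local instance] hasLeftDualTensor

theorem tr_quad_flip {M N : C} [HasLeftDual M] [HasLeftDual N] (f g : M ⟶ M) (h k : N ⟶ N) :
    tr ((M ⊗ N) ⊗ (M ⊗ N)) ((quad f h g k : (M ⊗ N) ⊗ (M ⊗ N) ⟶ (M ⊗ N) ⊗ (M ⊗ N)) ≫
      flip13 M N) = tr N h * (tr M (g ≫ f) * tr N k) := by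
  rw [tr_eq_tr_ptr, quad, ptr_tensor_flip13, tr_smul, tr_tensor]

theorem Rank1.isSquare {M N : C} [HasLeftDual M] [HasLeftDual N] {e : M ⊗ N ⟶ M ⊗ N}
    {a : M ⟶ M} {b : N ⟶ N} {D c : ℚ} (h : Rank1 M N e a b D c) (he : e ≫ e = e) {r s : ℕ}
    (hA : altSum (M ⊗ N) r ≫ tmap e r = 0)
    (hB : symSum (M ⊗ N) s ≫ tmap (𝟙 (M ⊗ N) - e) s = 0) : IsSquare c := by
  by_contra hsq
  obtain ⟨R, _, _, π, hπ, hπc⟩ := exists_quot ((M ⊗ N) ⊗ (M ⊗ N))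
  have hD : D ≠ 0 := h.hD.ne'
  -- the elements
  obtain ⟨x1, hx1⟩ : ∃ x : End ((M ⊗ N) ⊗ (M ⊗ N)), x = quad a (𝟙 N) (𝟙 M) (𝟙 N) := ⟨_, rfl⟩
  obtain ⟨x2, hx2⟩ : ∃ x : End ((M ⊗ N) ⊗ (M ⊗ N)), x = quad (𝟙 M) b (𝟙 M) (𝟙 N) := ⟨_, rfl⟩
  obtain ⟨x3, hx3⟩ : ∃ x : End ((M ⊗ N) ⊗ (M ⊗ N)), x = quad (𝟙 M) (𝟙 N) a (𝟙 N) := ⟨_, rfl⟩
  obtain ⟨x4, hx4⟩ : ∃ x : End ((M ⊗ N) ⊗ (M ⊗ N)), x = quad (𝟙 M) (𝟙 N) (𝟙 M) b := ⟨_, rfl⟩
  obtain ⟨y, hy⟩ : ∃ y : End ((M ⊗ N) ⊗ (M ⊗ N)), y = flip13 M N := ⟨_, rfl⟩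
  obtain ⟨p, hp⟩ : ∃ p : End ((M ⊗ N) ⊗ (M ⊗ N)), p = (e ⊗ₘ (𝟙 (M ⊗ N) - e)) := ⟨_, rfl⟩
  have he' : (𝟙 (M ⊗ N) - e) ≫ (𝟙 (M ⊗ N) - e) = 𝟙 (M ⊗ N) - e := by
    simp only [Preadditive.sub_comp, Preadditive.comp_sub, Category.id_comp, Category.comp_id, he]
    abel
  have hone : quad (𝟙 M) (𝟙 N) (𝟙 M) (𝟙 N) = (1 : End ((M ⊗ N) ⊗ (M ⊗ N))) := by
    unfold quad
    rw [id_tensorHom_id, id_tensorHom_id]
    rfl
  -- relations
  have haa : TNil ((a ≫ a) ▷ N - c • 𝟙 (M ⊗ N)) := by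
    have h1 := h.ha.whiskerRight N
    rw [← tensorHom_id, sub_tensor, qsmul_tensor, id_tensorHom_id, tensorHom_id] at h1
    exact h1
  have h11 : π x1 * π x1 = algebraMap ℚ R c := by
    rw [← map_mul, hx1, quad_mul, Algebra.algebraMap_eq_smul_one, ← π.map_one, ← hπc,
      ← sub_eq_zero, ← map_sub, hπ]
    have h2 := haa.tensor_left (𝟙 (M ⊗ N))
    rw [sub_tensor, qsmul_tensor, id_tensorHom_id, ← tensorHom_id] at h2
    simp only [Category.id_comp]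
    unfold quad
    rw [id_tensorHom_id]
    exact h2
  have h33 : π x3 * π x3 = algebraMap ℚ R c := by
    rw [← map_mul, hx3, quad_mul, Algebra.algebraMap_eq_smul_one, ← π.map_one, ← hπc,
      ← sub_eq_zero, ← map_sub, hπ]
    have h2 := haa.tensor_right (𝟙 (M ⊗ N))
    rw [tensor_sub, tensor_qsmul, id_tensorHom_id, ← tensorHom_id] at h2
    simp only [Category.id_comp]
    unfold quad
    rw [id_tensorHom_id]
    exact h2
  have h13 : π x1 * π x3 = π x3 * π x1 := by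
    rw [← map_mul, ← map_mul, hx1, hx3, quad_mul, quad_mul]
    simp only [Category.id_comp, Category.comp_id]
  have h12 : π x1 * π x2 = π x2 * π x1 := by
    rw [← map_mul, ← map_mul, hx1, hx2, quad_mul, quad_mul]
    simp only [Category.id_comp, Category.comp_id]
  have h14 : π x1 * π x4 = π x4 * π x1 := by
    rw [← map_mul, ← map_mul, hx1, hx4, quad_mul, quad_mul]
    simp only [Category.id_comp, Category.comp_id]
  have h32 : π x3 * π x2 = π x2 * π x3 := by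
    rw [← map_mul, ← map_mul, hx3, hx2, quad_mul, quad_mul]
    simp only [Category.id_comp, Category.comp_id]
  have h34 : π x3 * π x4 = π x4 * π x3 := by
    rw [← map_mul, ← map_mul, hx3, hx4, quad_mul, quad_mul]
    simp only [Category.id_comp, Category.comp_id]
  have hya1 : π y * π x1 = π x3 * π y := by
    rw [← map_mul, ← map_mul, hy, hx1, hx3]
    exact congrArg π (flip13_nat a (𝟙 M) (𝟙 N) (𝟙 N))
  have hya3 : π y * π x3 = π x1 * π y := by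
    rw [← map_mul, ← map_mul, hy, hx1, hx3]
    exact congrArg π (flip13_nat (𝟙 M) a (𝟙 N) (𝟙 N))
  have hyb2 : π y * π x2 = π x2 * π y := by
    rw [← map_mul, ← map_mul, hy, hx2]
    exact congrArg π (flip13_nat (𝟙 M) (𝟙 M) b (𝟙 N))
  have hyb4 : π y * π x4 = π x4 * π y := by
    rw [← map_mul, ← map_mul, hy, hx4]
    exact congrArg π (flip13_nat (𝟙 M) (𝟙 M) (𝟙 N) b)
  have hyy : π y * π y = 1 := by
    rw [← map_mul, hy]
    exact (congrArg π (flip13_sq M N)).trans π.map_one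
  have hpp : π p * π p = π p := by
    rw [← map_mul, hp]
    congr 1
    change (e ⊗ₘ (𝟙 (M ⊗ N) - e)) ≫ (e ⊗ₘ (𝟙 (M ⊗ N) - e)) = _
    rw [tensorHom_comp_tensorHom, he, he']
  -- `e = (1 + a b / D) / 2`
  have he0 : TNil (e - (1 / 2 : ℚ) • (𝟙 (M ⊗ N) + D⁻¹ • (a ⊗ₘ b))) := by
    have h1 := (h.hs.smul D⁻¹).smul (1 / 2 : ℚ)
    have h2 : (1 / 2 : ℚ) • D⁻¹ • (D • (e - (𝟙 (M ⊗ N) - e)) - (a ⊗ₘ b)) =
        e - (1 / 2 : ℚ) • (𝟙 (M ⊗ N) + D⁻¹ • (a ⊗ₘ b)) := by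
      rw [smul_sub D⁻¹, smul_smul D⁻¹ D, inv_mul_cancel₀ hD, one_smul]
      have h3 : e - (𝟙 (M ⊗ N) - e) = (2 : ℚ) • e - 𝟙 (M ⊗ N) := by
        rw [two_smul]
        abel
      rw [h3, smul_sub, smul_sub, smul_smul, smul_add]
      norm_num
      abel
    rwa [h2] at h1
  obtain ⟨z1, hz1⟩ : ∃ z : End ((M ⊗ N) ⊗ (M ⊗ N)), z = (e ⊗ₘ 𝟙 (M ⊗ N)) := ⟨_, rfl⟩
  obtain ⟨z2, hz2⟩ : ∃ z : End ((M ⊗ N) ⊗ (M ⊗ N)), z = (𝟙 (M ⊗ N) ⊗ₘ (𝟙 (M ⊗ N) - e)) :=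
    ⟨_, rfl⟩
  have hPe1 : π z1 = (1 / 2 : ℚ) • (1 + D⁻¹ • (π x1 * π x2)) := by
    have h1 := he0.tensor_left (𝟙 (M ⊗ N))
    have h2 : ((e - (1 / 2 : ℚ) • (𝟙 (M ⊗ N) + D⁻¹ • (a ⊗ₘ b))) ⊗ₘ 𝟙 (M ⊗ N)) =
        (z1 - (1 / 2 : ℚ) • (1 + D⁻¹ • (x1 * x2)) : End ((M ⊗ N) ⊗ (M ⊗ N))) := by
      rw [hz1, sub_tensor, qsmul_tensor, MonoidalPreadditive.add_tensor, qsmul_tensor,
        id_tensorHom_id, hx1, hx2, quad_mul]
      simp only [Category.id_comp, Category.comp_id]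
      unfold quad
      rw [id_tensorHom_id]
      rfl
    rw [h2] at h1
    have h3 := (hπ _).2 h1
    rw [map_sub, sub_eq_zero, hπc, map_add, π.map_one, hπc, map_mul] at h3
    exact h3
  have hPe2 : π z2 = (1 / 2 : ℚ) • (1 - D⁻¹ • (π x3 * π x4)) := by
    have h1 := (he0.neg).tensor_right (𝟙 (M ⊗ N))
    have h2 : (𝟙 (M ⊗ N) ⊗ₘ (-(e - (1 / 2 : ℚ) • (𝟙 (M ⊗ N) + D⁻¹ • (a ⊗ₘ b))))) =
        (z2 - (1 / 2 : ℚ) • (1 - D⁻¹ • (x3 * x4)) : End ((M ⊗ N) ⊗ (M ⊗ N))) := by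
      have h3 : -(e - (1 / 2 : ℚ) • (𝟙 (M ⊗ N) + D⁻¹ • (a ⊗ₘ b))) =
          (𝟙 (M ⊗ N) - e) - (1 / 2 : ℚ) • (𝟙 (M ⊗ N) - D⁻¹ • (a ⊗ₘ b)) := by
        have h4 : 𝟙 (M ⊗ N) = (1 / 2 : ℚ) • 𝟙 (M ⊗ N) + (1 / 2 : ℚ) • 𝟙 (M ⊗ N) := by
          rw [← add_smul]
          norm_num
        rw [smul_add, smul_sub]
        nth_rewrite 2 [h4]
        abel
      rw [hz2, h3, tensor_sub, tensor_qsmul, tensor_sub (𝟙 (M ⊗ N)) (𝟙 (M ⊗ N)) (D⁻¹ • (a ⊗ₘ b)),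
        tensor_qsmul, id_tensorHom_id, hx3, hx4, quad_mul]
      simp only [Category.id_comp, Category.comp_id]
      unfold quad
      rw [id_tensorHom_id]
      rfl
    rw [h2] at h1
    have h3 := (hπ _).2 h1
    rw [map_sub, sub_eq_zero, hπc, map_sub, π.map_one, hπc, map_mul] at h3
    exact h3
  have hPe : π p = (1 / 4 : ℚ) • ((1 + D⁻¹ • (π x1 * π x2)) * (1 - D⁻¹ • (π x3 * π x4))) := by
    have h1 : p = z1 * z2 := by
      rw [hp, hz1, hz2]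
      change _ = (𝟙 (M ⊗ N) ⊗ₘ (𝟙 (M ⊗ N) - e)) ≫ (e ⊗ₘ 𝟙 (M ⊗ N))
      rw [tensorHom_comp_tensorHom, Category.id_comp, Category.comp_id]
    rw [h1, map_mul, hPe1, hPe2, smul_mul_smul_comm]
    norm_num
  -- the endomorphism `v`
  obtain ⟨v, hv⟩ : ∃ v : End ((M ⊗ N) ⊗ (M ⊗ N)), v = p * ((1 / 2 : ℚ) • (x1 + x3)) * y :=
    ⟨_, rfl⟩
  have hcube : TNil (X := (M ⊗ N) ⊗ (M ⊗ N)) (Y := (M ⊗ N) ⊗ (M ⊗ N))
      (v * v * v - c • v : End ((M ⊗ N) ⊗ (M ⊗ N))) := by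
    have h1 := ring_cube h11 h33 h13 h12 h14 h32 h34 hya1 hya3 hyb2 hyb4 hyy hpp hPe
    have h2 : π v = π p * ((1 / 2 : ℚ) • (π x1 + π x3)) * π y := by
      rw [hv, map_mul, map_mul, hπc, map_add]
    rw [← h2, ← map_mul, ← map_mul, ← hπc, ← sub_eq_zero, ← map_sub, hπ] at h1
    exact h1
  obtain ⟨m, hm⟩ := kill_alt_sym hA hB
  have hkill : symSum ((M ⊗ N) ⊗ (M ⊗ N)) m ≫ tmap (X := (M ⊗ N) ⊗ (M ⊗ N))
      (Y := (M ⊗ N) ⊗ (M ⊗ N)) v m = 0 := by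
    have h1 : v = ((y : (M ⊗ N) ⊗ (M ⊗ N) ⟶ (M ⊗ N) ⊗ (M ⊗ N)) ≫
        (((1 / 2 : ℚ) • (x1 + x3) : End ((M ⊗ N) ⊗ (M ⊗ N))) :
          (M ⊗ N) ⊗ (M ⊗ N) ⟶ (M ⊗ N) ⊗ (M ⊗ N))) ≫ (e ⊗ₘ (𝟙 (M ⊗ N) - e)) := by
      rw [hv, hp]
      exact (Category.assoc _ _ _).symm
    rw [h1, tmap_comp, ← Category.assoc, ← symSum_nat, Category.assoc, hm, Limits.comp_zero]
  have htr0 := tr_eq_zero_of_sym ((M ⊗ N) ⊗ (M ⊗ N)) hsq hcube hkill
  -- the trace of `v`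
  obtain ⟨w, hw⟩ : ∃ w : End ((M ⊗ N) ⊗ (M ⊗ N)), w = (1 / 4 : ℚ) • ((1 + D⁻¹ • (x1 * x2)) *
    (1 - D⁻¹ • (x3 * x4))) * ((1 / 2 : ℚ) • (x1 + x3)) * y := ⟨_, rfl⟩
  have hvw : TNil (X := (M ⊗ N) ⊗ (M ⊗ N)) (Y := (M ⊗ N) ⊗ (M ⊗ N))
      (v - w : End ((M ⊗ N) ⊗ (M ⊗ N))) := by
    rw [← hπ, map_sub, hv, hw, sub_eq_zero]
    simp only [map_mul, hPe, hπc, map_add, map_sub, π.map_one]
  have h1 := tr_congr ((M ⊗ N) ⊗ (M ⊗ N)) hvw
  rw [htr0] at h1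
  have m12 : x1 * x2 = quad a b (𝟙 M) (𝟙 N) := by
    rw [hx1, hx2, quad_mul]
    simp only [Category.id_comp, Category.comp_id]
  have m34 : x3 * x4 = quad (𝟙 M) (𝟙 N) a b := by
    rw [hx3, hx4, quad_mul]
    simp only [Category.id_comp, Category.comp_id]
  obtain ⟨ψ, hψ⟩ : ∃ ψ : End ((M ⊗ N) ⊗ (M ⊗ N)) →+ ℚ, ∀ z, ψ z =
      tr ((M ⊗ N) ⊗ (M ⊗ N)) (z * y : End ((M ⊗ N) ⊗ (M ⊗ N))) := by
    refine ⟨AddMonoidHom.mk' (fun z => tr ((M ⊗ N) ⊗ (M ⊗ N))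
      (z * y : End ((M ⊗ N) ⊗ (M ⊗ N)))) ?_, fun z => rfl⟩
    intro z z'
    have h2 : (z + z') * y = z * y + z' * y := add_mul _ _ _
    rw [h2]
    exact tr_add _ _ _
  have hψs : ∀ (t : ℚ) (z : End ((M ⊗ N) ⊗ (M ⊗ N))), ψ (t • z) = t * ψ z := by
    intro t z
    rw [hψ, hψ]
    have h2 : (t • z) * y = t • (z * y) := smul_mul_assoc _ _ _
    rw [h2]
    exact tr_smul _ _ _
  have hψq : ∀ (f g : M ⟶ M) (h k : N ⟶ N), ψ (quad f h g k) =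
      tr N h * (tr M (g ≫ f) * tr N k) := by
    intro f g h k
    rw [hψ, ← tr_quad_flip, tr_comm, hy]
    rfl
  have hww : tr ((M ⊗ N) ⊗ (M ⊗ N)) w = ψ ((1 / 8 : ℚ) •
      ((1 + D⁻¹ • quad a b (𝟙 M) (𝟙 N)) * (1 - D⁻¹ • quad (𝟙 M) (𝟙 N) a b) * (x1 + x3))) := by
    rw [hψ]
    congr 1
    rw [hw, m12, m34]
    simp only [smul_mul_assoc, mul_smul_comm, smul_smul]
    norm_num
  have hexp : (1 + D⁻¹ • quad a b (𝟙 M) (𝟙 N)) * (1 - D⁻¹ • quad (𝟙 M) (𝟙 N) a b) * (x1 + x3) =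
      quad a (𝟙 N) (𝟙 M) (𝟙 N) + quad (𝟙 M) (𝟙 N) a (𝟙 N) +
      D⁻¹ • quad (a ≫ a) b (𝟙 M) (𝟙 N) + D⁻¹ • quad a b a (𝟙 N) -
      D⁻¹ • quad a (𝟙 N) a b - D⁻¹ • quad (𝟙 M) (𝟙 N) (a ≫ a) b -
      (D⁻¹ * D⁻¹) • quad (a ≫ a) b a b - (D⁻¹ * D⁻¹) • quad a b (a ≫ a) b := by
    rw [hx1, hx3]
    simp only [add_mul, mul_sub, mul_add, sub_mul, one_mul, mul_one, smul_mul_assoc,
      mul_smul_comm, smul_add, smul_sub, smul_smul, quad_mul, Category.comp_id,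
      Category.id_comp]
    abel
  rw [hww, hexp, hψs] at h1
  simp only [map_add, map_sub, hψs, hψq, Category.comp_id, Category.id_comp, Category.assoc,
    h.tra, h.trb] at h1
  have h3 : tr M (a ≫ a ≫ a) = c * D := by
    have h4 := tr_congr M (f := (a ≫ a) ≫ a) (g := (c • 𝟙 M) ≫ a) (by
      rw [← Preadditive.sub_comp]
      exact h.ha.comp_right a)
    rw [Category.assoc, Linear.smul_comp, Category.id_comp, tr_smul, h.tra] at h4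
    exact h4
  rw [h3] at h1
  have h5 : D * (tr N (𝟙 N) * tr N (𝟙 N) - c) = 0 := by
    field_simp at h1
    nlinarith [h1]
  have h6 := (mul_eq_zero.1 h5).resolve_left hD
  exact hsq ⟨tr N (𝟙 N), (sub_eq_zero.1 h6).symm⟩

end T9B

end Pool.Agent.MP_6e5bed_ag
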