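import Pool.Agent.Lib.MP_6e5bed_ag.T9B

set_option autoImplicit false

/-!
# The decomposition of `M`
-/

namespace Pool.Agent.MP_6e5bed_ag

open CategoryTheory MonoidalCategory Equiv

universe v u

/-- a computation in a ring -/
theorem ring_corner {R : Type*} [Ring R] [Algebra ℚ R] {α β E : R} (hα : α * α = 1)
    (hβ : β * β = 1) (hαβ : α * β = β * α) (hE : E = (1 / 2 : ℚ) • (1 + β * α)) :
    (((1 / 2 : ℚ) • (1 + β)) * ((1 / 2 : ℚ) • (1 + α))) * (1 - E) = 0 ∧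
    (((1 / 2 : ℚ) • (1 - β)) * ((1 / 2 : ℚ) • (1 - α))) * (1 - E) = 0 ∧
    (((1 / 2 : ℚ) • (1 - β)) * ((1 / 2 : ℚ) • (1 + α))) * E = 0 ∧
    (((1 / 2 : ℚ) • (1 + β)) * ((1 / 2 : ℚ) • (1 - α))) * E = 0 := by
  have h1 : (1 : R) - E = (1 / 2 : ℚ) • (1 - β * α) := by
    rw [hE, smul_add, smul_sub]
    have h2 : (1 : R) = (1 / 2 : ℚ) • 1 + (1 / 2 : ℚ) • 1 := by
      rw [← add_smul]
      norm_num
    nth_rewrite 1 [h2]
    abel
  have ha1 : (1 + α) * α = 1 + α := by rw [add_mul, one_mul, hα, add_comm]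
  have ha2 : (1 - α) * α = -(1 - α) := by rw [sub_mul, one_mul, hα]; abel
  have hb1 : (1 + β) * β = 1 + β := by rw [add_mul, one_mul, hβ, add_comm]
  have hb2 : (1 - β) * β = -(1 - β) := by rw [sub_mul, one_mul, hβ]; abel
  have c1 : (1 + α) * β = β * (1 + α) := by rw [add_mul, mul_add, one_mul, mul_one, hαβ]
  have c2 : (1 - α) * β = β * (1 - α) := by rw [sub_mul, mul_sub, one_mul, mul_one, hαβ]
  have k1 : (1 + β) * (1 + α) * (β * α) = (1 + β) * (1 + α) := by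
    rw [mul_assoc, ← mul_assoc (1 + α), c1, mul_assoc β, ha1, ← mul_assoc, hb1]
  have k2 : (1 - β) * (1 - α) * (β * α) = (1 - β) * (1 - α) := by
    rw [mul_assoc, ← mul_assoc (1 - α), c2, mul_assoc β, ha2, ← mul_assoc, hb2]
    simp only [neg_mul, mul_neg, neg_neg]
  have k3 : (1 - β) * (1 + α) * (β * α) = -((1 - β) * (1 + α)) := by
    rw [mul_assoc, ← mul_assoc (1 + α), c1, mul_assoc β, ha1, ← mul_assoc, hb2]
    simp only [neg_mul]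
  have k4 : (1 + β) * (1 - α) * (β * α) = -((1 + β) * (1 - α)) := by
    rw [mul_assoc, ← mul_assoc (1 - α), c2, mul_assoc β, ha2, ← mul_assoc, hb1]
    simp only [mul_neg]
  refine ⟨?_, ?_, ?_, ?_⟩
  · rw [h1, smul_mul_smul_comm, smul_mul_smul_comm, mul_sub, mul_one, k1, sub_self, smul_zero]
  · rw [h1, smul_mul_smul_comm, smul_mul_smul_comm, mul_sub, mul_one, k2, sub_self, smul_zero]
  · rw [hE, smul_mul_smul_comm, smul_mul_smul_comm, mul_add, mul_one, k3, add_neg_cancel,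
      smul_zero]
  · rw [hE, smul_mul_smul_comm, smul_mul_smul_comm, mul_add, mul_one, k4, add_neg_cancel,
      smul_zero]

section T9C

variable {C : Type u} [Category.{v} C] [MonoidalCategory C] [SymmetricCategory C]
  [Preadditive C] [MonoidalPreadditive C] [Linear ℚ C]

omit [Linear ℚ C] in
/-- an idempotent congruent to a product with a killed one is killed -/
theorem kill_corner {X X' : C} [ExactPairing X' X] {f e : X ⟶ X} (hf : f ≫ f = f)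
    (h : TNil (f - e ≫ f)) {n : ℕ} {A : tpow X n ⟶ tpow X n}
    (hA : ∀ g : X ⟶ X, tmap g n ≫ A = A ≫ tmap g n) (he : A ≫ tmap e n = 0) :
    A ≫ tmap f n = 0 := by
  refine kill_of_congr (X' := X') (e := e ≫ f) hf h hA ?_
  rw [tmap_comp, ← Category.assoc, he, Limits.zero_comp]

variable [RatUnit C]

attribute [local instance] hasLeftDualTensor

theorem Rank1.exists_idem {M N : C} [HasLeftDual M] [HasLeftDual N] {e : M ⊗ N ⟶ M ⊗ N}
    {a : M ⟶ M} {b : N ⟶ N} {D c : ℚ} (h : Rank1 M N e a b D c) {r s : ℕ} (he : e ≫ e = e)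
    (hA : altSum (M ⊗ N) r ≫ tmap e r = 0)
    (hB : symSum (M ⊗ N) s ≫ tmap (𝟙 (M ⊗ N) - e) s = 0) :
    ∃ (g : M ⟶ M) (n m : ℕ), g ≫ g = g ∧ altSum M n ≫ tmap g n = 0 ∧
      symSum M m ≫ tmap (𝟙 M - g) m = 0 := by
  obtain ⟨t, ht⟩ := h.isSquare he hA hB
  obtain ⟨ρ, hρ, hρ0⟩ : ∃ ρ : ℚ, c = ρ * ρ ∧ 0 < ρ := by
    have ht0 : t ≠ 0 := by
      rintro rfl
      exact h.hc (by rw [ht, mul_zero])
    rcases lt_or_gt_of_ne ht0 with h1 | h1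
    · exact ⟨-t, by rw [ht]; ring, by linarith⟩
    · exact ⟨t, ht, h1⟩
  have hD := h.hD
  have hD0 : D ≠ 0 := hD.ne'
  have hρ1 : ρ ≠ 0 := hρ0.ne'
  -- the idempotent of `M`
  obtain ⟨g0, hg0⟩ : ∃ g0 : M ⟶ M, g0 = (1 / 2 : ℚ) • (𝟙 M + ρ⁻¹ • a) := ⟨_, rfl⟩
  obtain ⟨f0, hf0⟩ : ∃ f0 : N ⟶ N, f0 = (1 / 2 : ℚ) • (𝟙 N + (ρ / D) • b) := ⟨_, rfl⟩
  have hga : TNil (g0 ≫ g0 - g0) := by
    have h1 := h.ha.smul ((1 / 4 : ℚ) * (ρ⁻¹ * ρ⁻¹))
    have h2 : ((1 / 4 : ℚ) * (ρ⁻¹ * ρ⁻¹)) • (a ≫ a - c • 𝟙 M) = g0 ≫ g0 - g0 := by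
      rw [hg0, hρ]
      simp only [Linear.smul_comp, Linear.comp_smul, Preadditive.add_comp, Preadditive.comp_add,
        Category.id_comp, Category.comp_id]
      match_scalars <;> field_simp <;> ring
    rwa [h2] at h1
  have hfb : TNil (f0 ≫ f0 - f0) := by
    have h1 := h.hb.smul ((1 / 4 : ℚ) * ((ρ / D) * (ρ / D)))
    have h2 : ((1 / 4 : ℚ) * ((ρ / D) * (ρ / D))) • (b ≫ b - (D ^ 2 / c) • 𝟙 N) =
        f0 ≫ f0 - f0 := by
      rw [hf0, hρ]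
      simp only [Linear.smul_comp, Linear.comp_smul, Preadditive.add_comp, Preadditive.comp_add,
        Category.id_comp, Category.comp_id]
      match_scalars <;> field_simp <;> ring
    rwa [h2] at h1
  obtain ⟨g, hg, hgg⟩ := exists_idempotent (M' := ᘁM) hga
  obtain ⟨f, hf, hff⟩ := exists_idempotent (M' := ᘁN) hfb
  have hcomp : ∀ {Z : C} {z : Z ⟶ Z}, z ≫ z = z → (𝟙 Z - z) ≫ (𝟙 Z - z) = 𝟙 Z - z := by
    intro Z z hz
    simp only [Preadditive.sub_comp, Preadditive.comp_sub, Category.id_comp, Category.comp_id, hz]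
    abel
  have he' := hcomp he
  have hg' := hcomp hg
  have hf' := hcomp hf
  -- the four corners
  obtain ⟨R, _, _, π, hπ, hπc⟩ := exists_quot (M ⊗ N)
  obtain ⟨α, hα⟩ : ∃ α : End (M ⊗ N), α = (ρ⁻¹ • a) ▷ N := ⟨_, rfl⟩
  obtain ⟨β, hβ⟩ : ∃ β : End (M ⊗ N), β = M ◁ ((ρ / D) • b) := ⟨_, rfl⟩
  obtain ⟨E, hE⟩ : ∃ E : End (M ⊗ N), E = e := ⟨_, rfl⟩
  have hαα : π α * π α = 1 := by
    rw [← map_mul, ← π.map_one, ← sub_eq_zero, ← map_sub, hπ]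
    have h1 := (h.ha.smul (ρ⁻¹ * ρ⁻¹)).whiskerRight N
    have h2 : ((ρ⁻¹ * ρ⁻¹) • (a ≫ a - c • 𝟙 M)) ▷ N = (α * α - 1 : End (M ⊗ N)) := by
      change _ = α ≫ α - 𝟙 (M ⊗ N)
      rw [hα, ← comp_whiskerRight, ← tensorHom_id, ← tensorHom_id, ← id_tensorHom_id,
        ← sub_tensor, hρ]
      congr 1
      simp only [Linear.smul_comp, Linear.comp_smul]
      match_scalars <;> field_simp
    rwa [h2] at h1
  have hββ : π β * π β = 1 := by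
    rw [← map_mul, ← π.map_one, ← sub_eq_zero, ← map_sub, hπ]
    have h1 := (h.hb.smul ((ρ / D) * (ρ / D))).whiskerLeft M
    have h2 : M ◁ (((ρ / D) * (ρ / D)) • (b ≫ b - (D ^ 2 / c) • 𝟙 N)) =
        (β * β - 1 : End (M ⊗ N)) := by
      change _ = β ≫ β - 𝟙 (M ⊗ N)
      rw [hβ, ← MonoidalCategory.whiskerLeft_comp, ← id_tensorHom, ← id_tensorHom,
        ← id_tensorHom_id, ← tensor_sub, hρ]
      congr 1
      simp only [Linear.smul_comp, Linear.comp_smul]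
      match_scalars <;> field_simp
    rwa [h2] at h1
  have hαβ : π α * π β = π β * π α := by
    rw [← map_mul, ← map_mul, hα, hβ]
    exact congrArg π (whisker_exchange _ _)
  have hβα : β * α = (1 / D : ℚ) • (a ⊗ₘ b) := by
    rw [hα, hβ]
    change (ρ⁻¹ • a) ▷ N ≫ M ◁ ((ρ / D) • b) = _
    rw [← MonoidalCategory.tensorHom_def, qsmul_tensor, tensor_qsmul, smul_smul]
    congr 1
    field_simp
  have hEE : π E = (1 / 2 : ℚ) • (1 + π β * π α) := by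
    have h1 := (h.hs.smul D⁻¹).smul (1 / 2 : ℚ)
    have h2 : (1 / 2 : ℚ) • D⁻¹ • (D • (e - (𝟙 (M ⊗ N) - e)) - (a ⊗ₘ b)) =
        (E - (1 / 2 : ℚ) • (1 + β * α) : End (M ⊗ N)) := by
      rw [hβα, hE]
      change _ = e - (1 / 2 : ℚ) • (𝟙 (M ⊗ N) + (1 / D : ℚ) • (a ⊗ₘ b))
      match_scalars <;> field_simp <;> ring
    rw [h2] at h1
    have h3 := (hπ _).2 h1
    rw [map_sub, sub_eq_zero, hπc, map_add, π.map_one, map_mul] at h3
    exact h3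
  obtain ⟨γ, hγ⟩ : ∃ γ : End (M ⊗ N), γ = g ▷ N := ⟨_, rfl⟩
  obtain ⟨φ, hφ⟩ : ∃ φ : End (M ⊗ N), φ = M ◁ f := ⟨_, rfl⟩
  have hγα : π γ = (1 / 2 : ℚ) • (1 + π α) := by
    have h1 := hgg.whiskerRight N
    have h2 : (g - g0) ▷ N = (γ - (1 / 2 : ℚ) • (1 + α) : End (M ⊗ N)) := by
      rw [hγ, hα, hg0]
      change _ = g ▷ N - (1 / 2 : ℚ) • (𝟙 (M ⊗ N) + (ρ⁻¹ • a) ▷ N)
      rw [← id_whiskerRight, ← MonoidalPreadditive.add_whiskerRight, ← qsmul_whiskerRight,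
        ← tensorHom_id, ← tensorHom_id, ← tensorHom_id, ← sub_tensor]
    rw [h2] at h1
    have h3 := (hπ _).2 h1
    rw [map_sub, sub_eq_zero, hπc, map_add, π.map_one] at h3
    exact h3
  have hφβ : π φ = (1 / 2 : ℚ) • (1 + π β) := by
    have h1 := hff.whiskerLeft M
    have h2 : M ◁ (f - f0) = (φ - (1 / 2 : ℚ) • (1 + β) : End (M ⊗ N)) := by
      rw [hφ, hβ, hf0]
      change _ = M ◁ f - (1 / 2 : ℚ) • (𝟙 (M ⊗ N) + M ◁ ((ρ / D) • b))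
      rw [← MonoidalCategory.whiskerLeft_id, ← MonoidalPreadditive.whiskerLeft_add,
        ← whiskerLeft_qsmul, ← id_tensorHom, ← id_tensorHom, ← id_tensorHom, ← tensor_sub]
    rw [h2] at h1
    have h3 := (hπ _).2 h1
    rw [map_sub, sub_eq_zero, hπc, map_add, π.map_one] at h3
    exact h3
  have hhalf : (1 : R) = (1 / 2 : ℚ) • 1 + (1 / 2 : ℚ) • 1 := by
    rw [← add_smul]
    norm_num
  have hγ' : π (1 - γ) = (1 / 2 : ℚ) • (1 - π α) := by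
    rw [map_sub, π.map_one, hγα, smul_add, smul_sub]
    nth_rewrite 1 [hhalf]
    abel
  have hφ' : π (1 - φ) = (1 / 2 : ℚ) • (1 - π β) := by
    rw [map_sub, π.map_one, hφβ, smul_add, smul_sub]
    nth_rewrite 1 [hhalf]
    abel
  obtain ⟨r1, r2, r3, r4⟩ := ring_corner hαα hββ hαβ hEE
  rw [← hφβ, ← hγα, ← π.map_one, ← map_sub, ← map_mul, ← map_mul, hπ] at r1
  rw [← hφ', ← hγ', ← π.map_one, ← map_sub, ← map_mul, ← map_mul, hπ] at r2
  rw [← hφ', ← hγα, ← map_mul, ← map_mul, hπ] at r3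
  rw [← hφβ, ← hγ', ← map_mul, ← map_mul, hπ] at r4
  have q1 : φ * γ = (g ⊗ₘ f) := by
    rw [hφ, hγ, MonoidalCategory.tensorHom_def]
    rfl
  have hγ1 : 1 - γ = (𝟙 M - g) ▷ N := by
    rw [hγ]
    change 𝟙 (M ⊗ N) - g ▷ N = _
    rw [← tensorHom_id, ← tensorHom_id, ← id_tensorHom_id, ← sub_tensor]
  have hφ1 : 1 - φ = M ◁ (𝟙 N - f) := by
    rw [hφ]
    change 𝟙 (M ⊗ N) - M ◁ f = _
    rw [← id_tensorHom, ← id_tensorHom, ← id_tensorHom_id, ← tensor_sub]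
  have q2 : (1 - φ) * (1 - γ) = ((𝟙 M - g) ⊗ₘ (𝟙 N - f)) := by
    rw [hγ1, hφ1, MonoidalCategory.tensorHom_def]
    rfl
  have q3 : (1 - φ) * γ = (g ⊗ₘ (𝟙 N - f)) := by
    rw [hγ, hφ1, MonoidalCategory.tensorHom_def]
    rfl
  have q4 : φ * (1 - γ) = ((𝟙 M - g) ⊗ₘ f) := by
    rw [hγ1, hφ, MonoidalCategory.tensorHom_def]
    rfl
  have s1 : TNil ((g ⊗ₘ f) - e ≫ (g ⊗ₘ f)) := by
    rw [← q1, ← hE]
    have h1 : φ * γ * (1 - E) = φ * γ - φ * γ * E := by rw [mul_sub, mul_one]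
    rw [h1] at r1
    exact r1
  have s2 : TNil (((𝟙 M - g) ⊗ₘ (𝟙 N - f)) - e ≫ ((𝟙 M - g) ⊗ₘ (𝟙 N - f))) := by
    rw [← q2, ← hE]
    have h1 : (1 - φ) * (1 - γ) * (1 - E) = (1 - φ) * (1 - γ) - (1 - φ) * (1 - γ) * E := by
      rw [mul_sub ((1 - φ) * (1 - γ)), mul_one]
    rw [h1] at r2
    exact r2
  have s3 : TNil ((g ⊗ₘ (𝟙 N - f)) - (𝟙 (M ⊗ N) - e) ≫ (g ⊗ₘ (𝟙 N - f))) := by
    rw [Preadditive.sub_comp, Category.id_comp, sub_sub_cancel, ← q3, ← hE]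
    exact r3
  have s4 : TNil (((𝟙 M - g) ⊗ₘ f) - (𝟙 (M ⊗ N) - e) ≫ ((𝟙 M - g) ⊗ₘ f)) := by
    rw [Preadditive.sub_comp, Category.id_comp, sub_sub_cancel, ← q4, ← hE]
    exact r4
  have k1 : altSum (M ⊗ N) r ≫ tmap (g ⊗ₘ f) r = 0 :=
    kill_corner (X' := ᘁ(M ⊗ N)) (by rw [tensorHom_comp_tensorHom, hg, hf]) s1
      (fun z => altSum_nat z r) hA
  have k2 : altSum (M ⊗ N) r ≫ tmap ((𝟙 M - g) ⊗ₘ (𝟙 N - f)) r = 0 :=
    kill_corner (X' := ᘁ(M ⊗ N)) (by rw [tensorHom_comp_tensorHom, hg', hf']) s2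
      (fun z => altSum_nat z r) hA
  have k3 : symSum (M ⊗ N) s ≫ tmap (g ⊗ₘ (𝟙 N - f)) s = 0 :=
    kill_corner (X' := ᘁ(M ⊗ N)) (by rw [tensorHom_comp_tensorHom, hg, hf']) s3
      (fun z => symSum_nat z s) hB
  have k4 : symSum (M ⊗ N) s ≫ tmap ((𝟙 M - g) ⊗ₘ f) s = 0 :=
    kill_corner (X' := ᘁ(M ⊗ N)) (by rw [tensorHom_comp_tensorHom, hg', hf]) s4
      (fun z => symSum_nat z s) hB
  -- the traces
  obtain ⟨y, hy⟩ : ∃ y, y = tr N f := ⟨_, rfl⟩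
  have hy1 : y = (1 / 2 : ℚ) * (tr N (𝟙 N) + ρ) := by
    rw [hy, tr_congr N hff, hf0, tr_smul, tr_add, tr_smul, h.trb]
    field_simp
  have hy2 : tr N (𝟙 N - f) = y - ρ := by
    rw [tr_sub, ← hy, hy1]
    ring
  have hprod : ∀ (t : ℕ → ℚ) (n : ℕ), (∀ k, t k ≠ 0) → ∏ k ∈ Finset.range n, t k ≠ 0 :=
    fun t n ht => Finset.prod_ne_zero_iff.2 fun k _ => ht k
  rcases lt_or_ge 0 y with hpos | hneg
  · refine ⟨g, r, s, hg, ?_, ?_⟩
    · refine @eq_zero_of_tensor C _ _ _ _ _ _ _ _ _ _ (tpowDual N r) _ _ (split_alt k1).1 ?_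
      rw [tr_pow_sym N hf, ← hy]
      exact hprod (fun k => y + k) r fun k => by positivity
    · refine @eq_zero_of_tensor C _ _ _ _ _ _ _ _ _ _ (tpowDual N s) _ _ (split_sym k4).2 ?_
      rw [tr_pow_sym N hf, ← hy]
      exact hprod (fun k => y + k) s fun k => by positivity
  · have hneg' : ∀ k : ℕ, y - ρ - k ≠ 0 := by
      intro k
      have h1 : (0 : ℚ) ≤ k := Nat.cast_nonneg k
      have h2 : y - ρ - k < 0 := by linarith
      exact h2.ne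
    refine ⟨g, s, r, hg, ?_, ?_⟩
    · refine @eq_zero_of_tensor C _ _ _ _ _ _ _ _ _ _ (tpowDual N s) _ _ (split_sym k3).1 ?_
      rw [tr_pow_alt N hf', hy2]
      exact hprod (fun k => y - ρ - k) s hneg'
    · refine @eq_zero_of_tensor C _ _ _ _ _ _ _ _ _ _ (tpowDual N r) _ _ (split_alt k2).2 ?_
      rw [tr_pow_alt N hf', hy2]
      exact hprod (fun k => y - ρ - k) r hneg'

end T9C

end Pool.Agent.MP_6e5bed_ag
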