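import Pool.Agent.Lib.MP_6e5bed_ag.Core

set_option autoImplicit false

/-!
# Partial traces: definitions
-/

namespace Pool.Agent.MP_6e5bed_ag

open CategoryTheory MonoidalCategory Equiv

universe v u

section TDefs

variable {C : Type u} [Category.{v} C] [MonoidalCategory C] [SymmetricCategory C]

attribute [local instance] hasLeftDualTensor

/-- The partial trace over the first factor. -/
def ptr (X : C) [HasLeftDual X] {S T : C} (f : X ⊗ S ⟶ X ⊗ T) : S ⟶ T :=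
  (λ_ S).inv ≫ (η_ (ᘁX) X ▷ S) ≫ (α_ (ᘁX) X S).hom ≫ ((ᘁX) ◁ f) ≫ (α_ (ᘁX) X T).inv ≫
    ((β_ (ᘁX) X).hom ▷ T) ≫ (ε_ (ᘁX) X ▷ T) ≫ (λ_ T).hom

/-- The exchange of the first and of the third factor of `(M ⊗ N) ⊗ (M ⊗ N)`. -/
def flip13 (M N : C) : (M ⊗ N) ⊗ (M ⊗ N) ⟶ (M ⊗ N) ⊗ (M ⊗ N) :=
  tensorμ M N M N ≫ ((β_ M M).hom ▷ (N ⊗ N)) ≫ tensorδ M N M N

/-- The left dual of a tensor power. -/
@[implicit_reducible]
def tpowDual (X : C) [HasLeftDual X] : (n : ℕ) → HasLeftDual (tpow X n)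
  | 0 => hasLeftDualUnit
  | n + 1 => @hasLeftDualTensor C _ _ X (tpow X n) _ (tpowDual X n)

variable [Preadditive C] [Linear ℚ C]

/-- `End 𝟙 = ℚ` -/
class RatUnit (C : Type u) [Category.{v} C] [MonoidalCategory C] [Preadditive C]
    [Linear ℚ C] : Prop where
  ex : ∀ a : 𝟙_ C ⟶ 𝟙_ C, ∃ c : ℚ, a = c • 𝟙 (𝟙_ C)
  ne : 𝟙 (𝟙_ C) ≠ 0

/-- The number given by an endomorphism of the unit. -/
noncomputable def sc [RatUnit C] (a : 𝟙_ C ⟶ 𝟙_ C) : ℚ := (RatUnit.ex a).choose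

/-- The trace of an endomorphism. -/
noncomputable def tr (X : C) [HasLeftDual X] [RatUnit C] (f : X ⟶ X) : ℚ :=
  sc (ptr X (f ▷ 𝟙_ C))

end TDefs

end Pool.Agent.MP_6e5bed_ag
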